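import Pool.Agent.Y957.MC.Fin4

set_option autoImplicit false

/-!
Suspension flows of invertible maps: the flow `sus T j` moves the `j`-th coordinate of the height vector.
-/

namespace Pool.Agent.Q182.BB

open MeasureTheory Filter Finset
open Pool.Agent.Y957.MC

universe u

/-- normalised Lebesgue measure on the unit interval -/
noncomputable def lam : Measure ℝ := volume.restrict (Set.Ico (0 : ℝ) 1)

instance : IsProbabilityMeasure lam := ⟨by simp [lam]⟩

/-- the map `s ↦ ⌊s⌋ + {s + t}` -/
noncomputable def rot (t s : ℝ) : ℝ := ⌊s⌋ + Int.fract (s + t)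

theorem fract_mp (c : ℝ) : MeasurePreserving (fun x : ℝ => Int.fract (x + c)) lam lam := by
  unfold lam
  obtain ⟨a, ha⟩ : ∃ a : ℝ, a = Int.fract c := ⟨_, rfl⟩
  have ha0 : 0 ≤ a := by rw [ha]; exact Int.fract_nonneg c
  have ha1 : a < 1 := by rw [ha]; exact Int.fract_lt_one c
  have hf : ∀ x : ℝ, Int.fract (x + c) = Int.fract (x + a) := by
    intro x
    have h1 : x + c = (x + a) + (⌊c⌋ : ℤ) := by
      rw [ha]
      have := Int.fract_add_floor c
      linarith
    rw [h1, Int.fract_add_intCast]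
  have hmeas : Measurable (fun x : ℝ => Int.fract (x + c)) :=
    measurable_fract.comp (measurable_id.add_const c)
  refine ⟨hmeas, ?_⟩
  ext S hS
  rw [Measure.map_apply hmeas hS, Measure.restrict_apply (hmeas hS), Measure.restrict_apply hS]
  have h1 : (fun x : ℝ => Int.fract (x + c)) ⁻¹' S ∩ Set.Ico (0:ℝ) 1 =
      (fun x : ℝ => x + a) ⁻¹' (S ∩ Set.Ico a 1) ∪ (fun x : ℝ => x + (a - 1)) ⁻¹' (S ∩ Set.Ico 0 a) := by
    ext x
    simp only [Set.mem_inter_iff, Set.mem_preimage, Set.mem_union, Set.mem_Ico, hf]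
    constructor
    · rintro ⟨hxS, hx0, hx1⟩
      by_cases h : x + a < 1
      · left
        rw [Int.fract_eq_self.2 ⟨by linarith, h⟩] at hxS
        exact ⟨hxS, by linarith, h⟩
      · right
        have h2 : Int.fract (x + a) = x + (a - 1) := by
          rw [Int.fract_eq_iff]
          exact ⟨by linarith, by linarith, 1, by push_cast; ring⟩
        rw [h2] at hxS
        exact ⟨hxS, by linarith, by linarith⟩
    · rintro (⟨hxS, hx0, hx1⟩ | ⟨hxS, hx0, hx1⟩)
      · rw [Int.fract_eq_self.2 ⟨by linarith, hx1⟩]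
        exact ⟨hxS, by linarith, by linarith⟩
      · have h2 : Int.fract (x + a) = x + (a - 1) := by
          rw [Int.fract_eq_iff]
          exact ⟨by linarith, by linarith, 1, by push_cast; ring⟩
        rw [h2]
        exact ⟨hxS, by linarith, by linarith⟩
  have hdis : Disjoint ((fun x : ℝ => x + a) ⁻¹' (S ∩ Set.Ico a 1))
      ((fun x : ℝ => x + (a - 1)) ⁻¹' (S ∩ Set.Ico 0 a)) := by
    rw [Set.disjoint_left]
    intro x hx hx'
    simp only [Set.mem_inter_iff, Set.mem_preimage, Set.mem_Ico] at hx hx'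
    linarith [hx.2.1, hx.2.2, hx'.2.1, hx'.2.2]
  have hm2 : MeasurableSet ((fun x : ℝ => x + (a - 1)) ⁻¹' (S ∩ Set.Ico 0 a)) :=
    (measurable_id.add_const (a - 1)) (hS.inter measurableSet_Ico)
  rw [h1, measure_union hdis hm2, measure_preimage_add_right, measure_preimage_add_right]
  have h3 : S ∩ Set.Ico (0:ℝ) 1 = (S ∩ Set.Ico a 1) ∪ (S ∩ Set.Ico 0 a) := by
    rw [← Set.inter_union_distrib_left, Set.union_comm, Set.Ico_union_Ico_eq_Ico ha0 ha1.le]
  have hdis2 : Disjoint (S ∩ Set.Ico a 1) (S ∩ Set.Ico 0 a) := by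
    rw [Set.disjoint_left]
    intro x hx hx'
    exact absurd hx'.2.2 (not_lt.2 hx.2.1)
  rw [h3, measure_union hdis2 (hS.inter measurableSet_Ico)]

theorem ae_lam : ∀ᵐ s ∂lam, s ∈ Set.Ico (0 : ℝ) 1 := ae_restrict_mem measurableSet_Ico

theorem rot_meas (t : ℝ) : Measurable (rot t) := by
  unfold rot
  have h1 : Measurable fun s : ℝ => ((⌊s⌋ : ℤ) : ℝ) :=
    (measurable_from_top (f := fun z : ℤ => (z : ℝ))).comp Int.measurable_floor
  exact h1.add (measurable_fract.comp (measurable_id.add_const t))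

theorem rot_mp (t : ℝ) : MeasurePreserving (rot t) lam lam := by
  have h1 := fract_mp t
  refine ⟨rot_meas t, (Measure.map_congr ?_).trans h1.map_eq⟩
  filter_upwards [ae_lam] with s hs
  unfold rot
  have : ⌊s⌋ = 0 := Int.floor_eq_zero_iff.2 hs
  simp [this]

/-- the product measure on the height vectors -/
noncomputable def rho (n : ℕ) : Measure (Fin n → ℝ) := Measure.pi fun _ => lam

instance (n : ℕ) : IsProbabilityMeasure (rho n) := by unfold rho; infer_instance

variable {X : Type u} [MeasurableSpace X] {n : ℕ}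

/-- the suspension flow over `T` in the coordinate `j` -/
noncomputable def sus (T : Equiv.Perm X) (j : Fin n) (t : ℝ) (p : (Fin n → ℝ) × X) : (Fin n → ℝ) × X :=
  (Function.update p.1 j (rot t (p.1 j)), (T ^ (⌊p.1 j + t⌋ - ⌊p.1 j⌋)) p.2)

theorem pow_meas {T : Equiv.Perm X} (hT : Measurable T) (hT' : Measurable ((T⁻¹ : Equiv.Perm X) : X → X)) (z : ℤ) :
    Measurable ((T ^ z : Equiv.Perm X) : X → X) := by
  have hp : ∀ {S : Equiv.Perm X}, Measurable S → ∀ k : ℕ, Measurable ((S ^ k : Equiv.Perm X) : X → X) := by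
    intro S hS k
    induction k with
    | zero => simpa using measurable_id
    | succ k ih =>
      rw [pow_succ]
      exact ih.comp hS
  cases z with
  | ofNat k => simpa using hp hT k
  | negSucc k =>
    rw [zpow_negSucc, ← inv_pow]
    exact hp hT' (k + 1)

theorem pow_mp {T : Equiv.Perm X} {μ : Measure X} (hT : MeasurePreserving T μ μ)
    (hT' : Measurable ((T⁻¹ : Equiv.Perm X) : X → X)) (z : ℤ) :
    MeasurePreserving ((T ^ z : Equiv.Perm X) : X → X) μ μ := by
  have hinv : MeasurePreserving ((T⁻¹ : Equiv.Perm X) : X → X) μ μ := by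
    let e : X ≃ᵐ X := ⟨T, hT.measurable, hT'⟩
    have : MeasurePreserving e μ μ := hT
    exact this.symm e
  have hp : ∀ {S : Equiv.Perm X}, MeasurePreserving S μ μ → ∀ k : ℕ,
      MeasurePreserving ((S ^ k : Equiv.Perm X) : X → X) μ μ := by
    intro S hS k
    induction k with
    | zero => simpa using MeasurePreserving.id μ
    | succ k ih =>
      rw [pow_succ]
      exact ih.comp hS
  cases z with
  | ofNat k => simpa using hp hT k
  | negSucc k =>
    rw [zpow_negSucc, ← inv_pow]
    exact hp hinv (k + 1)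

theorem sus_zero (T : Equiv.Perm X) (j : Fin n) (p : (Fin n → ℝ) × X) : sus T j 0 p = p := by
  unfold sus rot
  refine Prod.ext ?_ ?_
  · simp only [add_zero]
    rw [Int.floor_add_fract, Function.update_eq_self]
  · simp

theorem floor_rot (t s : ℝ) : ⌊rot t s⌋ = ⌊s⌋ := by
  unfold rot
  rw [Int.floor_intCast_add, Int.floor_fract, add_zero]

theorem rot_eq (t s : ℝ) : rot t s = s + t - ((⌊s + t⌋ - ⌊s⌋ : ℤ) : ℝ) := by
  unfold rot
  rw [Int.fract]
  push_cast
  ring

theorem sus_add (T : Equiv.Perm X) (j : Fin n) (s t : ℝ) (p : (Fin n → ℝ) × X) :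
    sus T j (s + t) p = sus T j s (sus T j t p) := by
  have hf : ⌊p.1 j + (s + t)⌋ = ⌊rot t (p.1 j) + s⌋ + (⌊p.1 j + t⌋ - ⌊p.1 j⌋) := by
    rw [rot_eq]
    have : p.1 j + t - ((⌊p.1 j + t⌋ - ⌊p.1 j⌋ : ℤ) : ℝ) + s =
        (p.1 j + (s + t)) - ((⌊p.1 j + t⌋ - ⌊p.1 j⌋ : ℤ) : ℝ) := by ring
    rw [this, Int.floor_sub_intCast]
    ring
  unfold sus
  refine Prod.ext ?_ ?_
  · simp only [Function.update_self, Function.update_idem]
    congr 1
    rw [rot_eq (s + t), rot_eq s, floor_rot, hf, rot_eq t]
    push_cast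
    ring
  · simp only [Function.update_self]
    rw [floor_rot, hf]
    have : ⌊rot t (p.1 j) + s⌋ + (⌊p.1 j + t⌋ - ⌊p.1 j⌋) - ⌊p.1 j⌋ =
      (⌊rot t (p.1 j) + s⌋ - ⌊p.1 j⌋) + (⌊p.1 j + t⌋ - ⌊p.1 j⌋) := by ring
    rw [this, zpow_add, Equiv.Perm.mul_apply]

theorem sus_meas {T : Equiv.Perm X} (hT : Measurable T) (hT' : Measurable ((T⁻¹ : Equiv.Perm X) : X → X)) (j : Fin n) :
    Measurable fun q : ℝ × ((Fin n → ℝ) × X) => sus T j q.1 q.2 := by
  have hj : Measurable fun q : ℝ × ((Fin n → ℝ) × X) => q.2.1 j :=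
    (measurable_pi_apply j).comp (measurable_fst.comp measurable_snd)
  have hfl : Measurable fun q : ℝ × ((Fin n → ℝ) × X) => ⌊q.2.1 j + q.1⌋ - ⌊q.2.1 j⌋ :=
    (Int.measurable_floor.comp (hj.add measurable_fst)).sub (Int.measurable_floor.comp hj)
  refine Measurable.prodMk ?_ ?_
  · have hr : Measurable fun q : ℝ × ((Fin n → ℝ) × X) => rot q.1 (q.2.1 j) := by
      have : (fun q : ℝ × ((Fin n → ℝ) × X) => rot q.1 (q.2.1 j)) =
          fun q => q.2.1 j + q.1 - ((⌊q.2.1 j + q.1⌋ - ⌊q.2.1 j⌋ : ℤ) : ℝ) := by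
        funext q; exact rot_eq _ _
      rw [this]
      exact (hj.add measurable_fst).sub ((measurable_from_top (f := fun z : ℤ => (z : ℝ))).comp hfl)
    rw [measurable_pi_iff]
    intro i
    by_cases hi : i = j
    · subst hi
      simpa using hr
    · have : (fun q : ℝ × ((Fin n → ℝ) × X) => Function.update q.2.1 j (rot q.1 (q.2.1 j)) i) =
          fun q => q.2.1 i := by
        funext q
        rw [Function.update_of_ne hi]
      rw [this]
      exact (measurable_pi_apply i).comp (measurable_fst.comp measurable_snd)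
  · have h1 : Measurable fun r : X × ℤ => (T ^ r.2) r.1 :=
      measurable_from_prod_countable_left fun z => pow_meas hT hT' z
    exact h1.comp ((measurable_snd.comp measurable_snd).prodMk hfl)

theorem sus_mp {T : Equiv.Perm X} {μ : Measure X} [IsProbabilityMeasure μ] (hT : MeasurePreserving T μ μ)
    (hT' : Measurable ((T⁻¹ : Equiv.Perm X) : X → X)) (j : Fin n) (t : ℝ) :
    MeasurePreserving (sus T j t) ((rho n).prod μ) ((rho n).prod μ) := by
  have hbase : MeasurePreserving (fun s : Fin n → ℝ => Function.update s j (rot t (s j))) (rho n) (rho n) := by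
    have h1 : MeasurePreserving (fun (s : Fin n → ℝ) (i : Fin n) => (if i = j then rot t else id) (s i))
        (rho n) (rho n) := by
      unfold rho
      refine measurePreserving_pi (fun _ => lam) (fun _ => lam) (f := fun i => if i = j then rot t else id) ?_
      intro i
      by_cases hi : i = j
      · simp only [hi, if_true]
        exact rot_mp t
      · simp only [hi, if_false]
        exact MeasurePreserving.id lam
    have e : (fun s : Fin n → ℝ => Function.update s j (rot t (s j))) =
        fun (s : Fin n → ℝ) (i : Fin n) => (if i = j then rot t else id) (s i) := by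
      funext s i
      by_cases hi : i = j
      · subst hi
        simp
      · rw [Function.update_of_ne hi]
        simp [hi]
    rw [e]
    exact h1
  refine hbase.skew_product (g := fun s x => (T ^ (⌊s j + t⌋ - ⌊s j⌋)) x) ?_ ?_
  · have h1 : Measurable fun r : X × ℤ => (T ^ r.2) r.1 :=
      measurable_from_prod_countable_left fun z => pow_meas hT.measurable hT' z
    have hj : Measurable fun q : (Fin n → ℝ) × X => q.1 j := (measurable_pi_apply j).comp measurable_fst
    exact h1.comp (measurable_snd.prodMk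
      ((Int.measurable_floor.comp (hj.add_const t)).sub (Int.measurable_floor.comp hj)))
  · exact ae_of_all _ fun s => (pow_mp hT hT' _).map_eq

theorem sus_flow {T : Equiv.Perm X} {μ : Measure X} [IsProbabilityMeasure μ] (hT : MeasurePreserving T μ μ)
    (hT' : Measurable ((T⁻¹ : Equiv.Perm X) : X → X)) (j : Fin n) : IsFlow ((rho n).prod μ) (sus T j) where
  meas := sus_meas hT.measurable hT' j
  zero := sus_zero T j
  add := sus_add T j
  mp := sus_mp hT hT' j

end Pool.Agent.Q182.BB
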