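import Pool.Agent.Q182.BB1

set_option autoImplicit false

/-!
Conditional expectations on the invariant sets of the suspension flow.
-/

namespace Pool.Agent.Q182.BB

open MeasureTheory Filter Finset
open Pool.Agent.Y957.MC

universe u

variable {X : Type u} [MeasurableSpace X] {n : ℕ}

/-- an invariant set is invariant under all powers -/
theorem pow_preimage {T : Equiv.Perm X} {A : Set X} (hA : T ⁻¹' A = A) (z : ℤ) :
    ((T ^ z : Equiv.Perm X) : X → X) ⁻¹' A = A := by
  have hi : ((T⁻¹ : Equiv.Perm X) : X → X) ⁻¹' A = A := by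
    ext x
    constructor
    · intro hx
      have : T⁻¹ x ∈ T ⁻¹' A := by rw [hA]; exact hx
      simpa using this
    · intro hx
      have h1 : T (T⁻¹ x) ∈ A := by simpa using hx
      have h2 : T⁻¹ x ∈ T ⁻¹' A := h1
      rw [hA] at h2
      exact h2
  have hp : ∀ {S : Equiv.Perm X}, S ⁻¹' A = A → ∀ k : ℕ, ((S ^ k : Equiv.Perm X) : X → X) ⁻¹' A = A := by
    intro S hS k
    induction k with
    | zero => simp
    | succ k ih =>
      rw [pow_succ]
      have : ((S ^ k * S : Equiv.Perm X) : X → X) ⁻¹' A = S ⁻¹' (((S ^ k : Equiv.Perm X) : X → X) ⁻¹' A) := rfl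
      rw [this, ih, hS]
  cases z with
  | ofNat k => simpa using hp hA k
  | negSucc k =>
    rw [zpow_negSucc, ← inv_pow]
    exact hp hi (k + 1)

theorem inv_pow_eq {T : Equiv.Perm X} {g : X → ℂ} (hg : StronglyMeasurable[MeasurableSpace.invariants T] g) (z : ℤ)
    (x : X) : g ((T ^ z) x) = g x := by
  have h1 : MeasurableSet[MeasurableSpace.invariants T] (g ⁻¹' {g x}) := hg.measurable (measurableSet_singleton _)
  have h2 : T ⁻¹' (g ⁻¹' {g x}) = g ⁻¹' {g x} := ((MeasurableSpace.measurableSet_invariants).1 h1).2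
  have h3 := pow_preimage h2 z
  have h4 : x ∈ ((T ^ z : Equiv.Perm X) : X → X) ⁻¹' (g ⁻¹' {g x}) := by rw [h3]; rfl
  exact h4

theorem snd_meas {T : Equiv.Perm X} (j : Fin n) :
    Measurable[flowInv (sus T j), MeasurableSpace.invariants T] (Prod.snd : (Fin n → ℝ) × X → X) := by
  intro A hA
  obtain ⟨hAm, hAi⟩ := (MeasurableSpace.measurableSet_invariants).1 hA
  unfold flowInv
  rw [MeasurableSpace.measurableSet_iInf]
  intro t
  refine (MeasurableSpace.measurableSet_invariants).2 ⟨measurable_snd hAm, ?_⟩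
  ext p
  simp only [Set.mem_preimage]
  have h := pow_preimage hAi (⌊p.1 j + t⌋ - ⌊p.1 j⌋)
  have h2 : p.2 ∈ ((T ^ (⌊p.1 j + t⌋ - ⌊p.1 j⌋) : Equiv.Perm X) : X → X) ⁻¹' A ↔ p.2 ∈ A := by rw [h]
  exact h2

theorem slice_inv {T : Equiv.Perm X} {j : Fin n} {A : Set ((Fin n → ℝ) × X)}
    (hA : MeasurableSet[flowInv (sus T j)] A) (s : Fin n → ℝ) :
    MeasurableSet[MeasurableSpace.invariants T] (Prod.mk s ⁻¹' A) := by
  unfold flowInv at hA
  rw [MeasurableSpace.measurableSet_iInf] at hA
  obtain ⟨hAm, hAi⟩ := (MeasurableSpace.measurableSet_invariants).1 (hA 1)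
  refine (MeasurableSpace.measurableSet_invariants).2 ⟨measurable_prodMk_left hAm, ?_⟩
  ext x
  have h1 : sus T j 1 (s, x) = (s, T x) := by
    unfold sus
    refine Prod.ext ?_ ?_
    · have : rot 1 (s j) = s j := by
        rw [rot_eq, Int.floor_add_one]
        push_cast
        ring
      simp only [this, Function.update_eq_self]
    · simp only [Int.floor_add_one]
      have : ⌊s j⌋ + 1 - ⌊s j⌋ = 1 := by ring
      rw [this, zpow_one]
  have h2 : (s, x) ∈ (sus T j 1) ⁻¹' A ↔ (s, x) ∈ A := by rw [hAi]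
  rw [Set.mem_preimage, h1] at h2
  exact h2

theorem condExp_sus {T : Equiv.Perm X} {μ : Measure X} [IsProbabilityMeasure μ] (hT : MeasurePreserving T μ μ)
    (hT' : Measurable ((T⁻¹ : Equiv.Perm X) : X → X)) (j : Fin n) {f : X → ℂ} (hf : Integrable f μ) :
    (((rho n).prod μ)[fun p => f p.2 | flowInv (sus T j)]) =ᵐ[(rho n).prod μ]
      fun p => (μ[f | MeasurableSpace.invariants T]) p.2 := by
  have hle : flowInv (sus T j) ≤ (inferInstance : MeasurableSpace ((Fin n → ℝ) × X)) := flowInv_le _
  have hleT : MeasurableSpace.invariants T ≤ (inferInstance : MeasurableSpace X) := MeasurableSpace.invariants_le T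
  set g : X → ℂ := μ[f | MeasurableSpace.invariants T] with hg
  have hgi : Integrable g μ := integrable_condExp
  have hgs : StronglyMeasurable[MeasurableSpace.invariants T] g := stronglyMeasurable_condExp
  have hF : Integrable (fun p : (Fin n → ℝ) × X => f p.2) ((rho n).prod μ) := hf.comp_snd _
  have hG : Integrable (fun p : (Fin n → ℝ) × X => g p.2) ((rho n).prod μ) := hgi.comp_snd _
  refine (ae_eq_condExp_of_forall_setIntegral_eq hle hF (fun s _ _ => hG.integrableOn) ?_ ?_).symm
  · intro A hA _
    have hAm : MeasurableSet A := hle A hA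
    have key : ∀ h : X → ℂ, Integrable h μ → ∫ p in A, h p.2 ∂((rho n).prod μ) =
        ∫ s, ∫ x in Prod.mk s ⁻¹' A, h x ∂μ ∂(rho n) := by
      intro h hh
      have hH : Integrable (fun p : (Fin n → ℝ) × X => h p.2) ((rho n).prod μ) := hh.comp_snd _
      rw [← integral_indicator hAm, integral_prod _ (hH.indicator hAm)]
      refine integral_congr_ae (ae_of_all _ fun s => ?_)
      simp only
      rw [← integral_indicator (measurable_prodMk_left hAm)]
      rfl
    rw [key g hgi, key f hf]
    refine integral_congr_ae (ae_of_all _ fun s => ?_)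
    exact setIntegral_condExp hleT hf (slice_inv hA s)
  · exact (hgs.comp_measurable (snd_meas j)).aestronglyMeasurable

theorem condExp_shift {T : Equiv.Perm X} {μ : Measure X} [IsProbabilityMeasure μ] (hT : MeasurePreserving T μ μ)
    (hT' : Measurable ((T⁻¹ : Equiv.Perm X) : X → X)) (z : ℤ) {f : X → ℂ} (hf : Integrable f μ) :
    (μ[fun x => f ((T ^ z) x) | MeasurableSpace.invariants T]) =ᵐ[μ] μ[f | MeasurableSpace.invariants T] := by
  have hleT : MeasurableSpace.invariants T ≤ (inferInstance : MeasurableSpace X) := MeasurableSpace.invariants_le T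
  have hz := pow_mp hT hT' z
  have hfz : Integrable (fun x => f ((T ^ z) x)) μ := hz.integrable_comp_of_integrable hf
  refine (ae_eq_condExp_of_forall_setIntegral_eq hleT hfz (fun s _ _ => integrable_condExp.integrableOn) ?_
    stronglyMeasurable_condExp.aestronglyMeasurable).symm
  intro A hA _
  rw [setIntegral_condExp hleT hf hA]
  obtain ⟨hAm, hAi⟩ := (MeasurableSpace.measurableSet_invariants).1 hA
  let e : X ≃ᵐ X := ⟨T ^ z, pow_meas hT.measurable hT' z, by
    have := pow_meas hT.measurable hT' (-z)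
    rwa [zpow_neg] at this⟩
  have h1 := hz.setIntegral_preimage_emb e.measurableEmbedding f A
  rw [pow_preimage hAi z] at h1
  exact h1.symm

end Pool.Agent.Q182.BB
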