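import Pool.Agent.Q182.BB2

set_option autoImplicit false

/-!
Counting the indices at which two nearby shifts give different integer parts.
-/

namespace Pool.Agent.Q182.BB

open MeasureTheory Filter Finset
open Pool.Agent.Y957.MC

theorem sep {α : ℝ} (hα : Irrational α) (q : ℕ) :
    ∃ δ : ℝ, 0 < δ ∧ ∀ h : ℕ, 1 ≤ h → h < q → ∀ z : ℤ, δ ≤ |α * h - z| := by
  induction q with
  | zero => exact ⟨1, one_pos, fun h _ h2 => absurd h2 (Nat.not_lt_zero h)⟩
  | succ q ih =>
    obtain ⟨δ, hδ, h⟩ := ih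
    by_cases hq : q = 0
    · subst hq
      exact ⟨1, one_pos, fun h h1 h2 => by omega⟩
    have hir : Irrational (α * (q : ℝ)) := hα.mul_natCast hq
    have hpos : 0 < |α * (q : ℝ) - round (α * (q : ℝ))| := by
      rw [abs_pos, sub_ne_zero]
      exact hir.ne_int _
    refine ⟨min δ |α * (q : ℝ) - round (α * (q : ℝ))|, lt_min hδ hpos, fun h' h1 h2 z => ?_⟩
    rcases Nat.lt_succ_iff_lt_or_eq.1 h2 with h3 | h3
    · exact (min_le_left _ _).trans (h h' h1 h3 z)
    · subst h3
      exact (min_le_right _ _).trans (round_le _ z)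

theorem floor_between {u v : ℝ} (huv : u ≤ v) (h : ⌊v⌋ ≠ ⌊u⌋) : u < ⌊v⌋ ∧ (⌊v⌋ : ℝ) ≤ v := by
  refine ⟨?_, Int.floor_le v⟩
  have h1 : ⌊u⌋ < ⌊v⌋ := lt_of_le_of_ne (Int.floor_le_floor huv) (Ne.symm h)
  have h2 : u < ⌊u⌋ + 1 := Int.lt_floor_add_one u
  have h3 : ((⌊u⌋ + 1 : ℤ) : ℝ) ≤ ⌊v⌋ := by exact_mod_cast h1
  push_cast at h3
  linarith

theorem bad_card {α : ℝ} (hα : Irrational α) {q : ℕ} (hq : 1 ≤ q) :
    ∃ δ : ℝ, 0 < δ ∧ ∀ (N : ℕ) (b β s : ℝ), β ≤ s → s < β + δ →
      ((Icc 1 N).filter (fun m : ℕ => ⌊b + α * m + s⌋ ≠ ⌊b + α * m + β⌋)).card ≤ N / q + 1 := by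
  obtain ⟨δ, hδ, h⟩ := sep hα q
  refine ⟨δ, hδ, fun N b β s hβs hsδ => ?_⟩
  have hmap : Set.MapsTo (fun m : ℕ => m / q)
      (((Icc 1 N).filter (fun m : ℕ => ⌊b + α * m + s⌋ ≠ ⌊b + α * m + β⌋) : Finset ℕ) : Set ℕ)
      ((range (N / q + 1) : Finset ℕ) : Set ℕ) := by
    intro m hm
    simp only [coe_filter, mem_Icc, Set.mem_ofPred_eq] at hm
    simp only [coe_range, Set.mem_Iio]
    exact Nat.lt_succ_of_le (Nat.div_le_div_right hm.1.2)
  have key : ∀ m m' : ℕ, m < m' → ⌊b + α * m + s⌋ ≠ ⌊b + α * m + β⌋ → ⌊b + α * m' + s⌋ ≠ ⌊b + α * m' + β⌋ →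
      m / q ≠ m' / q := by
    intro m m' hlt h1 h2 heq
    have hlt2 : m' - m < q := by
      have e1 := Nat.div_add_mod m q
      have e2 := Nat.div_add_mod m' q
      have e3 := Nat.mod_lt m' hq
      rw [heq] at e1
      omega
    have f1 := floor_between (by linarith : b + α * m + β ≤ b + α * m + s) h1
    have f2 := floor_between (by linarith : b + α * m' + β ≤ b + α * m' + s) h2
    have h3 := h (m' - m) (by omega) hlt2 (⌊b + α * m' + s⌋ - ⌊b + α * m + s⌋)
    rw [Nat.cast_sub hlt.le] at h3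
    push_cast at h3
    have h4 : |α * ((m' : ℝ) - m) - (⌊b + α * m' + s⌋ - ⌊b + α * m + s⌋)| < δ := by
      rw [abs_lt]
      constructor <;> nlinarith [f1.1, f1.2, f2.1, f2.2]
    linarith
  calc ((Icc 1 N).filter (fun m : ℕ => ⌊b + α * m + s⌋ ≠ ⌊b + α * m + β⌋)).card
      ≤ (range (N / q + 1)).card := by
        refine Finset.card_le_card_of_injOn _ hmap ?_
        intro m hm m' hm' heq
        simp only [coe_filter, mem_Icc, Set.mem_ofPred_eq] at hm hm'
        rcases lt_trichotomy m m' with hlt | hlt | hlt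
        · exact absurd heq (key m m' hlt hm.2 hm'.2)
        · exact hlt
        · exact absurd heq.symm (key m' m hlt hm'.2 hm.2)
    _ = N / q + 1 := card_range _

theorem lin_split {k : ℕ} (c : Fin k → ℝ) (i : Fin k) (m : Fin k → ℕ) :
    lin c m = lin c (Function.update m i 0) + c i * m i := by
  unfold lin
  rw [← Finset.add_sum_erase _ _ (mem_univ i), ← Finset.add_sum_erase _ (fun l => c l * ((Function.update m i 0 l : ℕ) : ℝ))
    (mem_univ i)]
  simp only [Function.update_self, Nat.cast_zero, mul_zero, zero_add]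
  rw [add_comm]
  congr 1
  refine sum_congr rfl fun l hl => ?_
  rw [Function.update_of_ne (ne_of_mem_erase hl)]

theorem box_bad {k : ℕ} (c : Fin k → ℝ) (i : Fin k) {a : ℝ} (hα : Irrational (a * c i)) {q : ℕ} (hq : 1 ≤ q) :
    ∃ δ : ℝ, 0 < δ ∧ ∀ (M : Fin k → ℕ) (β s : ℝ), β ≤ s → s < β + δ → 1 ≤ M i →
      (((box M).filter (fun m => ⌊a * lin c m + s⌋ ≠ ⌊a * lin c m + β⌋)).card : ℝ) ≤
        (1 / q + 1 / M i) * ((∏ l, M l : ℕ) : ℝ) := by
  obtain ⟨δ, hδ, h⟩ := bad_card hα hq
  refine ⟨δ, hδ, fun M β s h1 h2 hMi => ?_⟩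
  set t : Finset (Fin k → ℕ) := Fintype.piFinset (fun l => if l = i then {0} else Icc 1 (M l)) with ht
  have hcard : ((box M).filter (fun m => ⌊a * lin c m + s⌋ ≠ ⌊a * lin c m + β⌋)).card ≤ (M i / q + 1) * t.card := by
    refine Finset.card_le_mul_card_image_of_maps_to (f := fun m => Function.update m i 0) ?_ _ ?_
    · intro m hm
      have hm1 := (mem_filter.1 hm).1
      unfold Pool.Agent.Y957.MC.box at hm1
      rw [Fintype.mem_piFinset] at hm1
      rw [ht, Fintype.mem_piFinset]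
      intro l
      by_cases hl : l = i
      · subst hl; simp
      · rw [Function.update_of_ne hl, if_neg hl]
        exact hm1 l
    · intro y _
      refine le_trans ?_ (h (M i) (a * lin c y) β s h1 h2)
      refine Finset.card_le_card_of_injOn (fun m => m i) ?_ ?_
      · intro m hm
        simp only [coe_filter, mem_filter, Set.mem_ofPred_eq] at hm
        obtain ⟨⟨hm1, hm2⟩, hm3⟩ := hm
        unfold Pool.Agent.Y957.MC.box at hm1
        rw [Fintype.mem_piFinset] at hm1
        simp only [coe_filter, Set.mem_ofPred_eq]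
        refine ⟨hm1 i, ?_⟩
        rw [lin_split c i m, hm3, mul_add, ← mul_assoc] at hm2
        exact hm2
      · intro m hm m' hm' heq
        simp only [coe_filter, mem_filter, Set.mem_ofPred_eq] at hm hm'
        have e1 := hm.2.trans hm'.2.symm
        funext l
        by_cases hl : l = i
        · rw [hl]; exact heq
        · have := congrFun e1 l
          rwa [Function.update_of_ne hl, Function.update_of_ne hl] at this
  have htc : ((∏ l, M l : ℕ) : ℝ) = M i * t.card := by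
    have e1 : t.card = ∏ l, (if l = i then 1 else M l) := by
      rw [ht, Fintype.card_piFinset]
      refine prod_congr rfl fun l _ => ?_
      by_cases hl : l = i
      · simp [hl]
      · simp [hl]
    rw [e1, ← Finset.mul_prod_erase _ _ (mem_univ i), ← Finset.mul_prod_erase _ (fun l => if l = i then 1 else M l) (mem_univ i)]
    simp only [if_true, one_mul]
    push_cast
    congr 1
    refine prod_congr rfl fun l hl => ?_
    rw [if_neg (ne_of_mem_erase hl)]
  have hMi' : (0 : ℝ) < M i := by exact_mod_cast hMi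
  have hq' : (0 : ℝ) < q := by exact_mod_cast hq
  have h3 : ((M i / q : ℕ) : ℝ) ≤ (M i : ℝ) / q := Nat.cast_div_le
  calc (((box M).filter (fun m => ⌊a * lin c m + s⌋ ≠ ⌊a * lin c m + β⌋)).card : ℝ)
      ≤ (((M i / q + 1) * t.card : ℕ) : ℝ) := by exact_mod_cast hcard
    _ ≤ ((M i : ℝ) / q + 1) * t.card := by
        push_cast
        gcongr
    _ = (1 / q + 1 / M i) * ((∏ l, M l : ℕ) : ℝ) := by
        rw [htc]
        field_simp

end Pool.Agent.Q182.BB
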