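import Pool.Agent.Q182.BB3
import Pool.Agent.Y957.MC.Box

set_option autoImplicit false

/-!
Several invertible maps at the integer parts of linear forms, unrestricted boxes, all shifts.
-/

namespace Pool.Agent.Q182.BB

open MeasureTheory Filter Finset
open Pool.Agent.Y957.MC

universe u

variable {X : Type u} [MeasurableSpace X] {k n : ℕ}

/-- the averages -/
noncomputable def av (T : Fin n → Equiv.Perm X) (c : Fin n → Fin k → ℝ) (f : Fin n → X → ℂ) (a s : Fin n → ℝ)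
    (z : Fin n → ℤ) (x : X) (M : Fin k → ℕ) : ℂ :=
  (1 / ((∏ l, M l : ℕ) : ℂ)) * ∑ m ∈ Pool.Agent.Y957.MC.box M,
    ∏ j, f j ((T j ^ (⌊a j * lin (c j) m + s j⌋ + z j)) x)

theorem irr_ae (c : ℝ) (hc : c ≠ 0) : ∀ᵐ t : ℝ, Irrational (t * c) := by
  have h1 : ({t : ℝ | ¬ Irrational (t * c)}).Countable := by
    have h2 : {t : ℝ | ¬ Irrational (t * c)} = (fun t : ℝ => t * c) ⁻¹' (Set.range ((↑) : ℚ → ℝ)) := by
      ext t
      simp [Irrational]
    rw [h2]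
    exact (Set.countable_range _).preimage (mul_left_injective₀ hc)
  exact h1.measure_zero volume

theorem irr_all (c : Fin n → Fin k → ℝ) :
    ∀ᵐ a : Fin n → ℝ, ∀ j i, c j i ≠ 0 → Irrational (a j * c j i) := by
  rw [ae_all_iff]
  intro j
  rw [ae_all_iff]
  intro i
  by_cases hc : c j i = 0
  · exact ae_of_all _ fun a h => absurd hc h
  have h1 := (Measure.quasiMeasurePreserving_eval (fun _ : Fin n => (volume : Measure ℝ)) j).ae (irr_ae (c j i) hc)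
  filter_upwards [h1] with a ha _
  exact ha

theorem flow_step {μ : Measure X} [IsProbabilityMeasure μ] {T : Fin n → Equiv.Perm X}
    (hT : ∀ j, MeasurePreserving (T j) μ μ) (hT' : ∀ j, Measurable (((T j)⁻¹ : Equiv.Perm X) : X → X))
    {c : Fin n → Fin k → ℝ} (hc : ∀ j, c j ≠ 0) {f : Fin n → X → ℂ} (hf : ∀ j, AEStronglyMeasurable (f j) μ)
    (hfb : ∀ j, ∃ C : ℝ, ∀ᵐ x ∂μ, ‖f j x‖ ≤ C) (z : Fin n → ℤ) :
    ∀ᵐ a : Fin n → ℝ, ∀ᵐ s ∂(rho n), ∀ᵐ x ∂μ, Tendsto (av T c f a s z x) atTop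
      (nhds (∏ j, (μ[f j | MeasurableSpace.invariants (T j)]) x)) := by
  have hfi : ∀ j, Integrable (f j) μ := fun j => by
    obtain ⟨C, hC⟩ := hfb j
    exact Integrable.of_bound (hf j) C hC
  have hz := fun j => pow_mp (hT j) (hT' j) (z j)
  have hfz : ∀ j, Integrable (fun x => f j ((T j ^ z j) x)) μ := fun j =>
    (hz j).integrable_comp_of_integrable (hfi j)
  have h1 := boxes_Linf flwc_all (μ := (rho n).prod μ) (τ := fun j => sus (T j) j)
    (fun j => sus_flow (hT j) (hT' j) j) (c := c) hc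
    (f := fun j p => f j ((T j ^ z j) p.2)) (fun j => (hfz j).aestronglyMeasurable.comp_snd) (fun j => by
      obtain ⟨C, hC⟩ := hfb j
      exact ⟨C, Measure.quasiMeasurePreserving_snd.ae ((hz j).quasiMeasurePreserving.ae hC)⟩)
  filter_upwards [h1] with a ha
  have h2 : ∀ᵐ p ∂((rho n).prod μ), ∀ j, (((rho n).prod μ)[fun p => f j ((T j ^ z j) p.2) | flowInv (sus (T j) j)]) p =
      (μ[f j | MeasurableSpace.invariants (T j)]) p.2 := by
    rw [ae_all_iff]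
    intro j
    have e1 := condExp_sus (n := n) (hT j) (hT' j) j (hfz j)
    have e2 := Measure.quasiMeasurePreserving_snd.ae (μa := (rho n).prod μ) (condExp_shift (hT j) (hT' j) (z j) (hfi j))
    filter_upwards [e1, e2] with p hp1 hp2
    exact hp1.trans hp2
  have h3 : ∀ᵐ p ∂((rho n).prod μ), ∀ j, p.1 j ∈ Set.Ico (0 : ℝ) 1 := by
    have h4 : ∀ᵐ s ∂(rho n), ∀ j, s j ∈ Set.Ico (0 : ℝ) 1 := by
      rw [ae_all_iff]
      intro j
      exact (Measure.quasiMeasurePreserving_eval (fun _ : Fin n => lam) j).ae ae_lam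
    exact Measure.quasiMeasurePreserving_fst.ae h4
  have h4 : ∀ᵐ p ∂((rho n).prod μ), Tendsto (av T c f a p.1 z p.2) atTop
      (nhds (∏ j, (μ[f j | MeasurableSpace.invariants (T j)]) p.2)) := by
    filter_upwards [ha, h2, h3] with p hp hp2 hp3
    simp only [hp2] at hp
    refine hp.congr fun M => ?_
    unfold av
    congr 1
    refine sum_congr rfl fun m _ => prod_congr rfl fun j _ => ?_
    have h0 : ⌊p.1 j⌋ = 0 := Int.floor_eq_zero_iff.2 (hp3 j)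
    unfold sus
    simp only [h0, sub_zero]
    rw [← Equiv.Perm.mul_apply, ← zpow_add, add_comm (p.1 j), add_comm (z j)]
  exact Measure.ae_ae_of_ae_prod h4

theorem prod_diff {C : ℝ} (hC : 1 ≤ C) {u v : Fin n → ℂ} (hu : ∀ j, ‖u j‖ ≤ C) (hv : ∀ j, ‖v j‖ ≤ C) :
    ‖∏ j, u j - ∏ j, v j‖ ≤ 2 * C ^ n := by
  have h : ∀ w : Fin n → ℂ, (∀ j, ‖w j‖ ≤ C) → ‖∏ j, w j‖ ≤ C ^ n := by
    intro w hw
    rw [norm_prod]
    calc ∏ j, ‖w j‖ ≤ ∏ _j : Fin n, C := prod_le_prod (fun j _ => norm_nonneg _) (fun j _ => hw j)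
      _ = C ^ n := by simp
  calc ‖∏ j, u j - ∏ j, v j‖ ≤ ‖∏ j, u j‖ + ‖∏ j, v j‖ := norm_sub_le _ _
    _ ≤ C ^ n + C ^ n := add_le_add (h u hu) (h v hv)
    _ = 2 * C ^ n := by ring

theorem av_near {T : Fin n → Equiv.Perm X} {c : Fin n → Fin k → ℝ} {f : Fin n → X → ℂ} {a : Fin n → ℝ}
    {i : Fin n → Fin k} (hir : ∀ j, Irrational (a j * c j (i j))) {C : ℝ} (hC : 1 ≤ C) {x : X}
    (hx : ∀ j (w : ℤ), ‖f j ((T j ^ w) x)‖ ≤ C) {q : ℕ} (hq : 1 ≤ q) :
    ∃ δ : ℝ, 0 < δ ∧ ∀ (z : Fin n → ℤ) (β s : Fin n → ℝ), (∀ j, β j ≤ s j ∧ s j < β j + δ) →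
      ∀ (N : ℕ) (M : Fin k → ℕ), 1 ≤ N → (∀ l, N ≤ M l) →
      ‖av T c f a β z x M - av T c f a s z x M‖ ≤ 2 * C ^ n * n * (1 / q + 1 / N) := by
  choose δ hδ hd using fun j => box_bad (c j) (i j) (hir j) hq
  obtain ⟨δ₀, hδ₀, hδ₁⟩ : ∃ δ₀ : ℝ, 0 < δ₀ ∧ ∀ j, δ₀ ≤ δ j := by
    rcases isEmpty_or_nonempty (Fin n) with he | hne
    · exact ⟨1, one_pos, fun j => he.elim j⟩
    · obtain ⟨j₀, hj₀⟩ := Finite.exists_min δ
      exact ⟨δ j₀, hδ j₀, hj₀⟩
  refine ⟨δ₀, hδ₀, fun z β s hs N M hN hM => ?_⟩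
  set P : ℝ := ((∏ l, M l : ℕ) : ℝ) with hP
  have hPpos : 0 < P := by
    rw [hP]
    have : 0 < ∏ l, M l := prod_pos fun l _ => lt_of_lt_of_le hN (hM l)
    exact_mod_cast this
  have hNpos : (0 : ℝ) < N := by exact_mod_cast hN
  have hqpos : (0 : ℝ) < q := by exact_mod_cast hq
  have hCn : 0 ≤ C ^ n := by positivity
  -- pointwise bound
  have hpt : ∀ m : Fin k → ℕ, ‖∏ j, f j ((T j ^ (⌊a j * lin (c j) m + β j⌋ + z j)) x) -
      ∏ j, f j ((T j ^ (⌊a j * lin (c j) m + s j⌋ + z j)) x)‖ ≤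
      ∑ j, (if ⌊a j * lin (c j) m + s j⌋ ≠ ⌊a j * lin (c j) m + β j⌋ then 2 * C ^ n else 0) := by
    intro m
    by_cases h : ∀ j, ⌊a j * lin (c j) m + s j⌋ = ⌊a j * lin (c j) m + β j⌋
    · simp only [h, sub_self, norm_zero]
      exact sum_nonneg fun j _ => by simp
    · push Not at h
      obtain ⟨j, hj⟩ := h
      refine (prod_diff hC (fun j => hx j _) (fun j => hx j _)).trans ?_
      have h2 : (if ⌊a j * lin (c j) m + s j⌋ ≠ ⌊a j * lin (c j) m + β j⌋ then 2 * C ^ n else 0) = 2 * C ^ n :=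
        if_pos hj
      refine h2.ge.trans ?_
      exact Finset.single_le_sum (f := fun j => if ⌊a j * lin (c j) m + s j⌋ ≠ ⌊a j * lin (c j) m + β j⌋ then
        2 * C ^ n else 0) (fun j _ => by positivity) (mem_univ j)
  have hPc : ‖(1 / ((∏ l, M l : ℕ) : ℂ))‖ = 1 / P := by
    rw [norm_div, norm_one, hP, Complex.norm_natCast]
  calc ‖av T c f a β z x M - av T c f a s z x M‖
      = 1 / P * ‖∑ m ∈ Pool.Agent.Y957.MC.box M, (∏ j, f j ((T j ^ (⌊a j * lin (c j) m + β j⌋ + z j)) x) -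
          ∏ j, f j ((T j ^ (⌊a j * lin (c j) m + s j⌋ + z j)) x))‖ := by
        unfold av
        rw [← mul_sub, ← sum_sub_distrib, norm_mul, hPc]
    _ ≤ 1 / P * ∑ m ∈ Pool.Agent.Y957.MC.box M, ∑ j,
          (if ⌊a j * lin (c j) m + s j⌋ ≠ ⌊a j * lin (c j) m + β j⌋ then 2 * C ^ n else 0) := by
        gcongr
        exact (norm_sum_le _ _).trans (sum_le_sum fun m _ => hpt m)
    _ = 1 / P * ∑ j, 2 * C ^ n * (((Pool.Agent.Y957.MC.box M).filter (fun m =>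
          ⌊a j * lin (c j) m + s j⌋ ≠ ⌊a j * lin (c j) m + β j⌋)).card : ℝ) := by
        rw [sum_comm]
        congr 1
        refine sum_congr rfl fun j _ => ?_
        rw [← sum_filter, sum_const, nsmul_eq_mul, mul_comm]
    _ ≤ 1 / P * ∑ _j : Fin n, 2 * C ^ n * ((1 / q + 1 / N) * P) := by
        gcongr with j _
        have h1 := hd j M (β j) (s j) (hs j).1 ((hs j).2.trans_le (by linarith [hδ₁ j])) (hN.trans (hM _))
        refine h1.trans ?_
        rw [← hP]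
        have h2 : (N : ℝ) ≤ M (i j) := by exact_mod_cast hM (i j)
        gcongr
    _ = 2 * C ^ n * n * (1 / q + 1 / N) := by
        rw [sum_const, card_univ, Fintype.card_fin, nsmul_eq_mul]
        field_simp

/-- **Main statement.** -/
theorem beatty_boxes {μ : Measure X} [IsProbabilityMeasure μ] {T : Fin n → Equiv.Perm X}
    (hT : ∀ j, MeasurePreserving (T j) μ μ) (hT' : ∀ j, Measurable (((T j)⁻¹ : Equiv.Perm X) : X → X))
    {c : Fin n → Fin k → ℝ} (hc : ∀ j, c j ≠ 0) {f : Fin n → X → ℂ} (hf : ∀ j, AEStronglyMeasurable (f j) μ)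
    (hfb : ∀ j, ∃ C : ℝ, ∀ᵐ x ∂μ, ‖f j x‖ ≤ C) :
    ∀ᵐ a : Fin n → ℝ, ∀ᵐ x ∂μ, ∀ b : Fin n → ℝ, Tendsto (fun M : Fin k → ℕ => (1 / ((∏ l, M l : ℕ) : ℂ)) *
      ∑ m ∈ Pool.Agent.Y957.MC.box M, ∏ j, f j ((T j ^ ⌊a j * lin (c j) m + b j⌋) x)) atTop
      (nhds (∏ j, (μ[f j | MeasurableSpace.invariants (T j)]) x)) := by
  have h1 : ∀ᵐ a : Fin n → ℝ, ∀ z : Fin n → ℤ, ∀ᵐ s ∂(rho n), ∀ᵐ x ∂μ, Tendsto (av T c f a s z x) atTop
      (nhds (∏ j, (μ[f j | MeasurableSpace.invariants (T j)]) x)) := by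
    rw [ae_all_iff]
    exact fun z => flow_step hT hT' hc hf hfb z
  have hi : ∀ j, ∃ i, c j i ≠ 0 := fun j => by
    by_contra h
    push Not at h
    exact hc j (funext h)
  choose i hi' using hi
  choose C hC using hfb
  obtain ⟨C₀, hC₀, hC₁⟩ : ∃ C₀ : ℝ, 1 ≤ C₀ ∧ ∀ j, C j ≤ C₀ := by
    refine ⟨max 1 (∑ j, |C j|), le_max_left _ _, fun j => ?_⟩
    refine le_max_of_le_right ((le_abs_self _).trans ?_)
    exact Finset.single_le_sum (f := fun j => |C j|) (fun i _ => abs_nonneg _) (Finset.mem_univ j)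
  have hbd : ∀ᵐ x ∂μ, ∀ j (w : ℤ), ‖f j ((T j ^ w) x)‖ ≤ C₀ := by
    rw [ae_all_iff]
    intro j
    rw [ae_all_iff]
    intro w
    filter_upwards [(pow_mp (hT j) (hT' j) w).quasiMeasurePreserving.ae (hC j)] with x hx
    exact hx.trans (hC₁ j)
  filter_upwards [h1, irr_all c] with a ha hirr
  -- good heights
  have hG : ∀ᵐ s ∂(rho n), ∀ z : Fin n → ℤ, ∀ᵐ x ∂μ, Tendsto (av T c f a s z x) atTop
      (nhds (∏ j, (μ[f j | MeasurableSpace.invariants (T j)]) x)) := by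
    rw [ae_all_iff]
    exact ha
  set G : Set (Fin n → ℝ) := {s | ∀ z : Fin n → ℤ, ∀ᵐ x ∂μ, Tendsto (av T c f a s z x) atTop
      (nhds (∏ j, (μ[f j | MeasurableSpace.invariants (T j)]) x))} with hGdef
  have hchoose : ∀ r : (Fin n → ℚ) × ℕ, ∃ s : Fin n → ℝ, (∃ s' ∈ G, ∀ j, ((r.1 j : ℚ) : ℝ) ≤ s' j ∧
      s' j < r.1 j + 1 / ((r.2 : ℝ) + 1)) → s ∈ G ∧ ∀ j, ((r.1 j : ℚ) : ℝ) ≤ s j ∧ s j < r.1 j + 1 / ((r.2 : ℝ) + 1) := by
    intro r
    by_cases h : ∃ s' ∈ G, ∀ j, ((r.1 j : ℚ) : ℝ) ≤ s' j ∧ s' j < r.1 j + 1 / ((r.2 : ℝ) + 1)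
    · obtain ⟨s', h1, h2⟩ := h
      exact ⟨s', fun _ => ⟨h1, h2⟩⟩
    · exact ⟨0, fun h' => absurd h' h⟩
  choose D hD using hchoose
  have hx1 : ∀ᵐ x ∂μ, ∀ (r : (Fin n → ℚ) × ℕ) (z : Fin n → ℤ), D r ∈ G → Tendsto (av T c f a (D r) z x) atTop
      (nhds (∏ j, (μ[f j | MeasurableSpace.invariants (T j)]) x)) := by
    rw [ae_all_iff]
    intro r
    rw [ae_all_iff]
    intro z
    by_cases h : D r ∈ G
    · filter_upwards [h z] with x hx _
      exact hx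
    · exact ae_of_all _ fun x h' => absurd h' h
  filter_upwards [hx1, hbd] with x hxD hxb b
  set z : Fin n → ℤ := fun j => ⌊b j⌋ with hz
  set β : Fin n → ℝ := fun j => Int.fract (b j) with hβ
  have hβ0 : ∀ j, 0 ≤ β j := fun j => Int.fract_nonneg _
  have hβ1 : ∀ j, β j < 1 := fun j => Int.fract_lt_one _
  have hav : (fun M : Fin k → ℕ => (1 / ((∏ l, M l : ℕ) : ℂ)) *
      ∑ m ∈ Pool.Agent.Y957.MC.box M, ∏ j, f j ((T j ^ ⌊a j * lin (c j) m + b j⌋) x)) = av T c f a β z x := by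
    funext M
    unfold av
    congr 1
    refine sum_congr rfl fun m _ => prod_congr rfl fun j _ => ?_
    have : a j * lin (c j) m + b j = (a j * lin (c j) m + β j) + (z j : ℤ) := by
      rw [hβ, hz]
      have := Int.fract_add_floor (b j)
      linarith
    rw [this, Int.floor_add_intCast]
  rw [hav, Metric.tendsto_atTop]
  intro ε hε
  set K : ℝ := 2 * C₀ ^ n * n with hK
  have hK0 : 0 ≤ K := by positivity
  obtain ⟨q, hq⟩ := exists_nat_gt (4 * (K + 1) / ε)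
  have hqpos : (0 : ℝ) < q := lt_trans (by positivity) hq
  have hq1 : 1 ≤ q := by exact_mod_cast hqpos
  have hKq : K * (1 / q + 1 / q) < ε / 2 := by
    rw [div_lt_iff₀ hε] at hq
    have : K * (1 / q + 1 / q) = 2 * K / q := by field_simp; ring
    rw [this, div_lt_iff₀ hqpos]
    nlinarith
  obtain ⟨δ, hδ, hd⟩ := av_near (T := T) (c := c) (f := f) (a := a) (i := i) (fun j => hirr j (i j) (hi' j)) hC₀ hxb hq1
  -- choose a good height close to β
  obtain ⟨η, hη, hηδ, hη1⟩ : ∃ η : ℝ, 0 < η ∧ η ≤ δ ∧ ∀ j, β j + η ≤ 1 := by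
    rcases isEmpty_or_nonempty (Fin n) with he | hne
    · exact ⟨δ, hδ, le_rfl, fun j => he.elim j⟩
    · obtain ⟨j₀, hj₀⟩ := Finite.exists_max β
      refine ⟨min δ (1 - β j₀), lt_min hδ (by linarith [hβ1 j₀]), min_le_left _ _, fun j => ?_⟩
      have := min_le_right δ (1 - β j₀)
      linarith [hj₀ j]
  obtain ⟨p, hp⟩ := exists_nat_one_div_lt (half_pos hη)
  choose r hr1 hr2 using fun j => exists_rat_btwn (show β j < β j + η / 2 by linarith)
  have hin : ∀ s : Fin n → ℝ, (∀ j, ((r j : ℚ) : ℝ) ≤ s j ∧ s j < r j + 1 / ((p : ℝ) + 1)) →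
      ∀ j, β j ≤ s j ∧ s j < β j + η := by
    intro s hs j
    exact ⟨(hr1 j).le.trans (hs j).1, by linarith [(hs j).2, hr2 j]⟩
  have hex : ∃ s' ∈ G, ∀ j, ((r j : ℚ) : ℝ) ≤ s' j ∧ s' j < r j + 1 / ((p : ℝ) + 1) := by
    by_contra hcon
    push Not at hcon
    have hpos : 0 < rho n (Set.univ.pi fun j => Set.Ico ((r j : ℚ) : ℝ) (r j + 1 / ((p : ℝ) + 1))) := by
      unfold rho
      rw [Measure.pi_pi]
      rw [pos_iff_ne_zero, prod_ne_zero_iff]
      intro j _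
      unfold lam
      rw [Measure.restrict_apply measurableSet_Ico]
      have hsub : Set.Ico ((r j : ℚ) : ℝ) (r j + 1 / ((p : ℝ) + 1)) ⊆ Set.Ico (0 : ℝ) 1 := by
        intro t ht
        exact ⟨(hβ0 j).trans ((hr1 j).le.trans ht.1), by linarith [ht.2, hr2 j, hη1 j]⟩
      rw [Set.inter_eq_left.2 hsub, Real.volume_Ico]
      have : (0 : ℝ) < 1 / ((p : ℝ) + 1) := by positivity
      simp only [ne_eq, ENNReal.ofReal_eq_zero, not_le]
      linarith
    have hnull : rho n (Set.univ.pi fun j => Set.Ico ((r j : ℚ) : ℝ) (r j + 1 / ((p : ℝ) + 1))) = 0 := by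
      refine measure_mono_null ?_ (ae_iff.1 hG)
      intro s hs hsG
      obtain ⟨j, hj⟩ := hcon s hsG
      have h2 := hs j (Set.mem_univ j)
      exact absurd h2.2 (not_lt.2 (hj h2.1))
    exact hpos.ne' hnull
  obtain ⟨hs1, hs2⟩ := hD (r, p) hex
  have hs3 := hin _ hs2
  have hconv := hxD (r, p) z hs1
  rw [Metric.tendsto_atTop] at hconv
  obtain ⟨M₀, hM₀⟩ := hconv (ε / 2) (half_pos hε)
  refine ⟨fun l => max (M₀ l) q, fun M hM => ?_⟩
  have h5 := hM₀ M fun l => (le_max_left _ _).trans (hM l)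
  have h6 := hd z β (D (r, p)) (fun j => ⟨(hs3 j).1, (hs3 j).2.trans_le (by linarith)⟩) q M hq1
    fun l => (le_max_right _ _).trans (hM l)
  rw [← dist_eq_norm] at h6
  calc dist (av T c f a β z x M) (∏ j, (μ[f j | MeasurableSpace.invariants (T j)]) x)
      ≤ dist (av T c f a β z x M) (av T c f a (D (r, p)) z x M) +
        dist (av T c f a (D (r, p)) z x M) (∏ j, (μ[f j | MeasurableSpace.invariants (T j)]) x) := dist_triangle _ _ _
    _ < ε / 2 + ε / 2 := add_lt_add (h6.trans_lt hKq) h5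
    _ = ε := by ring

end Pool.Agent.Q182.BB
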