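import Mathlib

/-!
# Mixing of Bernoulli shifts, mixing from a generating π-system
-/

set_option autoImplicit false
set_option linter.unusedSectionVars false

open Set Filter Topology MeasureTheory
open scoped ENNReal

namespace Pool.Agent.Q182.Bern

section general

variable {X : Type*} [MeasurableSpace X]

/-- the pair `(A,B)` is mixing -/
def Mix (μ : Measure X) (T : X → X) (A B : Set X) : Prop :=
  Tendsto (fun n : ℕ => μ.real (A ∩ T^[n] ⁻¹' B)) atTop (𝓝 (μ.real A * μ.real B))

variable {μ : Measure X} [IsProbabilityMeasure μ] {T : X → X}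

lemma mix_compl_right (hT : MeasurePreserving T μ μ) {A B : Set X} (hA : MeasurableSet A)
    (hB : MeasurableSet B) (h : Mix μ T A B) : Mix μ T A Bᶜ := by
  have e : ∀ n : ℕ, μ.real (A ∩ T^[n] ⁻¹' Bᶜ) = μ.real A - μ.real (A ∩ T^[n] ⁻¹' B) := by
    intro n
    have hm : MeasurableSet (T^[n] ⁻¹' B) := (hT.measurable.iterate n) hB
    have := measureReal_inter_add_sdiff (μ := μ) (s := A) hm
    rw [preimage_compl, ← sdiff_eq]
    linarith
  have e2 : μ.real A * μ.real Bᶜ = μ.real A - μ.real A * μ.real B := by
    rw [measureReal_compl hB, probReal_univ]; ring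
  unfold Mix
  rw [e2]
  simp only [e]
  exact h.const_sub _

lemma mix_compl_left (hT : MeasurePreserving T μ μ) {A B : Set X} (hA : MeasurableSet A)
    (hB : MeasurableSet B) (h : Mix μ T A B) : Mix μ T Aᶜ B := by
  have e : ∀ n : ℕ, μ.real (Aᶜ ∩ T^[n] ⁻¹' B) = μ.real B - μ.real (A ∩ T^[n] ⁻¹' B) := by
    intro n
    have hm : MeasurableSet (T^[n] ⁻¹' B) := (hT.measurable.iterate n) hB
    have h1 := measureReal_inter_add_sdiff (μ := μ) (s := T^[n] ⁻¹' B) hA
    have h2 : μ.real (T^[n] ⁻¹' B) = μ.real B :=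
      (hT.iterate n).measureReal_preimage hB.nullMeasurableSet
    rw [h2, inter_comm] at h1
    rw [inter_comm Aᶜ, ← sdiff_eq]
    linarith
  have e2 : μ.real Aᶜ * μ.real B = μ.real B - μ.real A * μ.real B := by
    rw [measureReal_compl hA, probReal_univ]; ring
  unfold Mix
  rw [e2]
  simp only [e]
  exact h.const_sub _

lemma real_iUnion {f : ℕ → Set X} (hd : Pairwise (Function.onFun Disjoint f))
    (hf : ∀ i, MeasurableSet (f i)) :
    HasSum (fun i => μ.real (f i)) (μ.real (⋃ i, f i)) := by
  have h1 : μ (⋃ i, f i) = ∑' i, μ (f i) := measure_iUnion hd hf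
  have h2 : ∑' i, μ (f i) ≠ ∞ := by rw [← h1]; exact measure_ne_top _ _
  have h3 := ENNReal.hasSum_toReal h2
  have h4 : μ.real (⋃ i, f i) = ∑' i, μ.real (f i) := by
    simp only [measureReal_def]
    rw [h1, ENNReal.tsum_toReal_eq]
    intro i
    exact measure_ne_top _ _
  rw [h4]
  exact h3

lemma mix_iUnion_right (hT : MeasurePreserving T μ μ) {A : Set X} (hA : MeasurableSet A)
    {f : ℕ → Set X} (hd : Pairwise (Function.onFun Disjoint f)) (hf : ∀ i, MeasurableSet (f i))
    (h : ∀ i, Mix μ T A (f i)) : Mix μ T A (⋃ i, f i) := by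
  have hs := real_iUnion (μ := μ) hd hf
  have e : ∀ n : ℕ, μ.real (A ∩ T^[n] ⁻¹' (⋃ i, f i)) = ∑' i, μ.real (A ∩ T^[n] ⁻¹' (f i)) := by
    intro n
    rw [preimage_iUnion, inter_iUnion]
    refine (HasSum.tsum_eq (real_iUnion (μ := μ) ?_ ?_)).symm
    · intro i j hij
      exact ((hd hij).preimage _).mono inter_subset_right inter_subset_right
    · intro i
      exact hA.inter ((hT.measurable.iterate n) (hf i))
  unfold Mix
  simp only [e]
  rw [← hs.tsum_eq, ← tsum_mul_left]
  refine tendsto_tsum_of_dominated_convergence hs.summable h ?_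
  filter_upwards with n i
  rw [Real.norm_of_nonneg measureReal_nonneg]
  rw [← (hT.iterate n).measureReal_preimage (hf i).nullMeasurableSet]
  exact measureReal_mono inter_subset_right

lemma mix_iUnion_left (hT : MeasurePreserving T μ μ) {B : Set X} (hB : MeasurableSet B)
    {f : ℕ → Set X} (hd : Pairwise (Function.onFun Disjoint f)) (hf : ∀ i, MeasurableSet (f i))
    (h : ∀ i, Mix μ T (f i) B) : Mix μ T (⋃ i, f i) B := by
  have hs := real_iUnion (μ := μ) hd hf
  have e : ∀ n : ℕ, μ.real ((⋃ i, f i) ∩ T^[n] ⁻¹' B) = ∑' i, μ.real (f i ∩ T^[n] ⁻¹' B) := by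
    intro n
    rw [iUnion_inter]
    refine (HasSum.tsum_eq (real_iUnion (μ := μ) ?_ ?_)).symm
    · intro i j hij
      exact (hd hij).mono inter_subset_left inter_subset_left
    · intro i
      exact (hf i).inter ((hT.measurable.iterate n) hB)
  unfold Mix
  simp only [e]
  rw [← hs.tsum_eq, ← tsum_mul_right]
  refine tendsto_tsum_of_dominated_convergence hs.summable h ?_
  filter_upwards with n i
  rw [Real.norm_of_nonneg measureReal_nonneg]
  exact measureReal_mono inter_subset_left

/-- mixing on a generating π-system implies mixing -/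
theorem mixing_of_piSystem (hT : MeasurePreserving T μ μ) (C : Set (Set X)) (hC : IsPiSystem C)
    (hgen : ‹MeasurableSpace X› = MeasurableSpace.generateFrom C)
    (h : ∀ A ∈ C, ∀ B ∈ C, Mix μ T A B) :
    ∀ A B : Set X, MeasurableSet A → MeasurableSet B → Mix μ T A B := by
  have hCm : ∀ A ∈ C, MeasurableSet A := by
    intro A hA
    rw [hgen]
    exact MeasurableSpace.measurableSet_generateFrom hA
  have h1 : ∀ A ∈ C, ∀ B : Set X, MeasurableSet B → Mix μ T A B := by
    intro A hA B hB
    induction B, hB using MeasurableSpace.induction_on_inter hgen hC with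
    | empty =>
      unfold Mix
      simp
    | basic t ht => exact h A hA t ht
    | compl t ht ih => exact mix_compl_right hT (hCm A hA) ht ih
    | iUnion f hd hf ih => exact mix_iUnion_right hT (hCm A hA) hd hf ih
  intro A B hA hB
  induction A, hA using MeasurableSpace.induction_on_inter hgen hC with
  | empty =>
    unfold Mix
    simp
  | basic t ht => exact h1 t ht B hB
  | compl t ht ih => exact mix_compl_left hT ht hB ih
  | iUnion f hd hf ih => exact mix_iUnion_left hT hB hd hf ih

lemma mix_ennreal {A B : Set X} (h : Mix μ T A B) :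
    Tendsto (fun n : ℕ => μ (A ∩ T^[n] ⁻¹' B)) atTop (𝓝 (μ A * μ B)) := by
  have h1 := ENNReal.tendsto_ofReal h
  rw [ENNReal.ofReal_mul measureReal_nonneg, ofReal_measureReal, ofReal_measureReal] at h1
  refine h1.congr fun n => ?_
  rw [ofReal_measureReal]

end general

section shift

variable {I α : Type*} [MeasurableSpace α]

/-- the shift along `σ` -/
def sh (σ : I → I) (x : I → α) : I → α := fun i => x (σ i)

lemma sh_iterate (σ : I → I) (n : ℕ) (x : I → α) : (sh σ)^[n] x = fun i => x (σ^[n] i) := by
  induction n generalizing x with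
  | zero => rfl
  | succ n ih =>
    rw [Function.iterate_succ_apply, ih]
    funext i
    show x (σ (σ^[n] i)) = x (σ^[n + 1] i)
    rw [Function.iterate_succ_apply']

lemma sh_meas (σ : I → I) : Measurable (sh (α := α) σ) :=
  measurable_pi_lambda _ fun i => measurable_pi_apply (σ i)

/-- the preimage of a box is a box -/
lemma preimage_box {σ : I → I} (hσ : Function.Injective σ) [DecidableEq I] (s : Finset I)
    (t : I → Set α) : ∃ t' : I → Set α, (∀ i ∈ s, t' (σ i) = t i) ∧
      sh σ ⁻¹' ((s : Set I).pi t) = ((s.image σ : Finset I) : Set I).pi t' := by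
  classical
  refine ⟨fun j => if h : ∃ i ∈ s, σ i = j then t h.choose else univ, ?_, ?_⟩
  · intro i hi
    have h : ∃ i' ∈ s, σ i' = σ i := ⟨i, hi, rfl⟩
    have h3 : h.choose = i := hσ h.choose_spec.2
    show (if h : ∃ i' ∈ s, σ i' = σ i then t h.choose else univ) = t i
    rw [dif_pos h, h3]
  · ext x
    simp only [mem_preimage, Set.mem_pi, Finset.mem_coe, Finset.mem_image, forall_exists_index,
      and_imp, forall_apply_eq_imp_iff₂]
    refine forall₂_congr fun i hi => ?_
    have h : ∃ i' ∈ s, σ i' = σ i := ⟨i, hi, rfl⟩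
    rw [dif_pos h]
    have h2 : h.choose = i := hσ h.choose_spec.2
    rw [h2]
    rfl

variable (m : Measure α) [IsProbabilityMeasure m]

theorem sh_mp {σ : I → I} (hσ : Function.Injective σ) :
    MeasurePreserving (sh σ) (Measure.infinitePi fun _ : I => m)
      (Measure.infinitePi fun _ : I => m) := by
  classical
  refine ⟨sh_meas σ, ?_⟩
  apply Measure.eq_infinitePi
  intro s t ht
  rw [Measure.map_apply (sh_meas σ) (MeasurableSet.pi (Finset.countable_toSet _) fun i _ => ht i)]
  obtain ⟨t', h1, h2⟩ := preimage_box hσ s t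
  rw [h2, Measure.infinitePi_pi]
  · rw [Finset.prod_image (fun a _ b _ h => hσ h)]
    exact Finset.prod_congr rfl fun i hi => by rw [h1 i hi]
  · intro j hj
    obtain ⟨i, hi, rfl⟩ := Finset.mem_image.1 hj
    rw [h1 i hi]
    exact ht i

/-- Bernoulli shifts are mixing, if `σ^n` eventually moves each finite set off each finite set. -/
theorem sh_mixing {σ : I → I} (hσ : Function.Injective σ)
    (hσ2 : ∀ i j, ∀ᶠ n : ℕ in atTop, σ^[n] i ≠ j) (A B : Set (I → α)) (hA : MeasurableSet A)
    (hB : MeasurableSet B) : Mix (Measure.infinitePi fun _ : I => m) (sh σ) A B := by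
  classical
  refine mixing_of_piSystem (sh_mp m hσ)
    (squareCylinders fun _ : I => {s : Set α | MeasurableSet s})
    (isPiSystem_squareCylinders (fun _ => MeasurableSpace.isPiSystem_measurableSet) (fun _ => MeasurableSet.univ))
    generateFrom_squareCylinders.symm ?_ A B hA hB
  rintro A ⟨s, t, ht, rfl⟩ B ⟨s', t', ht', rfl⟩
  have hdis : ∀ᶠ n : ℕ in atTop, ∀ i ∈ s', ∀ j ∈ s, σ^[n] i ≠ j := by
    rw [Filter.eventually_all_finset]
    intro i hi
    rw [Filter.eventually_all_finset]
    intro j hj
    exact hσ2 i j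
  unfold Mix
  refine tendsto_const_nhds.congr' ?_
  filter_upwards [hdis] with n hn
  have hsn : (sh (α := α) σ)^[n] = sh (σ^[n]) := by
    funext x
    exact sh_iterate σ n x
  rw [hsn]
  obtain ⟨t2, h1, h2⟩ := preimage_box (hσ.iterate n) s' t'
  rw [h2]
  have hdisj : Disjoint s (s'.image σ^[n]) := by
    rw [Finset.disjoint_left]
    intro a ha hb
    obtain ⟨i, hi, hia⟩ := Finset.mem_image.1 hb
    exact hn i hi a ha hia
  have hU : ((s : Set I).pi t ∩ ((s'.image σ^[n] : Finset I) : Set I).pi t2) =
      ((s ∪ s'.image σ^[n] : Finset I) : Set I).pi (fun i => if i ∈ s then t i else t2 i) := by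
    ext x
    simp only [mem_inter_iff, Set.mem_pi, Finset.mem_coe, Finset.mem_union]
    constructor
    · rintro ⟨ha, hb⟩ i hi
      split_ifs with his
      · exact ha i his
      · exact hb i (hi.resolve_left his)
    · intro hx
      refine ⟨fun i hi => ?_, fun i hi => ?_⟩
      · have := hx i (Or.inl hi)
        rwa [if_pos hi] at this
      · have := hx i (Or.inr hi)
        have hni : i ∉ s := fun h => Finset.disjoint_left.1 hdisj h hi
        rwa [if_neg hni] at this
  have hm1 : ∀ i ∈ s, MeasurableSet (t i) := fun i _ => ht i (mem_univ i)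
  have hm2 : ∀ i ∈ s', MeasurableSet (t' i) := fun i _ => ht' i (mem_univ i)
  have hmt2 : ∀ j ∈ s'.image σ^[n], MeasurableSet (t2 j) := by
    intro j hj
    obtain ⟨i, hi, rfl⟩ := Finset.mem_image.1 hj
    rw [h1 i hi]
    exact hm2 i hi
  rw [hU]
  simp only [measureReal_def]
  rw [← ENNReal.toReal_mul]
  congr 1
  rw [Measure.infinitePi_pi _ hm1, Measure.infinitePi_pi _ hm2, Measure.infinitePi_pi,
    Finset.prod_union hdisj]
  · congr 1
    · exact Finset.prod_congr rfl fun i hi => by rw [if_pos hi]
    · rw [Finset.prod_image (fun a _ b _ h => (hσ.iterate n) h)]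
      refine Finset.prod_congr rfl fun i hi => ?_
      have hni : σ^[n] i ∉ s :=
        fun h => Finset.disjoint_left.1 hdisj h (Finset.mem_image_of_mem _ hi)
      rw [if_neg hni, h1 i hi]
  · intro i hi
    split_ifs with his
    · exact hm1 i his
    · exact hmt2 i ((Finset.mem_union.1 hi).resolve_left his)

end shift

end Pool.Agent.Q182.Bern
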