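import Pool.Agent.Y957.MC.Maps

set_option autoImplicit false

/-! Integer powers of an invertible map at Beatty type times, all real multiples. -/

namespace Pool.Agent.Q182.Bty

open MeasureTheory Filter Finset Pool.Agent.Y957.MC

universe u

variable {X : Type u} [MeasurableSpace X] {μ : Measure X} [IsProbabilityMeasure μ]

lemma inv_eq (T : Equiv.Perm X) : MeasurableSpace.invariants (⇑(T⁻¹ : Equiv.Perm X)) =
    MeasurableSpace.invariants (⇑T) := by
  ext s
  rw [MeasurableSpace.measurableSet_invariants, MeasurableSpace.measurableSet_invariants]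
  refine and_congr_right fun _ => ?_
  constructor
  · intro h
    have h2 : T ⁻¹' (⇑(T⁻¹ : Equiv.Perm X) ⁻¹' s) = s := by
      ext x; simp
    conv_rhs => rw [← h2, h]
  · intro h
    have h2 : ⇑(T⁻¹ : Equiv.Perm X) ⁻¹' (T ⁻¹' s) = s := by
      ext x; simp
    conv_rhs => rw [← h2, h]

omit [IsProbabilityMeasure μ] in
lemma mp_inv {T : Equiv.Perm X} (hT : MeasurePreserving T μ μ) (hT' : Measurable (⇑(T⁻¹ : Equiv.Perm X))) :
    MeasurePreserving (⇑(T⁻¹ : Equiv.Perm X)) μ μ := by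
  let e : X ≃ᵐ X := ⟨T, hT.measurable, hT'⟩
  have : MeasurePreserving e μ μ := hT
  exact this.symm e

/-- the conditional expectation on the invariant sets does not see a shift -/
lemma condExp_shift {T : Equiv.Perm X} (hT : MeasurePreserving T μ μ) (hT' : Measurable (⇑(T⁻¹ : Equiv.Perm X)))
    {g : X → ℝ} (hg : Measurable g) (hgb : ∃ C, ∀ x, |g x| ≤ C) :
    μ[g ∘ (⇑(T⁻¹ : Equiv.Perm X)) | MeasurableSpace.invariants T] =ᵐ[μ] μ[g | MeasurableSpace.invariants T] := by
  obtain ⟨C, hC⟩ := hgb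
  have hint : Integrable g μ := Integrable.of_bound hg.aestronglyMeasurable C (ae_of_all _ hC)
  have hmp := mp_inv hT hT'
  have hint' : Integrable (g ∘ (⇑(T⁻¹ : Equiv.Perm X))) μ :=
    Integrable.of_bound (hg.comp hT').aestronglyMeasurable C (ae_of_all _ fun x => hC _)
  have hm := MeasurableSpace.invariants_le T
  refine (ae_eq_condExp_of_forall_setIntegral_eq hm hint (fun s _ _ => integrable_condExp.integrableOn)
    (fun s hs _ => ?_) stronglyMeasurable_condExp.aestronglyMeasurable)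
  rw [setIntegral_condExp hm hint' hs]
  have hs' : MeasurableSet s := hm s hs
  have hinv : (⇑(T⁻¹ : Equiv.Perm X)) ⁻¹' s = s := by
    have h1 : MeasurableSet[MeasurableSpace.invariants (⇑(T⁻¹ : Equiv.Perm X))] s := by rw [inv_eq]; exact hs
    exact (MeasurableSpace.measurableSet_invariants.mp h1).2
  let e : X ≃ᵐ X := ⟨T⁻¹, hT', hT.measurable⟩
  have he : MeasurePreserving e μ μ := hmp
  have h2 := he.setIntegral_preimage_emb e.measurableEmbedding g s
  have h3 : (e ⁻¹' s : Set X) = s := hinv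
  rw [h3] at h2
  exact h2

lemma measurable_zpow {T : Equiv.Perm X} (hT : Measurable T) (hT' : Measurable (⇑(T⁻¹ : Equiv.Perm X))) (k : ℤ) :
    Measurable (⇑(T ^ k : Equiv.Perm X)) := by
  have h : ∀ n : ℕ, Measurable (⇑(T ^ n : Equiv.Perm X)) ∧ Measurable (⇑((T⁻¹) ^ n : Equiv.Perm X)) := by
    intro n
    induction n with
    | zero => simp [measurable_id]
    | succ n ih =>
      rw [pow_succ, pow_succ, Equiv.Perm.coe_mul, Equiv.Perm.coe_mul]
      exact ⟨ih.1.comp hT, ih.2.comp hT'⟩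
  rcases Int.eq_nat_or_neg k with ⟨n, rfl | rfl⟩
  · rw [zpow_natCast]; exact (h n).1
  · rw [zpow_neg, zpow_natCast, ← inv_pow]; exact (h n).2

/-- an average does not see finitely many terms -/
lemma avg_congr {u v : ℕ → ℂ} (h : ∀ᶠ n in atTop, u n = v n)
    (hu : Tendsto (fun N : ℕ => (1 / (N : ℂ)) * ∑ n ∈ Icc 1 N, u n) atTop (nhds 0)) :
    Tendsto (fun N : ℕ => (1 / (N : ℂ)) * ∑ n ∈ Icc 1 N, v n) atTop (nhds 0) := by
  obtain ⟨n₀, hn₀⟩ := eventually_atTop.mp h
  have h10 : Tendsto (fun N : ℕ => (1 / (N : ℂ)) * ∑ n ∈ Icc 1 N, (v n - u n)) atTop (nhds 0) := by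
    refine squeeze_zero_norm (a := fun N : ℕ => (1 / (N : ℝ)) * ∑ n ∈ range n₀, ‖v n - u n‖) (fun N => ?_) ?_
    · rw [norm_mul, norm_div, norm_one, Complex.norm_natCast]
      refine mul_le_mul_of_nonneg_left ?_ (by positivity)
      have e1 : ∑ n ∈ Icc 1 N, (v n - u n) = ∑ n ∈ (Icc 1 N).filter (· < n₀), (v n - u n) := by
        refine (sum_subset (filter_subset _ _) fun n hn hn' => ?_).symm
        rw [mem_filter, not_and] at hn'
        have := hn' hn
        rw [hn₀ n (by omega), sub_self]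
      rw [e1]
      refine (norm_sum_le _ _).trans (sum_le_sum_of_subset_of_nonneg (fun n hn => ?_) fun _ _ _ => norm_nonneg _)
      exact mem_range.mpr (mem_filter.mp hn).2
    · have := (tendsto_one_div_atTop_nhds_zero_nat (𝕜 := ℝ)).mul_const (∑ n ∈ range n₀, ‖v n - u n‖)
      simpa using this
  have h11 := hu.add h10
  rw [add_zero] at h11
  refine h11.congr fun N => ?_
  rw [← mul_add, ← sum_add_distrib]
  congr 1
  exact sum_congr rfl fun n _ => by ring

lemma eval_pos {P : Polynomial ℝ} (hP : 0 < P.natDegree) (hlc : 0 < P.leadingCoeff) :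
    ∀ᶠ n : ℕ in atTop, 0 < P.eval (n : ℝ) := by
  have h := (P.tendsto_atTop_of_leadingCoeff_nonneg (Polynomial.natDegree_pos_iff_degree_pos.mp hP) hlc.le)
  exact tendsto_natCast_atTop_atTop.eventually (h.eventually_gt_atTop 0)

theorem one_poly {T : Equiv.Perm X} (hT : MeasurePreserving T μ μ) (hT' : Measurable (⇑(T⁻¹ : Equiv.Perm X)))
    {g : X → ℝ} (hg : Measurable g) (hgb : ∃ C, ∀ x, |g x| ≤ C) {P : Polynomial ℝ} (hP : 0 < P.natDegree) :
    ∀ᵐ x ∂μ, ∀ B : ℕ → ℂ, (∀ n, ‖B n‖ ≤ 1) → ∀ᵐ a : ℝ,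
      Tendsto (fun N : ℕ => (1 / (N : ℂ)) * ∑ n ∈ Icc 1 N, B n *
        (((g ((T ^ ⌊a * P.eval (n : ℝ)⌋ : Equiv.Perm X) x) - (μ[g | MeasurableSpace.invariants T]) x : ℝ)) : ℂ))
        atTop (nhds 0) := by
  have key : ∀ P : Polynomial ℝ, 0 < P.natDegree → 0 < P.leadingCoeff → ∀ᵐ x ∂μ, ∀ B : ℕ → ℂ, (∀ n, ‖B n‖ ≤ 1) →
      ∀ᵐ a : ℝ, Tendsto (fun N : ℕ => (1 / (N : ℂ)) * ∑ n ∈ Icc 1 N, B n *
        (((g ((T ^ ⌊a * P.eval (n : ℝ)⌋ : Equiv.Perm X) x) - (μ[g | MeasurableSpace.invariants T]) x : ℝ)) : ℂ))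
        atTop (nhds 0) := by
    intro P hP hlc
    have hpos := eval_pos hP hlc
    have h1 := bty_all (fun n : ℕ => P.eval (n : ℝ)) (good_poly hP hlc) X μ T g hT hg hgb
    obtain ⟨C, hC⟩ := hgb
    have h2 := bty_all (fun n : ℕ => P.eval (n : ℝ)) (good_poly hP hlc) X μ (⇑(T⁻¹ : Equiv.Perm X))
      (g ∘ (⇑(T⁻¹ : Equiv.Perm X))) (mp_inv hT hT') (hg.comp hT') ⟨C, fun x => hC _⟩
    rw [inv_eq] at h2
    filter_upwards [h1, h2, condExp_shift hT hT' hg ⟨C, hC⟩] with x hx1 hx2 hx3 B hB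
    refine ae_real ?_ ?_
    · filter_upwards [hx1 B hB, ae_restrict_mem measurableSet_Ioi] with a ha hapos
      refine avg_congr ?_ ha
      filter_upwards [hpos] with n hn
      have h4 : ⌊a * P.eval (n : ℝ)⌋ = ((⌊a * P.eval (n : ℝ)⌋₊ : ℕ) : ℤ) :=
        (Int.natCast_floor_eq_floor (by positivity [show (0 : ℝ) < a from hapos])).symm
      rw [h4, zpow_natCast, Equiv.Perm.coe_pow]
    · -- the multiple is not an integer
      have h5 : ∀ᵐ a : ℝ, ∀ n : ℕ, 0 < P.eval (n : ℝ) → ∀ k : ℤ, a * P.eval (n : ℝ) ≠ k := by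
        rw [ae_all_iff]
        intro n
        by_cases hn : 0 < P.eval (n : ℝ)
        · have : ∀ᵐ a : ℝ, ∀ k : ℤ, a * P.eval (n : ℝ) ≠ k := by
            rw [ae_all_iff]
            intro k
            have h6 : {a : ℝ | a * P.eval (n : ℝ) = k} ⊆ {(k : ℝ) / P.eval (n : ℝ)} := by
              intro a ha
              rw [Set.mem_singleton_iff, eq_div_iff hn.ne']
              exact ha
            rw [ae_iff]
            refine measure_mono_null (fun a ha => h6 ?_) (Real.volume_singleton (a := (k : ℝ) / P.eval (n : ℝ)))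
            simpa using ha
          filter_upwards [this] with a ha _ using ha
        · exact ae_of_all _ fun a h => absurd h hn
      filter_upwards [hx2 B hB, ae_restrict_mem measurableSet_Ioi, ae_restrict_of_ae h5] with a ha hapos hni
      have hapos' : (0 : ℝ) < a := hapos
      refine avg_congr ?_ ha
      filter_upwards [hpos] with n hn
      have h4 : ⌊-a * P.eval (n : ℝ)⌋ = -(((⌊a * P.eval (n : ℝ)⌋₊ : ℕ) : ℤ) + 1) := by
        have h7 : (((⌊a * P.eval (n : ℝ)⌋₊ : ℕ) : ℤ)) = ⌊a * P.eval (n : ℝ)⌋ :=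
          Int.natCast_floor_eq_floor (by positivity)
        rw [h7, Int.floor_eq_iff]
        have h8 := Int.floor_le (a * P.eval (n : ℝ))
        have h9 := Int.lt_floor_add_one (a * P.eval (n : ℝ))
        have h10 : (⌊a * P.eval (n : ℝ)⌋ : ℝ) ≠ a * P.eval (n : ℝ) := fun h => hni n hn _ h.symm
        have h11 := lt_of_le_of_ne h8 h10
        push_cast
        constructor <;> linarith
      rw [h4, hx3, zpow_neg, zpow_add, zpow_natCast, zpow_one, mul_inv_rev, ← inv_pow]
      congr 3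
  rcases lt_trichotomy P.leadingCoeff 0 with h | h | h
  · have h1 := key (-P) (by rwa [Polynomial.natDegree_neg]) (by rw [Polynomial.leadingCoeff_neg]; linarith)
    filter_upwards [h1] with x hx B hB
    have h2 := (Measure.measurePreserving_neg (volume : Measure ℝ)).quasiMeasurePreserving.ae (hx B hB)
    filter_upwards [h2] with a ha
    simpa only [Polynomial.eval_neg, mul_neg, neg_mul, neg_neg] using ha
  · rw [Polynomial.leadingCoeff_eq_zero] at h
    rw [h] at hP
    simp at hP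
  · exact key P hP h

end Pool.Agent.Q182.Bty
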