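import Pool.Agent.Q182.Bty1

set_option autoImplicit false

/-! Several invertible maps at the times `⌊a_j P_j(n)⌋`. -/

namespace Pool.Agent.Q182.Bty

open MeasureTheory Filter Finset Pool.Agent.Y957.MC

universe u

variable {X : Type u} [MeasurableSpace X] {μ : Measure X} [IsProbabilityMeasure μ]

theorem inv_real {m : ℕ} {T : Fin m → Equiv.Perm X} (hT : ∀ j, MeasurePreserving (T j) μ μ)
    (hT' : ∀ j, Measurable (⇑((T j)⁻¹ : Equiv.Perm X))) {P : Fin m → Polynomial ℝ} (hP : ∀ j, 0 < (P j).natDegree)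
    {f : Fin m → X → ℝ} (hf : ∀ j, Measurable (f j)) (hfb : ∃ C, ∀ j x, |f j x| ≤ C) :
    ∀ᵐ a : Fin m → ℝ, ∀ᵐ x ∂μ, Tendsto (fun N : ℕ => (1 / (N : ℝ)) * ∑ n ∈ Icc 1 N,
      ∏ j, f j (((T j) ^ ⌊a j * (P j).eval (n : ℝ)⌋ : Equiv.Perm X) x)) atTop
        (nhds (∏ j, (μ[f j | MeasurableSpace.invariants (T j)]) x)) := by
  obtain ⟨C0, hC0⟩ := hfb
  set C : ℝ := max C0 0 with hCdef
  have hCnn : 0 ≤ C := le_max_right _ _
  have hC : ∀ j x, |f j x| ≤ C := fun j x => (hC0 j x).trans (le_max_left _ _)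
  set g : Fin m → X → ℝ := fun j x => trunc C ((μ[f j | MeasurableSpace.invariants (T j)]) x) with hg
  have hgm : ∀ j, Measurable (g j) := by
    intro j
    have h1 : Measurable (μ[f j | MeasurableSpace.invariants (T j)]) :=
      (stronglyMeasurable_condExp.mono (MeasurableSpace.invariants_le (T j))).measurable
    exact (measurable_trunc C).comp h1
  have hgeq : ∀ᵐ x ∂μ, ∀ j, g j x = (μ[f j | MeasurableSpace.invariants (T j)]) x := by
    rw [ae_all_iff]
    intro j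
    filter_upwards [condExp_bd (m := MeasurableSpace.invariants (T j)) (μ := μ) hCnn (hC j)] with x hx
    exact trunc_eq hx
  have hmain := Pool.Agent.Y571.MC.prod X μ m volume
    (fun j x a n => f j (((T j) ^ ⌊a * (P j).eval (n : ℝ)⌋ : Equiv.Perm X) x)) g
    (fun j n => ?_) hgm ⟨C, fun j x a n => hC j _⟩ ⟨C, fun j x => trunc_bd hCnn _⟩ (fun j => ?_)
  · have hv : (Measure.pi fun _ : Fin m => (volume : Measure ℝ)) = volume := rfl
    rw [hv] at hmain
    filter_upwards [hmain] with a ha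
    filter_upwards [ha, hgeq] with x hx hxg
    simpa only [hxg] using hx
  · have h1 : Measurable fun q : X × ℤ => f j (((T j) ^ q.2 : Equiv.Perm X) q.1) :=
      measurable_from_prod_countable_left fun k => (hf j).comp (measurable_zpow (hT j).measurable (hT' j) k)
    have h2 : Measurable fun q : X × ℝ => (q.1, ⌊q.2 * (P j).eval (n : ℝ)⌋) :=
      measurable_fst.prodMk (Int.measurable_floor.comp (measurable_snd.mul_const _))
    exact h1.comp h2
  · filter_upwards [one_poly (hT j) (hT' j) (hf j) ⟨C, hC j⟩ (hP j), hgeq] with x hx hxg B hB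
    filter_upwards [hx B hB] with a ha
    simpa only [hxg j] using ha

/-- invertible maps, complex functions, two-sided averages -/
theorem inv_cx {m : ℕ} {T : Fin m → Equiv.Perm X} (hT : ∀ j, MeasurePreserving (T j) μ μ)
    (hT' : ∀ j, Measurable (⇑((T j)⁻¹ : Equiv.Perm X))) {P : Fin m → Polynomial ℝ} (hP : ∀ j, 0 < (P j).natDegree)
    {f : Fin m → X → ℂ} (hf : ∀ j, Measurable (f j)) (hfb : ∃ C, ∀ j x, ‖f j x‖ ≤ C) :
    ∀ᵐ a : Fin m → ℝ, ∀ᵐ x ∂μ, Tendsto (fun N : ℕ => (1 / (2 * (N : ℂ) + 1)) * ∑ n ∈ Icc (-(N : ℤ)) N,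
      ∏ j, f j (((T j) ^ ⌊a j * (P j).eval (n : ℝ)⌋ : Equiv.Perm X) x)) atTop
        (nhds (∏ j, (μ[f j | MeasurableSpace.invariants (T j)]) x)) := by
  have h1 := cx_of_real (μ := μ) (volume : Measure (Fin m → ℝ))
    (fun j a n x => ((T j) ^ ⌊a * (P j).eval (n : ℝ)⌋ : Equiv.Perm X) x)
    (fun j => MeasurableSpace.invariants (T j)) (fun g hg hgb => inv_real hT hT' hP hg hgb) hf hfb
  have h2 := cx_of_real (μ := μ) (volume : Measure (Fin m → ℝ))
    (fun j a n x => ((T j) ^ ⌊a * ((P j).comp (-Polynomial.X)).eval (n : ℝ)⌋ : Equiv.Perm X) x)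
    (fun j => MeasurableSpace.invariants (T j))
    (fun g hg hgb => inv_real hT hT' (P := fun j => (P j).comp (-Polynomial.X)) (fun j => by
      have : ((P j).comp (-Polynomial.X)).natDegree = (P j).natDegree := by
        rw [Polynomial.natDegree_comp, Polynomial.natDegree_neg, Polynomial.natDegree_X, mul_one]
      rw [this]; exact hP j) hg hgb) hf hfb
  filter_upwards [h1, h2] with a ha1 ha2
  filter_upwards [ha1, ha2] with x hx1 hx2
  set L : ℂ := ∏ j, (μ[f j | MeasurableSpace.invariants (T j)]) x with hL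
  set φ : ℤ → ℂ := fun n => ∏ j, f j (((T j) ^ ⌊a j * (P j).eval (n : ℝ)⌋ : Equiv.Perm X) x) with hφ
  have e1 : ∀ N : ℕ, ∑ n ∈ Icc (-(N : ℤ)) N, φ n = φ 0 + ∑ n ∈ Icc 1 N, φ (n : ℤ) + ∑ n ∈ Icc 1 N, φ (-(n : ℤ)) := by
    intro N
    induction N with
    | zero => simp
    | succ N ih =>
      have hI : Icc (-((N + 1 : ℕ) : ℤ)) ((N + 1 : ℕ) : ℤ) =
          insert (-((N + 1 : ℕ) : ℤ)) (insert ((N + 1 : ℕ) : ℤ) (Icc (-(N : ℤ)) N)) := by
        ext z
        simp only [mem_Icc, mem_insert]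
        push_cast
        omega
      rw [hI, sum_insert, sum_insert, ih, sum_Icc_succ_top (by omega), sum_Icc_succ_top (by omega)]
      · ring
      · simp only [mem_Icc]; push_cast; omega
      · simp only [mem_Icc, mem_insert]; push_cast; omega
  have e2 : ∀ n : ℕ, φ (n : ℤ) = ∏ j, f j (((T j) ^ ⌊a j * (P j).eval (n : ℝ)⌋ : Equiv.Perm X) x) := by
    intro n; simp only [hφ]; push_cast; rfl
  have e3 : ∀ n : ℕ, φ (-(n : ℤ)) =
      ∏ j, f j (((T j) ^ ⌊a j * ((P j).comp (-Polynomial.X)).eval (n : ℝ)⌋ : Equiv.Perm X) x) := by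
    intro n; simp only [hφ, Polynomial.eval_comp, Polynomial.eval_neg, Polynomial.eval_X]; push_cast; rfl
  have e4 : ∀ N : ℕ, (1 / (2 * (N : ℂ) + 1)) * ∑ n ∈ Icc (-(N : ℤ)) N, φ n =
      φ 0 * (1 / (2 * (N : ℂ) + 1)) + ((N : ℂ) / (2 * (N : ℂ) + 1)) *
        ((1 / (N : ℂ)) * ∑ n ∈ Icc 1 N, ∏ j, f j (((T j) ^ ⌊a j * (P j).eval (n : ℝ)⌋ : Equiv.Perm X) x) +
        (1 / (N : ℂ)) * ∑ n ∈ Icc 1 N,
          ∏ j, f j (((T j) ^ ⌊a j * ((P j).comp (-Polynomial.X)).eval (n : ℝ)⌋ : Equiv.Perm X) x)) := by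
    intro N
    rw [e1]
    simp only [e2, e3]
    rcases Nat.eq_zero_or_pos N with rfl | hN
    · simp
    · have hN' : (N : ℂ) ≠ 0 := by exact_mod_cast hN.ne'
      field_simp
      ring
  have h5 : Tendsto (fun N : ℕ => (1 / (2 * (N : ℂ) + 1))) atTop (nhds 0) := by
    have : Tendsto (fun N : ℕ => (((1 / (2 * (N : ℝ) + 1)) : ℝ) : ℂ)) atTop (nhds ((0 : ℝ) : ℂ)) := by
      refine (Complex.continuous_ofReal.tendsto _).comp ?_
      refine Tendsto.div_atTop tendsto_const_nhds ?_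
      exact tendsto_atTop_add_const_right _ _ (Tendsto.const_mul_atTop (by norm_num) tendsto_natCast_atTop_atTop)
    simpa using this
  have h6 : Tendsto (fun N : ℕ => ((N : ℂ) / (2 * (N : ℂ) + 1))) atTop (nhds (1 / 2)) := by
    have e : (fun N : ℕ => ((N : ℂ) / (2 * (N : ℂ) + 1))) = fun N : ℕ => 1 / 2 - 1 / 2 * (1 / (2 * (N : ℂ) + 1)) := by
      funext N
      have : (2 * (N : ℂ) + 1) ≠ 0 := by
        have : ((2 * (N : ℝ) + 1 : ℝ) : ℂ) ≠ 0 := by
          exact_mod_cast (by positivity : (2 * (N : ℝ) + 1) ≠ 0)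
        simpa using this
      rw [div_eq_iff this, sub_mul, mul_assoc (1 / 2 : ℂ) (1 / (2 * (N : ℂ) + 1)), one_div_mul_cancel this]
      ring
    rw [e]
    have := (h5.const_mul (1 / 2 : ℂ)).const_sub (1 / 2 : ℂ)
    simpa using this
  have h7 := (h5.const_mul (φ 0)).add (h6.mul (hx1.add hx2))
  have e5 : φ 0 * 0 + 1 / 2 * (L + L) = L := by ring
  rw [e5] at h7
  refine h7.congr fun N => ?_
  exact (e4 N).symm

/-- invertible maps, essentially bounded functions, two-sided averages -/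
theorem inv_Linf {m : ℕ} {T : Fin m → Equiv.Perm X} (hT : ∀ j, MeasurePreserving (T j) μ μ)
    (hT' : ∀ j, Measurable (⇑((T j)⁻¹ : Equiv.Perm X))) {P : Fin m → Polynomial ℝ} (hP : ∀ j, 0 < (P j).natDegree)
    {f : Fin m → X → ℂ} (hf : ∀ j, AEStronglyMeasurable (f j) μ) (hfb : ∀ j, ∃ C : ℝ, ∀ᵐ x ∂μ, ‖f j x‖ ≤ C) :
    ∀ᵐ a : Fin m → ℝ, ∀ᵐ x ∂μ, Tendsto (fun N : ℕ => (1 / (2 * (N : ℂ) + 1)) * ∑ n ∈ Icc (-(N : ℤ)) N,
      ∏ j, f j (((T j) ^ ⌊a j * (P j).eval (n : ℝ)⌋ : Equiv.Perm X) x)) atTop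
        (nhds (∏ j, (μ[f j | MeasurableSpace.invariants (T j)]) x)) := by
  choose g hgm hgb hfg using fun j => exists_version (hf j) (hfb j)
  choose C hC using hgb
  have hb : ∃ C' : ℝ, ∀ j x, ‖g j x‖ ≤ C' := by
    refine ⟨∑ j, |C j|, fun j x => (hC j x).trans ((le_abs_self _).trans ?_)⟩
    exact Finset.single_le_sum (f := fun j => |C j|) (fun i _ => abs_nonneg _) (Finset.mem_univ j)
  have h1 := inv_cx (μ := μ) hT hT' hP hgm hb
  have h2 : ∀ᵐ x ∂μ, ∀ j, (μ[f j | MeasurableSpace.invariants (T j)]) x =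
      (μ[g j | MeasurableSpace.invariants (T j)]) x := by
    rw [ae_all_iff]
    exact fun j => condExp_congr_ae (hfg j)
  have h3 : ∀ᵐ x ∂μ, ∀ (k : ℤ) (j : Fin m), f j (((T j) ^ k : Equiv.Perm X) x) =
      g j (((T j) ^ k : Equiv.Perm X) x) := by
    rw [ae_all_iff]
    intro k
    rw [ae_all_iff]
    intro j
    have hmp : MeasurePreserving (⇑((T j) ^ k : Equiv.Perm X)) μ μ := by
      have h4 : ∀ n : ℕ, MeasurePreserving (⇑((T j) ^ n : Equiv.Perm X)) μ μ ∧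
          MeasurePreserving (⇑(((T j)⁻¹) ^ n : Equiv.Perm X)) μ μ := by
        intro n
        rw [Equiv.Perm.coe_pow, Equiv.Perm.coe_pow]
        exact ⟨(hT j).iterate n, (mp_inv (hT j) (hT' j)).iterate n⟩
      rcases Int.eq_nat_or_neg k with ⟨n, rfl | rfl⟩
      · rw [zpow_natCast]; exact (h4 n).1
      · rw [zpow_neg, zpow_natCast, ← inv_pow]; exact (h4 n).2
    exact hmp.quasiMeasurePreserving.ae (hfg j)
  filter_upwards [h1] with a ha
  filter_upwards [ha, h2, h3] with x hx hx2 hx3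
  simpa only [hx2, hx3] using hx

end Pool.Agent.Q182.Bty
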