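import Pool.Agent.Q182.CC1

/-!
# Lyapunov functions of circle diffeomorphisms with nondegenerate periodic points
-/

set_option autoImplicit false

open Filter Set Topology MeasureTheory intervalIntegral

namespace Pool.Agent.Q182.CC

open Pool.Agent.Q182.OT (sh)

theorem zeros_fin {g : ℝ → ℝ} (hg : Lift g) {p : ℤ} (hnd : ∀ t, g t = t + p → deriv g t ≠ 1) :
    (Icc (0 : ℝ) 1 ∩ {t | g t = t + p}).Finite := by
  by_contra hcon
  have hinf : (Icc (0 : ℝ) 1 ∩ {t | g t = t + p}).Infinite := hcon
  obtain ⟨z, -, hz⟩ := hinf.exists_accPt_of_subset_isCompact isCompact_Icc inter_subset_left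
  have hcl : IsClosed {t | g t = t + p} := isClosed_eq hg.cont (continuous_id.add continuous_const)
  have hz' : AccPt z (𝓟 {t | g t = t + p}) := hz.mono (principal_mono.2 inter_subset_right)
  have hzm : g z = z + p := by
    have := hz'.clusterPt
    rw [← mem_closure_iff_clusterPt, hcl.closure_eq] at this
    exact this
  have h1 : HasDerivAt (fun u => g u - u) (deriv g z - 1) z :=
    (hg.diff z).hasDerivAt.sub (hasDerivAt_id z)
  have h2 := h1.eventually_ne (c := (p : ℝ)) (sub_ne_zero.2 (hnd z hzm))
  rw [accPt_iff_frequently_nhdsNE] at hz'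
  obtain ⟨u, hu, hu'⟩ := (hz'.and_eventually h2).exists
  have hu2 : g u = u + p := hu
  apply hu'
  rw [hu2]
  ring

theorem exists_H {g : ℝ → ℝ} (hg : Lift g) {p : ℤ} {z : ℝ} (hz : g z = z + p)
    (hnd : deriv g z ≠ 1) :
    ∃ H : ℝ → ℝ, Continuous H ∧ (∀ t, H (t + 1) = H t) ∧ (∀ t, H t ≤ H (g t)) ∧
      ∀ t, H (g t) = H t → g t = t + p := by
  set D : ℝ → ℝ := fun t => g t - t - p with hD
  have hDc : Continuous D := (hg.cont.sub continuous_id).sub continuous_const
  have hD1 : ∀ t, D (t + 1) = D t := fun t => by simp only [hD, hg.one]; ring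
  set A : ℝ → ℝ := fun t => max (D t) 0 with hA
  set B : ℝ → ℝ := fun t => max (-D t) 0 with hB
  have hAc : Continuous A := hDc.max continuous_const
  have hBc : Continuous B := hDc.neg.max continuous_const
  set a := ∫ t in (0 : ℝ)..1, B t with ha
  set b := ∫ t in (0 : ℝ)..1, A t with hb
  have hA1 : Function.Periodic A 1 := fun t => by simp only [hA, hD1]
  have hB1 : Function.Periodic B 1 := fun t => by simp only [hB, hD1]
  have hDd : HasDerivAt D (deriv g z - 1) z :=
    ((hg.diff z).hasDerivAt.sub (hasDerivAt_id z)).sub_const _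
  have hDz : D z = 0 := by simp only [hD, hz]; ring
  have hsign : (∃ t, 0 < D t) ∧ ∃ t, D t < 0 := by
    by_contra hcon
    apply hnd
    rw [not_and_or] at hcon
    push Not at hcon
    rcases hcon with h | h
    · have hm : IsLocalMax D z := Eventually.of_forall fun t => by rw [hDz]; exact h t
      have := hm.hasDerivAt_eq_zero hDd
      linarith
    · have hm : IsLocalMin D z := Eventually.of_forall fun t => by rw [hDz]; exact h t
      have := hm.hasDerivAt_eq_zero hDd
      linarith
  have hpos : ∀ X : ℝ → ℝ, Continuous X → Function.Periodic X 1 → (∀ t, 0 ≤ X t) →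
      (∃ t, 0 < X t) → 0 < ∫ t in (0 : ℝ)..1, X t := by
    rintro X hX hX1 hX0 ⟨t, ht⟩
    have e := hX1.intervalIntegral_add_eq 0 t
    rw [zero_add] at e
    rw [e]
    refine intervalIntegral.integral_pos (by linarith) hX.continuousOn (fun u _ => hX0 u)
      ⟨t, left_mem_Icc.2 (by linarith), ht⟩
  have ha0 : 0 < a := hpos B hBc hB1 (fun t => le_max_right _ _) (by
    obtain ⟨t, ht⟩ := hsign.2
    exact ⟨t, lt_max_of_lt_left (by linarith)⟩)
  have hb0 : 0 < b := hpos A hAc hA1 (fun t => le_max_right _ _) (by
    obtain ⟨t, ht⟩ := hsign.1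
    exact ⟨t, lt_max_of_lt_left ht⟩)
  set φ : ℝ → ℝ := fun t => a * A t - b * B t with hφ
  have hφc : Continuous φ := (hAc.const_mul a).sub (hBc.const_mul b)
  have hint : ∀ x y, IntervalIntegrable φ volume x y := fun x y => hφc.intervalIntegrable x y
  have hφ1 : Function.Periodic φ 1 := fun t => by
    show a * A (t + 1) - b * B (t + 1) = a * A t - b * B t
    rw [hA1 t, hB1 t]
  have htot : ∫ t in (0 : ℝ)..1, φ t = 0 := by
    show ∫ t in (0 : ℝ)..1, (a * A t - b * B t) = 0
    rw [integral_sub ((hAc.const_mul a).intervalIntegrable _ _)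
      ((hBc.const_mul b).intervalIntegrable _ _), intervalIntegral.integral_const_mul, intervalIntegral.integral_const_mul, ← ha, ← hb]
    ring
  set H : ℝ → ℝ := fun s => ∫ t in (0 : ℝ)..s, φ t with hH
  have hdiff : ∀ x y, H y - H x = ∫ t in x..y, φ t := fun x y =>
    integral_interval_sub_left (hint 0 y) (hint 0 x)
  have hH1 : ∀ t, H (t + 1) = H t := by
    intro t
    have h1 := hdiff t (t + 1)
    rw [hφ1.intervalIntegral_add_eq t 0, zero_add, htot] at h1
    linarith
  have hHp : ∀ t, H (t + p) = H t := by
    intro t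
    have := OT.add_int (f := fun t => H t + t) (fun t => by
      show H (t + 1) + (t + 1) = H t + t + 1
      rw [hH1]
      ring) p t
    linarith
  have hstr : ∀ t, D t ≠ 0 → H t < H (g t) := by
    intro t ht
    have e : H (g t) = H (g t - p) := by
      rw [← hHp (g t - p)]
      congr 1
      ring
    rw [e]
    have h1 := hdiff t (g t - p)
    rcases lt_or_gt_of_ne ht with h | h
    · have hlt : g t - p < t := by simp only [hD] at h; linarith
      have h2 : ∀ u ∈ Icc (g t - p) t, D u < 0 ∨ u = g t - p := by
        intro u hu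
        rcases eq_or_lt_of_le hu.1 with h3 | h3
        · exact Or.inr h3.symm
        · left
          have := hg.mono.monotone hu.2
          simp only [hD]
          linarith
      have h3 : 0 < ∫ u in (g t - p)..t, -φ u := by
        refine intervalIntegral_pos_of_pos_on (hint _ _).neg ?_ hlt
        intro u hu
        have hDu : D u < 0 := by
          have := hg.mono.monotone hu.2.le
          have h5 := hu.1
          simp only [hD]
          linarith
        show 0 < -(a * max (D u) 0 - b * max (-D u) 0)
        rw [max_eq_right hDu.le, max_eq_left (by linarith)]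
        have := mul_pos hb0 (neg_pos.2 hDu)
        linarith
      rw [intervalIntegral.integral_neg] at h3
      have h4 : ∫ u in t..(g t - p), φ u = - ∫ u in (g t - p)..t, φ u :=
        intervalIntegral.integral_symm _ _
      linarith
    · have hlt : t < g t - p := by simp only [hD] at h; linarith
      have h3 : 0 < ∫ u in t..(g t - p), φ u := by
        refine intervalIntegral_pos_of_pos_on (hint _ _) ?_ hlt
        intro u hu
        have hDu : 0 < D u := by
          have := hg.mono.monotone hu.1.le
          have h5 := hu.2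
          simp only [hD]
          linarith
        show 0 < a * max (D u) 0 - b * max (-D u) 0
        rw [max_eq_left hDu.le, max_eq_right (by linarith)]
        have := mul_pos ha0 hDu
        linarith
      linarith
  refine ⟨H, ?_, hH1, fun t => ?_, fun t ht => ?_⟩
  · exact intervalIntegral.continuous_primitive (fun x y => hint x y) 0
  · by_cases h : D t = 0
    · have : g t = t + p := by simp only [hD] at h; linarith
      rw [this, hHp]
    · exact (hstr t h).le
  · by_contra hcon
    have h : D t ≠ 0 := fun h0 => hcon (by simp only [hD] at h0; linarith)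
    have := hstr t h
    linarith

/-- the Lyapunov function of a circle diffeomorphism -/
theorem exists_lyap {f : ℝ → ℝ} (hf : Lift f) {q : ℕ} {p : ℤ} (hG : Good q p f) :
    ∃ L : ℝ → ℝ, Continuous L ∧ (∀ t, L (t + 1) = L t) ∧ (∀ t, L t ≤ L (f t)) ∧
      (∀ t, L (f t) = L t → f^[q] t = t + p) ∧ (L '' {t | f^[q] t = t + p}).Finite := by
  obtain ⟨hq, ⟨z, hz⟩, hnd⟩ := hG
  obtain ⟨H, hHc, hH1, hHm, hHs⟩ := exists_H (hf.iter q) hz (hnd z hz)
  set L : ℝ → ℝ := fun t => ∑ k ∈ Finset.range q, H (f^[k] t) with hL
  have hHint : ∀ (k : ℤ) t, H (t + k) = H t := by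
    intro k t
    have := OT.add_int (f := fun t => H t + t) (fun t => by
      show H (t + 1) + (t + 1) = H t + t + 1
      rw [hH1]
      ring) k t
    linarith
  have hLf : ∀ t, L (f t) = L t + (H (f^[q] t) - H t) := by
    intro t
    have e : L (f t) = ∑ k ∈ Finset.range q, H (f^[k + 1] t) :=
      Finset.sum_congr rfl fun k _ => by rw [Function.iterate_succ_apply]
    rw [e]
    have h1 := Finset.sum_range_succ (fun k => H (f^[k] t)) q
    have h2 := Finset.sum_range_succ' (fun k => H (f^[k] t)) q
    rw [h1] at h2
    simp only [Function.iterate_zero, id] at h2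
    show _ = ∑ k ∈ Finset.range q, H (f^[k] t) + _
    linarith
  have hL1 : ∀ t, L (t + 1) = L t := fun t =>
    Finset.sum_congr rfl fun k _ => by rw [(hf.iter k).one, hH1]
  refine ⟨L, ?_, hL1, fun t => ?_, fun t ht => ?_, ?_⟩
  · exact continuous_finsetSum _ fun k _ => hHc.comp (hf.iter k).cont
  · rw [hLf]
    linarith [hHm t]
  · rw [hLf] at ht
    exact hHs t (by linarith)
  · refine ((zeros_fin (hf.iter q) hnd).image L).subset ?_
    rintro _ ⟨t, ht, rfl⟩
    refine ⟨Int.fract t, ⟨⟨Int.fract_nonneg _, (Int.fract_lt_one _).le⟩, ?_⟩, ?_⟩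
    · show f^[q] (Int.fract t) = Int.fract t + p
      have h1 := OT.add_int (f := f^[q]) (hf.iter q).one ⌊t⌋ (Int.fract t)
      rw [Int.fract_add_floor] at h1
      have h2 : f^[q] t = t + p := ht
      have h3 := Int.fract_add_floor t
      linarith
    · have h1 := OT.add_int (f := fun t => L t + t) (fun t => by
        show L (t + 1) + (t + 1) = L t + t + 1
        rw [hL1]
        ring) ⌊t⌋ (Int.fract t)
      simp only [Int.fract_add_floor] at h1
      have h3 := Int.fract_add_floor t
      linarith

end Pool.Agent.Q182.CC
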