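import Pool.Agent.Q182.MB2

/-!
# Axiom A approximations: degenerate critical points
-/

set_option autoImplicit false
set_option linter.unusedSectionVars false

open scoped Manifold ContDiff Topology NNReal
open Filter Set Metric

universe u

namespace Pool.Agent.Q182.MB

open Pool.Agent.H718R2.G Pool.Agent.TH80.OMS Pool.Agent.Y504.CO Pool.Agent.Y318.MN
  Pool.Agent.Q182.MC

/-- `Φ` increases `h` by the square of the gradient near `p`. -/
def GrowD (n : ℕ) {N : Type u} [TopologicalSpace N] [ChartedSpace (V n) N] (h : N → ℝ)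
    (Φ : N → N) (p : N) : Prop :=
  ∃ χ ∈ IsManifold.maximalAtlas (𝓡 n) ∞ N, p ∈ χ.source ∧ ∃ c : ℝ, 0 < c ∧
    ∀ᶠ y in 𝓝 p, h y + c * ‖fderiv ℝ (fun w => h (χ.symm w)) (χ y)‖ ^ 2 ≤ h (Φ y)

/-- every vector in the kernel of the second derivative of `h` at `z` is the velocity of a curve in
`K` -/
def Clean (n : ℕ) {N : Type u} [TopologicalSpace N] [ChartedSpace (V n) N] (K : Set N) (h : N → ℝ)
    (z : N) : Prop :=
  ∀ ψ ∈ IsManifold.maximalAtlas (𝓡 n) ∞ N, z ∈ ψ.source → ∀ w : V n,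
    fderiv ℝ (fderiv ℝ fun v => h (ψ.symm v)) (ψ z) w = 0 →
    ∃ c : ℝ → V n, c 0 = ψ z ∧ HasDerivAt c w 0 ∧ ∀ᶠ s in 𝓝 (0 : ℝ), ψ.symm (c s) ∈ K

/-- the derivatives of the iterates `F^m` which fix `z` have no nonzero bounded orbit in the kernel of
the second derivative of `h` at `z` -/
def HypKernel (n : ℕ) {N : Type u} [TopologicalSpace N] [ChartedSpace (V n) N] (F : N → N)
    (h : N → ℝ) (z : N) : Prop :=
  ∀ m : ℕ, 1 ≤ m → F^[m] z = z → ∀ ψ ∈ IsManifold.maximalAtlas (𝓡 n) ∞ N, z ∈ ψ.source →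
    ∀ v : ℤ → V n, (∃ C : ℝ, ∀ i, ‖v i‖ ≤ C) →
    (∀ i, v (i + 1) = fderiv ℝ (fun u => ψ (F^[m] (ψ.symm u))) (ψ z) (v i)) →
    (∀ i, fderiv ℝ (fderiv ℝ fun u => h (ψ.symm u)) (ψ z) (v i) = 0) → ∀ i, v i = 0

variable {n : ℕ} {N : Type u} [TopologicalSpace N] [T2Space N] [CompactSpace N]
  [ChartedSpace (V n) N] [IsManifold (𝓡 n) ∞ N]

theorem local_growD {h : N → ℝ} (hh : ContMDiff (𝓡 n) 𝓘(ℝ, ℝ) ∞ h) (z : N)
    (W : Set N) (hW : IsOpen W) (hzW : z ∈ W) {r : ℕ∞}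
    (hr : 1 ≤ r) (F : DiffM n N r) (U : Set (DiffM n N r)) (hU : IsOpen[strongTop n N r] U)
    (hFU : F ∈ U) :
    ∃ (Φ : N → N) (G : DiffM n N r), G ∈ U ∧ (∀ y, G y = F (Φ y)) ∧ IsPush n h ∅ Φ ∧
      (∃ K, IsClosed K ∧ K ⊆ W ∧ ∀ y, y ∉ K → Φ y = y) ∧ GrowD n h Φ z := by
  obtain ⟨O, χ, H, -, -, hχ, hzχ, hχ0, hH, he, L⟩ := local_push hh z W hW hzW
  obtain ⟨Φ, G, h1, h2, h3, h4, t, ht, h5⟩ := L r hr F U hU hFU
  refine ⟨Φ, G, h1, h2, h3.mono (empty_subset _), h4, χ, hχ, hzχ, t, ht, ?_⟩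
  have hcont : Tendsto χ (𝓝 z) (𝓝 0) := by
    have := (χ.continuousAt hzχ).tendsto
    rwa [hχ0] at this
  have he' : fderiv ℝ H =ᶠ[𝓝 0] fderiv ℝ (fun w => h (χ.symm w)) := he.fderiv
  have e1 := hcont.eventually he'
  have e2 : ∀ᶠ y in 𝓝 z, ‖χ y‖ < 1 / 4 := by
    have := hcont.norm
    rw [norm_zero] at this
    exact this.eventually (gt_mem_nhds (by norm_num))
  filter_upwards [e1, e2, χ.open_source.mem_nhds hzχ] with y k1 k2 k3
  have k4 := h5 y k3 k2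
  have k5 : ‖fderiv ℝ (fun w => h (χ.symm w)) (χ y)‖ ^ 2 ≤ ‖gr H (χ y)‖ ^ 2 := by
    rw [← k1]
    exact pow_le_pow_left₀ (norm_nonneg _) (norm_fderiv_le H _) 2
  have k6 := mul_le_mul_of_nonneg_left k5 ht.le
  linarith

theorem exists_push_growD {h : N → ℝ} (hh : ContMDiff (𝓡 n) 𝓘(ℝ, ℝ) ∞ h) {r : ℕ∞}
    (hr : 1 ≤ r) (F : DiffM n N r) (U : Set (DiffM n N r)) (hU : IsOpen[strongTop n N r] U)
    (hFU : F ∈ U) (P : Finset N) :
    ∃ (Φ : N → N) (G : DiffM n N r), G ∈ U ∧ (∀ y, G y = F (Φ y)) ∧ IsPush n h univ Φ ∧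
      ∀ p ∈ P, GrowD n h Φ p := by
  classical
  refine Finset.induction_on P ?_ ?_
  · obtain ⟨Φ, G, h1, h2, h3⟩ := exists_push hh hr F U hU hFU
    exact ⟨Φ, G, h1, h2, h3, fun p hp => absurd hp (Finset.notMem_empty p)⟩
  · intro p S hpS ih
    obtain ⟨Φ, G, h1, h2, h3, h4⟩ := ih
    obtain ⟨Φ', G', h1', h2', h3', ⟨K, hK, hKW, hKΦ⟩, χ, hχ, hpχ, c, hc, hgrow⟩ :=
      local_growD hh p ((S : Set N)ᶜ) S.finite_toSet.isClosed.isOpen_compl
        (by simpa using hpS) hr G U hU h1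
    refine ⟨Φ ∘ Φ', G', h1', fun y => ?_, ?_, ?_⟩
    · rw [h2', h2]; rfl
    · have := h3.comp h3'
      rwa [univ_union] at this
    · intro q hq
      rcases Finset.mem_insert.1 hq with rfl | hq
      · refine ⟨χ, hχ, hpχ, c, hc, ?_⟩
        filter_upwards [hgrow] with y hy
        exact hy.trans (h3.le _)
      · obtain ⟨χ₁, hχ₁, hq₁, c₁, hc₁, hg₁⟩ := h4 q hq
        refine ⟨χ₁, hχ₁, hq₁, c₁, hc₁, ?_⟩
        have hqK : q ∈ Kᶜ := fun hcon => hKW hcon hq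
        filter_upwards [hg₁, hK.isOpen_compl.mem_nhds hqK] with y hy hyK
        show _ ≤ h (Φ (Φ' y))
        rw [hKΦ y hyK]
        exact hy

theorem GrowD.chart {h : N → ℝ} (hh : ContMDiff (𝓡 n) 𝓘(ℝ, ℝ) ∞ h) {Φ : N → N} {p : N}
    (H : GrowD n h Φ p)
    {ψ : OpenPartialHomeomorph N (V n)} (hψ : ψ ∈ IsManifold.maximalAtlas (𝓡 n) ∞ N)
    (hp : p ∈ ψ.source) :
    ∃ c : ℝ, 0 < c ∧ ∀ᶠ y in 𝓝 p, h y + c * ‖fderiv ℝ (fun w => h (ψ.symm w)) (ψ y)‖ ^ 2 ≤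
      h (Φ y) := by
  obtain ⟨χ, hχ, hpχ, c, hc, hgrow⟩ := H
  -- the change of charts
  have hcd := trans_cd hψ hχ hp hpχ
  have hcont : ContinuousAt (fderiv ℝ (fun w => χ (ψ.symm w))) (ψ p) :=
    (hcd.fderiv_right (m := 0) (by simp)).continuousAt
  have hb : ∀ᶠ w in 𝓝 (ψ p), ‖fderiv ℝ (fun w => χ (ψ.symm w)) w‖ <
      ‖fderiv ℝ (fun w => χ (ψ.symm w)) (ψ p)‖ + 1 :=
    hcont.norm.eventually (gt_mem_nhds (by linarith))
  have hdiff : ∀ᶠ w in 𝓝 (ψ p), DifferentiableAt ℝ (fun w => χ (ψ.symm w)) w := by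
    have h1 := (hcd.of_le (m := 1) (by simp)).eventually (by simp)
    filter_upwards [h1] with w hw
    exact hw.differentiableAt (by simp)
  set B := ‖fderiv ℝ (fun w => χ (ψ.symm w)) (ψ p)‖ + 1 with hB
  have hB0 : 0 < B := by positivity
  refine ⟨c / B ^ 2, by positivity, ?_⟩
  have hψc := (ψ.continuousAt hp).tendsto
  filter_upwards [hgrow, hψc.eventually hb, hψc.eventually hdiff, ψ.open_source.mem_nhds hp,
    χ.open_source.mem_nhds hpχ] with y h1 h2 h3 h4 h5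
  have hχy : χ (ψ.symm (ψ y)) = χ y := by rw [ψ.left_inv h4]
  have e : (fun w => h (ψ.symm w)) =ᶠ[𝓝 (ψ y)]
      (fun w => h (χ.symm w)) ∘ (fun w => χ (ψ.symm w)) := by
    have h6 : Tendsto ψ.symm (𝓝 (ψ y)) (𝓝 y) := by
      have := (ψ.continuousAt_symm (ψ.map_source h4)).tendsto
      rwa [ψ.left_inv h4] at this
    filter_upwards [h6.eventually (χ.open_source.mem_nhds h5)] with w hw
    show h (ψ.symm w) = h (χ.symm (χ (ψ.symm w)))
    rw [χ.left_inv hw]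
  have hd : DifferentiableAt ℝ (fun w => h (χ.symm w)) (χ (ψ.symm (ψ y))) := by
    rw [hχy]
    exact (chart_cd hh hχ (χ.map_source h5)).differentiableAt (by simp)
  have h7 : fderiv ℝ (fun w => h (ψ.symm w)) (ψ y) =
      (fderiv ℝ (fun w => h (χ.symm w)) (χ y)).comp
        (fderiv ℝ (fun w => χ (ψ.symm w)) (ψ y)) := by
    rw [e.fderiv_eq]
    have h8 := fderiv_comp (ψ y) hd h3
    rw [hχy] at h8
    exact h8
  have h9 : ‖fderiv ℝ (fun w => h (ψ.symm w)) (ψ y)‖ ≤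
      ‖fderiv ℝ (fun w => h (χ.symm w)) (χ y)‖ * B := by
    rw [h7]
    refine (ContinuousLinearMap.opNorm_comp_le _ _).trans ?_
    exact mul_le_mul_of_nonneg_left h2.le (norm_nonneg _)
  have h10 : ‖fderiv ℝ (fun w => h (ψ.symm w)) (ψ y)‖ ^ 2 ≤
      (‖fderiv ℝ (fun w => h (χ.symm w)) (χ y)‖ * B) ^ 2 := pow_le_pow_left₀ (norm_nonneg _) h9 2
  have h11 : c / B ^ 2 * ‖fderiv ℝ (fun w => h (ψ.symm w)) (ψ y)‖ ^ 2 ≤
      c * ‖fderiv ℝ (fun w => h (χ.symm w)) (χ y)‖ ^ 2 := by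
    calc c / B ^ 2 * ‖fderiv ℝ (fun w => h (ψ.symm w)) (ψ y)‖ ^ 2
        ≤ c / B ^ 2 * (‖fderiv ℝ (fun w => h (χ.symm w)) (χ y)‖ * B) ^ 2 :=
          mul_le_mul_of_nonneg_left h10 (by positivity)
      _ = c * ‖fderiv ℝ (fun w => h (χ.symm w)) (χ y)‖ ^ 2 := by field_simp
  linarith

theorem coord_diff {r : ℕ∞} (hr : 1 ≤ r) (G : DiffM n N r) {m : ℕ} {p : N} (hmp : G^[m] p = p)
    {ψ : OpenPartialHomeomorph N (V n)} (hψ : ψ ∈ IsManifold.maximalAtlas (𝓡 n) ∞ N)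
    (hp : p ∈ ψ.source) :
    HasFDerivAt (fun v => ψ (G^[m] (ψ.symm v)))
      (fderiv ℝ (fun v => ψ (G^[m] (ψ.symm v))) (ψ p)) (ψ p) := by
  have h1 : ContDiffAt ℝ 1 (fun v => ψ (G^[m] (ψ.symm v))) (ψ p) :=
    Pool.Agent.Y863.CO.cda hr G m hψ hp (by rw [hmp]; exact hp)
  exact (h1.differentiableAt one_ne_zero).hasFDerivAt

/-- **Hyperbolicity.** -/
theorem hyp_of_growD {r : ℕ∞} (hr : 1 ≤ r) {F G : DiffM n N r} {h : N → ℝ} {Φ : N → N}
    (hh : ContMDiff (𝓡 n) 𝓘(ℝ, ℝ) ∞ h) (hm : ∀ x, h x ≤ h (F x)) (hG : ∀ y, G y = F (Φ y))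
    (hΦ : IsPush n h univ Φ) {p : N} (hpK : p ∈ CritInv n F h) (hgrow : GrowD n h Φ p)
    (hcl : Clean n (CritInv n F h) h p) (hk : HypKernel n F h p) :
    HypAt n G p := by
  intro m hm1 hmp ψ hψ hp v hbd hv
  obtain ⟨C, hC⟩ := hbd
  obtain ⟨c, hc, hgr⟩ := hgrow.chart hh hψ hp
  have hmpF : F^[m] p = p := by rw [← critInv_iter_eq hG hΦ hpK]; exact hmp
  set v₀ := ψ p with hv₀
  have hvt : v₀ ∈ ψ.target := ψ.map_source hp
  set g : V n → V n := fun v => ψ (G^[m] (ψ.symm v)) with hg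
  have hgd : HasFDerivAt g (fderiv ℝ g v₀) v₀ := coord_diff hr G hmp hψ hp
  have hfd := coord_diff hr F hmpF hψ hp
  have hfix : g v₀ = v₀ := by
    show ψ (G^[m] (ψ.symm v₀)) = v₀
    rw [hv₀, ψ.left_inv hp, hmp]
  have hmono : ∀ y, h (Φ y) ≤ h (G^[m] y) := by
    intro y
    obtain ⟨j, rfl⟩ : ∃ j, m = j + 1 := ⟨m - 1, by omega⟩
    rw [Function.iterate_succ_apply]
    refine le_trans ?_ (g_mono_iter hm hG hΦ (G y) j)
    rw [hG]
    exact hm _
  have hgrow' : ∀ᶠ v in 𝓝 v₀, h (ψ.symm v) + c * ‖fderiv ℝ (fun w => h (ψ.symm w)) v‖ ^ 2 ≤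
      h (ψ.symm (g v)) := by
    have k1 : Tendsto ψ.symm (𝓝 v₀) (𝓝 p) := by
      have := (ψ.continuousAt_symm hvt).tendsto
      rwa [hv₀, ψ.left_inv hp] at this
    have k2 : ∀ᶠ y in 𝓝 p, G^[m] y ∈ ψ.source := by
      have : ContinuousAt (G^[m]) p := (iter_smooth G m).continuous.continuousAt
      exact this.preimage_mem_nhds (by rw [hmp]; exact ψ.open_source.mem_nhds hp)
    filter_upwards [k1.eventually hgr, k1.eventually k2, ψ.open_target.mem_nhds hvt]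
      with v j1 j2 j3
    rw [ψ.right_inv j3] at j1
    show _ ≤ h (ψ.symm (ψ (G^[m] (ψ.symm v))))
    rw [ψ.left_inv j2]
    exact j1.trans (hmono _)
  have hso := second_order_grad (H := fun w => h (ψ.symm w)) ((chart_cd hh hψ hvt).of_le (m := 2)
    (WithTop.coe_le_coe.2 (le_top : (2 : ℕ∞) ≤ ⊤)))
    ((crit_iff hh hψ hp).1 (hpK 0).1) hgd hfix hgrow'
  have hker := ker_of_form (c := 2 * c) (by positivity) hso hC hv
  -- on the kernel the derivatives agree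
  have hag : ∀ w : V n, fderiv ℝ (fderiv ℝ fun u => h (ψ.symm u)) v₀ w = 0 →
      fderiv ℝ g v₀ w = fderiv ℝ (fun u => ψ (F^[m] (ψ.symm u))) v₀ w := by
    intro w hw
    obtain ⟨γ, hγ0, hγ, hγK⟩ := hcl ψ hψ hp w hw
    have hgd' : HasFDerivAt g (fderiv ℝ g v₀) (γ 0) := by rw [hγ0]; exact hgd
    have hfd' : HasFDerivAt (fun u => ψ (F^[m] (ψ.symm u)))
        (fderiv ℝ (fun u => ψ (F^[m] (ψ.symm u))) v₀) (γ 0) := by rw [hγ0]; exact hfd
    have d1 := hgd'.comp_hasDerivAt (0 : ℝ) hγ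
    have d2 := hfd'.comp_hasDerivAt (0 : ℝ) hγ
    have e : (g ∘ γ) =ᶠ[𝓝 0] ((fun u => ψ (F^[m] (ψ.symm u))) ∘ γ) := by
      filter_upwards [hγK] with s hs
      show ψ (G^[m] (ψ.symm (γ s))) = ψ (F^[m] (ψ.symm (γ s)))
      rw [critInv_iter_eq hG hΦ hs]
    exact d1.unique (d2.congr_of_eventuallyEq e)
  exact hk m hm1 hmpF ψ hψ hp v ⟨C, hC⟩ (fun i => by
    rw [← hag _ (hker i)]
    exact hv i) hker

/-- **No cycles**, if there are finitely many chain recurrent points in `CritInv`. -/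
theorem no_cycle_chain [TopologicalSpace.MetrizableSpace N] {r : ℕ∞} {F G : DiffM n N r} {h : N → ℝ}
    {Φ : N → N} (hc : Continuous h)
    (hm : ∀ x, h x ≤ h (F x)) (hG : ∀ y, G y = F (Φ y)) (hΦ : IsPush n h univ Φ)
    (hR : {a | ChainTo G (CritInv n F h) a a}.Finite) :
    Omega G = {a | ChainTo G (CritInv n F h) a a} ∧ FiniteNoCycle G := by
  let _ : MetricSpace N := TopologicalSpace.metrizableSpaceMetric N
  set K := CritInv n F h with hK
  have hGF : ∀ x ∈ K, G x = F x := fun x hx => by rw [hG, hΦ.fix x (hx 0).1]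
  have hgK : ∀ x ∈ K, G x ∈ K := fun x hx => by rw [hGF x hx]; exact crit_fwd hx
  have hgK' : ∀ x ∈ K, G.symm x ∈ K := by
    intro x hx
    have h1 : F.symm x ∈ K := crit_bwd hx
    have h2 : G (F.symm x) = x := by rw [hGF _ h1, F.apply_symm_apply]
    have h3 : G.symm x = F.symm x := by rw [← h2, G.symm_apply_apply, h2]
    rw [h3]
    exact h1
  have hKK : ∀ x, (∀ k : ℕ, h (G.toHomeomorph^[k] x) = h x ∧ h (G.toHomeomorph.symm^[k] x) = h x) →
      x ∈ K := fun x hx => critInv_of_const hm hG hΦ hx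
  have hsub : Omega G ⊆ {a | ChainTo G K a a} := fun x hx =>
    chain_of_omega G.toHomeomorph hc (g_mono hm hG hΦ) hKK hx
      (fun k => h_omega hc hm hG hΦ hx k)
  have hper : {a | ChainTo G K a a} ⊆ Per G := per_of_finite G.toHomeomorph hgK hgK' hR
  have heq : Omega G = {a | ChainTo G K a a} := subset_antisymm hsub (hper.trans (by
    rintro x ⟨m, hm1, hx⟩
    exact per_mem_omega hm1 hx))
  refine ⟨heq, ?_⟩
  have hOf : (Omega G).Finite := hR.subset hsub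
  refine ⟨hOf, ?_⟩
  intro k O hinj hO hcyc
  choose p hp hpO using hO
  choose x hx x' hx' z hz hz' using hcyc
  -- points of the orbits
  have hmem : ∀ i, ∀ y ∈ O i, y ∈ Omega G ∧ h y = h (p i) ∧ y ∈ Per G := by
    intro i y hy
    rw [hpO i] at hy
    obtain ⟨j, rfl⟩ := hy
    obtain ⟨m, hm1, hmp⟩ := hp i
    have h1 : p i ∈ Omega G := per_mem_omega hm1 hmp
    refine ⟨(omega_iter hc hm hG hΦ h1 j).2, (h_omega hc hm hG hΦ h1 j).1, m, hm1, ?_⟩
    rw [← Function.iterate_add_apply, add_comm, Function.iterate_add_apply, hmp]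
  have hup : ∀ i k, h (G^[k] (z i)) ≤ h (p (i + 1)) := by
    intro i k
    have h1 := hmem (i + 1) (x' i) (hx' i)
    rw [← h1.2.1]
    exact le_of_stab hc (g_mono hm hG hΦ) (fun k => (h_omega hc hm hG hΦ h1.1 k).1) (hz' i) k
  have hmono' : ∀ x, h (G.symm x) ≤ h x := by
    intro x
    have := g_mono hm hG hΦ (G.symm x)
    rwa [G.apply_symm_apply] at this
  have hlo : ∀ i k, h (p i) ≤ h (G.symm^[k] (z i)) := by
    intro i k
    have h1 := hmem i (x i) (hx i)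
    rw [← h1.2.1]
    have h2 := le_of_stab (g := G.symm) (h := fun y => - h y) hc.neg
      (fun y => neg_le_neg (hmono' y)) (x := x i) (z := z i)
      (fun k => by rw [(h_omega hc hm hG hΦ h1.1 k).2]) (hz i) k
    exact neg_le_neg_iff.1 h2
  have hle : ∀ i, h (p i) ≤ h (p (i + 1)) := fun i => (hlo i 0).trans (hup i 0)
  have heqh : ∀ i, h (p i) = h (p (i + 1)) := by
    have hs : ∑ i, h (p (i + 1)) = ∑ i, h (p i) :=
      Equiv.sum_comp (Equiv.addRight (1 : Fin (k + 2))) fun i => h (p i)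
    intro i
    exact (Finset.sum_eq_sum_iff_of_le (s := Finset.univ) fun i _ => hle i).1 hs.symm i
      (Finset.mem_univ i)
  have hup0 : ∀ (w : N) (k : ℕ), h w ≤ h (G^[k] w) := fun w k => g_mono_iter hm hG hΦ w k
  have hlo0 : ∀ (w : N) (k : ℕ), h (G.symm^[k] w) ≤ h w := by
    intro w k
    induction k with
    | zero => exact le_rfl
    | succ k ih => rw [Function.iterate_succ_apply']; exact (hmono' _).trans ih
  have hcr : ∀ i, z i ∈ K := by
    intro i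
    refine critInv_of_const hm hG hΦ (a := h (p i)) fun k => ⟨?_, ?_⟩
    · refine le_antisymm ((hup i k).trans (heqh i).symm.le) ?_
      exact (hlo i 0).trans (hup0 _ k)
    · refine le_antisymm ?_ (hlo i k)
      exact (hlo0 _ k).trans ((hup i 0).trans (heqh i).symm.le)
  have hOK : ∀ i, ∀ y ∈ O i, y ∈ K := fun i y hy => by
    have h1 : y ∈ {a | ChainTo G K a a} := by rw [← heq]; exact (hmem i y hy).1
    exact h1.mem_left
  -- the connecting orbits are chain recurrent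
  have hpK : ∀ i, p i ∈ K := fun i => hOK i (p i) (by rw [hpO i]; exact ⟨0, rfl⟩)
  have hstep : ∀ i, ChainTo G K (z i) (z (i + 1)) := by
    intro i
    obtain ⟨-, -, a', ha', hxa'⟩ := hmem (i + 1) (x' i) (hx' i)
    obtain ⟨-, -, a, ha, hxa⟩ := hmem (i + 1) (x (i + 1)) (hx (i + 1))
    have h1 : ChainTo G K (z i) (x' i) :=
      stab_chain G.toHomeomorph hgK (hOK _ _ (hx' i)) (hcr i) ha' hxa' (hz' i)
    have h3 : ChainTo G K (x (i + 1)) (z (i + 1)) :=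
      unstab_chain G.toHomeomorph hgK hgK' (hOK _ _ (hx (i + 1))) (hcr (i + 1)) ha hxa (hz (i + 1))
    have h2 : ChainTo G K (x' i) (x (i + 1)) := by
      have e1 := hx' i
      have e2 := hx (i + 1)
      rw [hpO (i + 1)] at e1 e2
      obtain ⟨j, hj⟩ := e1
      obtain ⟨l, hl⟩ := e2
      obtain ⟨m, hm1, hmp⟩ := hp (i + 1)
      rw [← hj, ← hl]
      exact per_chain G.toHomeomorph hgK (hpK (i + 1)) hm1 hmp j l
    exact (h1.trans h2).trans h3
  have hz0 : ChainTo G K (z 0) (z 0) :=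
    cyc_rel (r := fun a b => ChainTo G K a b) (fun a b c h1 h2 => h1.trans h2) z hstep
  obtain ⟨b, hb1, hb⟩ := hper hz0
  obtain ⟨a, ha1, ha⟩ := (hmem 0 (x 0) (hx 0)).2.2
  obtain ⟨a', ha1', ha'⟩ := (hmem (0 + 1) (x' 0) (hx' 0)).2.2
  have e1 : x' 0 = z 0 := eq_of_stab ha1' hb1 ha' hb (hz' 0)
  have e2 : x 0 = z 0 := eq_of_stab (g := G.symm) ha1 hb1 (symm_per G ha) (symm_per G hb) (hz 0)
  have h1 : z 0 ∈ orb G (p 0) := by
    have := hx 0
    rw [hpO 0, e2] at this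
    exact this
  have h2 : z 0 ∈ orb G (p (0 + 1)) := by
    have := hx' 0
    rw [hpO (0 + 1), e1] at this
    exact this
  have h3 : O 0 = O (0 + 1) := by
    rw [hpO 0, hpO (0 + 1)]
    exact (orb_eq (hp 0) h1).symm.trans (orb_eq (hp (0 + 1)) h2)
  have h4 := hinj h3
  have h5 : (1 : Fin (k + 2)) = 0 := by
    rw [zero_add] at h4
    exact h4.symm
  exact absurd h5 (by simp)

/-- **Axiom A approximations.** -/
theorem approx {r : ℕ∞} (hr : 1 ≤ r) (F : DiffM n N r) {h : N → ℝ}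
    (hh : ContMDiff (𝓡 n) 𝓘(ℝ, ℝ) ∞ h) (hm : ∀ x, h x ≤ h (F x))
    (hfin : {a | ChainTo F (CritInv n F h) a a}.Finite)
    (hz : ∀ z, ChainTo F (CritInv n F h) z z → Clean n (CritInv n F h) h z ∧ HypKernel n F h z)
    (U : Set (DiffM n N r)) (hU : IsOpen[strongTop n N r] U) (hFU : F ∈ U) :
    ∃ G ∈ U, (∀ x, h x ≤ h (G x)) ∧ (∀ x ∈ CritInv n F h, G x = F x) ∧
      Omega G = {a | ChainTo F (CritInv n F h) a a} ∧ FiniteNoCycle G ∧
      ∀ p ∈ Omega G, IsHyperbolicPer n G p := by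
  obtain ⟨Φ, G, hGU, hG, hΦ, hgrow⟩ := exists_push_growD hh hr F U hU hFU hfin.toFinset
  have hmet := exists_metric n N
  have hGF : ∀ x ∈ CritInv n F h, G x = F x := fun x hx => by rw [hG, hΦ.fix x (hx 0).1]
  have hR : {a | ChainTo G (CritInv n F h) a a} = {a | ChainTo F (CritInv n F h) a a} := by
    ext a
    exact ⟨fun ha => ChainTo.congr hGF ha, fun ha => ChainTo.congr (fun x hx => (hGF x hx).symm) ha⟩
  obtain ⟨h1, h2⟩ := no_cycle_chain hh.continuous hm hG hΦ (by rw [hR]; exact hfin)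
  rw [hR] at h1
  refine ⟨G, hGU, g_mono hm hG hΦ, hGF, h1, h2, fun p hp => ?_⟩
  have hpR : ChainTo F (CritInv n F h) p p := by
    have : p ∈ {a | ChainTo F (CritInv n F h) a a} := by rw [← h1]; exact hp
    exact this
  have hper : p ∈ Per G := by
    have hpG : p ∈ {a | ChainTo G (CritInv n F h) a a} := by rw [hR]; exact hpR
    let _ : MetricSpace N := TopologicalSpace.metrizableSpaceMetric N
    have hgK : ∀ x ∈ CritInv n F h, G x ∈ CritInv n F h :=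
      fun x hx => by rw [hGF x hx]; exact crit_fwd hx
    have hgK' : ∀ x ∈ CritInv n F h, G.symm x ∈ CritInv n F h := by
      intro x hx
      have h1 : F.symm x ∈ CritInv n F h := crit_bwd hx
      have h2 : G (F.symm x) = x := by rw [hGF _ h1, F.apply_symm_apply]
      have h3 : G.symm x = F.symm x := by rw [← h2, G.symm_apply_apply, h2]
      rw [h3]
      exact h1
    exact per_of_finite G.toHomeomorph hgK hgK' (by
      have : {a | ChainTo G (CritInv n F h) a a}.Finite := by rw [hR]; exact hfin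
      exact this) hpG
  obtain ⟨h3, h4⟩ := hz p hpR
  exact Plug.hyp_charpoly hr G hper (hyp_of_growD hr hh hm hG hΦ hpR.mem_left
    (hgrow p (by rw [Set.Finite.mem_toFinset]; exact hpR)) h3 h4)

end Pool.Agent.Q182.MB
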