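import Mathlib

/-!
# A touching fibre map gives an eigenvalue one
-/

set_option autoImplicit false

open Filter Set Topology

namespace Pool.Agent.Q182.OT

theorem eig {k n : ℕ} {c : EuclideanSpace ℝ (Fin k) → EuclideanSpace ℝ (Fin n)}
    {g : EuclideanSpace ℝ (Fin n) → EuclideanSpace ℝ (Fin n)}
    {D : EuclideanSpace ℝ (Fin n) →L[ℝ] EuclideanSpace ℝ (Fin n)}
    {Θ : EuclideanSpace ℝ (Fin k) → EuclideanSpace ℝ (Fin k)}
    {L : EuclideanSpace ℝ (Fin k) →L[ℝ] EuclideanSpace ℝ (Fin n)}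
    (hc : HasStrictFDerivAt c L 0) (hL : Function.Injective L) (hg : HasFDerivAt g D (c 0))
    (j : Fin k) (hΘc : ContinuousAt Θ 0) (hΘ0 : Θ 0 = 0)
    (hW : ∀ u, (∀ i < j, u i = 0) → ∀ i < j, Θ u i = 0)
    (hgc : ∀ᶠ u in 𝓝 (0 : EuclideanSpace ℝ (Fin k)), (∀ i < j, u i = 0) → g (c u) = c (Θ u))
    (R : ℝ → ℝ) (hR : ∀ u, (∀ i < j, u i = 0) → Θ u j = R (u j)) (hR0 : R 0 = 0)
    (hRt : (∀ t, R t ≤ t) ∨ (∀ t, t ≤ R t)) : ∃ x, x ≠ 0 ∧ D x = x := by
  obtain ⟨P0, hP0⟩ := LinearMap.exists_leftInverse_of_injective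
    (L : EuclideanSpace ℝ (Fin k) →ₗ[ℝ] EuclideanSpace ℝ (Fin n)) (LinearMap.ker_eq_bot.2 hL)
  set P : EuclideanSpace ℝ (Fin n) →L[ℝ] EuclideanSpace ℝ (Fin k) :=
    LinearMap.toContinuousLinearMap P0 with hP
  have hPL : ∀ u, P (L u) = u := fun u => by
    exact LinearMap.congr_fun hP0 u
  set Γ : EuclideanSpace ℝ (Fin k) → EuclideanSpace ℝ (Fin k) := fun v => P (c v - c 0) with hΓ
  have hΓ0 : Γ 0 = 0 := by simp [hΓ]
  have hΓd : HasStrictFDerivAt Γ
      ((ContinuousLinearEquiv.refl ℝ (EuclideanSpace ℝ (Fin k)) :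
        EuclideanSpace ℝ (Fin k) ≃L[ℝ] EuclideanSpace ℝ (Fin k)) :
        EuclideanSpace ℝ (Fin k) →L[ℝ] EuclideanSpace ℝ (Fin k)) 0 := by
    have h1 : HasStrictFDerivAt (fun v => P (c v - c 0)) (P.comp L) 0 :=
      P.hasStrictFDerivAt.comp (0 : EuclideanSpace ℝ (Fin k)) (hc.sub_const (c 0))
    have e : P.comp L = ((ContinuousLinearEquiv.refl ℝ (EuclideanSpace ℝ (Fin k)) :
        EuclideanSpace ℝ (Fin k) ≃L[ℝ] EuclideanSpace ℝ (Fin k)) :
        EuclideanSpace ℝ (Fin k) →L[ℝ] EuclideanSpace ℝ (Fin k)) := by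
      ext1 u
      exact hPL u
    rw [← e]
    exact h1
  set γ := hΓd.localInverse Γ _ 0 with hγ
  have hγd : HasStrictFDerivAt γ
      (((ContinuousLinearEquiv.refl ℝ (EuclideanSpace ℝ (Fin k))).symm :
        EuclideanSpace ℝ (Fin k) ≃L[ℝ] EuclideanSpace ℝ (Fin k)) :
        EuclideanSpace ℝ (Fin k) →L[ℝ] EuclideanSpace ℝ (Fin k)) (Γ 0) :=
    hΓd.to_localInverse
  have hγl : ∀ᶠ v in 𝓝 (0 : EuclideanSpace ℝ (Fin k)), γ (Γ v) = v :=
    hΓd.eventually_left_inverse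
  have hΘt : Tendsto Θ (𝓝 0) (𝓝 0) := by
    have := hΘc.tendsto
    rwa [hΘ0] at this
  set T : EuclideanSpace ℝ (Fin k) → EuclideanSpace ℝ (Fin k) :=
    fun u => γ (P (g (c u) - c 0)) with hT
  have hTΘ : ∀ᶠ u in 𝓝 (0 : EuclideanSpace ℝ (Fin k)), (∀ i < j, u i = 0) → T u = Θ u := by
    filter_upwards [hgc, hΘt.eventually hγl] with u h1 h2 hu
    show γ (P (g (c u) - c 0)) = Θ u
    rw [h1 hu]
    exact h2
  have hgc0 : g (c 0) = c 0 := by
    have := hgc.self_of_nhds (fun _ _ => rfl)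
    rw [this, hΘ0]
  set B : EuclideanSpace ℝ (Fin k) →L[ℝ] EuclideanSpace ℝ (Fin k) := P.comp (D.comp L) with hB
  have hTd : HasFDerivAt T B 0 := by
    have h1 : HasFDerivAt (fun u => g (c u)) (D.comp L) 0 :=
      hg.comp (0 : EuclideanSpace ℝ (Fin k)) hc.hasFDerivAt
    have h2 : HasFDerivAt (fun u => P (g (c u) - c 0)) (P.comp (D.comp L)) 0 :=
      P.hasFDerivAt.comp (0 : EuclideanSpace ℝ (Fin k)) (h1.sub_const (c 0))
    have h3 : (fun u => P (g (c u) - c 0)) 0 = Γ 0 := by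
      show P (g (c 0) - c 0) = P (c 0 - c 0)
      rw [hgc0]
    have hγd' := hγd.hasFDerivAt
    rw [← h3] at hγd'
    have h4 := hγd'.comp (0 : EuclideanSpace ℝ (Fin k)) h2
    exact h4
  -- curves
  have hline : ∀ u : EuclideanSpace ℝ (Fin k), HasDerivAt (fun τ : ℝ => τ • u) u 0 := by
    intro u
    have := (hasDerivAt_id (0 : ℝ)).smul_const u
    simpa using this
  have hlt : ∀ u : EuclideanSpace ℝ (Fin k), Tendsto (fun τ : ℝ => τ • u) (𝓝 0) (𝓝 0) := by
    intro u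
    have := (hline u).continuousAt.tendsto
    simpa using this
  have hTc : ∀ u, HasDerivAt (fun τ : ℝ => T (τ • u)) (B u) 0 := by
    intro u
    have h1 : HasFDerivAt T B ((0 : ℝ) • u) := by rw [zero_smul]; exact hTd
    exact HasFDerivAt.comp_hasDerivAt (l := T) (f := fun τ : ℝ => τ • u) (0 : ℝ) h1 (hline u)
  have hTci : ∀ u i, HasDerivAt (fun τ : ℝ => T (τ • u) i) (B u i) 0 := by
    intro u i
    exact (EuclideanSpace.proj (𝕜 := ℝ) i).hasFDerivAt.comp_hasDerivAt (0 : ℝ) (hTc u)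
  have hwl : ∀ u : EuclideanSpace ℝ (Fin k), (∀ i < j, u i = 0) → ∀ τ : ℝ, ∀ i < j,
      (τ • u) i = 0 := by
    intro u hu τ i hi
    rw [PiLp.smul_apply, hu i hi, smul_zero]
  have hBW : ∀ u, (∀ i < j, u i = 0) → ∀ i < j, B u i = 0 := by
    intro u hu i hi
    have h1 : HasDerivAt (fun _ : ℝ => (0 : ℝ)) (B u i) 0 := by
      refine (hTci u i).congr_of_eventuallyEq ?_
      filter_upwards [(hlt u).eventually hTΘ] with τ hτ
      rw [hτ (hwl u hu τ), hW _ (hwl u hu τ) i hi]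
    exact h1.unique (hasDerivAt_const (0 : ℝ) (0 : ℝ))
  have hBj : ∀ u, (∀ i < j, u i = 0) → B u j = u j := by
    intro u hu
    have h1 : HasDerivAt (fun τ : ℝ => R (τ * u j)) (B u j) 0 := by
      refine (hTci u j).congr_of_eventuallyEq ?_
      filter_upwards [(hlt u).eventually hTΘ] with τ hτ
      rw [hτ (hwl u hu τ), hR _ (hwl u hu τ), PiLp.smul_apply, smul_eq_mul]
    have h2 : HasDerivAt (fun τ : ℝ => τ * u j) (u j) 0 := by
      have := (hasDerivAt_id (0 : ℝ)).mul_const (u j)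
      simpa using this
    have h3 : HasDerivAt (fun τ : ℝ => R (τ * u j) - τ * u j) (B u j - u j) 0 := h1.sub h2
    have h4 : B u j - u j = 0 := by
      rcases hRt with h | h
      · have hm : IsLocalMax (fun τ : ℝ => R (τ * u j) - τ * u j) 0 := by
          refine Eventually.of_forall fun τ => ?_
          have := h (τ * u j)
          simp only [zero_mul, hR0]
          linarith
        exact hm.hasDerivAt_eq_zero h3
      · have hm : IsLocalMin (fun τ : ℝ => R (τ * u j) - τ * u j) 0 := by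
          refine Eventually.of_forall fun τ => ?_
          have := h (τ * u j)
          simp only [zero_mul, hR0]
          linarith
        exact hm.hasDerivAt_eq_zero h3
    linarith
  have hDL : ∀ u, (∀ i < j, u i = 0) → D (L u) = L (B u) := by
    intro u hu
    have hg' : HasFDerivAt g D (c ((0 : ℝ) • u)) := by rw [zero_smul]; exact hg
    have hc' : HasFDerivAt c L ((0 : ℝ) • u) := by rw [zero_smul]; exact hc.hasFDerivAt
    have h1 : HasDerivAt (fun τ : ℝ => g (c (τ • u))) (D (L u)) 0 :=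
      hg'.comp_hasDerivAt (0 : ℝ) (hc'.comp_hasDerivAt (0 : ℝ) (hline u))
    have hT0 : T ((0 : ℝ) • u) = 0 := by
      have h5 := hTΘ.self_of_nhds (fun _ _ => rfl)
      rw [zero_smul, h5, hΘ0]
    have hc'' : HasFDerivAt c L (T ((0 : ℝ) • u)) := by rw [hT0]; exact hc.hasFDerivAt
    have h2 : HasDerivAt (fun τ : ℝ => c (T (τ • u))) (L (B u)) 0 :=
      hc''.comp_hasDerivAt (0 : ℝ) (hTc u)
    have h3 : HasDerivAt (fun τ : ℝ => c (T (τ • u))) (D (L u)) 0 := by
      refine h1.congr_of_eventuallyEq ?_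
      filter_upwards [(hlt u).eventually hTΘ, (hlt u).eventually hgc] with τ h4 h5
      rw [h4 (hwl u hu τ), h5 (hwl u hu τ)]
    exact h3.unique h2
  -- linear algebra
  let W : Submodule ℝ (EuclideanSpace ℝ (Fin k)) :=
    { carrier := {u | ∀ i < j, u i = 0}
      add_mem' := fun {a b} ha hb i hi => by
        rw [PiLp.add_apply, ha i hi, hb i hi, add_zero]
      zero_mem' := fun i _ => rfl
      smul_mem' := fun t a ha i hi => by
        rw [PiLp.smul_apply, ha i hi, smul_zero] }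
  have hmap : ∀ u ∈ W, ((B : EuclideanSpace ℝ (Fin k) →ₗ[ℝ] EuclideanSpace ℝ (Fin k)) -
      (LinearMap.id : EuclideanSpace ℝ (Fin k) →ₗ[ℝ] EuclideanSpace ℝ (Fin k))) u ∈ W := by
    intro u hu i hi
    show (B u - u) i = 0
    rw [PiLp.sub_apply, hBW u hu i hi, hu i hi, sub_zero]
  set S : W →ₗ[ℝ] W := ((B : EuclideanSpace ℝ (Fin k) →ₗ[ℝ] EuclideanSpace ℝ (Fin k)) -
      (LinearMap.id : EuclideanSpace ℝ (Fin k) →ₗ[ℝ] EuclideanSpace ℝ (Fin k))).restrict hmap with hS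
  have hSj : ∀ u : W, (S u : EuclideanSpace ℝ (Fin k)) j = 0 := by
    intro u
    show (B (u : EuclideanSpace ℝ (Fin k)) - (u : EuclideanSpace ℝ (Fin k))) j = 0
    rw [PiLp.sub_apply, hBj _ u.2, sub_self]
  have hns : ¬ Function.Surjective S := by
    intro hs
    have hej : (EuclideanSpace.single j (1 : ℝ)) ∈ W := by
      intro i hi
      rw [PiLp.single_apply, if_neg hi.ne]
    obtain ⟨u, hu⟩ := hs ⟨_, hej⟩
    have h1 := hSj u
    rw [hu] at h1
    simp at h1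
  have hni : ¬ Function.Injective S := fun h => hns (LinearMap.injective_iff_surjective.1 h)
  rw [← LinearMap.ker_eq_bot, Submodule.eq_bot_iff] at hni
  push Not at hni
  obtain ⟨u, hu, hu0⟩ := hni
  have hBu : B (u : EuclideanSpace ℝ (Fin k)) = u := by
    have h1 : (S u : EuclideanSpace ℝ (Fin k)) = 0 := by
      rw [LinearMap.mem_ker.1 hu]
      rfl
    have h2 : B (u : EuclideanSpace ℝ (Fin k)) - (u : EuclideanSpace ℝ (Fin k)) = 0 := h1
    exact sub_eq_zero.1 h2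
  refine ⟨L u, ?_, ?_⟩
  · intro h
    apply hu0
    apply Subtype.ext
    apply hL
    rw [h]
    simp
  · rw [hDL _ u.2, hBu]

/-- An eigenvalue one is a root of the characteristic polynomial. -/
theorem charpoly_root {n : ℕ} (D : EuclideanSpace ℝ (Fin n) →L[ℝ] EuclideanSpace ℝ (Fin n))
    {x : EuclideanSpace ℝ (Fin n)} (hx : x ≠ 0) (h : D x = x) :
    ((LinearMap.charpoly (D : EuclideanSpace ℝ (Fin n) →ₗ[ℝ] EuclideanSpace ℝ (Fin n))).map
      (algebraMap ℝ ℂ)).IsRoot 1 := by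
  have h1 : (D : EuclideanSpace ℝ (Fin n) →ₗ[ℝ] EuclideanSpace ℝ (Fin n)).charpoly.IsRoot 1 := by
    rw [← Module.End.hasEigenvalue_iff_isRoot_charpoly]
    refine Module.End.hasEigenvalue_of_hasEigenvector (x := x) ⟨?_, hx⟩
    rw [Module.End.mem_eigenspace_iff]
    rw [one_smul]
    exact h
  have h2 := h1.map (f := algebraMap ℝ ℂ)
  rwa [map_one] at h2

end Pool.Agent.Q182.OT
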