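import Pool.Agent.Y318.MN.Main
import Pool.Agent.Q182.OT1
import Pool.Agent.Q182.OT2

/-!
# Smooth tori with triangular return maps: the basic calculus
-/

set_option autoImplicit false
set_option linter.unusedSectionVars false

open scoped Manifold ContDiff Topology
open Filter Set

universe u

namespace Pool.Agent.Q182.OT

open Pool.Agent.H718R2.G Pool.Agent.TH80.OMS Pool.Agent.Y504.CO Pool.Agent.TH290.CL
open Pool.Agent.TH80.CLX

/-- `Φ` is triangular: the `i`-th coordinate of `Φ(v)` depends only on `v_0, ..., v_i`. -/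
def Tri {k : ℕ} (Φ : V k → V k) : Prop :=
  ∀ (i : Fin k) (u v : V k), (∀ l ≤ i, u l = v l) → Φ u i = Φ v i

/-- the fibre through `c`: the coordinates `< j` are those of `c` -/
def fib {k : ℕ} (j : ℕ) (c : V k) : Set (V k) := {v | ∀ i : Fin k, (i : ℕ) < j → v i = c i}

/-- `c` with the coordinate `j` replaced by `t` -/
noncomputable def pt {k : ℕ} (c : V k) (j : Fin k) (t : ℝ) : V k :=
  c + (t - c j) • EuclideanSpace.single j (1 : ℝ)

theorem add_e {k : ℕ} (v : V k) (s : ℝ) (j i : Fin k) :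
    (v + s • EuclideanSpace.single j (1 : ℝ)) i = v i + if i = j then s else 0 := by
  rw [PiLp.add_apply, PiLp.smul_apply, PiLp.single_apply]
  split_ifs <;> simp

theorem pt_same {k : ℕ} (c : V k) (j : Fin k) (t : ℝ) : pt c j t j = t := by
  rw [pt, add_e, if_pos rfl]
  ring

theorem pt_ne {k : ℕ} (c : V k) {i j : Fin k} (h : i ≠ j) (t : ℝ) : pt c j t i = c i := by
  rw [pt, add_e, if_neg h, add_zero]

theorem pt_fib {k : ℕ} (c : V k) (j : Fin k) (t : ℝ) : pt c j t ∈ fib j c := by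
  intro i hi
  exact pt_ne c (fun h => by rw [h] at hi; exact lt_irrefl _ hi) t

theorem self_fib {k : ℕ} (j : ℕ) (c : V k) : c ∈ fib j c := fun _ _ => rfl

theorem fib_succ {k : ℕ} {c : V k} {j : Fin k} {t : ℝ} {v : V k}
    (h : v ∈ fib ((j : ℕ) + 1) (pt c j t)) : v ∈ fib j c ∧ v j = t := by
  refine ⟨fun i hi => ?_, ?_⟩
  · rw [h i (by omega)]
    exact pt_fib c j t i hi
  · rw [h j (by omega), pt_same]

theorem fib_succ' {k : ℕ} {c : V k} {j : Fin k} {v : V k} (h : v ∈ fib j c) :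
    v ∈ fib ((j : ℕ) + 1) (pt c j (v j)) := by
  intro i hi
  rcases lt_or_eq_of_le (show (i : ℕ) ≤ j by omega) with h1 | h1
  · rw [h i h1]
    exact (pt_fib c j _ i h1).symm
  · have h2 : i = j := Fin.ext h1
    rw [h2, pt_same]

theorem Tri.iterate {k : ℕ} {Φ : V k → V k} (h : Tri Φ) (q : ℕ) : Tri (Φ^[q]) := by
  induction q with
  | zero => exact fun i u v huv => huv i le_rfl
  | succ q ih =>
    intro i u v huv
    rw [Function.iterate_succ_apply', Function.iterate_succ_apply']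
    exact h i _ _ fun l hl => ih l u v fun l' hl' => huv l' (hl'.trans hl)

/-- `G^m` acts on the fibre of `c` in the torus `E` by the triangular map `Φ` with inverse `Ψ`. -/
structure TM {k : ℕ} {N : Type u} (E : V k → N) (G : N → N) (j : ℕ) (c : V k) (m : ℕ)
    (Φ Ψ : V k → V k) : Prop where
  cont : Continuous Φ
  left : ∀ v, Ψ (Φ v) = v
  right : ∀ v, Φ (Ψ v) = v
  tri : Tri Φ
  tri' : Tri Ψ
  fix : ∀ i : Fin k, (i : ℕ) < j → Φ c i = c i
  ret : ∀ v ∈ fib j c, G^[m] (E v) = E (Φ v)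

/-- The images of the fibre before the return are disjoint from it. -/
def Disj {k : ℕ} {N : Type u} (E : V k → N) (G : N → N) (j : ℕ) (c : V k) (m : ℕ) : Prop :=
  ∀ l, 1 ≤ l → l < m → ∀ u ∈ fib j c, ∀ v ∈ fib j c, G^[l] (E u) ≠ E v

/-- base map -/
noncomputable def bs {k : ℕ} (Φ : V k → V k) (c : V k) (j : Fin k) : ℝ → ℝ := fun t => Φ (pt c j t) j

theorem pt_continuous {k : ℕ} (c : V k) (j : Fin k) : Continuous (pt c j) :=
  continuous_const.add ((continuous_id.sub continuous_const).smul continuous_const)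

theorem bs_cont {k : ℕ} {Φ : V k → V k} (h : Continuous Φ) (c : V k) (j : Fin k) :
    Continuous (bs Φ c j) :=
  (EuclideanSpace.proj (𝕜 := ℝ) j).continuous.comp (h.comp (pt_continuous c j))

theorem bs_eq {k : ℕ} {Φ : V k → V k} (h : Tri Φ) {c : V k} {j : Fin k} {v : V k}
    (hv : v ∈ fib j c) : Φ v j = bs Φ c j (v j) := by
  apply h
  intro l hl
  rcases lt_or_eq_of_le hl with h1 | h1
  · rw [hv l h1]
    exact (pt_fib c j _ l h1).symm
  · rw [h1, pt_same]

section tm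

variable {k : ℕ} {N : Type u} {E : V k → N} {G : N → N} {c : V k} {m : ℕ} {Φ Ψ : V k → V k}

theorem TM.phi_fib {j : ℕ} (h : TM E G j c m Φ Ψ) {v : V k} (hv : v ∈ fib j c) : Φ v ∈ fib j c := by
  intro i hi
  rw [← h.fix i hi]
  exact h.tri i _ _ fun l hl => hv l (lt_of_le_of_lt hl hi)

theorem TM.psi_fix {j : ℕ} (h : TM E G j c m Φ Ψ) (i : Fin k) (hi : (i : ℕ) < j) : Ψ c i = c i := by
  have h1 : Ψ c i = Ψ (Φ c) i := h.tri' i _ _ fun l hl => (h.fix l (lt_of_le_of_lt hl hi)).symm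
  rw [h1, h.left]

theorem TM.psi_fib {j : ℕ} (h : TM E G j c m Φ Ψ) {v : V k} (hv : v ∈ fib j c) : Ψ v ∈ fib j c := by
  intro i hi
  rw [← h.psi_fix i hi]
  exact h.tri' i _ _ fun l hl => hv l (lt_of_le_of_lt hl hi)

theorem TM.iter_fib {j : ℕ} (h : TM E G j c m Φ Ψ) {v : V k} (hv : v ∈ fib j c) (q : ℕ) :
    Φ^[q] v ∈ fib j c := by
  induction q with
  | zero => exact hv
  | succ q ih => rw [Function.iterate_succ_apply']; exact h.phi_fib ih

theorem TM.iter_ret {j : ℕ} (h : TM E G j c m Φ Ψ) {v : V k} (hv : v ∈ fib j c) (q : ℕ) :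
    G^[m * q] (E v) = E (Φ^[q] v) := by
  induction q with
  | zero => rfl
  | succ q ih =>
    rw [Nat.mul_succ, Nat.add_comm, Function.iterate_add_apply, ih, h.ret _ (h.iter_fib hv q),
      Function.iterate_succ_apply']

theorem TM.iter {j : ℕ} (h : TM E G j c m Φ Ψ) (q : ℕ) : TM E G j c (m * q) (Φ^[q]) (Ψ^[q]) where
  cont := h.cont.iterate q
  left := Function.LeftInverse.iterate (f := Φ) (g := Ψ) h.left q
  right := Function.LeftInverse.iterate (f := Ψ) (g := Φ) h.right q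
  tri := h.tri.iterate q
  tri' := h.tri'.iterate q
  fix := fun i hi => h.iter_fib (self_fib j c) q i hi
  ret := fun v hv => h.iter_ret hv q

theorem lat_e (hE : ∀ u v, E u = E v ↔ ∀ i, ∃ z : ℤ, u i = v i + z) (v : V k) (p : ℤ) (j : Fin k) :
    E (v + (p : ℝ) • EuclideanSpace.single j (1 : ℝ)) = E v := by
  rw [hE]
  intro i
  rw [add_e]
  split_ifs
  · exact ⟨p, rfl⟩
  · exact ⟨0, by simp⟩

theorem TM.shift {j : Fin k} (hE : ∀ u v, E u = E v ↔ ∀ i, ∃ z : ℤ, u i = v i + z)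
    (h : TM E G j c m Φ Ψ) (p : ℤ) :
    TM E G j c m (fun v => Φ v + ((-p : ℤ) : ℝ) • EuclideanSpace.single j (1 : ℝ))
      (fun v => Ψ (v + (p : ℝ) • EuclideanSpace.single j (1 : ℝ))) where
  cont := h.cont.add continuous_const
  left := fun v => by
    rw [add_assoc, ← add_smul]
    push_cast
    rw [neg_add_cancel, zero_smul, add_zero, h.left]
  right := fun v => by
    rw [h.right, add_assoc, ← add_smul]
    push_cast
    rw [add_neg_cancel, zero_smul, add_zero]
  tri := fun i u v huv => by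
    rw [add_e, add_e, h.tri i u v huv]
  tri' := fun i u v huv => by
    apply h.tri' i
    intro l hl
    rw [add_e, add_e, huv l hl]
  fix := fun i hi => by
    rw [add_e, if_neg (fun e => by rw [e] at hi; exact lt_irrefl _ hi), add_zero, h.fix i hi]
  ret := fun v hv => by
    rw [h.ret v hv, lat_e hE]

theorem TM.succ {j : Fin k} (h : TM E G j c m Φ Ψ) {t : ℝ} (ht : bs Φ c j t = t) :
    TM E G ((j : ℕ) + 1) (pt c j t) m Φ Ψ where
  cont := h.cont
  left := h.left
  right := h.right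
  tri := h.tri
  tri' := h.tri'
  fix := fun i hi => by
    rcases lt_or_eq_of_le (show (i : ℕ) ≤ j by omega) with h1 | h1
    · rw [h.phi_fib (pt_fib c j t) i h1]
      exact (pt_fib c j t i h1).symm
    · have h2 : i = j := Fin.ext h1
      rw [h2, pt_same]
      exact ht
  ret := fun v hv => h.ret v (fib_succ hv).1

theorem bs_iter {j : Fin k} (h : TM E G j c m Φ Ψ) {v : V k} (hv : v ∈ fib j c) (q : ℕ) :
    Φ^[q] v j = (bs Φ c j)^[q] (v j) := by
  induction q with
  | zero => rfl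
  | succ q ih =>
    rw [Function.iterate_succ_apply', Function.iterate_succ_apply', ← ih]
    exact bs_eq h.tri (h.iter_fib hv q)

theorem bs_iter' {j : Fin k} (h : TM E G j c m Φ Ψ) (q : ℕ) :
    bs (Φ^[q]) c j = (bs Φ c j)^[q] := by
  funext t
  show Φ^[q] (pt c j t) j = _
  rw [bs_iter h (pt_fib c j t) q, pt_same]

theorem bs_inv {j : Fin k} (h : TM E G j c m Φ Ψ) (t : ℝ) : bs Φ c j (bs Ψ c j t) = t := by
  have h1 : Φ (Ψ (pt c j t)) j = bs Φ c j (Ψ (pt c j t) j) :=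
    bs_eq h.tri (h.psi_fib (pt_fib c j t))
  rw [h.right, pt_same] at h1
  exact h1.symm

theorem bs_inv' {j : Fin k} (h : TM E G j c m Φ Ψ) (t : ℝ) : bs Ψ c j (bs Φ c j t) = t := by
  have h1 : Ψ (Φ (pt c j t)) j = bs Ψ c j (Φ (pt c j t) j) :=
    bs_eq h.tri' (h.phi_fib (pt_fib c j t))
  rw [h.left, pt_same] at h1
  exact h1.symm

theorem pt_lat (hE : ∀ u v, E u = E v ↔ ∀ i, ∃ z : ℤ, u i = v i + z) (c : V k) (j : Fin k) (t : ℝ) :
    E (pt c j (t + 1)) = E (pt c j t) := by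
  rw [hE]
  intro i
  by_cases h : i = j
  · rw [h, pt_same, pt_same]
    exact ⟨1, by simp⟩
  · rw [pt_ne c h, pt_ne c h]
    exact ⟨0, by simp⟩

theorem bs_lat {j : Fin k} (hE : ∀ u v, E u = E v ↔ ∀ i, ∃ z : ℤ, u i = v i + z)
    (h : TM E G j c m Φ Ψ) (t : ℝ) : ∃ z : ℤ, bs Φ c j (t + 1) = bs Φ c j t + z := by
  have h1 : E (Φ (pt c j (t + 1))) = E (Φ (pt c j t)) := by
    rw [← h.ret _ (pt_fib c j _), ← h.ret _ (pt_fib c j _), pt_lat hE]
  exact (hE _ _).1 h1 j

theorem bs_lat' {j : Fin k} (hE : ∀ u v, E u = E v ↔ ∀ i, ∃ z : ℤ, u i = v i + z)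
    (hG : Function.Injective G) (h : TM E G j c m Φ Ψ) (t : ℝ) :
    ∃ z : ℤ, bs Ψ c j (t + 1) = bs Ψ c j t + z := by
  have h1 : E (Ψ (pt c j (t + 1))) = E (Ψ (pt c j t)) := by
    apply hG.iterate m
    rw [h.ret _ (h.psi_fib (pt_fib c j _)), h.ret _ (h.psi_fib (pt_fib c j _)), h.right, h.right,
      pt_lat hE]
  exact (hE _ _).1 h1 j

theorem bs_deg {j : Fin k} (hE : ∀ u v, E u = E v ↔ ∀ i, ∃ z : ℤ, u i = v i + z)
    (hG : Function.Injective G) (h : TM E G j c m Φ Ψ) (hm : StrictMono (bs Φ c j)) (t : ℝ) :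
    bs Φ c j (t + 1) = bs Φ c j t + 1 :=
  deg (bs_inv h) (bs_inv' h) (bs_lat hE h) (bs_lat' hE hG h) hm t

/-- Passage to a periodic fibre. -/
theorem descend {j : Fin k} (hE : ∀ u v, E u = E v ↔ ∀ i, ∃ z : ℤ, u i = v i + z)
    (hm : 1 ≤ m) (h : TM E G j c m Φ Ψ) (hd : Disj E G j c m) {t : ℝ} {q : ℕ} {p : ℤ}
    (hp : (bs Φ c j)^[q] t = t + p)
    (hmin : ∀ a, 1 ≤ a → a < q → ∀ z : ℤ, (bs Φ c j)^[a] t ≠ t + z) :
    TM E G ((j : ℕ) + 1) (pt c j t) (m * q)
      (fun v => Φ^[q] v + ((-p : ℤ) : ℝ) • EuclideanSpace.single j (1 : ℝ))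
      (fun v => Ψ^[q] (v + (p : ℝ) • EuclideanSpace.single j (1 : ℝ))) ∧
    Disj E G ((j : ℕ) + 1) (pt c j t) (m * q) := by
  constructor
  · apply ((h.iter q).shift hE p).succ
    show (Φ^[q] (pt c j t) + ((-p : ℤ) : ℝ) • EuclideanSpace.single j (1 : ℝ)) j = t
    rw [add_e, if_pos rfl, bs_iter h (pt_fib c j t) q, pt_same, hp]
    push_cast
    ring
  · intro l hl1 hl2 u hu v hv he
    obtain ⟨hu1, hu2⟩ := fib_succ hu
    obtain ⟨hv1, hv2⟩ := fib_succ hv
    have hl : l = l % m + m * (l / m) := (Nat.mod_add_div l m).symm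
    rw [hl, Function.iterate_add_apply, h.iter_ret hu1] at he
    rcases Nat.eq_zero_or_pos (l % m) with h0 | h0
    · rw [h0] at he hl
      have h1 : E (Φ^[l / m] u) = E v := he
      obtain ⟨z, hz⟩ := (hE _ _).1 h1 j
      rw [bs_iter h hu1, hu2, hv2] at hz
      refine hmin (l / m) ?_ ?_ z hz
      · rcases Nat.eq_zero_or_pos (l / m) with h2 | h2
        · rw [h2] at hl
          omega
        · exact h2
      · rw [Nat.div_lt_iff_lt_mul (by omega), Nat.mul_comm]
        exact hl2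
    · exact hd (l % m) h0 (Nat.mod_lt _ (by omega)) _ (h.iter_fib hu1 _) v hv1 he

end tm

section top

variable {k : ℕ} {N : Type u} [TopologicalSpace N] {E : V k → N}

theorem box_compact (s : Fin k → Set ℝ) (hs : ∀ i, IsCompact (s i)) :
    IsCompact {u : V k | ∀ i, u i ∈ s i} := by
  have h1 : IsCompact (Set.pi univ s) := isCompact_univ_pi hs
  have h2 : {u : V k | ∀ i, u i ∈ s i} = (WithLp.toLp 2) '' (Set.pi univ s) := by
    ext u
    constructor
    · intro hu
      exact ⟨WithLp.ofLp u, fun i _ => hu i, rfl⟩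
    · rintro ⟨w, hw, rfl⟩ i
      exact hw i (mem_univ i)
  rw [h2]
  exact h1.image (PiLp.continuous_toLp 2 _)

theorem img_compact (hE : ∀ u v, E u = E v ↔ ∀ i, ∃ z : ℤ, u i = v i + z) (hEc : Continuous E)
    (J : Fin k → Prop) (s : Fin k → Set ℝ) (hs : ∀ i, J i → IsCompact (s i)) :
    IsCompact (E '' {u | ∀ i, J i → u i ∈ s i}) := by
  classical
  have h1 : IsCompact {u : V k | ∀ i, u i ∈ (if J i then s i else Icc 0 1)} := by
    apply box_compact
    intro i
    split_ifs with h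
    · exact hs i h
    · exact isCompact_Icc
  have h2 : E '' {u | ∀ i, J i → u i ∈ s i} =
      E '' {u : V k | ∀ i, u i ∈ (if J i then s i else Icc 0 1)} := by
    apply Subset.antisymm
    · rintro _ ⟨u, hu, rfl⟩
      refine ⟨WithLp.toLp 2 (fun i => if J i then u i else Int.fract (u i)), ?_, ?_⟩
      · intro i
        show (if J i then u i else Int.fract (u i)) ∈ (if J i then s i else Icc 0 1)
        split_ifs with h
        · exact hu i h
        · exact ⟨Int.fract_nonneg _, (Int.fract_lt_one _).le⟩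
      · rw [hE]
        intro i
        show ∃ z : ℤ, (if J i then u i else Int.fract (u i)) = u i + z
        split_ifs with h
        · exact ⟨0, by simp⟩
        · exact ⟨-⌊u i⌋, by rw [Int.fract]; push_cast; ring⟩
    · rintro _ ⟨u, hu, rfl⟩
      refine ⟨u, fun i hi => ?_, rfl⟩
      have := hu i
      rwa [if_pos hi] at this
  rw [h2]
  exact h1.image hEc

theorem fib_compact (hE : ∀ u v, E u = E v ↔ ∀ i, ∃ z : ℤ, u i = v i + z) (hEc : Continuous E)
    (j : ℕ) (c : V k) : IsCompact (E '' fib j c) :=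
  img_compact hE hEc (fun i => (i : ℕ) < j) (fun i => {c i}) fun _ _ => isCompact_singleton

theorem fibT_compact (hE : ∀ u v, E u = E v ↔ ∀ i, ∃ z : ℤ, u i = v i + z) (hEc : Continuous E)
    (j : Fin k) (c : V k) {T : Set ℝ} (hT : IsCompact T) :
    IsCompact (E '' {u | u ∈ fib j c ∧ u j ∈ T}) := by
  classical
  have h := img_compact hE hEc (fun i => i ≤ j) (fun i => if i = j then T else {c i})
    (fun i _ => by
      split_ifs
      · exact hT
      · exact isCompact_singleton)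
  have e : {u : V k | u ∈ fib j c ∧ u j ∈ T} =
      {u | ∀ i, i ≤ j → u i ∈ (if i = j then T else {c i})} := by
    ext u
    constructor
    · rintro ⟨h1, h2⟩ i hi
      split_ifs with h3
      · rw [h3]; exact h2
      · exact h1 i (lt_of_le_of_ne hi (fun e => h3 (Fin.ext e)))
    · intro h1
      refine ⟨fun i hi => ?_, ?_⟩
      · have := h1 i (le_of_lt hi)
        rwa [if_neg (fun e => by rw [e] at hi; exact lt_irrefl _ hi)] at this
      · have := h1 j le_rfl
        rwa [if_pos rfl] at this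
  rw [e]
  exact h

/-- Birkhoff: recurrent points exist in compact invariant sets. -/
theorem exists_rec {X : Type u} [TopologicalSpace X] [T2Space X] (g : X → X) (hg : Continuous g)
    {K : Set X} (hK : IsCompact K) (hne : K.Nonempty) (hm : MapsTo g K K) : ∃ z ∈ K, z ∈ Rec g := by
  set S : Set (Set X) := {C | C ⊆ K ∧ IsClosed C ∧ C.Nonempty ∧ MapsTo g C C} with hS
  have hKS : K ∈ S := ⟨Subset.rfl, hK.isClosed, hne, hm⟩
  obtain ⟨C, hCK, hC⟩ := zorn_superset_nonempty S (by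
    intro ch hch hchain hchne
    refine ⟨⋂₀ ch, ⟨?_, ?_, ?_, ?_⟩, fun s hs => sInter_subset_of_mem hs⟩
    · obtain ⟨s, hs⟩ := hchne
      exact (sInter_subset_of_mem hs).trans (hch hs).1
    · exact isClosed_sInter fun s hs => (hch hs).2.1
    · have : Nonempty ch := hchne.to_subtype
      apply IsCompact.nonempty_sInter_of_directed_nonempty_isCompact_isClosed
      · intro a ha b hb
        rcases hchain.total ha hb with h | h
        · exact ⟨a, ha, Subset.rfl, h⟩
        · exact ⟨b, hb, h, Subset.rfl⟩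
      · exact fun s hs => (hch hs).2.2.1
      · exact fun s hs => hK.of_isClosed_subset (hch hs).2.1 (hch hs).1
      · exact fun s hs => (hch hs).2.1
    · intro x hx s hs
      exact (hch hs).2.2.2 (hx s hs)) K hKS
  obtain ⟨hC1, hCcl, ⟨z, hz⟩, hCm⟩ := hC.prop
  refine ⟨z, hC1 hz, ?_⟩
  set D : Set X := closure (range fun i : ℕ => g^[i + 1] z) with hD
  have hDC : D ⊆ C := by
    apply closure_minimal _ hCcl
    rintro _ ⟨i, rfl⟩
    exact (hCm.iterate (i + 1)) hz
  have hDS : D ∈ S := by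
    refine ⟨hDC.trans hC1, isClosed_closure, ⟨_, subset_closure ⟨0, rfl⟩⟩, ?_⟩
    intro x hx
    have h1 : g '' closure (range fun i : ℕ => g^[i + 1] z) ⊆
        closure (g '' (range fun i : ℕ => g^[i + 1] z)) := image_closure_subset_closure_image hg
    have h2 := h1 ⟨x, hx, rfl⟩
    refine closure_mono ?_ h2
    rintro _ ⟨_, ⟨i, rfl⟩, rfl⟩
    exact ⟨i + 1, by simp only; rw [Function.iterate_succ_apply' g (i + 1)]⟩
  have hzD : z ∈ D := hC.le_of_le hDS hDC hz
  intro W hW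
  obtain ⟨y, hyW, ⟨i, rfl⟩⟩ := mem_closure_iff_nhds.1 hzD W hW
  exact ⟨i + 1, by omega, hyW⟩

theorem rec_of_iterate {X : Type u} [TopologicalSpace X] {g : X → X} {m : ℕ} (hm : 1 ≤ m) {x : X}
    (h : x ∈ Rec (g^[m])) : x ∈ Rec g := by
  intro W hW
  obtain ⟨k, hk, hkW⟩ := h W hW
  rw [← Function.iterate_mul] at hkW
  exact ⟨m * k, Nat.mul_pos hm hk, hkW⟩

end top

section pert

variable {n : ℕ} {N : Type u} [TopologicalSpace N] [T2Space N] [CompactSpace N]
  [ChartedSpace (V n) N] [IsManifold (𝓡 n) ∞ N]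

theorem perturb {r : ℕ∞} (hr : 1 ≤ r) {U : Set (DiffM n N r)} (hU : IsOpen[strongTop n N r] U)
    {G : DiffM n N r} (hG : G ∈ U) {ψ : ℝ → N → N} (hψ : IsFlow n N ψ) {A B : Set N}
    (hA : IsClosed A) (hB : IsClosed B) (hAB : Disjoint B A) (z0 : N) :
    ∃ s0 : ℝ, 0 < s0 ∧ ∀ s, |s| ≤ s0 → ∃ G' ∈ U, (∀ y ∈ A, G' y = G (ψ s y)) ∧
      ∀ y ∈ B, G' y = G y := by
  obtain ⟨ρ, hρ0, hρ1, -⟩ := exists_contMDiffMap_zero_one_of_isClosed (n := ⊤) (𝓡 n) hB hA hAB
  have hρ : ContMDiff (𝓡 n) 𝓘(ℝ, ℝ) ∞ ρ := ρ.contMDiff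
  set a : V 1 → N → N := fun s y => ψ (s 0) y with ha
  have haA : ContMDiff ((𝓡 1).prod (𝓡 n)) (𝓡 n) ∞ (fun p : V 1 × N => a p.1 p.2) := by
    have h1 : ContMDiff ((𝓡 1).prod (𝓡 n)) (𝓘(ℝ, ℝ).prod (𝓡 n)) ∞
        (fun p : V 1 × N => ((p.1 0, p.2) : ℝ × N)) := by
      refine ContMDiff.prodMk ?_ contMDiff_snd
      have h2 : ContMDiff (𝓡 1) 𝓘(ℝ, ℝ) ∞ (fun s : V 1 => s 0) :=
        (EuclideanSpace.proj (𝕜 := ℝ) (0 : Fin 1)).contDiff.contMDiff
      exact h2.comp contMDiff_fst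
    exact hψ.smooth.comp h1
  obtain ⟨H, κ, hκ, hH0, hHf, hH⟩ := act_fam haA hρ (fun y => hψ.zero y)
    (fun s t y => by
      show ψ ((s + t) 0) y = ψ (s 0) (ψ (t 0) y)
      rw [PiLp.add_apply, hψ.add]) r G
  obtain ⟨κ', hκ', hmem⟩ := fam_mem r hr H hHf z0 U hU (by rw [hH0]; exact hG)
  refine ⟨min κ κ' / 2, half_pos (lt_min hκ hκ'), fun s hs => ?_⟩
  set σ : V 1 := EuclideanSpace.single 0 s with hσ
  have hσn : ‖σ‖ = |s| := by rw [hσ]; simp
  have hσ0 : σ 0 = s := by rw [hσ]; simp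
  have hlt : ‖σ‖ < min κ κ' := by
    rw [hσn]
    linarith [half_lt_self (lt_min hκ hκ')]
  refine ⟨H σ, hmem σ (hlt.trans_le (min_le_right _ _)), fun y hy => ?_, fun y hy => ?_⟩
  · rw [hH σ (hlt.trans_le (min_le_left _ _)) y]
    have h1 : ρ y = 1 := hρ1 hy
    show G (ψ ((ρ y • σ) 0) y) = _
    rw [h1, one_smul, hσ0]
  · rw [hH σ (hlt.trans_le (min_le_left _ _)) y]
    have h1 : ρ y = 0 := hρ0 hy
    show G (ψ ((ρ y • σ) 0) y) = _
    rw [h1, zero_smul]
    show G (ψ 0 y) = _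
    rw [hψ.zero]

end pert

end Pool.Agent.Q182.OT
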