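import Pool.Agent.Q182.CC2
import Pool.Agent.Q182.OT3
import Pool.Agent.Q182.MB3

/-!
# Perturbations along critical circles
-/

set_option autoImplicit false
set_option linter.unusedSectionVars false

open scoped Manifold ContDiff Topology
open Filter Set

universe u

namespace Pool.Agent.Q182.CC

open Pool.Agent.H718R2.G Pool.Agent.TH80.OMS Pool.Agent.Y504.CO Pool.Agent.TH290.CL
open Pool.Agent.TH80.CLX
open Pool.Agent.Q182.OT (sh)

variable {n : ℕ} {N : Type u} [TopologicalSpace N] [T2Space N] [CompactSpace N]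
  [ChartedSpace (V n) N] [IsManifold (𝓡 n) ∞ N]

theorem perturb_gen {r : ℕ∞} (hr : 1 ≤ r) {U : Set (DiffM n N r)} (hU : IsOpen[strongTop n N r] U)
    {G : DiffM n N r} (hG : G ∈ U) {ψ : ℝ → N → N} (hψ : IsFlow n N ψ) {ρ : N → ℝ}
    (hρ : ContMDiff (𝓡 n) 𝓘(ℝ, ℝ) ∞ ρ) (z0 : N) :
    ∃ s0 : ℝ, 0 < s0 ∧ ∀ s, |s| ≤ s0 → ∃ G' ∈ U, ∀ y, G' y = G (ψ (s * ρ y) y) := by
  set a : V 1 → N → N := fun s y => ψ (s 0) y with ha
  have haA : ContMDiff ((𝓡 1).prod (𝓡 n)) (𝓡 n) ∞ (fun p : V 1 × N => a p.1 p.2) := by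
    have h1 : ContMDiff ((𝓡 1).prod (𝓡 n)) (𝓘(ℝ, ℝ).prod (𝓡 n)) ∞
        (fun p : V 1 × N => ((p.1 0, p.2) : ℝ × N)) := by
      refine ContMDiff.prodMk ?_ contMDiff_snd
      have h2 : ContMDiff (𝓡 1) 𝓘(ℝ, ℝ) ∞ (fun s : V 1 => s 0) :=
        (EuclideanSpace.proj (𝕜 := ℝ) (0 : Fin 1)).contDiff.contMDiff
      exact h2.comp contMDiff_fst
    exact hψ.smooth.comp h1
  obtain ⟨H, κ, hκ, hH0, hHf, hH⟩ := act_fam haA hρ (fun y => hψ.zero y)
    (fun s t y => by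
      show ψ ((s + t) 0) y = ψ (s 0) (ψ (t 0) y)
      rw [PiLp.add_apply, hψ.add]) r G
  obtain ⟨κ', hκ', hmem⟩ := fam_mem r hr H hHf z0 U hU (by rw [hH0]; exact hG)
  refine ⟨min κ κ' / 2, half_pos (lt_min hκ hκ'), fun s hs => ?_⟩
  set σ : V 1 := EuclideanSpace.single 0 s with hσ
  have hσn : ‖σ‖ = |s| := by rw [hσ]; simp
  have hσ0 : σ 0 = s := by rw [hσ]; simp
  have hlt : ‖σ‖ < min κ κ' := by
    rw [hσn]
    linarith [half_lt_self (lt_min hκ hκ')]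
  refine ⟨H σ, hmem σ (hlt.trans_le (min_le_right _ _)), fun y => ?_⟩
  rw [hH σ (hlt.trans_le (min_le_left _ _)) y]
  show G (ψ ((ρ y • σ) 0) y) = _
  rw [PiLp.smul_apply, hσ0, smul_eq_mul, mul_comm]

/-- an embedded circle `γ` (parametrised by `ℝ/ℤ`) and a smooth flow which rotates it and preserves
`h` -/
structure Circ (n : ℕ) {N : Type u} [TopologicalSpace N] [ChartedSpace (V n) N] (h : N → ℝ)
    (γ : ℝ → N) (ψ : ℝ → N → N) : Prop where
  per : ∀ u v, γ u = γ v ↔ ∃ z : ℤ, u = v + z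
  flow : IsFlow n N ψ
  along : ∀ s t, ψ s (γ t) = γ (t + s)
  inv : ∀ s y, h (ψ s y) = h y

variable {h : N → ℝ} {γ : ℝ → N} {ψ : ℝ → N → N}

theorem Circ.orbit (hC : Circ n h γ ψ) (t : ℝ) : γ t = ψ t (γ 0) := by
  rw [hC.along, zero_add]

theorem Circ.cont (hC : Circ n h γ ψ) : Continuous γ := by
  have h1 : Continuous (fun q : ℝ × N => ψ q.1 q.2) := hC.flow.smooth.continuous
  have h2 : γ = fun t => ψ t (γ 0) := funext hC.orbit
  rw [h2]
  exact h1.comp (Continuous.prodMk continuous_id (continuous_const (y := γ 0)))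

theorem Circ.image (hC : Circ n h γ ψ) : range γ = γ '' Icc 0 1 := by
  apply Subset.antisymm
  · rintro _ ⟨t, rfl⟩
    refine ⟨Int.fract t, ⟨Int.fract_nonneg _, (Int.fract_lt_one _).le⟩, ?_⟩
    rw [hC.per]
    exact ⟨-⌊t⌋, by rw [Int.fract]; push_cast; ring⟩
  · rintro _ ⟨t, -, rfl⟩
    exact ⟨t, rfl⟩

theorem Circ.compact (hC : Circ n h γ ψ) : IsCompact (range γ) := by
  rw [hC.image]
  exact isCompact_Icc.image hC.cont

theorem Circ.rho (hC : Circ n h γ ψ) {ρ : N → ℝ} (hρ : ContMDiff (𝓡 n) 𝓘(ℝ, ℝ) ∞ ρ) :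
    ContDiff ℝ ∞ (fun t => ρ (γ t)) := by
  have h1 := line_smooth hC.flow hρ (γ 0)
  have h2 : (fun t => ρ (γ t)) = fun t => ρ (ψ t (γ 0)) := funext fun t => by rw [hC.orbit t]
  rw [h2]
  exact h1

theorem lift_bump {θ : ℝ → ℝ} (hθ : ContDiff ℝ ∞ θ) (hp : ∀ t, θ (t + 1) = θ t) :
    ∃ ε : ℝ, 0 < ε ∧ ∀ s, |s| ≤ ε → Lift (fun t => t + s * θ t) := by
  have h1 : ContDiff ℝ 1 θ := hθ.of_le (by simp)
  have hc : Continuous (deriv θ) := h1.continuous_deriv le_rfl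
  have hd : Differentiable ℝ θ := h1.differentiable one_ne_zero
  have hper : Function.Periodic (deriv θ) 1 := by
    intro t
    have h3 : HasDerivAt (fun t : ℝ => t + 1) 1 t := (hasDerivAt_id t).add_const (1 : ℝ)
    have h4 := (hd (t + 1)).hasDerivAt.comp t h3
    rw [mul_one] at h4
    have h5 : (θ ∘ fun t : ℝ => t + 1) = θ := funext hp
    rw [h5] at h4
    exact h4.unique (hd t).hasDerivAt
  obtain ⟨C, hC⟩ := (hper.compact_of_continuous one_ne_zero hc).isBounded.exists_norm_le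
  have hC' : ∀ t, |deriv θ t| ≤ |C| + 1 := fun t =>
    (hC _ (mem_range_self t)).trans ((le_abs_self C).trans (by linarith))
  have hC0 : 0 < |C| + 1 := by positivity
  refine ⟨1 / (2 * (|C| + 1)), by positivity, fun s hs => ?_⟩
  have hder : ∀ t, HasDerivAt (fun t => t + s * θ t) (1 + s * deriv θ t) t := fun t =>
    (hasDerivAt_id t).add ((hd t).hasDerivAt.const_mul s)
  refine ⟨contDiff_id.add (contDiff_const.mul h1), fun t => ?_, fun t => by
    show t + 1 + s * θ (t + 1) = t + s * θ t + 1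
    rw [hp]
    ring⟩
  rw [(hder t).deriv]
  have h6 : |s * deriv θ t| ≤ 1 / 2 := by
    rw [abs_mul]
    calc |s| * |deriv θ t| ≤ (1 / (2 * (|C| + 1))) * (|C| + 1) := by
          gcongr
          exact hC' t
      _ = 1 / 2 := by field_simp
  have := (abs_le.1 h6).1
  linarith

/-- one perturbation along the circle -/
theorem step1 {r : ℕ∞} (hr : 1 ≤ r) (hC : Circ n h γ ψ) {B : Set N} {U : Set (DiffM n N r)}
    (hU : IsOpen[strongTop n N r] U) {F : DiffM n N r} (hF : F ∈ U) (hm : ∀ x, h x ≤ h (F x))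
    {f : ℝ → ℝ} (hFf : ∀ t, F (γ t) = γ (f t)) {ρ : N → ℝ}
    (hρ : ContMDiff (𝓡 n) 𝓘(ℝ, ℝ) ∞ ρ) (hρB : ∀ y ∈ B, ρ y = 0) :
    ∃ s0 : ℝ, 0 < s0 ∧ ∀ s, |s| ≤ s0 → ∃ G ∈ U, (∀ x, h x ≤ h (G x)) ∧ (∀ y ∈ B, G y = F y) ∧
      ∀ t, G (γ t) = γ (f (t + s * ρ (γ t))) := by
  obtain ⟨s0, hs0, H⟩ := perturb_gen hr hU hF hC.flow hρ (γ 0)
  refine ⟨s0, hs0, fun s hs => ?_⟩
  obtain ⟨G, hGU, hG⟩ := H s hs
  refine ⟨G, hGU, fun x => ?_, fun y hy => ?_, fun t => ?_⟩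
  · rw [hG]
    refine le_trans ?_ (hm _)
    rw [hC.inv]
  · rw [hG, hρB y hy, mul_zero, hC.flow.zero]
  · rw [hG, hC.along, hFf]

theorem circle_step {r : ℕ∞} (hr : 1 ≤ r) (hC : Circ n h γ ψ) {B : Set N} (hB : IsClosed B)
    (hd : ∀ t, γ t ∉ B) {U : Set (DiffM n N r)} (hU : IsOpen[strongTop n N r] U)
    {F : DiffM n N r} (hF : F ∈ U) (hm : ∀ x, h x ≤ h (F x)) {f : ℝ → ℝ} (hf : Lift f)
    (hFf : ∀ t, F (γ t) = γ (f t)) :
    ∃ G ∈ U, (∀ x, h x ≤ h (G x)) ∧ (∀ y ∈ B, G y = F y) ∧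
      ∃ (g : ℝ → ℝ) (q : ℕ) (p : ℤ), Lift g ∧ (∀ t, G (γ t) = γ (g t)) ∧ Good q p g := by
  classical
  have hBA : Disjoint B (range γ) := by
    rw [Set.disjoint_left]
    rintro y hy ⟨t, rfl⟩
    exact hd t hy
  obtain ⟨ρ, hρ0, hρ1, -⟩ := exists_contMDiffMap_zero_one_of_isClosed (n := ⊤) (𝓡 n) hB
    hC.compact.isClosed hBA
  have hρ : ContMDiff (𝓡 n) 𝓘(ℝ, ℝ) ∞ ρ := ρ.contMDiff
  have hρB : ∀ y ∈ B, ρ y = 0 := fun y hy => hρ0 hy
  have hργ : ∀ t, ρ (γ t) = 1 := fun t => hρ1 (mem_range_self t)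
  -- a periodic point
  obtain ⟨s0, hs0, H0⟩ := step1 hr hC hU hF hm hFf hρ hρB
  obtain ⟨q, hq, s1, hs1, p, w1, hw1⟩ := OT.exists_per hf.cont hf.mono hs0
  obtain ⟨F1, hF1, hm1, hB1, hγ1⟩ := H0 s1 hs1
  set f1 := sh f s1 with hf1
  have hl1 : Lift f1 := hf.sh s1
  have hFf1 : ∀ t, F1 (γ t) = γ (f1 t) := by
    intro t
    rw [hγ1, hργ, mul_one]
    rfl
  obtain ⟨q', rfl⟩ : ∃ q', q = q' + 1 := ⟨q - 1, by omega⟩
  -- periodic points and non periodic points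
  obtain ⟨F2, hF2, hm2, hB2, f2, hl2, hFf2, w, hw, u0, hu0⟩ : ∃ F2 ∈ U, (∀ x, h x ≤ h (F2 x)) ∧
      (∀ y ∈ B, F2 y = F1 y) ∧ ∃ f2 : ℝ → ℝ, Lift f2 ∧ (∀ t, F2 (γ t) = γ (f2 t)) ∧
      ∃ w, f2^[q' + 1] w = w + p ∧ ∃ u0, f2^[q' + 1] u0 ≠ u0 + p := by
    by_cases hall : ∀ t, f1^[q' + 1] t = t + p
    swap
    · push Not at hall
      exact ⟨F1, hF1, hm1, fun _ _ => rfl, f1, hl1, hFf1, w1, hw1, hall⟩
    obtain ⟨w, hw⟩ : ∃ w : ℝ, ∀ (k : ℕ) (z : ℤ), w ≠ f1^[k] 0 + z := by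
      by_contra hcon
      push Not at hcon
      have h1 : (univ : Set ℝ) ⊆ range fun x : ℕ × ℤ => f1^[x.1] 0 + (x.2 : ℝ) := by
        intro w _
        obtain ⟨k, z, hkz⟩ := hcon w
        exact ⟨(k, z), hkz.symm⟩
      exact not_countable_univ ((countable_range _).mono h1)
    set O : Set N := γ '' ((fun k => f1^[k] w) '' (Iic q')) with hO
    have hOf : O.Finite := ((finite_Iic q').image _).image _
    have h0O : γ 0 ∉ O := by
      rintro ⟨_, ⟨k, hk, rfl⟩, he⟩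
      obtain ⟨z, hz⟩ := (hC.per _ _).1 he
      rw [zero_add] at hz
      have hk' : k ≤ q' := hk
      have h1 : f1^[q' + 1 - k] (f1^[k] w) = w + p := by
        rw [← Function.iterate_add_apply, Nat.sub_add_cancel (by omega)]
        exact hall w
      simp only at hz
      rw [hz] at h1
      have h2 := OT.add_int (f := f1^[q' + 1 - k]) (hl1.iter _).one z 0
      rw [zero_add] at h2
      rw [h2] at h1
      exact hw (q' + 1 - k) (z - p) (by push_cast; linarith)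
    have hd2 : Disjoint (B ∪ O) {γ 0} := by
      rw [Set.disjoint_right]
      rintro y rfl hy
      rcases hy with hy | hy
      · exact hd 0 hy
      · exact h0O hy
    obtain ⟨ρ2, hρ20, hρ21, hρ2r⟩ := exists_contMDiffMap_zero_one_of_isClosed (n := ⊤) (𝓡 n)
      (hB.union hOf.isClosed) isClosed_singleton hd2
    have hρ2 : ContMDiff (𝓡 n) 𝓘(ℝ, ℝ) ∞ ρ2 := ρ2.contMDiff
    obtain ⟨s2, hs2, H2⟩ := step1 hr hC hU hF1 hm1 hFf1 hρ2
      (B := B) (fun y hy => hρ20 (Or.inl hy))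
    obtain ⟨ε, hε, hlift⟩ := lift_bump (hC.rho hρ2) (fun t => by
      rw [(hC.per (t + 1) t).2 ⟨1, by push_cast; ring⟩])
    set s := min s2 ε with hs
    have hs0' : 0 < s := lt_min hs2 hε
    obtain ⟨F2, hF2, hm2, hB2, hγ2⟩ := H2 s (by rw [abs_of_pos hs0']; exact min_le_left _ _)
    set f2 : ℝ → ℝ := fun t => f1 (t + s * ρ2 (γ t)) with hf2
    have hl2 : Lift f2 := hl1.comp (hlift s (by rw [abs_of_pos hs0']; exact min_le_right _ _))
    refine ⟨F2, hF2, hm2, hB2, f2, hl2, hγ2, w, ?_, 0, ?_⟩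
    · have h1 : ∀ k, k ≤ q' + 1 → f2^[k] w = f1^[k] w := by
        intro k
        induction k with
        | zero => intro _; rfl
        | succ k ih =>
          intro hk
          rw [Function.iterate_succ_apply', Function.iterate_succ_apply', ih (by omega)]
          have h2 : ρ2 (γ (f1^[k] w)) = 0 :=
            hρ20 (Or.inr ⟨_, ⟨k, show k ≤ q' by omega, rfl⟩, rfl⟩)
          show f1 (f1^[k] w + s * ρ2 (γ (f1^[k] w))) = _
          rw [h2, mul_zero, add_zero]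
      rw [h1 _ le_rfl]
      exact hall w
    · have h1 : f1 ≤ f2 := by
        intro t
        apply hl1.mono.monotone
        have h3 : 0 ≤ ρ2 (γ t) := (hρ2r _).1
        have := mul_nonneg hs0'.le h3
        linarith
      have h2 : f1 0 < f2 0 := by
        apply hl1.mono
        have h3 : ρ2 (γ 0) = 1 := hρ21 rfl
        rw [h3]
        linarith
      have h3 : f1^[q' + 1] 0 < f2^[q' + 1] 0 := by
        rw [Function.iterate_succ_apply, Function.iterate_succ_apply]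
        exact ((hl1.iter q').mono h2).trans_le
          ((hl1.mono.monotone.iterate_le_of_le h1 q') (f2 0))
      rw [hall 0] at h3
      exact h3.ne'
  -- nondegenerate periodic points
  obtain ⟨s3, hs3, H3⟩ := step1 hr hC hU hF2 hm2 hFf2 hρ hρB
  obtain ⟨s, hs, hgood⟩ := exists_good hl2 q' p hw hu0 hs3
  obtain ⟨F3, hF3, hm3, hB3, hγ3⟩ := H3 s hs
  refine ⟨F3, hF3, hm3, fun y hy => by rw [hB3 y hy, hB2 y hy, hB1 y hy], sh f2 s, q' + 1, p,
    hl2.sh s, fun t => ?_, hgood⟩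
  rw [hγ3, hργ, mul_one]
  rfl

/-- all circles at once -/
theorem circles_step {r : ℕ∞} (hr : 1 ≤ r) {ι : Type} [Finite ι] {γ : ι → ℝ → N}
    {ψ : ι → ℝ → N → N} (hC : ∀ i, Circ n h (γ i) (ψ i)) {P : Set N} (hP : IsClosed P)
    (hdP : ∀ i t, γ i t ∉ P) (hdis : ∀ i j s t, γ i s = γ j t → i = j) (S : Finset ι) :
    ∀ {U : Set (DiffM n N r)} (_ : IsOpen[strongTop n N r] U)
    {F : DiffM n N r} (_ : F ∈ U) (_ : ∀ x, h x ≤ h (F x)) {f : ι → ℝ → ℝ} (_ : ∀ i, Lift (f i))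
    (_ : ∀ i t, F (γ i t) = γ i (f i t)),
    ∃ G ∈ U, (∀ x, h x ≤ h (G x)) ∧ (∀ y ∈ P, G y = F y) ∧
      ∃ g : ι → ℝ → ℝ, (∀ i, Lift (g i)) ∧ (∀ i t, G (γ i t) = γ i (g i t)) ∧
        ∀ i ∈ S, ∃ (q : ℕ) (p : ℤ), Good q p (g i) := by
  classical
  have := Fintype.ofFinite ι
  induction S using Finset.induction_on with
  | empty =>
    intro U hU F hF hm f hf hFf
    exact ⟨F, hF, hm, fun _ _ => rfl, f, hf, hFf, by simp⟩
  | insert i S hi ih =>
    intro U hU F hF hm f hf hFf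
    obtain ⟨G, hG, hGm, hGP, g, hg, hGg, hgood⟩ := ih hU hF hm hf hFf
    set B : Set N := P ∪ ⋃ j ∈ {j | j ≠ i}, range (γ j) with hB
    have hBc : IsClosed B := hP.union ((Set.toFinite {j | j ≠ i}).isClosed_biUnion
      fun j _ => (hC j).compact.isClosed)
    have hdB : ∀ t, γ i t ∉ B := by
      rintro t (ht | ht)
      · exact hdP i t ht
      · obtain ⟨j, hj, s, hs⟩ := mem_iUnion₂.1 ht
        exact hj (hdis j i s t hs)
    obtain ⟨G', hG', hm', hB', g', q, p, hl', hγ', hgd'⟩ :=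
      circle_step hr (hC i) hBc hdB hU hG hGm (hg i) (hGg i)
    have hne : ∀ j, j ≠ i → ∀ t, G' (γ j t) = γ j (g j t) := fun j hj t => by
      rw [hB' _ (Or.inr (mem_iUnion₂.2 ⟨j, hj, t, rfl⟩)), hGg]
    refine ⟨G', hG', hm', fun y hy => by rw [hB' y (Or.inl hy), hGP y hy],
      Function.update g i g', fun j => ?_, fun j t => ?_, fun j hj => ?_⟩
    · by_cases hji : j = i
      · subst hji; rw [Function.update_self]; exact hl'
      · rw [Function.update_of_ne hji]; exact hg j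
    · by_cases hji : j = i
      · subst hji; rw [Function.update_self]; exact hγ' t
      · rw [Function.update_of_ne hji]; exact hne j hji t
    · by_cases hji : j = i
      · subst hji; rw [Function.update_self]; exact ⟨q, p, hgd'⟩
      · rw [Function.update_of_ne hji]
        exact hgood j ((Finset.mem_insert.1 hj).resolve_left hji)

end Pool.Agent.Q182.CC
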