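import Pool.Agent.Q182.CC3

/-!
# Axiom A approximations of maps with critical circles
-/

set_option autoImplicit false
set_option linter.unusedSectionVars false

open scoped Manifold ContDiff Topology
open Filter Set

universe u

namespace Pool.Agent.Q182.CC

open Pool.Agent.H718R2.G Pool.Agent.TH80.OMS Pool.Agent.Y504.CO Pool.Agent.TH290.CL
open Pool.Agent.TH80.CLX Pool.Agent.Y318.MN Pool.Agent.Q182.MC Pool.Agent.Q182.MB
open Pool.Agent.Q182.OT (sh)

/-- chain recurrent points of maps with a Lyapunov function -/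
theorem chain_lyap {X : Type u} [TopologicalSpace X] [T2Space X] {F : X → X} (hF : Continuous F)
    {K : Set X} {L : X → ℝ} (hup : ∀ c, IsCompact {x | x ∈ K ∧ c ≤ L x})
    (hlo : ∀ c, IsCompact {x | x ∈ K ∧ L x ≤ c}) (hm : ∀ x ∈ K, L x ≤ L (F x))
    (hfin : (L '' {x | x ∈ K ∧ L (F x) = L x}).Finite) {a : X} (ha : ChainTo F K a a) :
    L (F a) = L a := by
  by_contra hne
  have haK : a ∈ K := ha.mem_left
  have hlt : L a < L (F a) := lt_of_le_of_ne (hm a haK) (Ne.symm hne)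
  obtain ⟨c, ⟨hc1, hc2⟩, hc3⟩ : ∃ c, c ∈ Ioo (L a) (L (F a)) ∧
      c ∉ L '' {x | x ∈ K ∧ L (F x) = L x} := by
    by_contra hcon
    push Not at hcon
    exact (Set.Ioo_infinite hlt) (hfin.subset hcon)
  set A : Set X := {x | x ∈ K ∧ c ≤ L x} ∪ {a} with hA
  have hAc : IsCompact A := (hup c).union isCompact_singleton
  have hFA : ∀ x ∈ A, c < L (F x) := by
    rintro x (⟨hx, hcx⟩ | rfl)
    · rcases eq_or_lt_of_le (hm x hx) with h | h
      · rw [← h]
        refine lt_of_le_of_ne hcx fun hcl => hc3 ⟨x, ⟨hx, h.symm⟩, hcl.symm⟩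
      · exact hcx.trans_lt h
    · exact hc2
  set W : Set (X × X) := ((F '' A) ×ˢ {x | x ∈ K ∧ L x ≤ c})ᶜ with hW
  have hWo : IsOpen W :=
    ((hAc.image hF).isClosed.prod (hlo c).isClosed).isOpen_compl
  have hWd : ∀ x, (x, x) ∈ W := by
    rintro x ⟨⟨y, hy, rfl⟩, -, hx2⟩
    exact absurd (hFA y hy) (not_lt.2 hx2)
  have hchain := ha W hWo hWd
  have key : ∀ b, Relation.TransGen (fun x y => x ∈ K ∧ y ∈ K ∧ (F x, y) ∈ W) a b →
      b ∈ K ∧ c < L b := by
    intro b hb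
    induction hb with
    | single h1 =>
      refine ⟨h1.2.1, ?_⟩
      by_contra hcon
      exact h1.2.2 ⟨⟨a, Or.inr rfl, rfl⟩, h1.2.1, not_lt.1 hcon⟩
    | tail _ h1 ih =>
      refine ⟨h1.2.1, ?_⟩
      by_contra hcon
      exact h1.2.2 ⟨⟨_, Or.inl ⟨ih.1, ih.2.le⟩, rfl⟩, h1.2.1, not_lt.1 hcon⟩
  exact absurd (key a hchain).2 (not_lt.2 hc1.le)

theorem Lift.int {f : ℝ → ℝ} (hf : Lift f) (t : ℝ) (k : ℤ) : f (t + k) = f t + k :=
  OT.add_int hf.one k t

theorem Lift.surj {f : ℝ → ℝ} (hf : Lift f) : Function.Surjective f := by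
  intro y
  obtain ⟨k, hk⟩ := exists_nat_ge |y - f 0|
  apply mem_range_of_exists_le_of_exists_ge hf.cont
  · refine ⟨0 + ((-k : ℤ) : ℝ), ?_⟩
    rw [hf.int]
    have := (abs_le.1 (hk : |y - f 0| ≤ k)).1
    push_cast
    linarith
  · refine ⟨0 + ((k : ℤ) : ℝ), ?_⟩
    rw [hf.int]
    have := (abs_le.1 (hk : |y - f 0| ≤ k)).2
    push_cast
    linarith

theorem Lift.der_int {f : ℝ → ℝ} (hf : Lift f) {t c : ℝ} (h : HasDerivAt f c t) (k : ℤ) :
    HasDerivAt f c (t + k) := by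
  have h1 : HasDerivAt (fun u : ℝ => f (u - k) + k) c (t + k) := by
    have h2 : HasDerivAt (fun u : ℝ => u - k) 1 (t + k) := (hasDerivAt_id _).sub_const _
    have h3 : HasDerivAt f c (t + k - k) := by rwa [add_sub_cancel_right]
    have h4 := h3.comp (t + (k : ℝ)) h2
    rw [mul_one] at h4
    exact h4.add_const _
  have e : (fun u : ℝ => f (u - k) + k) = f := by
    funext u
    rw [← hf.int, sub_add_cancel]
  rwa [e] at h1

theorem Lift.der_iter {f : ℝ → ℝ} (hf : Lift f) {t : ℝ} {p : ℤ} (ht : f t = t + p) (k : ℕ) :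
    HasDerivAt (f^[k]) ((deriv f t) ^ k) t := by
  induction k with
  | zero => simpa using hasDerivAt_id t
  | succ k ih =>
    have h1 := (hf.iter k).der_int ih p
    rw [← ht] at h1
    have h2 := h1.comp t (hf.diff t).hasDerivAt
    rw [pow_succ]
    exact h2

theorem deriv_ne_one {f : ℝ → ℝ} (hf : Lift f) {q m : ℕ} (hm : 1 ≤ m) {p p' : ℤ} {t : ℝ}
    (h1 : f^[q] t = t + p) (h2 : deriv (f^[q]) t ≠ 1) (h3 : f^[m] t = t + p') :
    deriv (f^[m]) t ≠ 1 := by
  intro h4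
  have e1 := (hf.iter m).der_iter h3 q
  have e2 := (hf.iter q).der_iter h1 m
  rw [← Function.iterate_mul] at e1 e2
  rw [mul_comm q m] at e2
  have h5 := e1.unique e2
  rw [h4, one_pow] at h5
  exact h2 ((pow_eq_one_iff_of_nonneg ((hf.iter q).pos t).le (by omega)).1 h5.symm)

theorem zero_of_bounded {a : ℤ → ℝ} {l C : ℝ} (hl : 0 < l) (hl1 : l ≠ 1) (ha : ∀ i, 0 ≤ a i)
    (haC : ∀ i, a i ≤ C) (hs : ∀ i, a (i + 1) = l * a i) (i : ℤ) : a i = 0 := by
  have hp : ∀ (k : ℕ) (j : ℤ), a (j + k) = l ^ k * a j := by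
    intro k
    induction k with
    | zero => intro j; simp
    | succ k ih =>
      intro j
      have e : j + ((k + 1 : ℕ) : ℤ) = j + k + 1 := by push_cast; ring
      rw [e, hs, ih, pow_succ]
      ring
  have hC0 : 0 ≤ C := (ha 0).trans (haC 0)
  rcases lt_or_gt_of_ne hl1 with h | h
  · have h1 : Tendsto (fun k : ℕ => l ^ k * C) atTop (𝓝 (0 * C)) :=
      (tendsto_pow_atTop_nhds_zero_of_lt_one hl.le h).mul_const C
    rw [zero_mul] at h1
    refine le_antisymm (ge_of_tendsto h1 (Eventually.of_forall fun k => ?_)) (ha i)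
    have h2 := hp k (i - k)
    rw [sub_add_cancel] at h2
    rw [h2]
    exact mul_le_mul_of_nonneg_left (haC _) (pow_nonneg hl.le _)
  · by_contra hne
    have hpos : 0 < a i := lt_of_le_of_ne (ha i) (Ne.symm hne)
    have h1 : Tendsto (fun k : ℕ => l ^ k * a i) atTop atTop :=
      (tendsto_pow_atTop_atTop_of_one_lt h).atTop_mul_const hpos
    obtain ⟨k, hk⟩ := (h1.eventually (eventually_gt_atTop C)).exists
    rw [← hp] at hk
    exact absurd (haC _) (not_le.2 hk)

variable {n : ℕ} {N : Type u} [TopologicalSpace N] [T2Space N] [CompactSpace N]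
  [ChartedSpace (V n) N] [IsManifold (𝓡 n) ∞ N]

/-- every vector in the kernel of the second derivative of `h` at `γ(t)` is tangent to `γ` -/
def NdAlong (n : ℕ) {N : Type u} [TopologicalSpace N] [ChartedSpace (V n) N] (h : N → ℝ)
    (γ : ℝ → N) : Prop :=
  ∀ t, ∀ χ ∈ IsManifold.maximalAtlas (𝓡 n) ∞ N, γ t ∈ χ.source → ∀ w : V n,
    fderiv ℝ (fderiv ℝ fun v => h (χ.symm v)) (χ (γ t)) w = 0 →
    ∃ c : ℝ, HasDerivAt (fun s : ℝ => χ (γ (t + c * s))) w 0

variable {h : N → ℝ} {γ : ℝ → N} {ψ : ℝ → N → N}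

theorem clean_circ (hC : Circ n h γ ψ) (hnd : NdAlong n h γ) {K : Set N} (hK : ∀ t, γ t ∈ K)
    (t : ℝ) : Clean n K h (γ t) := by
  intro χ hχ hz w hw
  obtain ⟨c, hc⟩ := hnd t χ hχ hz w hw
  refine ⟨fun s => χ (γ (t + c * s)), by simp, hc, ?_⟩
  have h1 : ContinuousAt (fun s : ℝ => γ (t + c * s)) 0 :=
    (hC.cont.comp (by fun_prop : Continuous fun s : ℝ => t + c * s)).continuousAt
  have h2 : ∀ᶠ s in 𝓝 (0 : ℝ), γ (t + c * s) ∈ χ.source := by
    apply h1.preimage_mem_nhds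
    simp only [mul_zero, add_zero]
    exact χ.open_source.mem_nhds hz
  filter_upwards [h2] with s hs
  rw [χ.left_inv hs]
  exact hK _

theorem hyp_circ {r : ℕ∞} (hr : 1 ≤ r) (hC : Circ n h γ ψ) (hnd : NdAlong n h γ)
    {F : DiffM n N r} {f : ℝ → ℝ} (hf : Lift f) (hFf : ∀ t, F (γ t) = γ (f t)) {q : ℕ} {p : ℤ}
    {t : ℝ} (h1 : f^[q] t = t + p) (h2 : deriv (f^[q]) t ≠ 1) : HypKernel n F h (γ t) := by
  intro m hm hmz χ hχ hz v hbd hv hker
  obtain ⟨C, hbd⟩ := hbd
  have hFi : ∀ (k : ℕ) u, F^[k] (γ u) = γ (f^[k] u) := by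
    intro k
    induction k with
    | zero => intro u; rfl
    | succ k ih => intro u; rw [Function.iterate_succ_apply, Function.iterate_succ_apply, hFf, ih]
  obtain ⟨p', hp'⟩ := (hC.per _ _).1 ((hFi m t).symm.trans hmz)
  have hl := deriv_ne_one hf hm h1 h2 hp'
  set l := deriv (f^[m]) t with hld
  have hlpos : 0 < l := (hf.iter m).pos t
  have hfm : HasDerivAt (f^[m]) l t := ((hf.iter m).diff t).hasDerivAt
  have hA := coord_diff hr F hmz hχ hz
  set A := fderiv ℝ (fun u => χ (F^[m] (χ.symm u))) (χ (γ t)) with hAd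
  have hstep : ∀ i, v (i + 1) = l • v i := by
    intro i
    rw [hv i]
    obtain ⟨c, hc⟩ := hnd t χ hχ hz (v i) (hker i)
    by_cases hc0 : c = 0
    · have h3 : v i = 0 := by
        rw [hc0] at hc
        have h4 : HasDerivAt (fun _ : ℝ => χ (γ (t + 0 * (0 : ℝ)))) (v i) 0 := by
          refine hc.congr_of_eventuallyEq (Eventually.of_forall fun s => ?_)
          simp
        exact h4.unique (hasDerivAt_const (0 : ℝ) (χ (γ (t + 0 * (0 : ℝ)))))
      rw [h3, map_zero, smul_zero]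
    · have hk : HasDerivAt (fun s : ℝ => χ (γ (t + s))) (c⁻¹ • v i) 0 := by
        have h4 : HasDerivAt (fun s : ℝ => c⁻¹ * s) c⁻¹ 0 := by
          simpa using (hasDerivAt_id (0 : ℝ)).const_mul c⁻¹
        have h5 : HasDerivAt (fun s : ℝ => χ (γ (t + c * s))) (v i) (c⁻¹ * 0) := by
          rw [mul_zero]; exact hc
        have h6 := h5.scomp (0 : ℝ) h4
        refine h6.congr_of_eventuallyEq (Eventually.of_forall fun s => ?_)
        show χ (γ (t + s)) = χ (γ (t + c * (c⁻¹ * s)))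
        rw [← mul_assoc, mul_inv_cancel₀ hc0, one_mul]
      -- the image
      have hA' : HasFDerivAt (fun u => χ (F^[m] (χ.symm u))) A
          ((fun s : ℝ => χ (γ (t + c * s))) 0) := by
        simp only [mul_zero, add_zero]
        exact hA
      have d1 := hA'.comp_hasDerivAt (0 : ℝ) hc
      have hin : HasDerivAt (fun s : ℝ => f^[m] (t + c * s) - p' - t) (l * c) 0 := by
        have h4 : HasDerivAt (fun s : ℝ => t + c * s) c 0 := by
          simpa using ((hasDerivAt_id (0 : ℝ)).const_mul c).const_add t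
        have h5 : HasDerivAt (f^[m]) l (t + c * 0) := by rw [mul_zero, add_zero]; exact hfm
        exact ((h5.comp (0 : ℝ) h4).sub_const _).sub_const _
      have hk' : HasDerivAt (fun s : ℝ => χ (γ (t + s))) (c⁻¹ • v i)
          ((fun s : ℝ => f^[m] (t + c * s) - p' - t) 0) := by
        simp only [mul_zero, add_zero]
        rw [hp', add_sub_cancel_right, sub_self]
        exact hk
      have d2 := hk'.scomp (0 : ℝ) hin
      have hev : ∀ᶠ s in 𝓝 (0 : ℝ), γ (t + c * s) ∈ χ.source := by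
        have h1 : ContinuousAt (fun s : ℝ => γ (t + c * s)) 0 :=
          (hC.cont.comp (by fun_prop : Continuous fun s : ℝ => t + c * s)).continuousAt
        apply h1.preimage_mem_nhds
        simp only [mul_zero, add_zero]
        exact χ.open_source.mem_nhds hz
      have e : ((fun u => χ (F^[m] (χ.symm u))) ∘ fun s : ℝ => χ (γ (t + c * s))) =ᶠ[𝓝 0]
          ((fun s : ℝ => χ (γ (t + s))) ∘ fun s : ℝ => f^[m] (t + c * s) - p' - t) := by
        filter_upwards [hev] with s hs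
        show χ (F^[m] (χ.symm (χ (γ (t + c * s))))) = χ (γ (t + (f^[m] (t + c * s) - p' - t)))
        rw [χ.left_inv hs, hFi]
        congr 1
        rw [hC.per]
        exact ⟨p', by ring⟩
      have d3 := d1.unique (d2.congr_of_eventuallyEq e)
      rw [d3, smul_smul, mul_assoc, mul_inv_cancel₀ hc0, mul_one]
  intro i
  have := zero_of_bounded (a := fun i => ‖v i‖) hlpos hl (fun i => norm_nonneg _) hbd
    (fun i => by rw [hstep i, norm_smul, Real.norm_eq_abs, abs_of_pos hlpos]) i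
  exact norm_eq_zero.1 this

/-- the critical set is a finite set of nondegenerate points and finitely many nondegenerate
circles -/
structure CritCirc (n : ℕ) {N : Type u} [TopologicalSpace N] [ChartedSpace (V n) N] (h : N → ℝ)
    (P : Set N) {ι : Type} (γ : ι → ℝ → N) (ψ : ι → ℝ → N → N) : Prop where
  fin : P.Finite
  circ : ∀ i, Circ n h (γ i) (ψ i)
  disj : ∀ i j s t, γ i s = γ j t → i = j
  off : ∀ i t, γ i t ∉ P
  crit : ∀ y, IsCrit n h y ↔ y ∈ P ∨ ∃ i t, γ i t = y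
  ndP : ∀ y ∈ P, ∀ χ ∈ IsManifold.maximalAtlas (𝓡 n) ∞ N, y ∈ χ.source → ∀ w : V n,
    fderiv ℝ (fderiv ℝ fun v => h (χ.symm v)) (χ y) w = 0 → w = 0
  nd : ∀ i, NdAlong n h (γ i)

theorem critInv_eq {r : ℕ∞} {P : Set N} {ι : Type} {γ : ι → ℝ → N} {ψ : ι → ℝ → N → N}
    (hS : CritCirc n h P γ ψ) {F : DiffM n N r} (hFP : ∀ y ∈ P, F y ∈ P) {f : ι → ℝ → ℝ}
    (hf : ∀ i, Lift (f i)) (hFf : ∀ i t, F (γ i t) = γ i (f i t)) :
    CritInv n F h = {y | y ∈ P ∨ ∃ i t, γ i t = y} := by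
  have hfw : ∀ y, (y ∈ P ∨ ∃ i t, γ i t = y) → (F y ∈ P ∨ ∃ i t, γ i t = F y) := by
    rintro y (hy | ⟨i, t, rfl⟩)
    · exact Or.inl (hFP y hy)
    · exact Or.inr ⟨i, f i t, (hFf i t).symm⟩
  have hPP : F '' P = P := by
    have h1 : F '' P ⊆ P := by
      rintro _ ⟨y, hy, rfl⟩
      exact hFP y hy
    have h2 : (F '' P).ncard = P.ncard :=
      Set.ncard_image_of_injective P (show Function.Injective F from F.injective)
    exact Set.eq_of_subset_of_ncard_le h1 h2.ge hS.fin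
  have hbw : ∀ y, (y ∈ P ∨ ∃ i t, γ i t = y) → (F.symm y ∈ P ∨ ∃ i t, γ i t = F.symm y) := by
    rintro y (hy | ⟨i, t, rfl⟩)
    · rw [← hPP] at hy
      obtain ⟨x, hx, rfl⟩ := hy
      left
      rwa [F.symm_apply_apply]
    · obtain ⟨u, rfl⟩ := (hf i).surj t
      right
      exact ⟨i, u, by rw [← hFf, F.symm_apply_apply]⟩
  ext x
  constructor
  · intro hx
    exact (hS.crit x).1 (hx 0).1
  · intro hx k
    constructor
    · have : ∀ k : ℕ, (F^[k] x ∈ P ∨ ∃ i t, γ i t = F^[k] x) := by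
        intro k
        induction k with
        | zero => exact hx
        | succ k ih => rw [Function.iterate_succ_apply']; exact hfw _ ih
      exact (hS.crit _).2 (this k)
    · have : ∀ k : ℕ, (F.symm^[k] x ∈ P ∨ ∃ i t, γ i t = F.symm^[k] x) := by
        intro k
        induction k with
        | zero => exact hx
        | succ k ih => rw [Function.iterate_succ_apply']; exact hbw _ ih
      exact (hS.crit _).2 (this k)

/-- **Critical circles.** -/
theorem main {r : ℕ∞} (hr : 1 ≤ r) (hh : ContMDiff (𝓡 n) 𝓘(ℝ, ℝ) ∞ h) {P : Set N} {ι : Type}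
    [Finite ι] {γ : ι → ℝ → N} {ψ : ι → ℝ → N → N} (hS : CritCirc n h P γ ψ) (F : DiffM n N r)
    (hm : ∀ x, h x ≤ h (F x)) (hFP : ∀ y ∈ P, F y ∈ P) {f : ι → ℝ → ℝ} (hf : ∀ i, Lift (f i))
    (hFf : ∀ i t, F (γ i t) = γ i (f i t)) (U : Set (DiffM n N r))
    (hU : IsOpen[strongTop n N r] U) (hFU : F ∈ U) :
    ∃ G ∈ U, (∀ x, h x ≤ h (G x)) ∧ FiniteNoCycle G ∧ ∀ p ∈ Omega G, IsHyperbolicPer n G p := by
  classical
  have := Fintype.ofFinite ι
  obtain ⟨F', hF'U, hm', hF'P, g, hg, hF'g, hgood⟩ := circles_step hr hS.circ hS.fin.isClosed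
    hS.off hS.disj Finset.univ hU hFU hm hf hFf
  have hFP' : ∀ y ∈ P, F' y ∈ P := fun y hy => by rw [hF'P y hy]; exact hFP y hy
  have hK := critInv_eq hS hFP' hg hF'g
  choose q p hqp using fun i => hgood i (Finset.mem_univ i)
  choose L hLc hL1 hLm hLs hLf using fun i => exists_lyap (hg i) (hqp i)
  have hLint : ∀ i t (k : ℤ), L i (t + k) = L i t := by
    intro i t k
    have := OT.add_int (f := fun t => L i t + t) (fun t => by
      show L i (t + 1) + (t + 1) = L i t + t + 1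
      rw [hL1]
      ring) k t
    linarith
  -- the Lyapunov function
  set Λ : N → ℝ := fun x => if hx : ∃ a : ι × ℝ, γ a.1 a.2 = x then
    L hx.choose.1 hx.choose.2 else 0 with hΛ
  have hΛγ : ∀ i t, Λ (γ i t) = L i t := by
    intro i t
    have hx : ∃ a : ι × ℝ, γ a.1 a.2 = γ i t := ⟨(i, t), rfl⟩
    have e : Λ (γ i t) = L hx.choose.1 hx.choose.2 := dif_pos hx
    rw [e]
    have h1 := hx.choose_spec
    have h2 := hS.disj _ _ _ _ h1
    rw [h2] at h1 ⊢
    obtain ⟨z, hz⟩ := ((hS.circ i).per _ _).1 h1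
    rw [hz, hLint]
  have hΛP : ∀ y ∈ P, Λ y = 0 := by
    intro y hy
    apply dif_neg
    rintro ⟨a, rfl⟩
    exact hS.off _ _ hy
  have hcpt : ∀ Q : Set ℝ, IsClosed Q → IsCompact {x | x ∈ CritInv n F' h ∧ Λ x ∈ Q} := by
    intro Q hQ
    have e : {x | x ∈ CritInv n F' h ∧ Λ x ∈ Q} = {x | x ∈ P ∧ Λ x ∈ Q} ∪
        ⋃ i, γ i '' (Icc 0 1 ∩ L i ⁻¹' Q) := by
      ext x
      rw [hK]
      constructor
      · rintro ⟨hx | ⟨i, t, rfl⟩, hxQ⟩
        · exact Or.inl ⟨hx, hxQ⟩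
        · right
          rw [hΛγ] at hxQ
          refine mem_iUnion.2 ⟨i, Int.fract t, ⟨⟨Int.fract_nonneg _, (Int.fract_lt_one _).le⟩,
            ?_⟩, ?_⟩
          · show L i (Int.fract t) ∈ Q
            have h1 := hLint i (Int.fract t) ⌊t⌋
            rw [Int.fract_add_floor] at h1
            rwa [← h1]
          · rw [(hS.circ i).per]
            exact ⟨-⌊t⌋, by rw [Int.fract]; push_cast; ring⟩
      · rintro (⟨hx, hxQ⟩ | hx)
        · exact ⟨Or.inl hx, hxQ⟩
        · obtain ⟨i, t, ⟨-, ht⟩, rfl⟩ := mem_iUnion.1 hx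
          refine ⟨Or.inr ⟨i, t, rfl⟩, ?_⟩
          rw [hΛγ]
          exact ht
    rw [e]
    refine (hS.fin.subset fun x hx => hx.1).isCompact.union (isCompact_iUnion fun i => ?_)
    exact (isCompact_Icc.inter_right (hQ.preimage (hLc i))).image (hS.circ i).cont
  have hLy : ∀ a, ChainTo F' (CritInv n F' h) a a → Λ (F' a) = Λ a := by
    intro a ha
    refine chain_lyap F'.continuous (fun c => hcpt (Ici c) isClosed_Ici)
      (fun c => hcpt (Iic c) isClosed_Iic) ?_ ?_ ha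
    · intro x hx
      rw [hK] at hx
      rcases hx with hx | ⟨i, t, rfl⟩
      · rw [hΛP x hx, hΛP _ (hFP' x hx)]
      · rw [hF'g, hΛγ, hΛγ]
        exact hLm i t
    · refine Set.Finite.subset (s := {0} ∪ ⋃ i, L i '' {t | (g i)^[q i] t = t + p i})
        ((finite_singleton 0).union (finite_iUnion fun i => hLf i)) ?_
      rintro _ ⟨x, ⟨hx, hx'⟩, rfl⟩
      rw [hK] at hx
      rcases hx with hx | ⟨i, t, rfl⟩
      · exact Or.inl (hΛP x hx)
      · right
        rw [hF'g, hΛγ, hΛγ] at hx'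
        exact mem_iUnion.2 ⟨i, t, hLs i t hx', (hΛγ i t).symm⟩
  have hchar : ∀ a, ChainTo F' (CritInv n F' h) a a →
      a ∈ P ∨ ∃ i, ∃ t, (g i)^[q i] t = t + p i ∧ γ i t = a := by
    intro a ha
    have h1 := hLy a ha
    have h2 := ha.mem_left
    rw [hK] at h2
    rcases h2 with h2 | ⟨i, t, rfl⟩
    · exact Or.inl h2
    · rw [hF'g, hΛγ, hΛγ] at h1
      exact Or.inr ⟨i, t, hLs i t h1, rfl⟩
  obtain ⟨G, hGU, hGm, -, -, hG1, hG2⟩ := approx hr F' hh hm' (by
    refine Set.Finite.subset (s := P ∪ ⋃ i, γ i '' (Icc (0 : ℝ) 1 ∩ {t | (g i)^[q i] t = t + p i}))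
      (hS.fin.union (finite_iUnion fun i => (zeros_fin ((hg i).iter (q i)) (hqp i).2.2).image _)) ?_
    intro a ha
    rcases hchar a ha with h1 | ⟨i, t, ht, rfl⟩
    · exact Or.inl h1
    · right
      refine mem_iUnion.2 ⟨i, Int.fract t, ⟨⟨Int.fract_nonneg _, (Int.fract_lt_one _).le⟩, ?_⟩, ?_⟩
      · show (g i)^[q i] (Int.fract t) = Int.fract t + p i
        have h1 := ((hg i).iter (q i)).int (Int.fract t) ⌊t⌋
        rw [Int.fract_add_floor] at h1
        have h3 := Int.fract_add_floor t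
        linarith
      · rw [(hS.circ i).per]
        exact ⟨-⌊t⌋, by rw [Int.fract]; push_cast; ring⟩) (by
    intro z hz
    rcases hchar z hz with h1 | ⟨i, t, ht, rfl⟩
    · refine ⟨fun χ hχ hzs w hw => ?_, fun m _ _ χ hχ hzs v _ _ hker i =>
        hS.ndP z h1 χ hχ hzs (v i) (hker i)⟩
      have hw0 := hS.ndP z h1 χ hχ hzs w hw
      refine ⟨fun _ => χ z, rfl, by rw [hw0]; exact hasDerivAt_const _ _,
        Eventually.of_forall fun s => ?_⟩
      rw [χ.left_inv hzs]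
      exact hz.mem_left
    · exact ⟨clean_circ (hS.circ i) (hS.nd i) (fun u => by rw [hK]; exact Or.inr ⟨i, u, rfl⟩) t,
        hyp_circ hr (hS.circ i) (hS.nd i) (hg i) (hF'g i) ht ((hqp i).2.2 t ht)⟩) U hU hF'U
  exact ⟨G, hGU, hGm, hG1, hG2⟩

end Pool.Agent.Q182.CC
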