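import Pool.Agent.Q182.CC4

/-!
# Finitely many attractors: critical circles with arbitrary dynamics
-/

set_option autoImplicit false
set_option linter.unusedSectionVars false

open scoped Manifold ContDiff Topology
open Filter Set MeasureTheory

universe u

namespace Pool.Agent.Q182.CC

open Pool.Agent.H718R2.G Pool.Agent.TH80.OMS Pool.Agent.Y504.CO Pool.Agent.TH290.CL
open Pool.Agent.TH80.CLX Pool.Agent.Y318.MN Pool.Agent.Q182.MC Pool.Agent.Q182.MB
open Pool.Agent.Q182.OT (sh)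
open Pool.Agent.H728R2.FA (omegaLim FiniteAttractors)

/-- chains do not leave a component -/
theorem chain_sep {X : Type u} [TopologicalSpace X] {g : X → X} {A B : Set X} (hA : IsClosed A)
    (hB : IsClosed B) (hd : Disjoint A B) (hgA : ∀ x ∈ A, g x ∈ A) {a b : X} (ha : a ∈ A)
    (h : ChainTo g (A ∪ B) a b) : b ∈ A := by
  have h1 := h ((A ×ˢ B)ᶜ) (hA.prod hB).isOpen_compl
    (fun x hx => Set.disjoint_left.1 hd hx.1 hx.2)
  clear h
  induction h1 with
  | single h2 =>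
    rcases h2.2.1 with h3 | h3
    · exact h3
    · exact absurd ⟨hgA _ ha, h3⟩ h2.2.2
  | tail _ h2 ih =>
    rcases h2.2.1 with h3 | h3
    · exact h3
    · exact absurd ⟨hgA _ ih, h3⟩ h2.2.2

/-- chains in a finite set are orbits -/
theorem chain_fin {X : Type u} [TopologicalSpace X] [T2Space X] {g : X → X} {A : Set X}
    (hA : A.Finite) {a b : X} (h : ChainTo g A a b) : ∃ k : ℕ, 1 ≤ k ∧ g^[k] a = b := by
  have hf : {q : X × X | (∃ x ∈ A, g x = q.1) ∧ q.2 ∈ A ∧ q.1 ≠ q.2}.Finite := by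
    refine ((hA.image g).prod hA).subset ?_
    rintro ⟨q1, q2⟩ ⟨⟨x, hx, h1⟩, h2, -⟩
    exact ⟨⟨x, hx, h1⟩, h2⟩
  have h1 := h _ hf.isClosed.isOpen_compl (fun x hx => hx.2.2 rfl)
  clear h
  induction h1 with
  | single h2 =>
    refine ⟨1, le_rfl, ?_⟩
    by_contra hne
    exact h2.2.2 ⟨⟨_, h2.1, rfl⟩, h2.2.1, hne⟩
  | tail _ h2 ih =>
    obtain ⟨k, hk, rfl⟩ := ih
    refine ⟨k + 1, by omega, ?_⟩
    rw [Function.iterate_succ_apply']
    by_contra hne
    exact h2.2.2 ⟨⟨_, h2.1, rfl⟩, h2.2.1, hne⟩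

theorem cover_metric {X : Type u} [MetricSpace X] [CompactSpace X] (g : X ≃ₜ X) {K0 S R : Set X}
    (hK0 : IsClosed K0) (hS : IsClosed S) (hd : Disjoint S K0) (hgS : ∀ x ∈ S, g x ∈ S)
    (hgK : ∀ x ∈ K0, g x ∈ K0) (hgK' : ∀ x ∈ K0, g.symm x ∈ K0)
    (hω : ∀ p, omegaLim g p ⊆ S ∪ K0)
    (hfin : {C | ∃ a, ChainTo g K0 a a ∧ C = cls g K0 a}.Finite)
    (htr : ∀ a, ChainTo g K0 a a →
      ∃ x ∈ cls g K0 a, cls g K0 a ⊆ closure (range fun n : ℕ => g^[n] x))
    (hR : R.Finite) (hRS : ∀ a ∈ S, ChainTo g (S ∪ K0) a a → a ∈ R) [MeasurableSpace X]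
    (μ : Measure X) : FiniteAttractors μ g := by
  classical
  set 𝓜 : Set (Set X) := {C | ∃ a, ChainTo g K0 a a ∧ C = cls g K0 a} ∪
    (fun a => range fun k : ℕ => g^[k] a) '' (R ∩ Per g) with h𝓜
  have h𝓜f : 𝓜.Finite := hfin.union ((hR.subset inter_subset_left).image _)
  have := h𝓜f.fintype
  let e := Fintype.equivFin 𝓜
  refine Pool.Agent.Y318.MH.finite_of_cover μ g (fun i => (e.symm i).1) (fun i => ?_) (fun i => ?_)
    (fun p => ?_)
  · rcases (e.symm i).2 with ⟨a, -, h2⟩ | ⟨a, ⟨-, m, hm, ha⟩, h2⟩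
    · rw [h2]
      exact cls_inv g hgK hgK' a
    · rw [← h2]
      apply subset_antisymm
      · rintro _ ⟨_, ⟨k, rfl⟩, rfl⟩
        exact ⟨k + 1, Function.iterate_succ_apply' _ _ _⟩
      · rintro _ ⟨k, rfl⟩
        refine ⟨g^[k + (m - 1)] a, ⟨k + (m - 1), rfl⟩, ?_⟩
        rw [← Function.iterate_succ_apply' g, show (k + (m - 1)).succ = k + m by omega,
          Function.iterate_add_apply, ha]
  · rcases (e.symm i).2 with ⟨a, ha, h2⟩ | ⟨a, -, h2⟩
    · rw [h2]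
      exact htr a ha
    · rw [← h2]
      exact ⟨a, ⟨0, rfl⟩, subset_closure⟩
  · obtain ⟨y, -, hy⟩ := Pool.Agent.Y318.MH.exists_omegaLim g p univ isClosed_univ
      (fun N => ⟨N, le_rfl, trivial⟩)
    by_cases hall : omegaLim g p ⊆ K0
    · have h3 : cls g K0 y ∈ 𝓜 := Or.inl ⟨y, omega_chain g p hall hy hy, rfl⟩
      refine ⟨e ⟨_, h3⟩, ?_⟩
      rw [e.symm_apply_apply]
      exact fun b hb => ⟨omega_chain g p hall hy hb, omega_chain g p hall hb hy⟩
    · obtain ⟨a, ha, haK⟩ := not_subset.1 hall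
      have haS : a ∈ S := (hω p ha).resolve_right haK
      have hsub : omegaLim g p ⊆ R := by
        intro b hb
        have h3 : ChainTo g (S ∪ K0) a b := omega_chain g p (hω p) ha hb
        have h4 : b ∈ S := chain_sep hS hK0 hd hgS haS h3
        exact hRS b h4 (omega_chain g p (hω p) hb hb)
      have hfinω : (omegaLim g p).Finite := hR.subset hsub
      have hper : a ∈ Per g := by
        obtain ⟨k, hk, h5⟩ := chain_fin hfinω (omega_chain g p Subset.rfl ha ha)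
        exact ⟨k, hk, h5⟩
      have h3 : (range fun k : ℕ => g^[k] a) ∈ 𝓜 := Or.inr ⟨a, ⟨hsub ha, hper⟩, rfl⟩
      refine ⟨e ⟨_, h3⟩, ?_⟩
      rw [e.symm_apply_apply]
      intro b hb
      obtain ⟨k, -, h5⟩ := chain_fin hfinω (omega_chain g p Subset.rfl ha hb)
      exact ⟨k, h5⟩

variable {n : ℕ} {N : Type u} [TopologicalSpace N] [T2Space N] [CompactSpace N]
  [ChartedSpace (V n) N] [IsManifold (𝓡 n) ∞ N]

theorem cover_top [TopologicalSpace.MetrizableSpace N] (g : N ≃ₜ N) {K0 S R : Set N}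
    (hK0 : IsClosed K0) (hS : IsClosed S) (hd : Disjoint S K0) (hgS : ∀ x ∈ S, g x ∈ S)
    (hgK : ∀ x ∈ K0, g x ∈ K0) (hgK' : ∀ x ∈ K0, g.symm x ∈ K0)
    (hω : ∀ p, omegaLim g p ⊆ S ∪ K0)
    (hfin : {C | ∃ a, ChainTo g K0 a a ∧ C = cls g K0 a}.Finite)
    (htr : ∀ a, ChainTo g K0 a a →
      ∃ x ∈ cls g K0 a, cls g K0 a ⊆ closure (range fun n : ℕ => g^[n] x))
    (hR : R.Finite) (hRS : ∀ a ∈ S, ChainTo g (S ∪ K0) a a → a ∈ R) :
    ∀ (_ : MeasurableSpace N) (μ : Measure N), FiniteAttractors μ g := by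
  letI : MetricSpace N := TopologicalSpace.metrizableSpaceMetric N
  intro _ μ
  exact cover_metric g hK0 hS hd hgS hgK hgK' hω hfin htr hR hRS μ

variable {h : N → ℝ}

/-- **Finitely many attractors near maps with critical circles.** -/
theorem attr {r : ℕ∞} (hr : 1 ≤ r) (hh : ContMDiff (𝓡 n) 𝓘(ℝ, ℝ) ∞ h) {K0 : Set N}
    (hK0 : IsClosed K0) {ι : Type} [Finite ι] {γ : ι → ℝ → N} {ψ : ι → ℝ → N → N}
    (hC : ∀ i, Circ n h (γ i) (ψ i)) (hdis : ∀ i j s t, γ i s = γ j t → i = j)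
    (hoff : ∀ i t, γ i t ∉ K0) (hcrit : ∀ y, IsCrit n h y ↔ y ∈ K0 ∨ ∃ i t, γ i t = y)
    (F : DiffM n N r) (hm : ∀ x, h x ≤ h (F x)) (hFK : F '' K0 = K0) {f : ι → ℝ → ℝ}
    (hf : ∀ i, Lift (f i)) (hFf : ∀ i t, F (γ i t) = γ i (f i t))
    (hfin : {C | ∃ a, ChainTo F K0 a a ∧ C = cls F K0 a}.Finite)
    (htr : ∀ a, ChainTo F K0 a a →
      ∃ x ∈ cls F K0 a, cls F K0 a ⊆ closure (range fun k : ℕ => F^[k] x))
    (U : Set (DiffM n N r)) (hU : IsOpen[strongTop n N r] U) (hFU : F ∈ U) :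
    ∃ G ∈ U, (∀ x, h x ≤ h (G x)) ∧ EqOn G F K0 ∧
      ∀ (_ : MeasurableSpace N) (μ : Measure N), FiniteAttractors μ G := by
  classical
  have := Fintype.ofFinite ι
  obtain ⟨F', hF'U, hm', hF'P, g, hg, hF'g, hgood⟩ := circles_step hr hC hK0
    hoff hdis Finset.univ hU hFU hm hf hFf
  have hFK' : ∀ x ∈ K0, F' x ∈ K0 := fun x hx => by
    rw [hF'P x hx, ← hFK]
    exact ⟨x, hx, rfl⟩
  have hFKs : ∀ x ∈ K0, F'.symm x ∈ K0 := by
    intro x hx
    rw [← hFK] at hx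
    obtain ⟨y, hy, rfl⟩ := hx
    rw [← hF'P y hy, F'.symm_apply_apply]
    exact hy
  set S : Set N := ⋃ i, range (γ i) with hS
  have hSmem : ∀ y, y ∈ S ↔ ∃ i t, γ i t = y := by
    intro y
    rw [hS, mem_iUnion]
    exact ⟨fun ⟨i, t, ht⟩ => ⟨i, t, ht⟩, fun ⟨i, t, ht⟩ => ⟨i, t, ht⟩⟩
  have hSc : IsClosed S := isClosed_iUnion_of_finite fun i => (hC i).compact.isClosed
  have hd : Disjoint S K0 := by
    rw [Set.disjoint_left]
    intro y hy
    obtain ⟨i, t, rfl⟩ := (hSmem y).1 hy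
    exact hoff i t
  have hcrit' : ∀ y, IsCrit n h y ↔ y ∈ S ∪ K0 := fun y => by
    rw [hcrit y, mem_union, hSmem, or_comm]
  have hFS : ∀ x ∈ S, F' x ∈ S := by
    intro x hx
    obtain ⟨i, t, rfl⟩ := (hSmem x).1 hx
    rw [hF'g]
    exact (hSmem _).2 ⟨i, g i t, rfl⟩
  have hFSs : ∀ x ∈ S, F'.symm x ∈ S := by
    intro x hx
    obtain ⟨i, t, rfl⟩ := (hSmem x).1 hx
    obtain ⟨u, rfl⟩ := (hg i).surj t
    rw [← hF'g, F'.symm_apply_apply]
    exact (hSmem _).2 ⟨i, u, rfl⟩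
  have hK : CritInv n F' h = S ∪ K0 := by
    ext x
    constructor
    · intro hx
      exact (hcrit' x).1 (hx 0).1
    · intro hx k
      constructor
      · have : ∀ k : ℕ, F'^[k] x ∈ S ∪ K0 := by
          intro k
          induction k with
          | zero => exact hx
          | succ k ih =>
            rw [Function.iterate_succ_apply']
            exact ih.imp (hFS _) (hFK' _)
        exact (hcrit' _).2 (this k)
      · have : ∀ k : ℕ, F'.symm^[k] x ∈ S ∪ K0 := by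
          intro k
          induction k with
          | zero => exact hx
          | succ k ih =>
            rw [Function.iterate_succ_apply']
            exact ih.imp (hFSs _) (hFKs _)
        exact (hcrit' _).2 (this k)
  choose q p hqp using fun i => hgood i (Finset.mem_univ i)
  choose L hLc hL1 hLm hLs hLf using fun i => exists_lyap (hg i) (hqp i)
  have hLint : ∀ i t (k : ℤ), L i (t + k) = L i t := by
    intro i t k
    have := OT.add_int (f := fun t => L i t + t) (fun t => by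
      show L i (t + 1) + (t + 1) = L i t + t + 1
      rw [hL1]
      ring) k t
    linarith
  -- the Lyapunov function
  set Λ : N → ℝ := fun x => if hx : ∃ a : ι × ℝ, γ a.1 a.2 = x then
    L hx.choose.1 hx.choose.2 else 0 with hΛ
  have hΛγ : ∀ i t, Λ (γ i t) = L i t := by
    intro i t
    have hx : ∃ a : ι × ℝ, γ a.1 a.2 = γ i t := ⟨(i, t), rfl⟩
    have e : Λ (γ i t) = L hx.choose.1 hx.choose.2 := dif_pos hx
    rw [e]
    have h1 := hx.choose_spec
    have h2 := hdis _ _ _ _ h1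
    rw [h2] at h1 ⊢
    obtain ⟨z, hz⟩ := ((hC i).per _ _).1 h1
    rw [hz, hLint]
  have hΛP : ∀ y ∈ K0, Λ y = 0 := by
    intro y hy
    apply dif_neg
    rintro ⟨a, rfl⟩
    exact hoff _ _ hy
  have hcpt : ∀ Q : Set ℝ, IsClosed Q → IsCompact {x | x ∈ S ∪ K0 ∧ Λ x ∈ Q} := by
    intro Q hQ
    have e : {x | x ∈ S ∪ K0 ∧ Λ x ∈ Q} = {x | x ∈ K0 ∧ (0 : ℝ) ∈ Q} ∪
        ⋃ i, γ i '' (Icc 0 1 ∩ L i ⁻¹' Q) := by
      ext x
      constructor
      · rintro ⟨hx | hx, hxQ⟩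
        · obtain ⟨i, t, rfl⟩ := (hSmem x).1 hx
          right
          rw [hΛγ] at hxQ
          refine mem_iUnion.2 ⟨i, Int.fract t, ⟨⟨Int.fract_nonneg _, (Int.fract_lt_one _).le⟩,
            ?_⟩, ?_⟩
          · show L i (Int.fract t) ∈ Q
            have h1 := hLint i (Int.fract t) ⌊t⌋
            rw [Int.fract_add_floor] at h1
            rwa [← h1]
          · rw [(hC i).per]
            exact ⟨-⌊t⌋, by rw [Int.fract]; push_cast; ring⟩
        · exact Or.inl ⟨hx, by rwa [hΛP x hx] at hxQ⟩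
      · rintro (⟨hx, hxQ⟩ | hx)
        · exact ⟨Or.inr hx, by rwa [hΛP x hx]⟩
        · obtain ⟨i, t, ⟨-, ht⟩, rfl⟩ := mem_iUnion.1 hx
          refine ⟨Or.inl ((hSmem _).2 ⟨i, t, rfl⟩), ?_⟩
          rw [hΛγ]
          exact ht
    rw [e]
    refine IsCompact.union ?_ (isCompact_iUnion fun i => ?_)
    · by_cases h0 : (0 : ℝ) ∈ Q
      · have : {x | x ∈ K0 ∧ (0 : ℝ) ∈ Q} = K0 := by
          ext x
          exact ⟨fun hx => hx.1, fun hx => ⟨hx, h0⟩⟩
        rw [this]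
        exact hK0.isCompact
      · have : {x | x ∈ K0 ∧ (0 : ℝ) ∈ Q} = ∅ := by
          ext x
          exact ⟨fun hx => h0 hx.2, fun hx => hx.elim⟩
        rw [this]
        exact isCompact_empty
    · exact (isCompact_Icc.inter_right (hQ.preimage (hLc i))).image (hC i).cont
  have hLy : ∀ a, ChainTo F' (S ∪ K0) a a → Λ (F' a) = Λ a := by
    intro a ha
    refine chain_lyap F'.continuous (fun c => hcpt (Ici c) isClosed_Ici)
      (fun c => hcpt (Iic c) isClosed_Iic) ?_ ?_ ha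
    · intro x hx
      rcases hx with hx | hx
      · obtain ⟨i, t, rfl⟩ := (hSmem x).1 hx
        rw [hF'g, hΛγ, hΛγ]
        exact hLm i t
      · rw [hΛP x hx, hΛP _ (hFK' x hx)]
    · refine Set.Finite.subset (s := {0} ∪ ⋃ i, L i '' {t | (g i)^[q i] t = t + p i})
        ((finite_singleton 0).union (finite_iUnion fun i => hLf i)) ?_
      rintro _ ⟨x, ⟨hx, hx'⟩, rfl⟩
      rcases hx with hx | hx
      · obtain ⟨i, t, rfl⟩ := (hSmem x).1 hx
        right
        rw [hF'g, hΛγ, hΛγ] at hx'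
        exact mem_iUnion.2 ⟨i, t, hLs i t hx', (hΛγ i t).symm⟩
      · exact Or.inl (hΛP x hx)
  -- the push
  obtain ⟨Φ, G, hGU, hG, hΦ⟩ := exists_push hh hr F' U hU hF'U
  have hmet := exists_metric n N
  have hGF : ∀ x ∈ S ∪ K0, G x = F' x := fun x hx => by rw [hG, hΦ.fix x ((hcrit' x).2 hx)]
  have hGs : ∀ x ∈ S ∪ K0, F'.symm x ∈ S ∪ K0 → G.symm x = F'.symm x := by
    intro x hx h1
    have h2 : G (F'.symm x) = x := by rw [hGF _ h1, F'.apply_symm_apply]
    rw [← h2, G.symm_apply_apply, h2]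
  have hGFK : ∀ x ∈ K0, G x = F x := fun x hx => by rw [hGF x (Or.inr hx), hF'P x hx]
  have hcls : ∀ a, cls F K0 a = cls G K0 a := fun a => cls_congr fun x hx => (hGFK x hx).symm
  have hiter : ∀ x ∈ K0, ∀ k : ℕ, G^[k] x = F^[k] x ∧ F^[k] x ∈ K0 := by
    intro x hx k
    induction k with
    | zero => exact ⟨rfl, hx⟩
    | succ k ih =>
      rw [Function.iterate_succ_apply', Function.iterate_succ_apply', ih.1]
      refine ⟨hGFK _ ih.2, ?_⟩
      rw [← hFK]
      exact ⟨_, ih.2, rfl⟩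
  refine ⟨G, hGU, g_mono hm' hG hΦ, hGFK, ?_⟩
  refine cover_top G.toHomeomorph (K0 := K0) (S := S)
    (R := ⋃ i, γ i '' (Icc (0 : ℝ) 1 ∩ {t | (g i)^[q i] t = t + p i})) hK0 hSc hd
    (fun x hx => by
      show G x ∈ S
      rw [hGF x (Or.inl hx)]
      exact hFS x hx)
    (fun x hx => by
      show G x ∈ K0
      rw [hGF x (Or.inr hx)]
      exact hFK' x hx)
    (fun x hx => by
      show G.symm x ∈ K0
      rw [hGs x (Or.inr hx) (Or.inr (hFKs x hx))]
      exact hFKs x hx)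
    (fun p => by
      have h1 : Omega G ⊆ CritInv n F' h := omega_sub hh.continuous hm' hG hΦ
      rw [hK] at h1
      exact (omegaLim_sub_omega _ _).trans h1)
    (by
      refine hfin.subset ?_
      rintro C ⟨a, ha, rfl⟩
      exact ⟨a, ChainTo.congr hGFK ha, (hcls a).symm⟩)
    (by
      intro a ha
      obtain ⟨x, hx, hdx⟩ := htr a (ChainTo.congr hGFK ha)
      rw [hcls a] at hx hdx
      refine ⟨x, hx, ?_⟩
      have e : (fun k : ℕ => G.toHomeomorph^[k] x) = fun k : ℕ => F^[k] x := by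
        funext k
        exact (hiter x hx.1.mem_right k).1
      show cls G K0 a ⊆ closure (range fun k : ℕ => G.toHomeomorph^[k] x)
      rw [e]
      exact hdx)
    (finite_iUnion fun i => (zeros_fin ((hg i).iter (q i)) (hqp i).2.2).image _) ?_
  intro a haS ha
  have h1 : ChainTo F' (S ∪ K0) a a := ChainTo.congr hGF ha
  have h2 := hLy a h1
  obtain ⟨i, t, rfl⟩ := (hSmem a).1 haS
  rw [hF'g, hΛγ, hΛγ] at h2
  have ht := hLs i t h2
  refine mem_iUnion.2 ⟨i, Int.fract t, ⟨⟨Int.fract_nonneg _, (Int.fract_lt_one _).le⟩, ?_⟩, ?_⟩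
  · show (g i)^[q i] (Int.fract t) = Int.fract t + p i
    have h1 := ((hg i).iter (q i)).int (Int.fract t) ⌊t⌋
    rw [Int.fract_add_floor] at h1
    have h3 := Int.fract_add_floor t
    linarith
  · rw [(hC i).per]
    exact ⟨-⌊t⌋, by rw [Int.fract]; push_cast; ring⟩

end Pool.Agent.Q182.CC
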