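import Mathlib
import Pool.Agent.H165R3.BPE

/-!
# The maximal ergodic theorem, the pointwise ergodic theorem in `L¹` and the integrability of the
maximal function of a function in `L^p`, `p > 1`
-/

set_option autoImplicit false

open Set Filter Topology MeasureTheory
open scoped ENNReal

namespace Pool.Agent.Q182.Dom

set_option linter.unusedSectionVars false
set_option linter.unusedVariables false

variable {B : Type*} [MeasurableSpace B]

/-- ergodic averages -/
noncomputable def A (T : B → B) (f : B → ℝ) (n : ℕ) (x : B) : ℝ :=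
  (n : ℝ)⁻¹ * ∑ k ∈ Finset.range n, f (T^[k] x)

/-- the maximal function (for nonnegative functions) -/
noncomputable def AS (T : B → B) (f : B → ℝ) (x : B) : ℝ≥0∞ := ⨆ n : ℕ, ENNReal.ofReal (A T f n x)

open Pool.Agent.H165R3.BPE in
lemma Mx_int {m : Measure B} {T : B → B} (hT : MeasurePreserving T m m) {φ : B → ℝ}
    (hi : Integrable φ m) (n : ℕ) : Integrable (Mx T φ n) m := by
  induction n with
  | zero =>
    have : Mx T φ 0 = fun _ => 0 := rfl
    rw [this]
    exact integrable_zero _ _ _
  | succ n ih =>
    have : Mx T φ (n + 1) = fun x => max 0 (φ x + Mx T φ n (T x)) := rfl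
    rw [this]
    exact (integrable_zero _ _ _).sup (hi.add (hT.integrable_comp_of_integrable ih))

open Pool.Agent.H165R3.BPE in
lemma maximal_fin {m : Measure B} [IsProbabilityMeasure m] {T : B → B}
    (hT : MeasurePreserving T m m) {g : B → ℝ} (hg : Measurable g) (hi : Integrable g m)
    (h0 : ∀ x, 0 ≤ g x) {t : ℝ} (ht : 0 < t) (N : ℕ) :
    t * m.real {x | 0 < Mx T (fun x => g x - t) N x} ≤ ∫ x, g x ∂m := by
  set φ : B → ℝ := fun x => g x - t with hφ
  have hφm : Measurable φ := hg.sub measurable_const
  have hφi : Integrable φ m := hi.sub (integrable_const _)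
  set E : Set B := {x | 0 < Mx T φ N x} with hE
  have hEm : MeasurableSet E := measurableSet_lt measurable_const (Mx_meas hT.measurable hφm N)
  have key : 0 ≤ ∫ x in E, φ x ∂m := by
    cases N with
    | zero =>
      have : E = ∅ := by
        ext x; simp [hE, Mx]
      rw [this]; simp
    | succ n =>
      have hM1 := Mx_int hT hφi (n + 1)
      have hM0 := Mx_int hT hφi n
      have hM0T : Integrable (fun x => Mx T φ n (T x)) m := hT.integrable_comp_of_integrable hM0
      have e1 : ∫ x in E, φ x ∂m = ∫ x in E, (Mx T φ (n + 1) x - Mx T φ n (T x)) ∂m := by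
        refine setIntegral_congr_fun hEm fun x hx => ?_
        have hx' : 0 < max 0 (φ x + Mx T φ n (T x)) := hx
        have h1 : 0 < φ x + Mx T φ n (T x) := by
          rcases lt_max_iff.1 hx' with h | h
          · exact absurd h (lt_irrefl _)
          · exact h
        show φ x = max 0 (φ x + Mx T φ n (T x)) - Mx T φ n (T x)
        rw [max_eq_right h1.le]
        ring
      rw [e1]
      have hsub : Integrable (fun x => Mx T φ (n + 1) x - Mx T φ n (T x)) m := hM1.sub hM0T
      have e2 : ∫ x, (Mx T φ (n + 1) x - Mx T φ n (T x)) ∂m ≤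
          ∫ x in E, (Mx T φ (n + 1) x - Mx T φ n (T x)) ∂m := by
        rw [← integral_add_compl hEm hsub]
        have : ∫ x in Eᶜ, (Mx T φ (n + 1) x - Mx T φ n (T x)) ∂m ≤ 0 := by
          refine setIntegral_nonpos hEm.compl fun x hx => ?_
          have h1 : ¬ (0 < Mx T φ (n + 1) x) := hx
          have h2 := Mx_nonneg T φ n (T x)
          linarith [not_lt.1 h1]
        linarith
      refine le_trans ?_ e2
      have h2 : ∫ x, Mx T φ n (T x) ∂m = ∫ x, Mx T φ n x ∂m := by
        have h3 := integral_map (μ := m) hT.measurable.aemeasurable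
          (f := Mx T φ n) (Mx_meas hT.measurable hφm n).aestronglyMeasurable
        rw [hT.map_eq] at h3
        exact h3.symm
      rw [integral_sub hM1 hM0T, h2, ← integral_sub hM1 hM0]
      refine integral_nonneg fun x => ?_
      have := Mx_mono T φ n x
      simp only [Pi.zero_apply]
      linarith
  have e3 : ∫ x in E, φ x ∂m = ∫ x in E, g x ∂m - t * m.real E := by
    rw [hφ, integral_sub hi.integrableOn (integrable_const _).integrableOn]
    simp only [integral_const, measureReal_restrict_apply_univ, smul_eq_mul]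
    ring
  have e4 : ∫ x in E, g x ∂m ≤ ∫ x, g x ∂m := setIntegral_le_integral hi (Eventually.of_forall h0)
  linarith

lemma A_meas {T : B → B} (hT : Measurable T) {f : B → ℝ} (hf : Measurable f) (n : ℕ) :
    Measurable (A T f n) := by
  unfold A
  exact (Finset.measurable_sum _ fun k _ => hf.comp (hT.iterate k)).const_mul _

lemma AS_meas {T : B → B} (hT : Measurable T) {f : B → ℝ} (hf : Measurable f) :
    Measurable (AS T f) :=
  Measurable.iSup fun n => (A_meas hT hf n).ennreal_ofReal

open Pool.Agent.H165R3.BPE in
/-- weak type (1,1) -/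
theorem maximal {m : Measure B} [IsProbabilityMeasure m] {T : B → B}
    (hT : MeasurePreserving T m m) {g : B → ℝ} (hg : Measurable g) (hi : Integrable g m)
    (h0 : ∀ x, 0 ≤ g x) {t : ℝ} (ht : 0 < t) :
    m {x | ENNReal.ofReal t < AS T g x} ≤ ENNReal.ofReal ((∫ x, g x ∂m) / t) := by
  set φ : B → ℝ := fun x => g x - t with hφ
  have hmono : Monotone fun N => {x | 0 < Mx T φ N x} := by
    apply monotone_nat_of_le_succ
    intro n x hx
    exact lt_of_lt_of_le hx (Mx_mono T φ n x)
  have hsub : {x | ENNReal.ofReal t < AS T g x} ⊆ ⋃ N, {x | 0 < Mx T φ N x} := by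
    intro x hx
    obtain ⟨n, hn⟩ := lt_iSup_iff.1 (show ENNReal.ofReal t < ⨆ n : ℕ, _ from hx)
    rw [mem_iUnion]
    refine ⟨n, ?_⟩
    have h1 : t < A T g n x := by
      by_contra h
      exact absurd hn (not_lt.2 (ENNReal.ofReal_le_ofReal (not_lt.1 h)))
    have hn0 : n ≠ 0 := by
      rintro rfl
      unfold A at h1
      simp at h1
      linarith
    have hn1 : (0 : ℝ) < n := by exact_mod_cast Nat.pos_of_ne_zero hn0
    have h2 := Mx_sum T φ n x
    have h3 : 0 < ∑ k ∈ Finset.range n, φ (T^[k] x) := by
      rw [hφ]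
      simp only [Finset.sum_sub_distrib, Finset.sum_const, Finset.card_range, nsmul_eq_mul]
      unfold A at h1
      rw [lt_inv_mul_iff₀ hn1] at h1
      linarith
    exact lt_of_lt_of_le h3 h2
  refine (measure_mono hsub).trans ?_
  rw [hmono.measure_iUnion]
  refine iSup_le fun N => ?_
  have h1 := maximal_fin hT hg hi h0 ht N
  rw [← ofReal_measureReal]
  apply ENNReal.ofReal_le_ofReal
  rw [le_div_iff₀ ht]
  linarith

lemma A_add (T : B → B) (f g : B → ℝ) (n : ℕ) (x : B) :
    A T (fun x => f x + g x) n x = A T f n x + A T g n x := by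
  unfold A
  rw [Finset.sum_add_distrib, mul_add]

lemma A_sub (T : B → B) (f g : B → ℝ) (n : ℕ) (x : B) :
    A T (fun x => f x - g x) n x = A T f n x - A T g n x := by
  unfold A
  rw [Finset.sum_sub_distrib, mul_sub]

lemma A_mono (T : B → B) {f g : B → ℝ} (h : ∀ x, f x ≤ g x) (n : ℕ) (x : B) :
    A T f n x ≤ A T g n x := by
  unfold A
  exact mul_le_mul_of_nonneg_left (Finset.sum_le_sum fun k _ => h _) (by positivity)

lemma A_abs (T : B → B) (f : B → ℝ) (n : ℕ) (x : B) : |A T f n x| ≤ A T (fun x => |f x|) n x := by
  unfold A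
  rw [abs_mul, abs_of_nonneg (show (0 : ℝ) ≤ (n : ℝ)⁻¹ by positivity)]
  exact mul_le_mul_of_nonneg_left (Finset.abs_sum_le_sum_abs _ _) (by positivity)

lemma A_const_le (T : B → B) {c : ℝ} (hc : 0 ≤ c) (n : ℕ) (x : B) : A T (fun _ => c) n x ≤ c := by
  unfold A
  rw [Finset.sum_const, Finset.card_range, nsmul_eq_mul]
  rcases Nat.eq_zero_or_pos n with h | h
  · rw [h]; simpa using hc
  · have : (n : ℝ) ≠ 0 := by exact_mod_cast h.ne'
    rw [← mul_assoc, inv_mul_cancel₀ this, one_mul]

lemma le_AS (T : B → B) (f : B → ℝ) (n : ℕ) (x : B) :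
    ENNReal.ofReal |A T f n x| ≤ AS T (fun x => |f x|) x :=
  (ENNReal.ofReal_le_ofReal (A_abs T f n x)).trans (le_iSup (fun n => ENNReal.ofReal (A T _ n x)) n)

/-- The pointwise ergodic theorem for integrable functions. -/
theorem birkhoff {m : Measure B} [IsProbabilityMeasure m] {T : B → B}
    (hT : MeasurePreserving T m m) {f : B → ℝ} (hf : Measurable f) (hi : Integrable f m) :
    ∀ᵐ x ∂m, Tendsto (fun n => A T f n x) atTop (𝓝 ((m[f | MeasurableSpace.invariants T]) x)) := by
  -- truncations
  set F : ℕ → B → ℝ := fun N x => max (-(N : ℝ)) (min N (f x)) with hF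
  have hFm : ∀ N, Measurable (F N) := fun N => measurable_const.max (measurable_const.min hf)
  have hFb : ∀ N x, |F N x| ≤ N := fun N x => by
    rw [abs_le]
    refine ⟨le_max_left _ _, max_le ?_ (min_le_left _ _)⟩
    have : (0 : ℝ) ≤ N := Nat.cast_nonneg N
    linarith
  have hFf : ∀ N x, |f x - F N x| ≤ |f x| := by
    intro N x
    have hN : (0 : ℝ) ≤ N := Nat.cast_nonneg N
    simp only [hF]
    rcases le_total (f x) N with h1 | h1
    · rw [min_eq_right h1]
      rcases le_total (-(N : ℝ)) (f x) with h2 | h2
      · rw [max_eq_right h2]; simp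
      · rw [max_eq_left h2, abs_of_nonpos (by linarith), abs_of_nonpos (by linarith)]; linarith
    · rw [min_eq_left h1, max_eq_right (by linarith), abs_of_nonneg (by linarith),
        abs_of_nonneg (by linarith)]
      linarith
  have hFi : ∀ N, Integrable (F N) m := fun N =>
    Integrable.mono' (integrable_const (N : ℝ)) (hFm N).aestronglyMeasurable
      (Eventually.of_forall fun x => hFb N x)
  have hFlim : ∀ x, ∀ᶠ N in atTop, F N x = f x := by
    intro x
    obtain ⟨N0, hN0⟩ := exists_nat_ge |f x|
    filter_upwards [eventually_ge_atTop N0] with N hN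
    have h1 : |f x| ≤ N := hN0.trans (by exact_mod_cast hN)
    rw [abs_le] at h1
    simp only [hF]
    rw [min_eq_right h1.2, max_eq_right h1.1]
  have hlim : Tendsto (fun N => ∫ x, |f x - F N x| ∂m) atTop (𝓝 0) := by
    rw [show (0 : ℝ) = ∫ _ : B, (0 : ℝ) ∂m by simp]
    refine tendsto_integral_of_dominated_convergence (fun x => |f x|) ?_ hi.abs ?_ ?_
    · intro N
      exact (hf.sub (hFm N)).abs.aestronglyMeasurable
    · intro N
      filter_upwards with x
      rw [Real.norm_eq_abs, abs_abs]
      exact hFf N x
    · filter_upwards with x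
      refine tendsto_const_nhds.congr' ?_
      filter_upwards [hFlim x] with N hN
      rw [hN]; simp
  -- the oscillation
  set R : B → ℝ≥0∞ := fun x => limsup (fun n : ℕ =>
    ENNReal.ofReal |A T f n x - (m[f | MeasurableSpace.invariants T]) x|) atTop with hR
  have hRN : ∀ N : ℕ, ∀ᵐ x ∂m, R x ≤ AS T (fun x => |f x - F N x|) x +
      ENNReal.ofReal |(m[fun x => f x - F N x | MeasurableSpace.invariants T]) x| := by
    intro N
    have hb := Pool.Agent.H165R3.BPE.birkhoff hT (F N) (hFm N) N (hFb N)
    have hsub : m[fun x => f x - F N x | MeasurableSpace.invariants T] =ᵐ[m]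
        m[f | MeasurableSpace.invariants T] - m[F N | MeasurableSpace.invariants T] :=
      condExp_sub hi (hFi N) _
    filter_upwards [hb, hsub] with x hx hx2
    have e1 : Tendsto (fun n => ENNReal.ofReal |A T (F N) n x -
        (m[F N | MeasurableSpace.invariants T]) x|) atTop (𝓝 0) := by
      have h1 : Tendsto (fun n => |A T (F N) n x -
          (m[F N | MeasurableSpace.invariants T]) x|) atTop (𝓝 0) := by
        have h2 := (hx.sub_const ((m[F N | MeasurableSpace.invariants T]) x)).abs
        rw [sub_self, abs_zero] at h2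
        exact h2
      have h3 := ENNReal.tendsto_ofReal h1
      rwa [ENNReal.ofReal_zero] at h3
    have e2 : ∀ n : ℕ, ENNReal.ofReal |A T f n x - (m[f | MeasurableSpace.invariants T]) x| ≤
        ENNReal.ofReal |A T (F N) n x - (m[F N | MeasurableSpace.invariants T]) x| +
        (AS T (fun x => |f x - F N x|) x +
          ENNReal.ofReal |(m[fun x => f x - F N x | MeasurableSpace.invariants T]) x|) := by
      intro n
      have h1 := le_AS T (fun x => f x - F N x) n x
      rw [A_sub] at h1
      have h2 : |A T f n x - (m[f | MeasurableSpace.invariants T]) x| ≤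
          |A T (F N) n x - (m[F N | MeasurableSpace.invariants T]) x| +
          (|A T f n x - A T (F N) n x| +
            |(m[fun x => f x - F N x | MeasurableSpace.invariants T]) x|) := by
        rw [hx2, Pi.sub_apply]
        have : A T f n x - (m[f | MeasurableSpace.invariants T]) x =
          (A T (F N) n x - (m[F N | MeasurableSpace.invariants T]) x) +
          ((A T f n x - A T (F N) n x) - ((m[f | MeasurableSpace.invariants T]) x -
            (m[F N | MeasurableSpace.invariants T]) x)) := by ring
        rw [this]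
        refine (abs_add_le _ _).trans (add_le_add le_rfl ?_)
        exact abs_sub _ _
      refine (ENNReal.ofReal_le_ofReal h2).trans ?_
      rw [ENNReal.ofReal_add (abs_nonneg _) (by positivity),
        ENNReal.ofReal_add (abs_nonneg _) (abs_nonneg _)]
      gcongr
    calc R x ≤ limsup (fun n : ℕ => ENNReal.ofReal |A T (F N) n x -
            (m[F N | MeasurableSpace.invariants T]) x| +
        (AS T (fun x => |f x - F N x|) x +
          ENNReal.ofReal |(m[fun x => f x - F N x | MeasurableSpace.invariants T]) x|)) atTop :=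
          limsup_le_limsup (Eventually.of_forall e2)
      _ = 0 + (AS T (fun x => |f x - F N x|) x +
          ENNReal.ofReal |(m[fun x => f x - F N x | MeasurableSpace.invariants T]) x|) :=
          (e1.add tendsto_const_nhds).limsup_eq
      _ = _ := zero_add _
  have hRε : ∀ ε : ℝ, 0 < ε → m {x | ENNReal.ofReal (ε + ε) < R x} = 0 := by
    intro ε hε
    have hbd : ∀ N : ℕ, m {x | ENNReal.ofReal (ε + ε) < R x} ≤
        ENNReal.ofReal ((∫ x, |f x - F N x| ∂m) / ε) + ENNReal.ofReal ((∫ x, |f x - F N x| ∂m) / ε) := by
      intro N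
      have h1 := maximal hT (hf.sub (hFm N)).abs (hi.sub (hFi N)).abs (fun x => abs_nonneg _) hε
      have hci : Integrable (m[fun x => f x - F N x | MeasurableSpace.invariants T]) m :=
        integrable_condExp
      have h2 : m {x | ENNReal.ofReal ε <
          ENNReal.ofReal |(m[fun x => f x - F N x | MeasurableSpace.invariants T]) x|} ≤
          ENNReal.ofReal ((∫ x, |f x - F N x| ∂m) / ε) := by
        have h3 : ε * m.real {x | ε ≤ |(m[fun x => f x - F N x | MeasurableSpace.invariants T]) x|} ≤
            ∫ x, |(m[fun x => f x - F N x | MeasurableSpace.invariants T]) x| ∂m :=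
          mul_meas_ge_le_integral_of_nonneg (Eventually.of_forall fun x => abs_nonneg _) hci.abs ε
        have h4 : ∫ x, |(m[fun x => f x - F N x | MeasurableSpace.invariants T]) x| ∂m ≤
            ∫ x, |f x - F N x| ∂m := by
          exact integral_abs_condExp_le _
        calc _ ≤ m {x | ε ≤ |(m[fun x => f x - F N x | MeasurableSpace.invariants T]) x|} := by
              apply measure_mono
              intro x hx
              exact (ENNReal.ofReal_lt_ofReal_iff_of_nonneg hε.le |>.1 hx).le
          _ ≤ _ := by
              rw [← ofReal_measureReal]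
              apply ENNReal.ofReal_le_ofReal
              rw [le_div_iff₀ hε]
              linarith
      refine le_trans ?_ (add_le_add h1 h2)
      refine le_trans ?_ (measure_union_le _ _)
      apply measure_mono_ae
      filter_upwards [hRN N] with x hx hx2
      have hx2' : ENNReal.ofReal (ε + ε) < R x := hx2
      by_contra hcon
      have hc1 : ¬ (ENNReal.ofReal ε < AS T (fun x => |f x - F N x|) x) := fun h => hcon (Or.inl h)
      have hc2 : ¬ (ENNReal.ofReal ε <
          ENNReal.ofReal |(m[fun x => f x - F N x | MeasurableSpace.invariants T]) x|) :=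
        fun h => hcon (Or.inr h)
      have : R x ≤ ENNReal.ofReal ε + ENNReal.ofReal ε :=
        hx.trans (add_le_add (not_lt.1 hc1) (not_lt.1 hc2))
      rw [← ENNReal.ofReal_add hε.le hε.le] at this
      exact absurd hx2' (not_lt.2 this)
    have hz : Tendsto (fun N : ℕ => ENNReal.ofReal ((∫ x, |f x - F N x| ∂m) / ε) +
        ENNReal.ofReal ((∫ x, |f x - F N x| ∂m) / ε)) atTop (𝓝 0) := by
      have h1 : Tendsto (fun N : ℕ => ENNReal.ofReal ((∫ x, |f x - F N x| ∂m) / ε)) atTop (𝓝 0) := by
        have := ENNReal.tendsto_ofReal (hlim.div_const ε)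
        simpa using this
      simpa using h1.add h1
    exact le_antisymm (ge_of_tendsto' hz hbd) bot_le
  have hR0 : ∀ᵐ x ∂m, R x = 0 := by
    have h1 : ∀ j : ℕ, ∀ᵐ x ∂m, R x ≤ ENNReal.ofReal (1 / ((j : ℝ) + 1) + 1 / ((j : ℝ) + 1)) := by
      intro j
      have := hRε (1 / ((j : ℝ) + 1)) (by positivity)
      rw [ae_iff]
      simpa [not_le] using this
    rw [← ae_all_iff] at h1
    filter_upwards [h1] with x hx
    have h2 : Tendsto (fun j : ℕ => ENNReal.ofReal (1 / ((j : ℝ) + 1) + 1 / ((j : ℝ) + 1)))
        atTop (𝓝 0) := by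
      have := ENNReal.tendsto_ofReal
        ((tendsto_one_div_add_atTop_nhds_zero_nat (𝕜 := ℝ)).add
          (tendsto_one_div_add_atTop_nhds_zero_nat (𝕜 := ℝ)))
      simpa using this
    exact le_antisymm (ge_of_tendsto' h2 hx) bot_le
  filter_upwards [hR0] with x hx
  have h1 : Tendsto (fun n : ℕ => ENNReal.ofReal |A T f n x -
      (m[f | MeasurableSpace.invariants T]) x|) atTop (𝓝 0) := by
    exact tendsto_of_le_liminf_of_limsup_le bot_le hx.le (by isBoundedDefault)
      (by isBoundedDefault)
  have h2 := (ENNReal.tendsto_toReal (ENNReal.zero_ne_top)).comp h1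
  rw [tendsto_iff_norm_sub_tendsto_zero]
  refine h2.congr fun n => ?_
  simp [Real.norm_eq_abs]

/-- The maximal function of an `L^q` function, `q > 1`, is integrable. -/
theorem AS_integrable {m : Measure B} [IsProbabilityMeasure m] {T : B → B}
    (hT : MeasurePreserving T m m) {f : B → ℝ} (hf : Measurable f) {q : ℝ} (hq : 1 < q)
    (hi : Integrable (fun x => |f x| ^ q) m) : ∫⁻ x, AS T (fun x => |f x|) x ∂m < ∞ := by
  set C : ℝ := ∫ x, |f x| ^ q ∂m with hC
  have hC0 : 0 ≤ C := integral_nonneg fun x => by positivity
  have hCi : Integrable (fun x => |f x|) m := by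
    refine Integrable.mono' ((integrable_const (1 : ℝ)).add hi) hf.abs.aestronglyMeasurable ?_
    filter_upwards with x
    rw [Real.norm_eq_abs, abs_abs]
    show |f x| ≤ 1 + |f x| ^ q
    rcases le_total |f x| 1 with h | h
    · have : 0 ≤ |f x| ^ q := by positivity
      linarith
    · have := Real.rpow_le_rpow_of_exponent_le h hq.le
      rw [Real.rpow_one] at this
      linarith
  -- the large parts
  set g : ℕ → B → ℝ := fun n x => if (2 : ℝ) ^ n < |f x| then |f x| else 0 with hg
  have hgm : ∀ n, Measurable (g n) := fun n =>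
    Measurable.ite (measurableSet_lt measurable_const hf.abs) hf.abs measurable_const
  have hg0 : ∀ n x, 0 ≤ g n x := fun n x => by
    simp only [hg]; split_ifs <;> positivity
  have hgf : ∀ n x, g n x ≤ |f x| := fun n x => by
    simp only [hg]; split_ifs
    · exact le_rfl
    · positivity
  have hgi : ∀ n, Integrable (g n) m := fun n =>
    Integrable.mono' hCi (hgm n).aestronglyMeasurable (Eventually.of_forall fun x => by
      rw [Real.norm_eq_abs, abs_of_nonneg (hg0 n x)]; exact hgf n x)
  have hgint : ∀ n, ∫ x, g n x ∂m ≤ ((2 : ℝ) ^ n) ^ (-(q - 1)) * C := by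
    intro n
    rw [hC, ← integral_const_mul]
    refine integral_mono (hgi n) (hi.const_mul _) fun x => ?_
    simp only [hg]
    split_ifs with h
    · have hp : (0 : ℝ) < 2 ^ n := by positivity
      have hfx : 0 < |f x| := hp.trans h
      have h1 : |f x| ^ (-(q - 1)) ≤ ((2 : ℝ) ^ n) ^ (-(q - 1)) :=
        Real.rpow_le_rpow_of_nonpos hp h.le (by linarith)
      calc |f x| = |f x| ^ (-(q - 1)) * |f x| ^ q := by
            rw [← Real.rpow_add hfx]; ring_nf; rw [Real.rpow_one]
        _ ≤ _ := by gcongr
    · positivity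
  have hlev : ∀ n, m {x | ENNReal.ofReal (2 ^ (n + 1)) < AS T (fun x => |f x|) x} ≤
      ENNReal.ofReal (((2 : ℝ) ^ n) ^ (-(q - 1)) * C / 2 ^ n) := by
    intro n
    have h1 := maximal hT (hgm n) (hgi n) (hg0 n) (show (0 : ℝ) < 2 ^ n by positivity)
    refine le_trans (measure_mono ?_) (h1.trans (ENNReal.ofReal_le_ofReal ?_))
    · intro x hx
      have hx' : ENNReal.ofReal (2 ^ (n + 1)) < ⨆ k : ℕ, ENNReal.ofReal (A T (fun x => |f x|) k x) := hx
      obtain ⟨k, hk⟩ := lt_iSup_iff.1 hx'
      show ENNReal.ofReal (2 ^ n) < ⨆ k : ℕ, ENNReal.ofReal (A T (g n) k x)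
      refine lt_of_lt_of_le ?_ (le_iSup _ k)
      have hk' : (2 : ℝ) ^ (n + 1) < A T (fun x => |f x|) k x := by
        by_contra h
        exact absurd hk (not_lt.2 (ENNReal.ofReal_le_ofReal (not_lt.1 h)))
      have h2 : A T (fun x => |f x|) k x ≤ A T (g n) k x + 2 ^ n := by
        calc A T (fun x => |f x|) k x ≤ A T (fun x => g n x + 2 ^ n) k x := by
              apply A_mono
              intro y
              simp only [hg]
              split_ifs with h
              · have : (0 : ℝ) < 2 ^ n := by positivity
                linarith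
              · linarith [not_lt.1 h]
          _ = A T (g n) k x + A T (fun _ => 2 ^ n) k x := A_add _ _ _ _ _
          _ ≤ _ := by
              have := A_const_le T (show (0 : ℝ) ≤ 2 ^ n by positivity) k x
              linarith
      rw [ENNReal.ofReal_lt_ofReal_iff_of_nonneg (by positivity)]
      rw [pow_succ] at hk'
      linarith
    · exact div_le_div_of_nonneg_right (hgint n) (by positivity)
  -- the dyadic bound
  have hpt : ∀ y : ℝ≥0∞, y ≤ 2 + ∑' n : ℕ, (if ENNReal.ofReal (2 ^ (n + 1)) < y then
      ENNReal.ofReal (2 ^ (n + 2)) else 0) := by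
    intro y
    by_cases h2 : y ≤ 2
    · exact h2.trans le_self_add
    · rw [not_le] at h2
      by_cases hex : ∃ n : ℕ, y ≤ ENNReal.ofReal (2 ^ (n + 2))
      · classical
        obtain ⟨hn1, hn2⟩ : y ≤ ENNReal.ofReal (2 ^ (Nat.find hex + 2)) ∧ True :=
          ⟨Nat.find_spec hex, trivial⟩
        set n := Nat.find hex with hn
        have h3 : ENNReal.ofReal (2 ^ (n + 1)) < y := by
          rcases Nat.eq_zero_or_pos n with h0 | h0
          · rw [h0]
            simpa using h2
          · have := Nat.find_min hex (show n - 1 < Nat.find hex by omega)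
            rw [not_le] at this
            have e : n - 1 + 2 = n + 1 := by omega
            rwa [e] at this
        refine le_trans ?_ le_add_self
        refine le_trans ?_ (ENNReal.le_tsum n)
        rw [if_pos h3]
        exact hn1
      · push Not at hex
        have : ∑' n : ℕ, (if ENNReal.ofReal (2 ^ (n + 1)) < y then
            ENNReal.ofReal (2 ^ (n + 2)) else 0) = ∞ := by
          have h3 : ∀ n : ℕ, (1 : ℝ≥0∞) ≤ (if ENNReal.ofReal (2 ^ (n + 1)) < y then
            ENNReal.ofReal (2 ^ (n + 2)) else 0) := by
            intro n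
            rw [if_pos]
            · rw [← ENNReal.ofReal_one]
              exact ENNReal.ofReal_le_ofReal (one_le_pow₀ (by norm_num))
            · refine lt_of_le_of_lt ?_ (hex n)
              exact ENNReal.ofReal_le_ofReal (pow_le_pow_right₀ (by norm_num) (by omega))
          refine top_le_iff.1 (le_trans ?_ (ENNReal.tsum_le_tsum h3))
          rw [ENNReal.tsum_const_eq_top_of_ne_zero one_ne_zero]
        rw [this]
        simp
  have hASm := AS_meas hT.measurable hf.abs
  calc ∫⁻ x, AS T (fun x => |f x|) x ∂m
      ≤ ∫⁻ x, (2 + ∑' n : ℕ, (if ENNReal.ofReal (2 ^ (n + 1)) < AS T (fun x => |f x|) x then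
      ENNReal.ofReal (2 ^ (n + 2)) else 0)) ∂m := lintegral_mono fun x => hpt _
    _ = 2 + ∑' n : ℕ, ENNReal.ofReal (2 ^ (n + 2)) *
        m {x | ENNReal.ofReal (2 ^ (n + 1)) < AS T (fun x => |f x|) x} := by
        rw [lintegral_add_left measurable_const, lintegral_const, measure_univ, mul_one]
        congr 1
        rw [lintegral_tsum]
        · refine tsum_congr fun n => ?_
          have hs : MeasurableSet {x | ENNReal.ofReal (2 ^ (n + 1)) < AS T (fun x => |f x|) x} :=
            measurableSet_lt measurable_const hASm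
          rw [← lintegral_indicator_const hs]
          refine lintegral_congr fun x => ?_
          rw [indicator_apply]
          rfl
        · intro n
          exact (Measurable.ite (measurableSet_lt measurable_const hASm)
            measurable_const measurable_const).aemeasurable
    _ ≤ 2 + ∑' n : ℕ, ENNReal.ofReal (4 * C * ((2 : ℝ) ^ (-(q - 1))) ^ n) := by
        gcongr with n
        refine (mul_le_mul' le_rfl (hlev n)).trans ?_
        rw [← ENNReal.ofReal_mul (by positivity)]
        apply ENNReal.ofReal_le_ofReal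
        apply le_of_eq
        rw [← Real.rpow_natCast ((2 : ℝ) ^ (-(q - 1))) n, ← Real.rpow_natCast 2 n,
          ← Real.rpow_mul (by norm_num), ← Real.rpow_mul (by norm_num), mul_comm (n : ℝ) (-(q - 1)),
          Real.rpow_natCast 2 n, pow_add]
        field_simp
        norm_num
        try ring
    _ < ∞ := by
        have hr1 : (2 : ℝ) ^ (-(q - 1)) < 1 :=
          Real.rpow_lt_one_of_one_lt_of_neg (by norm_num) (by linarith)
        have hr0 : (0 : ℝ) ≤ (2 : ℝ) ^ (-(q - 1)) := by positivity
        have hs : Summable fun n : ℕ => 4 * C * ((2 : ℝ) ^ (-(q - 1))) ^ n :=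
          (summable_geometric_of_lt_one hr0 hr1).mul_left _
        rw [← ENNReal.ofReal_tsum_of_nonneg (fun n => by positivity) hs]
        exact ENNReal.add_lt_top.2 ⟨by simp, ENNReal.ofReal_lt_top⟩

end Pool.Agent.Q182.Dom
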