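import Mathlib

/-!
# The golden mean spectrum: counting representations of differences
-/

set_option autoImplicit false

open Set Filter Topology
open scoped goldenRatio

namespace Pool.Agent.Q182.Gold

/-- The spectrum of the golden mean with digits `-1, 0, 1`. -/
def spec : Set ℝ :=
  {x | ∃ (n : ℕ) (c : Fin n → ℤ), (∀ i, c i = -1 ∨ c i = 0 ∨ c i = 1) ∧
    x = ∑ i, (c i : ℝ) * φ ^ (n - 1 - (i : ℕ))}

/-- the difference of the two sums -/
noncomputable def dif {n : ℕ} (p : (Fin n → Fin 2) × (Fin n → Fin 2)) : ℝ :=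
  ∑ i : Fin n, (((p.1 i : ℕ) : ℝ) - ((p.2 i : ℕ) : ℝ)) * φ ^ (n - 1 - (i : ℕ))

/-- The number of pairs of `0`-`1` sequences of length `n` with difference `x`. -/
noncomputable def N (n : ℕ) (x : ℝ) : ℕ :=
  Nat.card {p : (Fin n → Fin 2) × (Fin n → Fin 2) // dif p = x}

open Classical in
lemma N_eq (n : ℕ) (x : ℝ) :
    N n x = ∑ p : (Fin n → Fin 2) × (Fin n → Fin 2), if dif p = x then 1 else 0 := by
  unfold N
  rw [Nat.card_eq_fintype_card, Fintype.card_subtype, Finset.card_filter]

lemma N_zero (x : ℝ) [Decidable (x = 0)] : N 0 x = if x = 0 then 1 else 0 := by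
  classical
  rw [N_eq]
  have h : ∀ p : (Fin 0 → Fin 2) × (Fin 0 → Fin 2), dif p = 0 := fun p => by simp [dif]
  simp only [h]
  rw [Finset.sum_const]
  by_cases hx : x = 0
  · simp [hx]
  · have : ¬ (0 : ℝ) = x := fun e => hx e.symm
    simp [hx, this]

lemma dif_snoc {n : ℕ} (a b : Fin n → Fin 2) (u v : Fin 2) :
    dif (n := n + 1) (Fin.snoc a u, Fin.snoc b v) = φ * dif (a, b) + (((u : ℕ) : ℝ) - ((v : ℕ) : ℝ)) := by
  unfold dif
  rw [Fin.sum_univ_castSucc]
  simp only [Fin.snoc_castSucc, Fin.snoc_last, Fin.val_castSucc, Fin.val_last]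
  rw [Finset.mul_sum]
  congr 1
  · refine Finset.sum_congr rfl fun i _ => ?_
    have h1 : n + 1 - 1 - (i : ℕ) = (n - 1 - (i : ℕ)) + 1 := by
      have := i.2
      omega
    rw [h1, pow_succ]
    ring
  · simp

/-- peeling off the last digits -/
lemma N_succ (n : ℕ) (x : ℝ) :
    N (n + 1) x = 2 * N n (x / φ) + N n ((x - 1) / φ) + N n ((x + 1) / φ) := by
  classical
  have hφ : (φ : ℝ) ≠ 0 := Real.goldenRatio_ne_zero
  have e1 : N (n + 1) x = ∑ u : Fin 2, ∑ v : Fin 2, N n ((x - (((u : ℕ) : ℝ) - ((v : ℕ) : ℝ))) / φ) := by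
    have e2 : N (n + 1) x = ∑ q : (Fin 2 × (Fin n → Fin 2)) × (Fin 2 × (Fin n → Fin 2)),
        if dif (n := n + 1) (Fin.snoc q.1.2 q.1.1, Fin.snoc q.2.2 q.2.1) = x then 1 else 0 := by
      rw [N_eq]
      refine (Fintype.sum_equiv ((Fin.snocEquiv (fun _ => Fin 2)).prodCongr
        (Fin.snocEquiv (fun _ => Fin 2))) _ _ ?_).symm
      rintro ⟨⟨u, a⟩, ⟨v, b⟩⟩
      rfl
    rw [e2, Fintype.sum_prod_type, Fintype.sum_prod_type]
    refine Finset.sum_congr rfl fun u _ => ?_
    have e3 : ∀ a : Fin n → Fin 2, ∑ y : Fin 2 × (Fin n → Fin 2),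
        (if dif (n := n + 1) (Fin.snoc (u, a).2 (u, a).1, Fin.snoc y.2 y.1) = x then 1 else 0) =
        ∑ v : Fin 2, ∑ b : Fin n → Fin 2,
          if dif (n := n + 1) (Fin.snoc a u, Fin.snoc b v) = x then 1 else 0 := by
      intro a
      rw [Fintype.sum_prod_type]
    rw [Finset.sum_congr rfl fun a _ => e3 a, Finset.sum_comm]
    refine Finset.sum_congr rfl fun v _ => ?_
    rw [N_eq, Fintype.sum_prod_type]
    refine Finset.sum_congr rfl fun a _ => Finset.sum_congr rfl fun b _ => ?_
    rw [dif_snoc]
    congr 1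
    rw [eq_div_iff hφ, eq_iff_iff]
    constructor
    · intro h; linarith
    · intro h; linarith
  rw [e1]
  simp only [Fin.sum_univ_two, Fin.val_zero, Fin.val_one, Nat.cast_zero, Nat.cast_one, sub_self,
    sub_zero, zero_sub, sub_neg_eq_add]
  ring

lemma N_neg (n : ℕ) (x : ℝ) : N n (-x) = N n x := by
  classical
  induction n generalizing x with
  | zero =>
    rw [N_zero, N_zero]
    simp
  | succ n ih =>
    rw [N_succ, N_succ, neg_div, ih]
    have h1 : (-x - 1) / φ = -((x + 1) / φ) := by ring
    have h2 : (-x + 1) / φ = -((x - 1) / φ) := by ring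
    rw [h1, h2, ih, ih]
    ring

/-- `N n x ≤ N n 0` -/
lemma N_le (n : ℕ) (x : ℝ) : N n x ≤ N n 0 := by
  classical
  set S : (Fin n → Fin 2) → ℝ := fun a => dif (a, 0) with hS
  have hdif : ∀ a b : Fin n → Fin 2, dif (a, b) = S a - S b := by
    intro a b
    simp only [hS, dif]
    rw [← Finset.sum_sub_distrib]
    refine Finset.sum_congr rfl fun i _ => ?_
    simp only [Pi.zero_apply, Fin.val_zero, Nat.cast_zero]
    ring
  set r : ℝ → ℕ := fun s => ∑ b : Fin n → Fin 2, if S b = s then 1 else 0 with hr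
  have h1 : ∀ y, N n y = ∑ a : Fin n → Fin 2, r (S a - y) := by
    intro y
    rw [N_eq, Fintype.sum_prod_type]
    refine Finset.sum_congr rfl fun a _ => ?_
    simp only [hr]
    refine Finset.sum_congr rfl fun b _ => ?_
    rw [hdif]
    congr 1
    rw [eq_iff_iff]
    constructor
    · intro h; linarith
    · intro h; linarith
  set V : Finset ℝ := Finset.univ.image S with hV
  have h2 : ∀ y, ∑ a : Fin n → Fin 2, r (S a - y) = ∑ s ∈ V, r s * r (s - y) := by
    intro y
    rw [Finset.sum_comp (f := fun s => r (s - y)) S]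
    refine Finset.sum_congr rfl fun s _ => ?_
    rw [smul_eq_mul]
    congr 1
    rw [Finset.card_filter]
  have h3 : ∀ y, ∑ s ∈ V, r (s - y) ^ 2 ≤ ∑ s ∈ V, r s ^ 2 := by
    intro y
    have h4 : ∑ s ∈ V, r (s - y) ^ 2 = ∑ t ∈ V.image (fun s => s - y), r t ^ 2 :=
      (Finset.sum_image (f := fun t => r t ^ 2) (s := V) (g := fun s : ℝ => s - y)
        (fun a _ b _ hab => by simpa using hab)).symm
    rw [h4]
    have h5 : ∑ t ∈ V.image (fun s => s - y), r t ^ 2 =
        ∑ t ∈ (V.image (fun s => s - y)).filter (fun t => t ∈ V), r t ^ 2 := by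
      symm
      refine Finset.sum_subset (Finset.filter_subset _ _) ?_
      intro t ht ht2
      have ht3 : t ∉ V := fun h => ht2 (Finset.mem_filter.2 ⟨ht, h⟩)
      have : r t = 0 := by
        simp only [hr]
        refine Finset.sum_eq_zero fun b _ => ?_
        rw [if_neg]
        intro h
        exact ht3 (h ▸ Finset.mem_image_of_mem S (Finset.mem_univ b))
      rw [this]
      norm_num
    rw [h5]
    refine Finset.sum_le_sum_of_subset ?_
    intro t ht
    exact (Finset.mem_filter.1 ht).2
  have h6 : 2 * N n x ≤ 2 * N n 0 := by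
    rw [h1, h1, h2, h2]
    have h7 : 2 * ∑ s ∈ V, r s * r (s - x) ≤ ∑ s ∈ V, r s ^ 2 + ∑ s ∈ V, r (s - x) ^ 2 := by
      rw [← Finset.sum_add_distrib, Finset.mul_sum]
      refine Finset.sum_le_sum fun s _ => ?_
      nlinarith [sq_nonneg ((r s : ℤ) - r (s - x)), two_mul_le_add_sq (r s) (r (s - x))]
    have h8 : ∑ s ∈ V, r s * r (s - 0) = ∑ s ∈ V, r s ^ 2 := by
      refine Finset.sum_congr rfl fun s _ => ?_
      rw [sub_zero, sq]
    rw [h8]
    have := h3 x
    omega
  omega

/-- the members of the spectrum are exactly the numbers with a representation -/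
lemma mem_spec_iff (x : ℝ) : x ∈ spec ↔ ∃ n, N n x ≠ 0 := by
  classical
  constructor
  · rintro ⟨n, c, hc, rfl⟩
    refine ⟨n, ?_⟩
    rw [N_eq]
    apply ne_of_gt
    refine Finset.sum_pos' (fun _ _ => Nat.zero_le _) ⟨(fun i => if c i = 1 then 1 else 0,
      fun i => if c i = -1 then 1 else 0), Finset.mem_univ _, ?_⟩
    rw [if_pos]
    · exact Nat.one_pos
    · unfold dif
      refine Finset.sum_congr rfl fun i _ => ?_
      congr 1
      rcases hc i with h | h | h <;> simp only [h] <;> norm_num
  · rintro ⟨n, hn⟩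
    rw [N_eq] at hn
    obtain ⟨p, _, hp⟩ := Finset.exists_ne_zero_of_sum_ne_zero hn
    have hp' : dif p = x := by
      by_contra h
      rw [if_neg h] at hp
      exact hp rfl
    refine ⟨n, fun i => ((p.1 i : ℕ) : ℤ) - ((p.2 i : ℕ) : ℤ), ?_, ?_⟩
    · intro i
      have h1 := (p.1 i).2
      have h2 := (p.2 i).2
      show ((p.1 i : ℕ) : ℤ) - ((p.2 i : ℕ) : ℤ) = -1 ∨ ((p.1 i : ℕ) : ℤ) - ((p.2 i : ℕ) : ℤ) = 0 ∨
        ((p.1 i : ℕ) : ℤ) - ((p.2 i : ℕ) : ℤ) = 1
      omega
    · rw [← hp']
      unfold dif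
      refine Finset.sum_congr rfl fun i _ => ?_
      push_cast
      rfl

lemma φ_bounds : (1.618 : ℝ) < φ ∧ (φ : ℝ) < 1.6181 := by
  have h1 := Real.goldenRatio_sq
  have h2 := Real.one_lt_goldenRatio
  constructor
  · by_contra h
    rw [not_lt] at h
    nlinarith
  · by_contra h
    rw [not_lt] at h
    nlinarith

/-- small members of the spectrum -/
lemma small {n : ℕ} {x : ℝ} (h : N n x ≠ 0) :
    x = 0 ∨ x = 1 ∨ x = -1 ∨ x = φ ∨ x = -φ ∨ x = φ - 1 ∨ x = -(φ - 1) ∨ 2 ≤ |x| := by
  classical
  induction n generalizing x with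
  | zero =>
    rw [N_zero] at h
    left
    by_contra hx
    rw [if_neg hx] at h
    exact h rfl
  | succ n ih =>
    have h1 := Real.goldenRatio_sq
    obtain ⟨hb1, hb2⟩ := φ_bounds
    have hφ : (φ : ℝ) ≠ 0 := Real.goldenRatio_ne_zero
    rw [N_succ] at h
    have h2 : ∃ c : ℝ, (c = 0 ∨ c = 1 ∨ c = -1) ∧ N n ((x - c) / φ) ≠ 0 := by
      by_contra hcon
      push Not at hcon
      have e0 := hcon 0 (Or.inl rfl)
      have e1 := hcon 1 (Or.inr (Or.inl rfl))
      have e2 := hcon (-1) (Or.inr (Or.inr rfl))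
      rw [sub_zero] at e0
      rw [sub_neg_eq_add] at e2
      rw [e0, e1, e2] at h
      exact h rfl
    obtain ⟨c, hc, h3⟩ := h2
    have hx : ∀ y, (x - c) / φ = y → x = φ * y + c := by
      intro y hy
      rw [← hy]
      field_simp
      ring
    rcases ih h3 with h4 | h4 | h4 | h4 | h4 | h4 | h4 | h4
    · have := hx _ h4
      rcases hc with rfl | rfl | rfl
      · left; linarith
      · right; left; linarith
      · right; right; left; linarith
    · have := hx _ h4
      rcases hc with rfl | rfl | rfl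
      · right; right; right; left; linarith
      · right; right; right; right; right; right; right
        rw [this, abs_of_pos (by linarith)]; linarith
      · right; right; right; right; right; left; linarith
    · have := hx _ h4
      rcases hc with rfl | rfl | rfl
      · right; right; right; right; left; linarith
      · right; right; right; right; right; right; left; linarith
      · right; right; right; right; right; right; right
        rw [this, abs_of_neg (by linarith)]; linarith
    · have h5 := hx _ h4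
      rw [← sq, h1] at h5
      rcases hc with rfl | rfl | rfl
      · right; right; right; right; right; right; right
        rw [h5, abs_of_pos (by linarith)]; linarith
      · right; right; right; right; right; right; right
        rw [h5, abs_of_pos (by linarith)]; linarith
      · right; right; right; left; linarith
    · have h5 := hx _ h4
      rw [mul_neg, ← sq, h1] at h5
      rcases hc with rfl | rfl | rfl
      · right; right; right; right; right; right; right
        rw [h5, abs_of_neg (by linarith)]; linarith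
      · right; right; right; right; left; linarith
      · right; right; right; right; right; right; right
        rw [h5, abs_of_neg (by linarith)]; linarith
    · have h5 := hx _ h4
      have h6 : x = 1 + c := by rw [h5]; linarith
      rcases hc with rfl | rfl | rfl
      · right; left; linarith
      · right; right; right; right; right; right; right
        rw [h6, abs_of_pos (by linarith)]; linarith
      · left; linarith
    · have h5 := hx _ h4
      have h6 : x = -1 + c := by rw [h5]; linarith
      rcases hc with rfl | rfl | rfl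
      · right; right; left; linarith
      · left; linarith
      · right; right; right; right; right; right; right
        rw [h6, abs_of_neg (by linarith)]; linarith
    · right; right; right; right; right; right; right
      have h5 : |x - c| = φ * |(x - c) / φ| := by
        rw [abs_div, abs_of_pos (show (0 : ℝ) < φ by linarith)]
        field_simp
      have h6 : |c| ≤ 1 := by rcases hc with rfl | rfl | rfl <;> norm_num
      have h7 : |x - c| ≤ |x| + |c| := abs_sub _ _
      nlinarith

/-- conjugates -/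
lemma rep {n : ℕ} {x : ℝ} (h : N n x ≠ 0) :
    ∃ a b : ℤ, x = a + b * φ ∧ |(a : ℝ) + b * ψ| ≤ φ ^ 2 := by
  classical
  induction n generalizing x with
  | zero =>
    rw [N_zero] at h
    have hx : x = 0 := by
      by_contra hx
      rw [if_neg hx] at h
      exact h rfl
    exact ⟨0, 0, by rw [hx]; simp, by simp; positivity⟩
  | succ n ih =>
    have h1 := Real.goldenRatio_sq
    have h1' := Real.goldenConj_sq
    obtain ⟨hb1, hb2⟩ := φ_bounds
    have hφ : (φ : ℝ) ≠ 0 := Real.goldenRatio_ne_zero
    rw [N_succ] at h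
    have h2 : ∃ c : ℤ, (c = 0 ∨ c = 1 ∨ c = -1) ∧ N n ((x - c) / φ) ≠ 0 := by
      by_contra hcon
      push Not at hcon
      have e0 := hcon 0 (Or.inl rfl)
      have e1 := hcon 1 (Or.inr (Or.inl rfl))
      have e2 := hcon (-1) (Or.inr (Or.inr rfl))
      push_cast at e0 e1 e2
      rw [sub_zero] at e0
      rw [sub_neg_eq_add] at e2
      rw [e0, e1, e2] at h
      exact h rfl
    obtain ⟨c, hc, h3⟩ := h2
    obtain ⟨a, b, hab, hab2⟩ := ih h3
    refine ⟨b + c, a + b, ?_, ?_⟩
    · have : x = φ * (a + b * φ) + c := by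
        rw [← hab]
        field_simp
        ring
      rw [this]
      push_cast
      linear_combination (b : ℝ) * h1
    · have e : ((b + c : ℤ) : ℝ) + ((a + b : ℤ) : ℝ) * ψ = ψ * (a + b * ψ) + c := by
        push_cast
        linear_combination -(b : ℝ) * h1'
      rw [e]
      have hc1 : |(c : ℝ)| ≤ 1 := by rcases hc with rfl | rfl | rfl <;> norm_num
      have hψ : |ψ| = φ⁻¹ := by
        rw [Real.inv_goldenRatio, abs_of_neg Real.goldenConj_neg]
      calc |ψ * (a + b * ψ) + c| ≤ |ψ * (a + b * ψ)| + |(c : ℝ)| := abs_add_le _ _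
        _ = φ⁻¹ * |(a : ℝ) + b * ψ| + |(c : ℝ)| := by rw [abs_mul, hψ]
        _ ≤ φ⁻¹ * φ ^ 2 + 1 := by gcongr
        _ = φ ^ 2 := by
            rw [sq, ← mul_assoc, inv_mul_cancel₀ hφ, one_mul, ← sq, h1]

end Pool.Agent.Q182.Gold
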