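import Mathlib
import Pool.Agent.Q182.Gold1

/-!
# The golden mean spectrum: the growth rate and the limit weights
-/

set_option autoImplicit false

open Set Filter Topology
open scoped goldenRatio

namespace Pool.Agent.Q182.Gold

lemma exists_lam : ∃ t : ℝ, 12 / 5 < t ∧ t < 5 / 2 ∧ t ^ 3 - 2 * t ^ 2 - 2 * t + 2 = 0 := by
  have hc : ContinuousOn (fun t : ℝ => t ^ 3 - 2 * t ^ 2 - 2 * t + 2) (Icc (12 / 5) (5 / 2)) := by
    fun_prop
  have h := intermediate_value_Ioo (show (12 / 5 : ℝ) ≤ 5 / 2 by norm_num) hc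
  have h0 : (0 : ℝ) ∈ Ioo ((12 / 5 : ℝ) ^ 3 - 2 * (12 / 5) ^ 2 - 2 * (12 / 5) + 2)
      ((5 / 2 : ℝ) ^ 3 - 2 * (5 / 2) ^ 2 - 2 * (5 / 2) + 2) := by
    constructor <;> norm_num
  obtain ⟨t, ht, ht2⟩ := h h0
  exact ⟨t, ht.1, ht.2, ht2⟩

/-- the growth rate -/
noncomputable def lam : ℝ := exists_lam.choose

lemma lam_gt : 12 / 5 < lam := exists_lam.choose_spec.1
lemma lam_lt : lam < 5 / 2 := exists_lam.choose_spec.2.1
lemma lam_eq : lam ^ 3 - 2 * lam ^ 2 - 2 * lam + 2 = 0 := exists_lam.choose_spec.2.2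
lemma lam_pos : 0 < lam := by linarith [lam_gt]

lemma N_out {n : ℕ} {x : ℝ} (h0 : 0 < x) (h2 : x < 2) (h3 : x ≠ 1) (h4 : x ≠ φ) (h5 : x ≠ φ - 1) :
    N n x = 0 := by
  by_contra h
  have hb := φ_bounds
  rcases small h with h | h | h | h | h | h | h | h
  · linarith
  · exact h3 h
  · linarith
  · exact h4 h
  · linarith
  · exact h5 h
  · linarith
  · rw [abs_of_pos h0] at h; linarith

lemma inv_φ : (1 : ℝ) / φ = φ - 1 := by
  have h1 := Real.goldenRatio_sq
  have hφ : (φ : ℝ) ≠ 0 := Real.goldenRatio_ne_zero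
  rw [div_eq_iff hφ]
  linarith

lemma A_succ (n : ℕ) : N (n + 1) 0 = 2 * N n 0 + 2 * N n (φ - 1) := by
  rw [N_succ]
  have e1 : (0 : ℝ) / φ = 0 := zero_div _
  have e2 : ((0 : ℝ) - 1) / φ = -(φ - 1) := by rw [← inv_φ]; ring
  have e3 : ((0 : ℝ) + 1) / φ = φ - 1 := by rw [← inv_φ]; ring
  rw [e1, e2, e3, N_neg]
  ring

lemma B_succ (n : ℕ) : N (n + 1) 1 = N n 0 + 2 * N n (φ - 1) := by
  have hb := φ_bounds
  rw [N_succ]
  have e1 : (1 : ℝ) / φ = φ - 1 := inv_φ
  have e2 : ((1 : ℝ) - 1) / φ = 0 := by simp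
  have e3 : ((1 : ℝ) + 1) / φ = 2 * (φ - 1) := by rw [← inv_φ]; ring
  rw [e1, e2, e3, N_out (x := 2 * (φ - 1)) (by linarith) (by linarith) (by intro h; linarith)
    (by intro h; linarith) (by intro h; linarith)]
  ring

lemma C_succ (n : ℕ) : N (n + 1) (φ - 1) = N n 1 := by
  have hb := φ_bounds
  have h1 := Real.goldenRatio_sq
  have hφ : (φ : ℝ) ≠ 0 := Real.goldenRatio_ne_zero
  rw [N_succ]
  have e1 : (φ - 1) / φ = 2 - φ := by rw [div_eq_iff hφ]; linarith
  have e2 : (φ - 1 - 1) / φ = -(2 * φ - 3) := by rw [div_eq_iff hφ]; nlinarith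
  have e3 : (φ - 1 + 1) / φ = 1 := by rw [sub_add_cancel, div_self hφ]
  rw [e1, e2, e3, N_neg, N_out (x := 2 - φ) (by linarith) (by linarith) (by intro h; linarith)
    (by intro h; linarith) (by intro h; linarith), N_out (x := 2 * φ - 3) (by linarith)
    (by linarith) (by intro h; linarith) (by intro h; linarith) (by intro h; linarith)]
  ring

lemma D_succ (n : ℕ) : N (n + 1) φ = 2 * N n 1 + N n φ := by
  have hb := φ_bounds
  have h1 := Real.goldenRatio_sq
  have hφ : (φ : ℝ) ≠ 0 := Real.goldenRatio_ne_zero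
  rw [N_succ]
  have e1 : (φ : ℝ) / φ = 1 := div_self hφ
  have e2 : (φ - 1) / φ = 2 - φ := by rw [div_eq_iff hφ]; linarith
  have e3 : (φ + 1) / φ = φ := by rw [div_eq_iff hφ]; linarith
  rw [e1, e2, e3, N_out (x := 2 - φ) (by linarith) (by linarith) (by intro h; linarith)
    (by intro h; linarith) (by intro h; linarith)]
  ring

lemma init : N 0 0 = 1 ∧ N 0 1 = 0 ∧ N 0 (φ - 1) = 0 ∧ N 0 φ = 0 := by
  classical
  have hb := φ_bounds
  refine ⟨?_, ?_, ?_, ?_⟩ <;> rw [N_zero]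
  · simp
  · simp
  · rw [if_neg (by intro h; linarith)]
  · rw [if_neg (by intro h; linarith)]

lemma D_eq (n : ℕ) : (N n φ : ℝ) = 2 * ((N n 0 : ℝ) - N n 1) - 2 := by
  induction n with
  | zero =>
    obtain ⟨h1, h2, _, h4⟩ := init
    rw [h1, h2, h4]; norm_num
  | succ n ih =>
    rw [D_succ, A_succ, B_succ]
    push_cast
    rw [ih]
    ring

/-- a linear recurrence of order two with small coefficients -/
lemma conv2 {a : ℕ → ℝ} {s α β : ℝ} (h : ∀ n, a (n + 2) = s + α * a (n + 1) + β * a n)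
    (h1 : |α| / 2 + |β| ≤ 1 / 4) : Tendsto a atTop (𝓝 (s / (1 - α - β))) := by
  have hne : 1 - α - β ≠ 0 := by
    have e1 := le_abs_self α
    have e2 := le_abs_self β
    have e3 := abs_nonneg α
    have e4 := abs_nonneg β
    intro h0
    linarith
  set L := s / (1 - α - β) with hL
  have hLs : L = s + α * L + β * L := by
    have : L * (1 - α - β) = s := div_mul_cancel₀ s hne
    linarith
  set C := |a 0 - L| + 2 * |a 1 - L| with hC
  have key : ∀ n, |a n - L| ≤ C * (1 / 2) ^ n ∧ |a (n + 1) - L| ≤ C * (1 / 2) ^ (n + 1) := by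
    intro n
    induction n with
    | zero =>
      constructor
      · rw [pow_zero, mul_one]
        have := abs_nonneg (a 1 - L)
        linarith
      · rw [zero_add, pow_one]
        have := abs_nonneg (a 0 - L)
        linarith
    | succ n ih =>
      refine ⟨ih.2, ?_⟩
      have e : a (n + 1 + 1) - L = α * (a (n + 1) - L) + β * (a n - L) := by
        rw [h n]
        linarith
      rw [e]
      have hp : (0 : ℝ) < (1 / 2) ^ n := by positivity
      have hC0 : 0 ≤ C := by positivity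
      calc |α * (a (n + 1) - L) + β * (a n - L)|
          ≤ |α| * |a (n + 1) - L| + |β| * |a n - L| := by
            rw [← abs_mul, ← abs_mul]; exact abs_add_le _ _
        _ ≤ |α| * (C * (1 / 2) ^ (n + 1)) + |β| * (C * (1 / 2) ^ n) :=
            add_le_add (mul_le_mul_of_nonneg_left ih.2 (abs_nonneg _))
              (mul_le_mul_of_nonneg_left ih.1 (abs_nonneg _))
        _ = (C * (1 / 2) ^ n) * (|α| / 2 + |β|) := by ring
        _ ≤ (C * (1 / 2) ^ n) * (1 / 4) := mul_le_mul_of_nonneg_left h1 (by positivity)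
        _ = C * (1 / 2) ^ (n + 1 + 1) := by ring
  rw [tendsto_iff_norm_sub_tendsto_zero]
  have h0 : Tendsto (fun n : ℕ => C * (1 / 2 : ℝ) ^ n) atTop (𝓝 0) := by
    have := (tendsto_pow_atTop_nhds_zero_of_lt_one (show (0 : ℝ) ≤ 1 / 2 by norm_num)
      (by norm_num)).const_mul C
    simpa using this
  exact squeeze_zero (fun n => norm_nonneg _) (fun n => (key n).1) h0

/-- the limit at `0` exists and is positive -/
lemma A_lim : ∃ L : ℝ, 0 < L ∧ Tendsto (fun n => (N n 0 : ℝ) / lam ^ n) atTop (𝓝 L) := by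
  have g1 := lam_gt
  have g2 := lam_lt
  have g3 := lam_eq
  have g0 := lam_pos
  set t := lam with ht
  set p := t - 2 with hp
  set q := t ^ 2 - 2 * t - 2 with hq
  have hqt : t * q = -2 := by rw [hq]; linear_combination g3
  have rec3 : ∀ n, (N (n + 3) 0 : ℝ) = 2 * N (n + 2) 0 + 2 * N (n + 1) 0 - 2 * N n 0 := by
    intro n
    have e1 : N (n + 3) 0 = 2 * N (n + 2) 0 + 2 * N (n + 2) (φ - 1) := A_succ (n + 2)
    have e2 : N (n + 2) (φ - 1) = N (n + 1) 1 := C_succ (n + 1)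
    have e3 : N (n + 1) 1 = N n 0 + 2 * N n (φ - 1) := B_succ n
    have e4 : N (n + 1) 0 = 2 * N n 0 + 2 * N n (φ - 1) := A_succ n
    have e5 : (N (n + 1) 0 : ℝ) = 2 * N n 0 + 2 * N n (φ - 1) := by exact_mod_cast e4
    rw [e1, e2, e3]
    push_cast
    linarith
  set E : ℕ → ℝ := fun n => N (n + 2) 0 + p * N (n + 1) 0 + q * N n 0 with hE
  have hE1 : ∀ n, E (n + 1) = t * E n := by
    intro n
    simp only [hE]
    have := rec3 n
    rw [show n + 1 + 2 = n + 3 by ring, show n + 1 + 1 = n + 2 by ring, this]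
    linear_combination (N n 0 : ℝ) * (-hqt)
  have hE2 : ∀ n, E n = t ^ n * E 0 := by
    intro n
    induction n with
    | zero => simp
    | succ n ih => rw [hE1, ih]; ring
  have h0 : N 0 0 = 1 := init.1
  have hA1 : N 1 0 = 2 := by
    have := A_succ 0
    rw [init.1, init.2.2.1] at this
    simpa using this
  have hA2 : N 2 0 = 4 := by
    have e1 : N 2 0 = 2 * N 1 0 + 2 * N 1 (φ - 1) := A_succ 1
    have e2 : N 1 (φ - 1) = N 0 1 := C_succ 0
    rw [e1, e2, init.2.1, hA1]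
  have hE0 : 0 < E 0 := by
    simp only [hE]
    rw [hA2, hA1, h0]
    push_cast
    rw [hp, hq]
    nlinarith
  refine ⟨E 0 / t ^ 2 / (1 - (-(p / t)) - (-(q / t ^ 2))), ?_, ?_⟩
  · apply div_pos (by positivity)
    have e1 : 0 < p / t := by
      apply div_pos _ g0; rw [hp]; linarith
    have e2 : -(1 / 4) ≤ q / t ^ 2 := by
      rw [le_div_iff₀ (by positivity)]
      rw [hq]
      nlinarith
    linarith
  · apply conv2
    · intro n
      have h5 := hE2 n
      simp only [hE] at h5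
      have h6 : (N (n + 2) 0 : ℝ) = t ^ n * E 0 - p * N (n + 1) 0 - q * N n 0 := by
        simp only [hE]
        linarith
      rw [h6]
      have ht0 : t ≠ 0 := g0.ne'
      field_simp
      ring
    · have hp0 : 0 < p := by rw [hp]; linarith
      have hq0 : q < 0 := by
        by_contra h
        rw [not_lt] at h
        nlinarith
      rw [abs_neg, abs_neg, abs_of_pos (div_pos hp0 g0), abs_of_neg (div_neg_of_neg_of_pos hq0
        (by positivity))]
      have e1 : p / t ≤ 5 / 24 := by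
        rw [div_le_iff₀ g0, hp]; linarith
      have e2 : -(q / t ^ 2) ≤ 7 / 48 := by
        have : -(q / t ^ 2) = 2 / t ^ 3 := by
          have : q = -2 / t := by field_simp; linarith
          rw [this]; field_simp
        rw [this, div_le_iff₀ (by positivity)]
        have h3 : (12 / 5 : ℝ) ^ 3 ≤ t ^ 3 := pow_le_pow_left₀ (by norm_num) g1.le 3
        have : (2 : ℝ) ≤ 7 / 48 * (12 / 5) ^ 3 := by norm_num
        linarith
      linarith

lemma lim_shift {x y : ℝ} {L : ℝ} (h : ∀ n, N (n + 1) x = N n y)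
    (hx : Tendsto (fun n => (N n x : ℝ) / lam ^ n) atTop (𝓝 L)) :
    Tendsto (fun n => (N n y : ℝ) / lam ^ n) atTop (𝓝 (L * lam)) := by
  have h1 := ((tendsto_add_atTop_iff_nat 1).2 hx).mul_const lam
  refine h1.congr fun n => ?_
  rw [h, pow_succ]
  have := lam_pos.ne'
  field_simp

lemma C_lim : ∃ L : ℝ, Tendsto (fun n => (N n (φ - 1) : ℝ) / lam ^ n) atTop (𝓝 L) := by
  obtain ⟨L, _, hL⟩ := A_lim
  have h1 := ((tendsto_add_atTop_iff_nat 1).2 hL).mul_const (lam / 2)
  have h2 := h1.sub hL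
  refine ⟨_, h2.congr fun n => ?_⟩
  rw [A_succ, pow_succ]
  push_cast
  have := lam_pos.ne'
  field_simp
  ring

lemma B_lim : ∃ L : ℝ, Tendsto (fun n => (N n 1 : ℝ) / lam ^ n) atTop (𝓝 L) := by
  obtain ⟨L, hL⟩ := C_lim
  exact ⟨_, lim_shift C_succ hL⟩

lemma D_lim : ∃ L : ℝ, Tendsto (fun n => (N n φ : ℝ) / lam ^ n) atTop (𝓝 L) := by
  obtain ⟨L1, _, h1⟩ := A_lim
  obtain ⟨L2, h2⟩ := B_lim
  have h3 : Tendsto (fun n : ℕ => 2 / lam ^ n) atTop (𝓝 0) := by
    have h4 : Tendsto (fun n : ℕ => lam ^ n) atTop atTop :=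
      tendsto_pow_atTop_atTop_of_one_lt (by linarith [lam_gt])
    exact h4.const_div_atTop 2
  have h5 := ((h1.sub h2).const_mul 2).sub h3
  refine ⟨_, h5.congr fun n => ?_⟩
  rw [D_eq]
  ring

lemma lim_small {x : ℝ} (hx : |x| < 2) :
    ∃ L : ℝ, Tendsto (fun n => (N n x : ℝ) / lam ^ n) atTop (𝓝 L) := by
  by_cases h : ∀ n, N n x = 0
  · refine ⟨0, ?_⟩
    simp only [h]
    simp
  · push Not at h
    obtain ⟨n, hn⟩ := h
    have hneg : ∀ y, (∃ L : ℝ, Tendsto (fun n => (N n y : ℝ) / lam ^ n) atTop (𝓝 L)) →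
        ∃ L : ℝ, Tendsto (fun n => (N n (-y) : ℝ) / lam ^ n) atTop (𝓝 L) := by
      rintro y ⟨L, hL⟩
      exact ⟨L, by simpa only [N_neg] using hL⟩
    rcases small hn with h | h | h | h | h | h | h | h
    · rw [h]
      obtain ⟨L, _, hL⟩ := A_lim
      exact ⟨L, hL⟩
    · rw [h]; exact B_lim
    · rw [h]; exact hneg 1 B_lim
    · rw [h]; exact D_lim
    · rw [h]; exact hneg φ D_lim
    · rw [h]; exact C_lim
    · rw [h]; exact hneg _ C_lim
    · linarith

lemma lim_rec {x : ℝ} (h : ∀ y, |y| ≤ (|x| + 1) / φ →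
      ∃ L : ℝ, Tendsto (fun n => (N n y : ℝ) / lam ^ n) atTop (𝓝 L)) :
    ∃ L : ℝ, Tendsto (fun n => (N n x : ℝ) / lam ^ n) atTop (𝓝 L) := by
  have hφ := Real.goldenRatio_pos
  have b0 : |x / φ| ≤ (|x| + 1) / φ := by
    rw [abs_div, abs_of_pos hφ]
    exact div_le_div_of_nonneg_right (by linarith) hφ.le
  have b1 : |(x - 1) / φ| ≤ (|x| + 1) / φ := by
    rw [abs_div, abs_of_pos hφ]
    refine div_le_div_of_nonneg_right ?_ hφ.le
    have := abs_sub x 1
    rwa [abs_one] at this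
  have b2 : |(x + 1) / φ| ≤ (|x| + 1) / φ := by
    rw [abs_div, abs_of_pos hφ]
    refine div_le_div_of_nonneg_right ?_ hφ.le
    have := abs_add_le x 1
    rwa [abs_one] at this
  obtain ⟨L0, h0⟩ := h _ b0
  obtain ⟨L1, h1⟩ := h _ b1
  obtain ⟨L2, h2⟩ := h _ b2
  have h3 := (((h0.const_mul 2).add h1).add h2).mul_const lam⁻¹
  refine ⟨(2 * L0 + L1 + L2) * lam⁻¹, (tendsto_add_atTop_iff_nat 1).1 (h3.congr fun n => ?_)⟩
  rw [N_succ, pow_succ]
  push_cast
  have := lam_pos.ne'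
  field_simp

lemma lim_all (x : ℝ) : ∃ L : ℝ, Tendsto (fun n => (N n x : ℝ) / lam ^ n) atTop (𝓝 L) := by
  have hb := φ_bounds
  have hφ := Real.goldenRatio_pos
  have hsq := Real.goldenRatio_sq
  have key : ∀ k : ℕ, ∀ x : ℝ, |x| < φ + (2 - φ) * φ ^ k →
      ∃ L : ℝ, Tendsto (fun n => (N n x : ℝ) / lam ^ n) atTop (𝓝 L) := by
    intro k
    induction k with
    | zero =>
      intro x hx
      apply lim_small
      rw [pow_zero] at hx
      linarith
    | succ k ih =>
      intro x hx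
      apply lim_rec
      intro y hy
      apply ih
      refine lt_of_le_of_lt hy ?_
      rw [div_lt_iff₀ hφ]
      calc |x| + 1 < φ + (2 - φ) * φ ^ (k + 1) + 1 := by linarith
        _ = (φ + (2 - φ) * φ ^ k) * φ := by rw [pow_succ]; linear_combination -hsq
  have h1 : Tendsto (fun k : ℕ => φ + (2 - φ) * φ ^ k) atTop atTop := by
    apply tendsto_atTop_add_const_left
    exact (tendsto_pow_atTop_atTop_of_one_lt Real.one_lt_goldenRatio).const_mul_atTop (by linarith)
  obtain ⟨k, hk⟩ := (h1.eventually_gt_atTop |x|).exists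
  exact key k x hk

/-- the weights -/
noncomputable def mu (x : ℝ) : ℝ := (lim_all x).choose

lemma mu_spec (x : ℝ) : Tendsto (fun n => (N n x : ℝ) / lam ^ n) atTop (𝓝 (mu x)) :=
  (lim_all x).choose_spec

lemma mu_nonneg (x : ℝ) : 0 ≤ mu x := by
  refine ge_of_tendsto' (mu_spec x) fun n => ?_
  have := lam_pos
  positivity

lemma mu_neg (x : ℝ) : mu (-x) = mu x := by
  refine tendsto_nhds_unique (mu_spec (-x)) ?_
  simpa only [N_neg] using mu_spec x

lemma mu_le (x : ℝ) : mu x ≤ mu 0 := by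
  refine le_of_tendsto_of_tendsto' (mu_spec x) (mu_spec 0) fun n => ?_
  have := lam_pos
  have h : (N n x : ℝ) ≤ N n 0 := by exact_mod_cast N_le n x
  gcongr

lemma mu_zero_pos : 0 < mu 0 := by
  obtain ⟨L, hL, h⟩ := A_lim
  rw [tendsto_nhds_unique (mu_spec 0) h]
  exact hL

lemma mu_rec (x : ℝ) : mu x = lam⁻¹ * (2 * mu (x / φ) + mu ((x - 1) / φ) + mu ((x + 1) / φ)) := by
  have h3 := ((((mu_spec (x / φ)).const_mul 2).add (mu_spec ((x - 1) / φ))).add
    (mu_spec ((x + 1) / φ))).const_mul lam⁻¹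
  refine tendsto_nhds_unique ((tendsto_add_atTop_iff_nat 1).2 (mu_spec x)) (h3.congr fun n => ?_)
  rw [N_succ, pow_succ]
  push_cast
  have := lam_pos.ne'
  field_simp

lemma mu_ne {x : ℝ} (h : mu x ≠ 0) : ∃ n, N n x ≠ 0 := by
  by_contra hcon
  push Not at hcon
  apply h
  refine tendsto_nhds_unique (mu_spec x) ?_
  simp only [hcon]
  simp

/-- `lam` is the exponential growth rate -/
lemma growth : Tendsto (fun n : ℕ => (N n 0 : ℝ) ^ (1 / (n : ℝ))) atTop (𝓝 lam) := by
  have h1 := mu_spec 0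
  have h2 := mu_zero_pos
  have hl := lam_pos
  have h3 : Tendsto (fun n : ℕ => 1 / (n : ℝ)) atTop (𝓝 0) := tendsto_one_div_atTop_nhds_zero_nat
  have h4 : Tendsto (fun n : ℕ => ((N n 0 : ℝ) / lam ^ n) ^ (1 / (n : ℝ))) atTop (𝓝 (mu 0 ^ (0 : ℝ))) :=
    h1.rpow h3 (Or.inl h2.ne')
  rw [Real.rpow_zero] at h4
  have h5 := h4.mul_const lam
  rw [one_mul] at h5
  refine h5.congr' ?_
  filter_upwards [eventually_gt_atTop 0] with n hn
  have hn' : (n : ℝ) ≠ 0 := by exact_mod_cast hn.ne'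
  rw [Real.div_rpow (by positivity) (by positivity), ← Real.rpow_natCast lam n,
    ← Real.rpow_mul hl.le, mul_one_div_cancel hn', Real.rpow_one]
  field_simp

end Pool.Agent.Q182.Gold
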