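import Mathlib

/-!
# Averages along windows in uniquely ergodic systems, and avoiding patterns on a set of integers
-/

set_option autoImplicit false

open MeasureTheory Filter Topology Set
open scoped ENNReal BoundedContinuousFunction

namespace Pool.Agent.Q182.Interp

section Avg

variable {X : Type*} [MetricSpace X] [CompactSpace X] [MeasurableSpace X] [BorelSpace X]

/-- empirical measure of the orbit piece of length `L + 1` -/
noncomputable def emp (T : X → X) (x : X) (m L : ℕ) : Measure X :=
  ((L : ℝ≥0∞) + 1)⁻¹ • ∑ i ∈ Finset.range (L + 1), Measure.dirac (T^[m + i] x)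

omit [CompactSpace X] [BorelSpace X] [MetricSpace X] in
lemma emp_prob (T : X → X) (x : X) (m L : ℕ) : IsProbabilityMeasure (emp T x m L) := by
  constructor
  unfold emp
  rw [Measure.smul_apply, Measure.finsetSum_apply]
  simp only [measure_univ, Finset.sum_const, Finset.card_range, nsmul_eq_mul, mul_one, smul_eq_mul]
  push_cast
  exact ENNReal.inv_mul_cancel (by simp) (by finiteness)

lemma integral_emp (T : X → X) (x : X) (m L : ℕ) (h : X → ℝ) (hh : Continuous h) :
    ∫ y, h y ∂(emp T x m L) = (∑ i ∈ Finset.range (L + 1), h (T^[m + i] x)) / ((L : ℝ) + 1) := by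
  unfold emp
  rw [integral_smul_measure, integral_finsetSum_measure]
  · simp only [integral_dirac' _ _ hh.stronglyMeasurable]
    rw [ENNReal.toReal_inv, ENNReal.toReal_add (by simp) (by simp), smul_eq_mul]
    simp only [ENNReal.toReal_natCast, ENNReal.toReal_one]
    rw [div_eq_inv_mul]
  · intro i _
    exact integrable_dirac (by simp)

theorem avg_tendsto {ι : Type*} (l : Filter ι) (T : X → X) (hT : Continuous T) (μ : Measure X)
    (hμ : IsProbabilityMeasure μ)
    (huniq : ∀ ν : Measure X, IsProbabilityMeasure ν → ν.map T = ν → ν = μ) (x : X) (m L : ι → ℕ)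
    (hL : Tendsto L l atTop) (h : X → ℝ) (hh : Continuous h) :
    Tendsto (fun j => (∑ i ∈ Finset.range (L j + 1), h (T^[m j + i] x)) / ((L j : ℝ) + 1)) l
      (𝓝 (∫ y, h y ∂μ)) := by
  let ν : ι → ProbabilityMeasure X := fun j => ⟨emp T x (m j) (L j), emp_prob T x (m j) (L j)⟩
  let μp : ProbabilityMeasure X := ⟨μ, hμ⟩
  have key : Tendsto ν l (𝓝 μp) := by
    rw [tendsto_iff_ultrafilter]
    intro g hg
    have h1 : Tendsto ν g (𝓝 (g.map ν).lim) := (g.map ν).le_nhds_lim
    have h2 : ((g.map ν).lim : Measure X) = μ := by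
      apply huniq _ inferInstance
      have hp : IsProbabilityMeasure (((g.map ν).lim : Measure X).map T) :=
        Measure.isProbabilityMeasure_map hT.aemeasurable
      apply ext_of_forall_integral_eq_of_IsFiniteMeasure
      intro f
      rw [integral_map hT.aemeasurable (f.continuous.stronglyMeasurable.aestronglyMeasurable)]
      rw [ProbabilityMeasure.tendsto_iff_forall_integral_tendsto] at h1
      have h3 := h1 (f.compContinuous ⟨T, hT⟩)
      have h4 := h1 f
      have h5 := h3.sub h4
      have h6 : Tendsto (fun j => ∫ y, (f.compContinuous ⟨T, hT⟩) y ∂(ν j : Measure X) -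
          ∫ y, f y ∂(ν j : Measure X)) g (𝓝 0) := by
        have hLg : Tendsto (fun j => 2 * ‖f‖ * ((L j : ℝ) + 1)⁻¹) g (𝓝 (2 * ‖f‖ * 0)) := by
          refine Tendsto.const_mul _ (tendsto_inv_atTop_zero.comp ?_)
          exact tendsto_atTop_add_const_right _ _ (tendsto_natCast_atTop_atTop.comp (hL.mono_left hg))
        rw [mul_zero] at hLg
        refine squeeze_zero_norm (fun j => ?_) hLg
        have e1 : ∫ y, (f.compContinuous ⟨T, hT⟩) y ∂(ν j : Measure X) =
            (∑ i ∈ Finset.range (L j + 1), f (T (T^[m j + i] x))) / ((L j : ℝ) + 1) :=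
          integral_emp T x (m j) (L j) (fun y => f (T y)) (f.continuous.comp hT)
        have e2 : ∫ y, f y ∂(ν j : Measure X) =
            (∑ i ∈ Finset.range (L j + 1), f (T^[m j + i] x)) / ((L j : ℝ) + 1) :=
          integral_emp T x (m j) (L j) f f.continuous
        have e3 : ∑ i ∈ Finset.range (L j + 1), f (T (T^[m j + i] x)) -
            ∑ i ∈ Finset.range (L j + 1), f (T^[m j + i] x) =
            f (T^[m j + (L j + 1)] x) - f (T^[m j] x) := by
          rw [← Finset.sum_sub_distrib]
          have := Finset.sum_range_sub (fun i => f (T^[m j + i] x)) (L j + 1)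
          rw [add_zero] at this
          rw [← this]
          refine Finset.sum_congr rfl fun i _ => ?_
          rw [← add_assoc, Function.iterate_succ_apply']
        rw [e1, e2, ← sub_div, e3, norm_div, Real.norm_of_nonneg (by positivity : (0:ℝ) ≤ (L j : ℝ) + 1),
          div_eq_mul_inv]
        refine mul_le_mul_of_nonneg_right ?_ (by positivity)
        calc ‖f (T^[m j + (L j + 1)] x) - f (T^[m j] x)‖ ≤ ‖f (T^[m j + (L j + 1)] x)‖ + ‖f (T^[m j] x)‖ :=
              norm_sub_le _ _
          _ ≤ ‖f‖ + ‖f‖ := add_le_add (f.norm_coe_le_norm _) (f.norm_coe_le_norm _)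
          _ = 2 * ‖f‖ := by ring
      have h7 := tendsto_nhds_unique h5 h6
      rw [sub_eq_zero] at h7
      exact h7
    have h3 : (g.map ν).lim = μp := Subtype.ext h2
    rw [← h3]
    exact h1
  rw [ProbabilityMeasure.tendsto_iff_forall_integral_tendsto] at key
  have h1 := key (BoundedContinuousFunction.mkOfCompact ⟨h, hh⟩)
  refine h1.congr fun j => ?_
  exact integral_emp T x (m j) (L j) h hh

end Avg

/-! ### Avoiding a pattern -/

/-- Let `S` be infinite, `N < 2 ^ r` and `u` a pattern. There is a function `f` which differs from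
the pattern `u`, put at any place `n` such that `[n, n + N)` contains at least `2 r` elements of `S`,
at some element of `S` in `[n, n + N)`. -/
theorem exists_avoid (S : Set ℕ) (hS : S.Infinite) (N r : ℕ) (hr0 : 0 < r) (hr : N < 2 ^ r)
    (u : ℕ → Bool) :
    ∃ f : ℕ → Bool, ∀ n, 2 * r ≤ (S ∩ Ico n (n + N)).ncard →
      ∃ i < N, n + i ∈ S ∧ f (n + i) = !u i := by
  classical
  let p : ℕ → Prop := fun n => n ∈ S
  have hinf : (Set.ofPred p).Infinite := hS
  -- the values on the group `q`
  have hg : ∀ q : ℕ, ∃ g : Fin r → Bool, ∀ t < N, ∃ k : Fin r,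
      g k ≠ u (Nat.nth p (r * q + k) - (Nat.nth p (r * q + (r - 1)) - t)) := by
    intro q
    by_contra hcon
    push Not at hcon
    choose t ht htg using hcon
    have hinj : Function.Injective fun g : Fin r → Bool => (⟨t g, ht g⟩ : Fin N) := by
      intro g g' hgg
      have e : t g = t g' := congrArg Fin.val hgg
      funext k
      rw [htg g k, htg g' k, e]
    have hcard := Fintype.card_le_of_injective _ hinj
    rw [Fintype.card_fun, Fintype.card_fin, Fintype.card_fin, Fintype.card_bool] at hcard
    omega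
  choose g hg using hg
  refine ⟨fun n => if h : Nat.count p n % r < r then g (Nat.count p n / r) ⟨Nat.count p n % r, h⟩
    else false, fun n hn => ?_⟩
  -- the number of elements
  have hcount : (S ∩ Ico n (n + N)).ncard = Nat.count p (n + N) - Nat.count p n := by
    rw [Nat.count_add, Nat.add_sub_cancel_left, Nat.count_eq_card_filter_range,
      ← ncard_coe_finset]
    refine ncard_congr (fun a _ => a - n) ?_ ?_ ?_
    · rintro a ⟨ha, ha1, ha2⟩
      simp only [Finset.coe_filter, Finset.mem_range]
      refine ⟨by omega, ?_⟩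
      show n + (a - n) ∈ S
      rwa [Nat.add_sub_cancel' ha1]
    · rintro a b ⟨_, ha1, _⟩ ⟨_, hb1, _⟩ hab
      omega
    · rintro b hb
      simp only [Finset.coe_filter, Finset.mem_range] at hb
      obtain ⟨hb1, hb2⟩ := hb
      exact ⟨n + b, ⟨hb2, Nat.le_add_right _ _, Nat.add_lt_add_left hb1 _⟩, Nat.add_sub_cancel_left _ _⟩
  rw [hcount] at hn
  obtain ⟨q, hq1, hq2⟩ : ∃ q, Nat.count p n ≤ r * q ∧ r * q + r ≤ Nat.count p (n + N) := by
    refine ⟨(Nat.count p n + (r - 1)) / r, ?_, ?_⟩
    · have := Nat.lt_mul_div_succ (Nat.count p n + (r - 1)) hr0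
      rw [Nat.mul_add, mul_one] at this
      omega
    · have := Nat.mul_div_le (Nat.count p n + (r - 1)) r
      omega
  have hlow : ∀ k, k < r → n ≤ Nat.nth p (r * q + k) := by
    intro k hk
    exact (Nat.count_le_iff_le_nth hinf).1 (by omega)
  have hup : ∀ k, k < r → Nat.nth p (r * q + k) < n + N := by
    intro k hk
    exact Nat.nth_lt_of_lt_count (by omega)
  have hM1 := hlow (r - 1) (by omega)
  have hM2 := hup (r - 1) (by omega)
  obtain ⟨k, hk⟩ := hg q (Nat.nth p (r * q + (r - 1)) - n) (by omega)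
  have e1 : Nat.nth p (r * q + (r - 1)) - (Nat.nth p (r * q + (r - 1)) - n) = n := by omega
  rw [e1] at hk
  have hk1 := hlow k k.2
  have hk2 := hup k k.2
  refine ⟨Nat.nth p (r * q + k) - n, by omega, ?_, ?_⟩
  · have : n + (Nat.nth p (r * q + k) - n) = Nat.nth p (r * q + k) := by omega
    rw [this]
    exact Nat.nth_mem_of_infinite hinf _
  · have e2 : n + (Nat.nth p (r * q + k) - n) = Nat.nth p (r * q + k) := by omega
    rw [e2]
    have e3 : Nat.count p (Nat.nth p (r * q + k)) = r * q + k := Nat.count_nth_of_infinite hinf _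
    simp only [e3]
    have e4 : (r * q + k) / r = q := by
      rw [Nat.mul_add_div hr0, Nat.div_eq_of_lt k.2, add_zero]
    have e5 : (r * q + k) % r = k := by
      rw [Nat.mul_add_mod, Nat.mod_eq_of_lt k.2]
    rw [dif_pos (by rw [e5]; exact k.2)]
    have e6 : (⟨(r * q + k) % r, by rw [e5]; exact k.2⟩ : Fin r) = k := Fin.ext e5
    rw [e6, e4]
    exact Bool.eq_not_of_ne hk

/-! ### No uniquely ergodic system -/

/-- the number zero or one -/
def bit (b : Bool) : ℕ := if b then 1 else 0

/-- In a uniquely ergodic system it is impossible that for every `0`-`1` word `u` of length `N` there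
are long windows in which almost all `n` satisfy `F (T^(n+k) x) = 1 - u k` for some `k < N`. -/
theorem contra {X : Type*} [MetricSpace X] [CompactSpace X] [MeasurableSpace X] [BorelSpace X]
    (T : X → X) (hT : Continuous T) (μ : Measure X) (hμ : IsProbabilityMeasure μ)
    (huniq : ∀ ν : Measure X, IsProbabilityMeasure ν → ν.map T = ν → ν = μ) (x : X) (F : X → ℂ)
    (hF : Continuous F) (N : ℕ)
    (hw : ∀ u : ℕ → Bool, ∃ (m L : ℕ → ℕ) (B : ℕ → Finset ℕ), Tendsto L atTop atTop ∧
      (∀ j, ∀ i ∈ Finset.range (L j + 1), i ∉ B j →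
        ∃ k < N, F (T^[m j + i + k] x) = (bit (!u k) : ℂ)) ∧
      Tendsto (fun j => ((B j).card : ℝ) / ((L j : ℝ) + 1)) atTop (𝓝 0)) : False := by
  classical
  have hFb : ∃ C : ℝ, ∀ y, ‖F y‖ ≤ C := by
    obtain ⟨C, hC⟩ := (isCompact_range hF).isBounded.exists_norm_le
    exact ⟨C, fun y => hC _ (mem_range_self y)⟩
  obtain ⟨C, hC⟩ := hFb
  let H : (ℕ → Bool) → X → ℝ := fun u y => ∏ k ∈ Finset.range N, ‖F (T^[k] y) - (bit (!u k) : ℂ)‖
  have hHc : ∀ u, Continuous (H u) := fun u =>
    continuous_finsetProd _ fun k _ => ((hF.comp (hT.iterate k)).sub continuous_const).norm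
  have hH0 : ∀ u y, 0 ≤ H u y := fun u y => Finset.prod_nonneg fun k _ => norm_nonneg _
  have hHb : ∀ u y, H u y ≤ (C + 1) ^ N := by
    intro u y
    calc H u y ≤ ∏ k ∈ Finset.range N, (C + 1) := by
          refine Finset.prod_le_prod (fun k _ => norm_nonneg _) fun k _ => ?_
          refine (norm_sub_le _ _).trans (add_le_add (hC _) ?_)
          unfold bit
          split_ifs <;> simp
      _ = (C + 1) ^ N := by rw [Finset.prod_const, Finset.card_range]
  have hint : ∀ u, ∫ y, H u y ∂μ = 0 := by
    intro u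
    obtain ⟨m, L, B, hL, hB, hB0⟩ := hw u
    have h1 := avg_tendsto atTop T hT μ hμ huniq x m L hL (H u) (hHc u)
    refine tendsto_nhds_unique h1 ?_
    have h2 : Tendsto (fun j => (C + 1) ^ N * (((B j).card : ℝ) / ((L j : ℝ) + 1))) atTop
        (𝓝 ((C + 1) ^ N * 0)) := hB0.const_mul _
    rw [mul_zero] at h2
    refine squeeze_zero (fun j => ?_) (fun j => ?_) h2
    · exact div_nonneg (Finset.sum_nonneg fun i _ => hH0 u _) (by positivity)
    · rw [← mul_div_assoc]
      refine div_le_div_of_nonneg_right ?_ (by positivity)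
      have hpos : (0 : ℝ) ≤ (C + 1) ^ N := (hH0 u x).trans (hHb u x)
      calc ∑ i ∈ Finset.range (L j + 1), H u (T^[m j + i] x)
          ≤ ∑ i ∈ Finset.range (L j + 1), if i ∈ B j then (C + 1) ^ N else 0 := by
            refine Finset.sum_le_sum fun i hi => ?_
            split_ifs with hib
            · exact hHb u _
            · obtain ⟨k, hk, hk2⟩ := hB j i hi hib
              refine le_of_eq (Finset.prod_eq_zero (Finset.mem_range.2 hk) ?_)
              rw [← Function.iterate_add_apply, add_comm k, hk2, sub_self, norm_zero]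
        _ = ∑ i ∈ Finset.range (L j + 1) with i ∈ B j, (C + 1) ^ N := by rw [Finset.sum_filter]
        _ = ((Finset.range (L j + 1)).filter (· ∈ B j)).card * (C + 1) ^ N := by
            rw [Finset.sum_const, nsmul_eq_mul]
        _ ≤ (C + 1) ^ N * (B j).card := by
            rw [mul_comm]
            refine mul_le_mul_of_nonneg_left ?_ hpos
            exact_mod_cast Finset.card_le_card fun i hi => (Finset.mem_filter.1 hi).2
  have hae : ∀ᵐ y ∂μ, ∀ v : Fin N → Bool,
      H (fun k => if h : k < N then v ⟨k, h⟩ else false) y = 0 := by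
    rw [ae_all_iff]
    intro v
    have h1 : Integrable (H (fun k => if h : k < N then v ⟨k, h⟩ else false)) μ := by
      refine Integrable.of_bound (hHc _).aestronglyMeasurable ((C + 1) ^ N) ?_
      exact Eventually.of_forall fun y => by
        rw [Real.norm_of_nonneg (hH0 _ _)]
        exact hHb _ _
    exact (integral_eq_zero_iff_of_nonneg (fun y => hH0 _ y) h1).1 (hint _)
  obtain ⟨y, hy⟩ := hae.exists
  have h1 := hy fun i => decide (F (T^[(i : ℕ)] y) = 1)
  have h2 := Finset.prod_eq_zero_iff.1 h1
  obtain ⟨k, hk, h3⟩ := h2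
  rw [Finset.mem_range] at hk
  rw [norm_eq_zero, sub_eq_zero] at h3
  simp only [hk, dite_true] at h3
  by_cases hc : F (T^[k] y) = 1
  · rw [decide_eq_true hc, hc] at h3
    simp [bit] at h3
  · rw [decide_eq_false hc] at h3
    apply hc
    rw [h3]
    simp [bit]

universe u

/-- Main lemma. Let `S` be infinite and let `[m j, m j + L j]` be disjoint windows whose lengths tend
to infinity, such that at almost all places of the windows the gap of `S` is less than `g`. Then there
is a function `f` with values in `{0, 1}` which is not interpolated on `S` by any uniquely ergodic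
system. -/
theorem exists_f (S : Set ℕ) (hS : S.Infinite) (m L : ℕ → ℕ) (hdis : ∀ j, m j + L j < m (j + 1))
    (hL : Tendsto L atTop atTop) (g : ℕ) (E : ℕ → Finset ℕ)
    (hE : ∀ j, ∀ i ∈ Finset.range (L j + 1), i ∉ E j → ∃ s ∈ S, m j + i ≤ s ∧ s < m j + i + g)
    (hE0 : Tendsto (fun j => ((E j).card : ℝ) / ((L j : ℝ) + 1)) atTop (𝓝 0)) :
    ∃ f : ℕ → ℕ, (∀ n, f n < 2) ∧ ∀ (X : Type u) [MetricSpace X] [CompactSpace X]
      [MeasurableSpace X] [BorelSpace X] (T : X → X) (x : X) (F : X → ℂ), Continuous T →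
      (∃ μ : Measure X, (IsProbabilityMeasure μ ∧ μ.map T = μ) ∧
        ∀ ν : Measure X, IsProbabilityMeasure ν → ν.map T = ν → ν = μ) → Continuous F →
      ¬ ∀ n ∈ S, F (T^[n] x) = (f n : ℂ) := by
  classical
  -- choice of `r`
  obtain ⟨r, hr0, hr⟩ : ∃ r : ℕ, 0 < r ∧ 2 * r * g < 2 ^ r := by
    have h1 : Tendsto (fun r : ℕ => (r : ℝ) ^ 1 / (2 : ℝ) ^ r) atTop (𝓝 0) :=
      tendsto_pow_const_div_const_pow_of_one_lt 1 (by norm_num)
    have h2 := h1.eventually (gt_mem_nhds (show (0 : ℝ) < 1 / (2 * g + 1) by positivity))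
    obtain ⟨r, h3, h4⟩ := (h2.and (eventually_ge_atTop 1)).exists
    refine ⟨r, h4, ?_⟩
    rw [pow_one, div_lt_div_iff₀ (by positivity) (by positivity), one_mul] at h3
    have h5 : (r : ℝ) * (2 * g + 1) < 2 ^ r := h3
    have h6 : ((2 * r * g : ℕ) : ℝ) < ((2 ^ r : ℕ) : ℝ) := by
      push_cast
      have : (0 : ℝ) ≤ r := Nat.cast_nonneg r
      nlinarith
    exact_mod_cast h6
  let N := 2 * r * g
  let ext : (Fin N → Bool) → ℕ → Bool := fun v k => if h : k < N then v ⟨k, h⟩ else false
  have hav := fun v : Fin N → Bool => exists_avoid S hS N r hr0 hr (ext v)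
  choose fv hfv using hav
  let c := Fintype.card (Fin N → Bool)
  have hc0 : 0 < c := Fintype.card_pos
  let e : (Fin N → Bool) ≃ Fin c := Fintype.equivFin _
  -- windows
  have hmono : StrictMono m := strictMono_nat_of_lt_succ fun j => by have := hdis j; omega
  have huniqj : ∀ n j j', m j ≤ n → n ≤ m j + L j → m j' ≤ n → n ≤ m j' + L j' → j = j' := by
    have : ∀ n j j', m j ≤ n → n ≤ m j + L j → m j' ≤ n → n ≤ m j' + L j' → ¬ j < j' := by
      intro n j j' h1 h2 h3 h4 hlt
      have h5 : m (j + 1) ≤ m j' := hmono.monotone hlt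
      have h6 := hdis j
      omega
    intro n j j' h1 h2 h3 h4
    rcases lt_trichotomy j j' with h | h | h
    · exact absurd h (this n j j' h1 h2 h3 h4)
    · exact h
    · exact absurd h (this n j' j h3 h4 h1 h2)
  let f : ℕ → ℕ := fun n => if h : ∃ j, m j ≤ n ∧ n ≤ m j + L j then
    bit (fv (e.symm ⟨h.choose % c, Nat.mod_lt _ hc0⟩) n) else 0
  have hf : ∀ j n, m j ≤ n → n ≤ m j + L j →
      f n = bit (fv (e.symm ⟨j % c, Nat.mod_lt _ hc0⟩) n) := by
    intro j n h1 h2
    have h : ∃ j, m j ≤ n ∧ n ≤ m j + L j := ⟨j, h1, h2⟩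
    have hj : h.choose = j := huniqj n _ _ h.choose_spec.1 h.choose_spec.2 h1 h2
    show (if h : ∃ j, m j ≤ n ∧ n ≤ m j + L j then
      bit (fv (e.symm ⟨h.choose % c, Nat.mod_lt _ hc0⟩) n) else 0) = _
    rw [dif_pos h]
    simp only [hj]
  refine ⟨f, fun n => ?_, ?_⟩
  · show (if h : ∃ j, m j ≤ n ∧ n ≤ m j + L j then
      bit (fv (e.symm ⟨h.choose % c, Nat.mod_lt _ hc0⟩) n) else 0) < 2
    unfold bit
    split_ifs <;> omega
  intro X _ _ _ _ T x F hT hue hF hcon
  obtain ⟨μ, ⟨hμ, _⟩, huniq⟩ := hue
  refine contra T hT μ hμ huniq x F hF N fun u => ?_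
  let v : Fin N → Bool := fun k => u k
  have hext : ∀ k < N, ext v k = u k := fun k hk => dif_pos hk
  let t : ℕ → ℕ := fun j => c * j + e v
  have ht : Tendsto t atTop atTop := by
    refine tendsto_atTop_mono (fun j => ?_) tendsto_id
    show j ≤ c * j + e v
    nlinarith
  have htc : ∀ j, e.symm ⟨t j % c, Nat.mod_lt _ hc0⟩ = v := by
    intro j
    rw [Equiv.symm_apply_eq]
    apply Fin.ext
    show (c * j + e v) % c = e v
    rw [Nat.mul_add_mod, Nat.mod_eq_of_lt (e v).2]
  let B : ℕ → Finset ℕ := fun j => (Finset.range (L (t j) + 1)).filter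
    fun i => L (t j) + 1 < i + N ∨ ∃ a < 2 * r, i + a * g ∈ E (t j)
  refine ⟨fun j => m (t j), fun j => L (t j), B, hL.comp ht, fun j i hi hiB => ?_, ?_⟩
  · have hi1 : ¬ (L (t j) + 1 < i + N ∨ ∃ a < 2 * r, i + a * g ∈ E (t j)) := fun h =>
      hiB (Finset.mem_filter.2 ⟨hi, h⟩)
    push Not at hi1
    obtain ⟨h1, h2⟩ := hi1
    have h3 : ∀ a : Fin (2 * r), ∃ s ∈ S, m (t j) + (i + a * g) ≤ s ∧
        s < m (t j) + (i + a * g) + g := by
      intro a
      refine hE (t j) (i + a * g) ?_ (h2 a a.2)
      rw [Finset.mem_range]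
      have h4 : (a : ℕ) * g + g ≤ N := by
        have : ((a : ℕ) + 1) * g ≤ 2 * r * g := Nat.mul_le_mul_right g a.2
        rw [add_mul, one_mul] at this
        exact this
      rcases Nat.eq_zero_or_pos g with hg | hg
      · subst hg
        rw [Finset.mem_range] at hi
        simpa using hi
      · omega
    choose s hsS hs1 hs2 using h3
    have hsinj : Function.Injective s := by
      have : ∀ a b : Fin (2 * r), s a = s b → ¬ (a : ℕ) < b := by
        intro a b hab hlt
        have h4 : ((a : ℕ) + 1) * g ≤ b * g := Nat.mul_le_mul_right g hlt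
        rw [add_mul, one_mul] at h4
        have h5 := hs2 a
        have h6 := hs1 b
        omega
      intro a b hab
      apply Fin.ext
      rcases lt_trichotomy (a : ℕ) b with h | h | h
      · exact absurd h (this a b hab)
      · exact h
      · exact absurd h (this b a hab.symm)
    have hcard : 2 * r ≤ (S ∩ Ico (m (t j) + i) (m (t j) + i + N)).ncard := by
      have h4 : (range s).ncard = 2 * r := by
        rw [← image_univ, ncard_image_of_injective _ hsinj, ncard_univ, Nat.card_eq_fintype_card,
          Fintype.card_fin]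
      rw [← h4]
      refine ncard_le_ncard ?_ ((finite_Ico _ _).subset inter_subset_right)
      rintro _ ⟨a, rfl⟩
      have h5 : (a : ℕ) * g + g ≤ N := by
        have : ((a : ℕ) + 1) * g ≤ 2 * r * g := Nat.mul_le_mul_right g a.2
        rw [add_mul, one_mul] at this
        exact this
      have h6 := hs1 a
      have h7 := hs2 a
      exact ⟨hsS a, by omega, by omega⟩
    obtain ⟨k, hk, hkS, hkf⟩ := hfv v (m (t j) + i) hcard
    refine ⟨k, hk, ?_⟩
    rw [hcon _ hkS, hf (t j) _ (by omega) (by omega), htc, hkf, hext k hk]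
  · -- the bad places
    have hcardB : ∀ j, ((B j).card : ℝ) ≤ N + 2 * r * (E (t j)).card := by
      intro j
      have h1 : B j ⊆ (Finset.Ico (L (t j) + 1 - N) (L (t j) + 1)) ∪
          (Finset.range (2 * r)).biUnion fun a =>
            (Finset.range (L (t j) + 1)).filter fun i => i + a * g ∈ E (t j) := by
        intro i hi
        obtain ⟨h1, h2⟩ := Finset.mem_filter.1 hi
        rw [Finset.mem_range] at h1
        rw [Finset.mem_union]
        rcases h2 with h2 | ⟨a, ha, h2⟩
        · left
          rw [Finset.mem_Ico]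
          omega
        · right
          rw [Finset.mem_biUnion]
          exact ⟨a, Finset.mem_range.2 ha, Finset.mem_filter.2 ⟨Finset.mem_range.2 h1, h2⟩⟩
      have h2 : (B j).card ≤ N + 2 * r * (E (t j)).card := by
        refine (Finset.card_le_card h1).trans ((Finset.card_union_le _ _).trans (add_le_add ?_ ?_))
        · rw [Nat.card_Ico]
          omega
        · refine Finset.card_biUnion_le.trans ?_
          refine (Finset.sum_le_card_nsmul _ _ (E (t j)).card fun a _ => ?_).trans ?_
          · refine Finset.card_le_card_of_injOn (fun i => i + a * g) (fun i hi => ?_) ?_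
            · exact (Finset.mem_filter.1 hi).2
            · intro i _ i' _ h
              exact Nat.add_right_cancel h
          · rw [Finset.card_range, smul_eq_mul]
      exact_mod_cast h2
    have h1 : Tendsto (fun j => (N : ℝ) * ((L (t j) : ℝ) + 1)⁻¹ +
        2 * r * (((E (t j)).card : ℝ) / ((L (t j) : ℝ) + 1))) atTop (𝓝 (N * 0 + 2 * r * 0)) := by
      refine Tendsto.add (Tendsto.const_mul _ (tendsto_inv_atTop_zero.comp ?_))
        ((hE0.comp ht).const_mul _)
      exact tendsto_atTop_add_const_right _ _ (tendsto_natCast_atTop_atTop.comp (hL.comp ht))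
    rw [mul_zero, mul_zero, add_zero] at h1
    refine squeeze_zero (fun j => by positivity) (fun j => ?_) h1
    rw [← div_eq_mul_inv, ← mul_div_assoc, ← add_div]
    exact div_le_div_of_nonneg_right (hcardB j) (by positivity)

end Pool.Agent.Q182.Interp
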