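import Pool.Agent.TH784.KE.One
import Pool.Agent.TH784.AA.Fin

/-!
# Towers of Kolmogorov extensions: convergence of multiple averages almost everywhere
-/

set_option autoImplicit false

open MeasureTheory Filter Topology
open scoped ENNReal

noncomputable section

namespace Pool.Agent.Q182.KT

open Pool.Agent.W761.Box (bx bxc BM Cv Good1 Cv_closed prod_update bxc_add)
open Pool.Agent.TH784.KE (KExt Flow Filt Base one_sided exists_cond good_pow)

/-- `mZ` is a Kolmogorov extension of `mY`, with past `mA`, with respect to the homomorphism `ℓ`. -/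
structure KStep {X G : Type*} [Group G] {mX : MeasurableSpace X} (μ : Measure X)
    (Φ : G →* Equiv.Perm X) (ℓ : G → ℝ) (mA mY mZ : MeasurableSpace X) : Prop where
  hom : ∀ g h, ℓ (g * h) = ℓ g + ℓ h
  le : mY ≤ mA
  le' : mA ≤ mZ
  mono : ∀ g, ℓ g ≤ 0 → mA.comap (Φ g : X → X) ≤ mA
  gen : ∀ B, MeasurableSet[mZ] B →
    ∃ B', MeasurableSet[⨆ g, mA.comap (Φ g : X → X)] B' ∧ B =ᵐ[μ] B'
  tail : ∀ B, (∀ g, MeasurableSet[mA.comap (Φ g : X → X)] B) →
    ∃ B', MeasurableSet[mY] B' ∧ B =ᵐ[μ] B'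

variable {X : Type*} {G : Type*} [Group G] {Φ : G →* Equiv.Perm X}
variable {J : Type*} [DecidableEq J] [Fintype J]

theorem step0 {mA mY mX : MeasurableSpace X} {μ : Measure X} [IsProbabilityMeasure μ]
    {ℓ : G → ℝ} (hK : KExt μ mA mY Φ ℓ) (b : J → G)
    (hb0 : ∀ j, ℓ (b j) ≠ 0) (hb : ∀ i j, i ≠ j → ℓ (b i) ≠ ℓ (b j)) {f : J → X → ℂ}
    (hf : ∀ j, @BM X mX (f j)) :
    ∃ e : J → X → ℂ, (∀ j, @BM X mY (e j)) ∧ ∀ᵐ x ∂μ, Tendsto (fun N => bxc 1 N fun n =>
      (∏ j, f j (Φ (b j ^ n 0) x) - ∏ j, e j (Φ (b j ^ n 0) x))) atTop (𝓝 0) := by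
  choose e he heY hee hfe using fun j =>
    exists_cond (μ := μ) (hK.base.le.trans hK.filt.le) (hf j)
  exact ⟨e, fun j => ⟨heY j, (he j).2⟩, one_sided hK b hb0 hb hf he heY hfe⟩

/-- sets -/
theorem set_trim {mZ mX : MeasurableSpace X} {μ : Measure X} (hZ : mZ ≤ mX) {B B' : Set X}
    (hB : MeasurableSet[mZ] B) (hB' : MeasurableSet[mZ] B') (h : B =ᵐ[μ] B') :
    B =ᵐ[μ.trim hZ] B' := by
  have h1 : μ.trim hZ {x | ¬ (B x = B' x)} = 0 := by
    have hm : MeasurableSet[mZ] {x | ¬ (B x = B' x)} := by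
      have e : {x | ¬ (B x = B' x)} = (B \ B') ∪ (B' \ B) := by
        ext x
        simp only [Set.mem_ofPred_eq, eq_iff_iff, Set.mem_union, Set.mem_sdiff]
        show ¬ (x ∈ B ↔ x ∈ B') ↔ _
        tauto
      rw [e]
      exact (MeasurableSet.diff hB hB').union (MeasurableSet.diff hB' hB)
    rw [trim_measurableSet_eq hZ hm]
    exact h
  exact h1

theorem step {mA mY mZ mX : MeasurableSpace X} {μ : Measure X} [IsProbabilityMeasure μ]
    (hΦ : ∀ g, MeasurePreserving (Φ g) μ μ) (hZ : mZ ≤ mX)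
    (hinvY : ∀ g, Measurable[mY, mY] (Φ g : X → X)) (hinvZ : ∀ g, Measurable[mZ, mZ] (Φ g : X → X))
    {ℓ : G → ℝ} (hK : KStep μ Φ ℓ mA mY mZ) (b : J → G)
    (hb0 : ∀ j, ℓ (b j) ≠ 0) (hb : ∀ i j, i ≠ j → ℓ (b i) ≠ ℓ (b j)) {f : J → X → ℂ}
    (hf : ∀ j, @BM X mZ (f j)) :
    ∃ e : J → X → ℂ, (∀ j, @BM X mY (e j)) ∧ ∀ᵐ x ∂μ, Tendsto (fun N => bxc 1 N fun n =>
      (∏ j, f j (Φ (b j ^ n 0) x) - ∏ j, e j (Φ (b j ^ n 0) x))) atTop (𝓝 0) := by
  have hprob : @IsProbabilityMeasure X mZ (μ.trim hZ) := by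
    refine @IsProbabilityMeasure.mk X mZ _ ?_
    rw [trim_measurableSet_eq hZ (@MeasurableSet.univ X mZ)]
    exact measure_univ
  have hcm : ∀ g, mA.comap (Φ g : X → X) ≤ mZ := fun g =>
    (MeasurableSpace.comap_mono hK.le').trans (hinvZ g).comap_le
  have hfl : @Flow X G _ mZ (μ.trim hZ) Φ := by
    intro g
    have hmap : @Measure.map X X mZ mZ (Φ g : X → X) (μ.trim hZ) = μ.trim hZ := by
      apply @Measure.ext X mZ
      intro B hB
      rw [@Measure.map_apply X X mZ mZ (μ.trim hZ) _ (hinvZ g) _ hB, trim_measurableSet_eq hZ hB,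
        trim_measurableSet_eq hZ (hinvZ g hB)]
      exact (hΦ g).measure_preimage (hZ _ hB).nullMeasurableSet
    exact @MeasurePreserving.mk X X mZ mZ _ _ _ (hinvZ g) hmap
  have hE : @KExt X mZ G _ (μ.trim hZ) mA mY Φ ℓ := by
    refine @KExt.mk X mZ G _ (μ.trim hZ) mA mY Φ ℓ hfl ⟨hK.hom, hK.le', hK.mono⟩ ⟨hK.le, hinvY⟩ ?_ ?_
    · intro B hB
      obtain ⟨B', hB', h⟩ := hK.gen B hB
      exact ⟨B', hB', set_trim hZ hB ((iSup_le hcm : (⨆ g, mA.comap (Φ g : X → X)) ≤ mZ) _ hB') h⟩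
    · intro B hB
      obtain ⟨B', hB', h⟩ := hK.tail B hB
      exact ⟨B', hB', set_trim hZ (hcm 1 _ (hB 1)) ((hK.le.trans hK.le') _ hB') h⟩
  obtain ⟨e, he, h⟩ := @step0 X G _ Φ J _ _ mA mY mZ (μ.trim hZ) hprob ℓ hE b hb0 hb f hf
  exact ⟨e, he, ae_of_ae_trim hZ h⟩

/-- the averages along the powers of `b j` -/
abbrev gg (Φ : G →* Equiv.Perm X) (b : J → G) : J → (Fin 1 → ℕ) → X → X :=
  fun j n => (Φ (b j ^ n 0) : X → X)

theorem tower {mX : MeasurableSpace X} {μ : Measure X} [IsProbabilityMeasure μ]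
    (hΦ : ∀ g, MeasurePreserving (Φ g) μ μ) {mY mA : ℕ → MeasurableSpace X}
    (hle : ∀ i, mY i ≤ mX) (hinv : ∀ i g, Measurable[mY i, mY i] (Φ g : X → X))
    {ℓ : ℕ → G → ℝ} (hK : ∀ i, KStep μ Φ (ℓ i) (mA i) (mY i) (mY (i + 1))) (b : J → G)
    (hb0 : ∀ i j, ℓ i (b j) ≠ 0) (hb : ∀ i j j', j ≠ j' → ℓ i (b j) ≠ ℓ i (b j'))
    (hbase : ∀ f : J → X → ℂ, (∀ j, @BM X (mY 0) (f j)) → Cv μ (gg Φ b) f) (i : ℕ) :
    ∀ f : J → X → ℂ, (∀ j, @BM X (mY i) (f j)) → Cv μ (gg Φ b) f := by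
  induction i with
  | zero => exact hbase
  | succ i ih =>
    intro f hf
    obtain ⟨e, he, h⟩ := step hΦ (hle (i + 1)) (hinv i) (hinv (i + 1)) (hK i) b (hb0 i) (hb i) hf
    have h1 := ih e he
    filter_upwards [h, h1] with x hx hx1
    obtain ⟨L, hL⟩ := hx1
    refine ⟨0 + L, (hx.add hL).congr fun N => ?_⟩
    rw [← bxc_add]
    congr 1
    funext n
    ring

/-- clipping -/
def clip (C y : ℝ) : ℝ := max (-C) (min C y)

theorem clip_abs {C : ℝ} (hC : 0 ≤ C) (y : ℝ) : |clip C y| ≤ C := by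
  unfold clip
  rw [abs_le]
  refine ⟨le_max_left _ _, max_le (by linarith) (min_le_left _ _)⟩

theorem clip_eq {C y : ℝ} (h : |y| ≤ C) : clip C y = y := by
  unfold clip
  rw [abs_le] at h
  rw [min_eq_right h.2, max_eq_right h.1]

theorem clip_meas (C : ℝ) : Measurable (clip C) :=
  measurable_const.max (measurable_const.min measurable_id)

theorem mono_of_succ {mY : ℕ → MeasurableSpace X} (h : ∀ i, mY i ≤ mY (i + 1)) : Monotone mY :=
  monotone_nat_of_le_succ h

/-- real functions are approximated -/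
theorem approx_real {mX : MeasurableSpace X} {μ : Measure X} [IsProbabilityMeasure μ]
    {mY : ℕ → MeasurableSpace X} (hle : ∀ i, mY i ≤ mX) (hmono : Monotone mY)
    (hgen : ∀ B, MeasurableSet[mX] B → ∃ B', MeasurableSet[⨆ i, mY i] B' ∧ B =ᵐ[μ] B')
    {f : X → ℝ} (hf : Measurable f) {C : ℝ} (hb : ∀ x, |f x| ≤ C) {ε : ℝ} (hε : 0 < ε) :
    ∀ᶠ i in atTop, ∫ x, |f x - clip C ((μ[f | mY i]) x)| ∂μ ≤ ε := by
  let ℱ : Filtration ℕ mX :=
    { seq := mY
      mono' := hmono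
      le' := hle }
  have hfi : Integrable f μ := Integrable.of_bound hf.aestronglyMeasurable C
    (Eventually.of_forall hb)
  have hle2 : (⨆ n, (ℱ n : MeasurableSpace X)) ≤ mX := iSup_le fun n => ℱ.le n
  have hfe : f =ᵐ[μ] μ[f | ⨆ n, (ℱ n : MeasurableSpace X)] := by
    refine ae_eq_of_forall_setIntegral_eq_of_sigmaFinite' le_rfl
      (fun B _ _ => hfi.integrableOn) (fun B _ _ => integrable_condExp.integrableOn)
      (fun B hB _ => ?_) hf.aestronglyMeasurable
      (integrable_condExp (μ := μ) (m := ⨆ n, (ℱ n : MeasurableSpace X))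
        (f := f)).aestronglyMeasurable
    obtain ⟨B', hB', hBB'⟩ := hgen B hB
    rw [setIntegral_congr_set hBB', setIntegral_congr_set hBB',
      setIntegral_condExp hle2 hfi hB']
  have h1 := tendsto_eLpNorm_condExp (μ := μ) (ℱ := ℱ) f
  have h2 := (ENNReal.tendsto_toReal ENNReal.zero_ne_top).comp h1
  rw [ENNReal.toReal_zero] at h2
  filter_upwards [(tendsto_order.1 h2).2 ε hε] with n hn
  have hbd : ∀ᵐ x ∂μ, ‖(μ[f | mY n]) x‖ ≤ C :=
    ae_bdd_norm_condExp_of_ae_bdd_norm (μ := μ) (m := mY n) (f := f) (Eventually.of_forall hb)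
  have h3 : ∫ x, |f x - clip C ((μ[f | mY n]) x)| ∂μ =
      (eLpNorm (μ[f | ℱ n] - μ[f | ⨆ n, (ℱ n : MeasurableSpace X)]) 1 μ).toReal := by
    rw [eLpNorm_one_eq_lintegral_enorm, ← integral_norm_eq_lintegral_enorm
      (integrable_condExp.sub integrable_condExp).aestronglyMeasurable]
    apply integral_congr_ae
    filter_upwards [hfe, hbd] with x hx hx2
    rw [clip_eq (by rwa [Real.norm_eq_abs] at hx2), Pi.sub_apply, ← hx, Real.norm_eq_abs,
      abs_sub_comm]
  rw [h3]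
  exact hn.le

/-- complex functions are approximated -/
theorem approx {mX : MeasurableSpace X} {μ : Measure X} [IsProbabilityMeasure μ]
    {mY : ℕ → MeasurableSpace X} (hle : ∀ i, mY i ≤ mX) (hmono : Monotone mY)
    (hgen : ∀ B, MeasurableSet[mX] B → ∃ B', MeasurableSet[⨆ i, mY i] B' ∧ B =ᵐ[μ] B')
    {f : X → ℂ} (hf : @BM X mX f) {ε : ℝ} (hε : 0 < ε) :
    ∃ i, ∃ f' : X → ℂ, @BM X (mY i) f' ∧ ∫ x, ‖f x - f' x‖ ∂μ ≤ ε := by
  obtain ⟨hfm, C, hC⟩ := hf
  have hre := Complex.measurable_re.comp hfm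
  have him := Complex.measurable_im.comp hfm
  have hbr : ∀ x, |(f x).re| ≤ C := fun x => (Complex.abs_re_le_norm _).trans (hC x)
  have hbi : ∀ x, |(f x).im| ≤ C := fun x => (Complex.abs_im_le_norm _).trans (hC x)
  have e1 := approx_real hle hmono hgen (f := fun x => (f x).re) hre hbr (half_pos hε)
  have e2 := approx_real hle hmono hgen (f := fun x => (f x).im) him hbi (half_pos hε)
  obtain ⟨i, h1, h2⟩ := (e1.and e2).exists
  set r : X → ℝ := fun x => clip C ((μ[fun x => (f x).re | mY i]) x) with hr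
  set s : X → ℝ := fun x => clip C ((μ[fun x => (f x).im | mY i]) x) with hs
  have hrm : Measurable[mY i] r := (clip_meas C).comp
    (stronglyMeasurable_condExp (μ := μ) (m := mY i)).measurable
  have hsm : Measurable[mY i] s := (clip_meas C).comp
    (stronglyMeasurable_condExp (μ := μ) (m := mY i)).measurable
  have hxy : ∀ x : X, 0 ≤ C := fun x => (abs_nonneg _).trans (hbr x)
  refine ⟨i, fun x => (r x : ℂ) + (s x : ℂ) * Complex.I, ⟨?_, |C| + |C|, fun x => ?_⟩, ?_⟩
  · exact (Complex.measurable_ofReal.comp hrm).add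
      ((Complex.measurable_ofReal.comp hsm).mul measurable_const)
  · refine (norm_add_le _ _).trans (add_le_add ?_ ?_)
    · rw [Complex.norm_real, Real.norm_eq_abs]
      exact (clip_abs (hxy x) _).trans (le_abs_self C)
    · rw [norm_mul, Complex.norm_I, mul_one, Complex.norm_real, Real.norm_eq_abs]
      exact (clip_abs (hxy x) _).trans (le_abs_self C)
  · have hle3 : ∀ x, ‖f x - ((r x : ℂ) + (s x : ℂ) * Complex.I)‖ ≤ |(f x).re - r x| + |(f x).im - s x| := by
      intro x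
      refine (Complex.norm_le_abs_re_add_abs_im _).trans (le_of_eq ?_)
      simp
    have hrX := hrm.mono (hle i) le_rfl
    have hsX := hsm.mono (hle i) le_rfl
    have i1 : Integrable (fun x => |(f x).re - r x|) μ :=
      Integrable.of_bound (hre.sub hrX).abs.aestronglyMeasurable (C + C)
        (Eventually.of_forall fun x => by
          rw [Real.norm_eq_abs, abs_abs]
          exact (abs_sub _ _).trans (add_le_add (hbr x) (clip_abs (hxy x) _)))
    have i2 : Integrable (fun x => |(f x).im - s x|) μ :=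
      Integrable.of_bound (him.sub hsX).abs.aestronglyMeasurable (C + C)
        (Eventually.of_forall fun x => by
          rw [Real.norm_eq_abs, abs_abs]
          exact (abs_sub _ _).trans (add_le_add (hbi x) (clip_abs (hxy x) _)))
    calc ∫ x, ‖f x - ((r x : ℂ) + (s x : ℂ) * Complex.I)‖ ∂μ
        ≤ ∫ x, (|(f x).re - r x| + |(f x).im - s x|) ∂μ :=
          integral_mono_of_nonneg (Eventually.of_forall fun x => norm_nonneg _) (i1.add i2)
            (Eventually.of_forall hle3)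
      _ = ∫ x, |(f x).re - r x| ∂μ + ∫ x, |(f x).im - s x| ∂μ := integral_add i1 i2
      _ ≤ ε / 2 + ε / 2 := add_le_add h1 h2
      _ = ε := add_halves ε

/-- **Towers.** -/
theorem tower_sup {mX : MeasurableSpace X} {μ : Measure X} [IsProbabilityMeasure μ]
    (hΦ : ∀ g, MeasurePreserving (Φ g) μ μ) {mY mA : ℕ → MeasurableSpace X}
    (hle : ∀ i, mY i ≤ mX) (hinv : ∀ i g, Measurable[mY i, mY i] (Φ g : X → X))
    (hgen : ∀ B, MeasurableSet[mX] B → ∃ B', MeasurableSet[⨆ i, mY i] B' ∧ B =ᵐ[μ] B')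
    {ℓ : ℕ → G → ℝ} (hK : ∀ i, KStep μ Φ (ℓ i) (mA i) (mY i) (mY (i + 1))) (b : J → G)
    (hb0 : ∀ i j, ℓ i (b j) ≠ 0) (hb : ∀ i j j', j ≠ j' → ℓ i (b j) ≠ ℓ i (b j'))
    (hbase : ∀ f : J → X → ℂ, (∀ j, @BM X (mY 0) (f j)) → Cv μ (gg Φ b) f) (f : J → X → ℂ)
    (hf : ∀ j, @BM X mX (f j)) : Cv μ (gg Φ b) f := by
  classical
  have hmono : Monotone mY := mono_of_succ fun i => (hK i).le.trans (hK i).le'
  have hBMle : ∀ {i : ℕ} {g : X → ℂ}, @BM X (mY i) g → @BM X mX g := fun {i g} h =>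
    ⟨h.1.mono (hle i) le_rfl, h.2⟩
  have key : ∀ (B : Finset J) (F : J → X → ℂ), (∀ j ∈ B, @BM X mX (F j)) →
      (∀ j ∉ B, ∃ i, @BM X (mY i) (F j)) → Cv μ (gg Φ b) F := by
    intro B
    induction B using Finset.induction_on with
    | empty =>
      intro F _ hF2
      choose i hi using fun j => hF2 j (Finset.notMem_empty j)
      exact tower hΦ hle hinv hK b hb0 hb hbase (Finset.univ.sup i) F fun j =>
        ⟨(hi j).1.mono (hmono (Finset.le_sup (Finset.mem_univ j))) le_rfl, (hi j).2⟩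
    | insert v B hv ih =>
      intro F hF1 hF2
      have hBMall : ∀ w, @BM X mX (F w) := by
        intro w
        by_cases hw : w ∈ insert v B
        · exact hF1 w hw
        · obtain ⟨i, hi⟩ := hF2 w hw
          exact hBMle hi
      have h1 := Cv_closed (μ := μ) (g := gg Φ b) (fun j m => hΦ _)
        (fun j => good_pow hΦ (b j)) (F := F) hBMall (j := v) (f := F v) (hBMall v)
        (fun ε hε => by
          obtain ⟨i, f', hf', hi⟩ := approx hle hmono hgen (hBMall v) hε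
          refine ⟨f', hBMle hf', hi, ih _ (fun w hw => ?_) (fun w hw => ?_)⟩
          · have : w ≠ v := fun h => hv (h ▸ hw)
            rw [Function.update_of_ne this]
            exact hF1 w (Finset.mem_insert_of_mem hw)
          · by_cases hwv : w = v
            · subst hwv
              rw [Function.update_self]
              exact ⟨i, hf'⟩
            · rw [Function.update_of_ne hwv]
              exact hF2 w fun h => (Finset.mem_insert.1 h).elim hwv hw)
      rwa [Function.update_eq_self] at h1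
  exact key Finset.univ f (fun j _ => hf j) fun j hj => absurd (Finset.mem_univ j) hj

end Pool.Agent.Q182.KT
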