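import Pool.Agent.Q182.KT1

/-!
# Towers of Kolmogorov extensions over algebraic actions
-/

set_option autoImplicit false

open MeasureTheory Filter Topology
open scoped ENNReal

noncomputable section

namespace Pool.Agent.Q182.KT

open Pool.Agent.W761.Box (bx bxc BM Cv Good1 Cv_closed prod_update bxc_add prod_zpow_add)
open Pool.Agent.W761.Gauss (IsFactor inter_prod mp_prod BM_of_memLp)

/-- `T^a = T_1^(a_1) ⋯ T_d^(a_d)`. -/
def pw {X : Type} {d : ℕ} (T : Fin d → Equiv.Perm X) (a : Fin d → ℤ) : Equiv.Perm X :=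
  (List.ofFn fun i => T i ^ a i).prod

/-- `⟨w, a⟩ = ∑ w_i a_i`. -/
def dot {d : ℕ} (w : Fin d → ℝ) (a : Fin d → ℤ) : ℝ := ∑ i, w i * a i

/-- The `σ`-algebra `mZ` is a Kolmogorov extension of the `σ`-algebra `mY` for the action
`a ↦ T^a` of `ℤ^d`, with respect to `w ∈ ℝ^d`: there is a `σ`-algebra `mA` (the past) between `mY`
and `mZ` with `(T^a)⁻¹ mA ⊆ mA` if `⟨w, a⟩ ≤ 0`, the `(T^a)⁻¹ mA` generate `mZ` modulo `μ`, and
their intersection is contained in `mY` modulo `μ`. -/
def IsKolmogorovExtension {X : Type} {mX : MeasurableSpace X} (μ : Measure X) {d : ℕ}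
    (T : Fin d → Equiv.Perm X) (w : Fin d → ℝ) (mY mZ : MeasurableSpace X) : Prop :=
  ∃ mA : MeasurableSpace X, mY ≤ mA ∧ mA ≤ mZ ∧
    (∀ a, dot w a ≤ 0 → mA.comap (pw T a : X → X) ≤ mA) ∧
    (∀ B, MeasurableSet[mZ] B →
      ∃ B', MeasurableSet[⨆ a, mA.comap (pw T a : X → X)] B' ∧ B =ᵐ[μ] B') ∧
    ∀ B, (∀ a, MeasurableSet[mA.comap (pw T a : X → X)] B) →
      ∃ B', MeasurableSet[mY] B' ∧ B =ᵐ[μ] B'

/-- The system `(Y, ν, R_1, …, R_d)` is a factor of a system `(K, κ, S_1, …, S_d)`, where `K` is a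
compact Hausdorff abelian group, `κ` its Haar probability measure and the `S_i` are commuting affine
bijections `k ↦ α_i(k) c_i`, `α_i` continuous homomorphisms. -/
def IsAlgebraicFactor {Y : Type} [MeasurableSpace Y] (ν : Measure Y) {d : ℕ}
    (R : Fin d → Equiv.Perm Y) : Prop :=
  ∃ (K : Type) (_ : CommGroup K) (_ : TopologicalSpace K) (_ : IsTopologicalGroup K)
    (_ : CompactSpace K) (_ : T2Space K) (_ : MeasurableSpace K) (_ : BorelSpace K)
    (κ : Measure K) (_ : κ.IsHaarMeasure) (_ : IsProbabilityMeasure κ) (S : Fin d → Equiv.Perm K),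
    (∀ i, ∃ (α : K →ₜ* K) (c : K), ∀ x, S i x = α x * c) ∧ (∀ i j, Commute (S i) (S j)) ∧
      IsFactor κ S ν R

theorem dot_add {d : ℕ} (w : Fin d → ℝ) (a b : Fin d → ℤ) : dot w (a + b) = dot w a + dot w b := by
  unfold dot
  rw [← Finset.sum_add_distrib]
  refine Finset.sum_congr rfl fun i _ => ?_
  rw [Pi.add_apply]
  push_cast
  ring

/-- the action of `ℤ^d` -/
def act {X : Type} {d : ℕ} (T : Fin d → Equiv.Perm X) (hc : ∀ i j, Commute (T i) (T j)) :
    Multiplicative (Fin d → ℤ) →* Equiv.Perm X where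
  toFun a := pw T a.toAdd
  map_one' := by
    show (List.ofFn fun i => T i ^ ((0 : Fin d → ℤ) i)).prod = 1
    simp
  map_mul' a b := prod_zpow_add T hc a.toAdd b.toAdd

theorem conv_alg {d m : ℕ} {Y : Type} [MeasurableSpace Y] {ν : Measure Y}
    {R : Fin d → Equiv.Perm Y} (hRm : ∀ i, Measurable (R i).symm)
    (hR : ∀ i, MeasurePreserving (R i) ν ν) (hfac : IsAlgebraicFactor ν R)
    (a : Fin m → Fin d → ℤ) {f : Fin m → Y → ℂ} (hf : ∀ j, BM (f j)) :
    ∀ᵐ y ∂ν, ∃ L : ℂ, Tendsto (fun N => bxc 1 N fun n => ∏ j, f j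
      (pw R (fun i => (n 0 : ℤ) * a j i) y)) atTop (𝓝 L) := by
  obtain ⟨K, _, _, _, _, _, _, _, κ, _, _, S, hS, hSc, hfac⟩ := hfac
  have h1 := Pool.Agent.TH784.AA.factor_gen (k := 1)
    (fun i => Pool.Agent.TH784.AA.IsAff.mp (hS i))
    (fun i => Pool.Agent.TH784.AA.mp_symm (hS i)) hRm hR hfac
    (fun n i j => (0 : ℤ) + ∑ l, ((n l : ℕ) : ℤ) * a j i)
    (fun g hg => Pool.Agent.TH784.AA.affine_conv (μ := κ) hS hSc
        (fun _ _ => (0 : ℤ)) (fun i j _ => a j i) hg) (f := f) (fun j => by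
      obtain ⟨hm, C, hC⟩ := hf j
      have hprob : IsProbabilityMeasure ν := by
        obtain ⟨π, hπ, _⟩ := hfac
        rw [← hπ.map_eq]
        exact Measure.isProbabilityMeasure_map hπ.measurable.aemeasurable
      exact memLp_top_of_bound hm.aestronglyMeasurable C (Eventually.of_forall hC))
  filter_upwards [h1] with y hy
  obtain ⟨L, hL⟩ := hy
  refine ⟨L, hL.congr fun N => ?_⟩
  congr 1
  funext n
  refine Finset.prod_congr rfl fun j _ => ?_
  unfold pw
  simp only [Fin.sum_univ_one, zero_add]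

theorem main {d m : ℕ} {X Y : Type} {mY : ℕ → MeasurableSpace X} [mX : MeasurableSpace X]
    [MeasurableSpace Y]
    {μ : Measure X} [IsProbabilityMeasure μ] {T : Fin d → Equiv.Perm X}
    (hT : ∀ i, MeasurePreserving (T i) μ μ) (hT' : ∀ i, Measurable (T i).symm)
    (hc : ∀ i j, Commute (T i) (T j))
    {ν : Measure Y} {R : Fin d → Equiv.Perm Y} (hRm : ∀ i, Measurable (R i).symm)
    (hR : ∀ i, MeasurePreserving (R i) ν ν) (hfac : IsAlgebraicFactor ν R)
    {φ : X → Y} (hφ : MeasurePreserving φ μ ν) (hφT : ∀ i x, φ (T i x) = R i (φ x))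
    (h0 : mY 0 = MeasurableSpace.comap φ inferInstance)
    (hle : ∀ i, mY i ≤ mX) (hinv : ∀ i a, Measurable[mY i, mY i] (pw T a : X → X))
    {w : ℕ → Fin d → ℝ} (hK : ∀ i, IsKolmogorovExtension μ T (w i) (mY i) (mY (i + 1)))
    (hgen : ∀ B, MeasurableSet[mX] B → ∃ B', MeasurableSet[⨆ i, mY i] B' ∧ B =ᵐ[μ] B')
    {a : Fin m → Fin d → ℤ} (ha0 : ∀ i j, dot (w i) (a j) ≠ 0)
    (ha : ∀ i j j', j ≠ j' → dot (w i) (a j) ≠ dot (w i) (a j'))
    {f : Fin m → X → ℂ} (hf : ∀ j, BM (f j)) :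
    ∀ᵐ x ∂μ, ∃ L : ℂ, Tendsto (fun N => bxc 1 N fun n => ∏ j, f j
      (pw T (fun i => (n 0 : ℤ) * a j i) x)) atTop (𝓝 L) := by
  classical
  have hTinv : ∀ i, MeasurePreserving ((T i)⁻¹ : Equiv.Perm X) μ μ := by
    intro i
    let e : X ≃ᵐ X := ⟨T i, (hT i).measurable, hT' i⟩
    exact (hT i).symm e
  have hΦ : ∀ g, MeasurePreserving (act T hc g) μ μ := fun g => mp_prod hT hTinv g.toAdd
  choose mA h1 h2 h3 h4 h5 using hK
  have hK' : ∀ i, KStep μ (act T hc) (fun g => dot (w i) g.toAdd) (mA i) (mY i) (mY (i + 1)) := by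
    intro i
    refine ⟨fun g h => dot_add _ _ _, h1 i, h2 i, fun g hg => h3 i g.toAdd hg, ?_, ?_⟩
    · exact h4 i
    · exact h5 i
  have hpow : ∀ (j : Fin m) (n : ℕ), act T hc (Multiplicative.ofAdd (a j) ^ n) =
      pw T (fun i => (n : ℤ) * a j i) := by
    intro j n
    show pw T ((Multiplicative.ofAdd (a j) ^ n).toAdd) = _
    rw [toAdd_pow]
    congr 1
  have hφa : ∀ (c : Fin d → ℤ) (x : X), φ (pw T c x) = pw R c (φ x) := by
    have hinvT : ∀ i x, φ ((T i)⁻¹ x) = (R i)⁻¹ (φ x) := by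
      intro i x
      have h := hφT i ((T i).symm x)
      rw [Equiv.apply_symm_apply] at h
      show φ ((T i).symm x) = (R i).symm (φ x)
      rw [h, Equiv.symm_apply_apply]
    have hz : ∀ i (n : ℤ) x, φ ((T i ^ n) x) = (R i ^ n) (φ x) := by
      intro i n
      induction n using Int.induction_on with
      | zero => intro x; rfl
      | succ n ih =>
        intro x
        rw [zpow_add, zpow_add, zpow_one, zpow_one, Equiv.Perm.mul_apply, Equiv.Perm.mul_apply, ih,
          hφT]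
      | pred n ih =>
        intro x
        rw [zpow_sub, zpow_sub, zpow_one, zpow_one, Equiv.Perm.mul_apply, Equiv.Perm.mul_apply, ih,
          hinvT]
    intro c x
    unfold pw
    clear ha ha0 hf hfac hRm hR hinv hgen h1 h2 h3 h4 h5 hK' hpow hΦ hT hT' hc hTinv
    induction d generalizing x with
    | zero => simp
    | succ d ih =>
      rw [List.ofFn_succ, List.ofFn_succ, List.prod_cons, List.prod_cons, Equiv.Perm.mul_apply,
        Equiv.Perm.mul_apply, hz]
      congr 1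
      exact ih (T := fun i => T i.succ) (R := fun i => R i.succ) (w := fun _ _ => 0)
        (a := fun _ _ => 0) (fun i x => hφT _ _) (fun i x => hinvT _ _)
        (fun i n x => hz _ _ _) (fun i => c i.succ) x
  have hbase : ∀ g : Fin m → X → ℂ, (∀ j, @BM X (mY 0) (g j)) →
      Cv μ (gg (act T hc) fun j => Multiplicative.ofAdd (a j)) g := by
    intro g hg
    have hg' : ∀ j, ∃ u : Y → ℂ, BM u ∧ g j = u ∘ φ := by
      intro j
      obtain ⟨hm, C, hC⟩ := hg j
      rw [h0] at hm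
      obtain ⟨u, hu, hgu⟩ := hm.exists_eq_measurable_comp
      refine ⟨{y | ‖u y‖ ≤ C}.indicator u, ⟨hu.indicator (measurableSet_le hu.norm measurable_const),
        |C|, fun y => ?_⟩, ?_⟩
      · by_cases hy : y ∈ {y | ‖u y‖ ≤ C}
        · rw [Set.indicator_of_mem hy]
          exact (show ‖u y‖ ≤ C from hy).trans (le_abs_self C)
        · rw [Set.indicator_of_notMem hy, norm_zero]
          exact abs_nonneg C
      · funext x
        have hx : φ x ∈ {y | ‖u y‖ ≤ C} := by
          show ‖u (φ x)‖ ≤ C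
          have := hC x
          rw [hgu] at this
          exact this
        rw [Function.comp_apply, Set.indicator_of_mem hx, hgu]
        rfl
    choose u hu hgu using hg'
    have h6 := hφ.quasiMeasurePreserving.ae (conv_alg hRm hR hfac a hu)
    show ∀ᵐ x ∂μ, _
    filter_upwards [h6] with x hx
    obtain ⟨L, hL⟩ := hx
    refine ⟨L, hL.congr fun N => ?_⟩
    congr 1
    funext n
    refine Finset.prod_congr rfl fun j _ => ?_
    show u j (pw R (fun i => (n 0 : ℤ) * a j i) (φ x)) =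
      g j (act T hc (Multiplicative.ofAdd (a j) ^ n 0) x)
    rw [hgu j, hpow, Function.comp_apply, hφa]
  have hfin := tower_sup (μ := μ) (Φ := act T hc) hΦ hle (fun i g => hinv i g.toAdd) hgen hK'
    (fun j => Multiplicative.ofAdd (a j)) (fun i j => ha0 i j) (fun i j j' h => ha i j j' h)
    hbase f hf
  filter_upwards [hfin] with x hx
  obtain ⟨L, hL⟩ := hx
  refine ⟨L, hL.congr fun N => ?_⟩
  congr 1

end Pool.Agent.Q182.KT
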