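import Pool.Agent.Q182.MC2

set_option autoImplicit false
set_option linter.unusedSectionVars false

/-!
# Nonwandering points and cycles of maps which increase a function off a set
-/

open Set Filter Topology MeasureTheory

universe u

namespace Pool.Agent.Q182.MB

open Pool.Agent.Q182.MC Pool.Agent.TH80.OMS

section metric

variable {X : Type u} [MetricSpace X] [CompactSpace X] {h : X → ℝ} {K : Set X}

theorem symm_iter (g : X ≃ₜ X) (k : ℕ) (y : X) : g.symm^[k] (g^[k] y) = y := by
  induction k generalizing y with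
  | zero => rfl
  | succ k ih =>
    rw [Function.iterate_succ_apply g.symm, Function.iterate_succ_apply' g, g.symm_apply_apply]
    exact ih y

theorem iter_symm (g : X ≃ₜ X) (k : ℕ) (y : X) : g^[k] (g.symm^[k] y) = y := by
  induction k generalizing y with
  | zero => rfl
  | succ k ih =>
    rw [Function.iterate_succ_apply g, Function.iterate_succ_apply' g.symm, g.apply_symm_apply]
    exact ih y

theorem comm_iter (g : X ≃ₜ X) (L i : ℕ) (y : X) :
    g.symm^[L] (g^[i] y) = g^[i] (g.symm^[L] y) := by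
  apply (g.injective.iterate L)
  show g^[L] (g.symm^[L] (g^[i] y)) = g^[L] (g^[i] (g.symm^[L] y))
  rw [iter_symm, ← Function.iterate_add_apply, add_comm, Function.iterate_add_apply, iter_symm]

theorem mono_iter {g : X → X} (hm : ∀ x, h x ≤ h (g x)) (x : X) (k : ℕ) : h x ≤ h (g^[k] x) := by
  induction k with
  | zero => exact le_rfl
  | succ k ih =>
    rw [Function.iterate_succ_apply']
    exact ih.trans (hm _)

theorem mono_symm (g : X ≃ₜ X) (hm : ∀ x, h x ≤ h (g x)) (x : X) (k : ℕ) :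
    h (g.symm^[k] x) ≤ h x := by
  have := mono_iter hm (g.symm^[k] x) k
  rwa [iter_symm] at this

/-- orbit segments with small total increase are close to `K` -/
theorem near_K (g : X ≃ₜ X) (hc : Continuous h) (hm : ∀ x, h x ≤ h (g x))
    (hK : ∀ x, (∀ k : ℕ, h (g^[k] x) = h x ∧ h (g.symm^[k] x) = h x) → x ∈ K) {ε : ℝ}
    (hε : 0 < ε) :
    ∃ (L : ℕ) (δ : ℝ), 0 < δ ∧ ∀ w, h (g^[L] w) - h (g.symm^[L] w) < δ →
      ∃ u ∈ K, dist w u < ε := by
  set S : Set X := {w | ∀ u ∈ K, ε ≤ dist w u} with hS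
  have hSc : IsClosed S := by
    have : S = ⋂ u ∈ K, {w | ε ≤ dist w u} := by
      ext w
      simp [hS]
    rw [this]
    exact isClosed_biInter fun u _ => isClosed_le continuous_const (by fun_prop)
  let T : ℕ → Set X := fun L => S ∩ {w | h (g^[L] w) ≤ h (g.symm^[L] w)}
  have hTc : ∀ L, IsClosed (T L) := fun L => hSc.inter
    (isClosed_le (hc.comp (g.continuous.iterate L)) (hc.comp (g.symm.continuous.iterate L)))
  have hTm : ∀ L, T (L + 1) ⊆ T L := by
    rintro L w ⟨h1, h2⟩
    refine ⟨h1, ?_⟩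
    have h3 : h (g^[L] w) ≤ h (g^[L + 1] w) := by
      rw [Function.iterate_succ_apply']; exact hm _
    have h4 : h (g.symm^[L + 1] w) ≤ h (g.symm^[L] w) := by
      rw [Function.iterate_succ_apply']
      exact mono_symm g hm _ 1
    exact h3.trans (le_trans h2 h4)
  obtain ⟨L, hL⟩ : ∃ L, T L = ∅ := by
    by_contra hcon
    push Not at hcon
    obtain ⟨w, hw⟩ := IsCompact.nonempty_iInter_of_sequence_nonempty_isCompact_isClosed T hTm
      hcon (hTc 0).isCompact hTc
    rw [mem_iInter] at hw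
    have hwK : w ∈ K := by
      refine hK w fun k => ?_
      have h1 : h (g^[k] w) ≤ h (g.symm^[k] w) := (hw k).2
      have h2 := mono_iter hm w k
      have h3 := mono_symm g hm w k
      exact ⟨le_antisymm (by linarith) h2, le_antisymm h3 (by linarith)⟩
    have h1 := (hw 0).1 w hwK
    rw [dist_self] at h1
    linarith
  by_cases hne : S.Nonempty
  · obtain ⟨w₀, hw₀, hmin⟩ := hSc.isCompact.exists_isMinOn hne
      (f := fun w => h (g^[L] w) - h (g.symm^[L] w))
      ((hc.comp (g.continuous.iterate L)).sub (hc.comp (g.symm.continuous.iterate L))).continuousOn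
    have hpos : 0 < h (g^[L] w₀) - h (g.symm^[L] w₀) := by
      by_contra hcon
      push Not at hcon
      have : w₀ ∈ T L := ⟨hw₀, by
        show h (g^[L] w₀) ≤ h (g.symm^[L] w₀)
        linarith⟩
      rw [hL] at this
      exact this
    refine ⟨L, _, hpos, fun w hw => ?_⟩
    by_contra hcon
    push Not at hcon
    exact absurd (hmin (show w ∈ S from hcon)) (not_le.2 hw)
  · refine ⟨L, 1, one_pos, fun w _ => ?_⟩
    by_contra hcon
    push Not at hcon
    exact hne ⟨w, hcon⟩

/-- nonwandering points are chain recurrent in `K` -/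
theorem chain_of_omega (g : X ≃ₜ X) (hc : Continuous h) (hm : ∀ x, h x ≤ h (g x))
    (hK : ∀ x, (∀ k : ℕ, h (g^[k] x) = h x ∧ h (g.symm^[k] x) = h x) → x ∈ K) {x : X}
    (hx : x ∈ Omega g) (hxh : ∀ k : ℕ, h (g^[k] x) = h x ∧ h (g.symm^[k] x) = h x) :
    ChainTo g K x x := by
  have hxK := hK x hxh
  rw [chainTo_iff]
  intro ε' hε'
  obtain ⟨δ', hδ', hu⟩ := Metric.uniformContinuous_iff.1
    (CompactSpace.uniformContinuous_of_continuous g.continuous) (ε' / 2) (by positivity)
  set ε := min δ' (ε' / 2) with hε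
  have hε0 : 0 < ε := lt_min hδ' (by positivity)
  obtain ⟨L, δ, hδ, hnear⟩ := near_K g hc hm hK hε0
  let W : Set X := Metric.ball x ε ∩ ({y | h (g^[L] y) < h x + δ / 2} ∩
    {y | h x - δ / 2 < h (g.symm^[L] y)})
  have hW : IsOpen W := Metric.isOpen_ball.inter
    ((isOpen_lt (hc.comp (g.continuous.iterate L)) continuous_const).inter
    (isOpen_lt continuous_const (hc.comp (g.symm.continuous.iterate L))))
  have hxW : x ∈ W := by
    refine ⟨Metric.mem_ball_self hε0, ?_, ?_⟩
    · show h (g^[L] x) < h x + δ / 2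
      rw [(hxh L).1]; linarith
    · show h x - δ / 2 < h (g.symm^[L] x)
      rw [(hxh L).2]; linarith
  obtain ⟨k, hk, y, hy, hky⟩ := hx W hW hxW
  have hmid : ∀ i ≤ k, ∃ u ∈ K, dist (g^[i] y) u < ε := by
    intro i hi
    apply hnear
    have h1 : h (g^[L] (g^[i] y)) ≤ h (g^[L] (g^[k] y)) := by
      obtain ⟨j, rfl⟩ := Nat.exists_eq_add_of_le hi
      have e : g^[L] (g^[i + j] y) = g^[j] (g^[L] (g^[i] y)) := by
        calc g^[L] (g^[i + j] y) = g^[L + (i + j)] y := (Function.iterate_add_apply g L (i + j) y).symm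
          _ = g^[j + (L + i)] y := by rw [show L + (i + j) = j + (L + i) by omega]
          _ = g^[j] (g^[L + i] y) := Function.iterate_add_apply g j (L + i) y
          _ = g^[j] (g^[L] (g^[i] y)) := by rw [Function.iterate_add_apply (⇑g) L i]
      rw [e]
      exact mono_iter hm _ _
    have h2 : h (g.symm^[L] y) ≤ h (g.symm^[L] (g^[i] y)) := by
      rw [comm_iter]
      exact mono_iter hm _ _
    have h3 : h (g^[L] (g^[k] y)) < h x + δ / 2 := hky.2.1
    have h4 : h x - δ / 2 < h (g.symm^[L] y) := hy.2.2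
    linarith
  have step : ∀ (i : ℕ) (u v : X), u ∈ K → v ∈ K → dist (g^[i] y) u < ε →
      dist (g^[i + 1] y) v < ε → R g K ε' u v := by
    intro i u v hu' hv' h1 h2
    refine ⟨hu', hv', ?_⟩
    have h3 : dist (g u) (g^[i + 1] y) < ε' / 2 := by
      rw [Function.iterate_succ_apply']
      apply hu
      rw [dist_comm]
      exact h1.trans_le (min_le_left _ _)
    calc dist (g u) v ≤ dist (g u) (g^[i + 1] y) + dist (g^[i + 1] y) v := dist_triangle _ _ _
      _ < ε' / 2 + ε' / 2 := add_lt_add_of_lt_of_lt h3 (h2.trans_le (min_le_right _ _))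
      _ = ε' := by ring
  have main : ∀ i, i + 1 ≤ k → ∀ u ∈ K, dist (g^[i + 1] y) u < ε →
      Relation.TransGen (R g K ε') x u := by
    intro i
    induction i with
    | zero =>
      intro _ u hu' h1
      exact Relation.TransGen.single (step 0 x u hxK hu' (Metric.mem_ball.1 hy.1) h1)
    | succ i ih =>
      intro hi u hu' h1
      obtain ⟨w, hw, hw'⟩ := hmid (i + 1) (by omega)
      exact (ih (by omega) w hw hw').tail (step _ _ _ hw hu' hw' h1)
  obtain ⟨j, rfl⟩ : ∃ j, k = j + 1 := ⟨k - 1, by omega⟩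
  exact main j le_rfl x hxK (Metric.mem_ball.1 hky.1)

/-- exact orbits are chains -/
theorem orbit_chain (g : X ≃ₜ X) (hgK : ∀ x ∈ K, g x ∈ K) {x : X} (hx : x ∈ K) {ε : ℝ}
    (hε : 0 < ε) (k : ℕ) : Relation.ReflTransGen (R g K ε) x (g^[k] x) ∧ g^[k] x ∈ K := by
  induction k with
  | zero => exact ⟨Relation.ReflTransGen.refl, hx⟩
  | succ k ih =>
    rw [Function.iterate_succ_apply']
    exact ⟨ih.1.tail ⟨ih.2, hgK _ ih.2, by simpa using hε⟩, hgK _ ih.2⟩

theorem iter_mul {g : X → X} {x : X} {m : ℕ} (hx : g^[m] x = x) (j : ℕ) : g^[m * j] x = x := by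
  rw [Function.iterate_mul]
  induction j with
  | zero => rfl
  | succ j ih => rw [Function.iterate_succ_apply', ih, hx]

/-- a chain to a periodic orbit -/
theorem stab_chain (g : X ≃ₜ X) (hgK : ∀ x ∈ K, g x ∈ K) {x z : X} (hx : x ∈ K) (hz : z ∈ K)
    {m : ℕ} (hm : 1 ≤ m) (hxm : g^[m] x = x) (hzx : z ∈ StabSet g x) : ChainTo g K z x := by
  rw [chainTo_iff]
  intro ε hε
  obtain ⟨L, hL⟩ := hzx {q : X × X | dist q.1 q.2 < ε} (isOpen_lt continuous_dist continuous_const)
    (fun x => by simpa using hε)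
  have h1 : dist (g^[m * (L + 1)] x) (g^[m * (L + 1)] z) < ε := hL (m * (L + 1)) (by nlinarith)
  rw [iter_mul hxm] at h1
  obtain ⟨j, hj⟩ : ∃ j, m * (L + 1) = j + 1 := ⟨m * (L + 1) - 1, by
    have : 1 ≤ m * (L + 1) := Nat.mul_pos hm (by omega)
    omega⟩
  rw [hj, Function.iterate_succ_apply'] at h1
  obtain ⟨h2, h3⟩ := orbit_chain g hgK hz hε j
  refine Relation.TransGen.tail' h2 ⟨h3, hx, ?_⟩
  rw [dist_comm]
  exact h1

/-- a chain from a periodic orbit -/
theorem unstab_chain (g : X ≃ₜ X) (hgK : ∀ x ∈ K, g x ∈ K) (hgK' : ∀ x ∈ K, g.symm x ∈ K)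
    {x z : X} (hx : x ∈ K) (hz : z ∈ K) {m : ℕ} (hm : 1 ≤ m) (hxm : g^[m] x = x)
    (hzx : z ∈ StabSet g.symm x) : ChainTo g K x z := by
  rw [chainTo_iff]
  intro ε hε
  obtain ⟨L, hL⟩ := hzx {q : X × X | dist q.1 q.2 < ε} (isOpen_lt continuous_dist continuous_const)
    (fun x => by simpa using hε)
  have hxm' : g.symm^[m] x = x := by
    conv_lhs => rw [← hxm]
    exact symm_iter g m x
  have h1 : dist (g.symm^[m * (L + 1)] x) (g.symm^[m * (L + 1)] z) < ε :=
    hL (m * (L + 1)) (by nlinarith)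
  rw [iter_mul hxm'] at h1
  set w := g.symm^[m * (L + 1)] z with hw
  have hwK : w ∈ K := by
    have : ∀ j : ℕ, g.symm^[j] z ∈ K := by
      intro j
      induction j with
      | zero => exact hz
      | succ j ih => rw [Function.iterate_succ_apply']; exact hgK' _ ih
    exact this _
  obtain ⟨j, rfl⟩ : ∃ j, m = j + 1 := ⟨m - 1, by omega⟩
  obtain ⟨h2, h3⟩ := orbit_chain g hgK hx hε j
  have h4 : R g K ε (g^[j] x) w := by
    refine ⟨h3, hwK, ?_⟩
    rw [← Function.iterate_succ_apply' g, hxm]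
    exact h1
  obtain ⟨h5, -⟩ := orbit_chain g hgK hwK hε ((j + 1) * (L + 1))
  rw [hw, iter_symm] at h5
  exact Relation.TransGen.trans_left (Relation.TransGen.tail' h2 h4) h5

/-- chains along a periodic orbit -/
theorem per_chain (g : X ≃ₜ X) (hgK : ∀ x ∈ K, g x ∈ K) {p : X} (hp : p ∈ K)
    {m : ℕ} (hm : 1 ≤ m) (hpm : g^[m] p = p) (i j : ℕ) : ChainTo g K (g^[i] p) (g^[j] p) := by
  rw [chainTo_iff]
  intro ε hε
  have hi := (orbit_chain g hgK hp hε i).2
  obtain ⟨k, hk1, hk⟩ : ∃ k, 1 ≤ k ∧ g^[k] (g^[i] p) = g^[j] p := by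
    refine ⟨m * (i + 1) + j - i, ?_, ?_⟩
    · have : i + 1 ≤ m * (i + 1) := by nlinarith
      omega
    · rw [← Function.iterate_add_apply]
      have e : m * (i + 1) + j - i + i = j + m * (i + 1) := by
        have : i ≤ m * (i + 1) := by nlinarith
        omega
      rw [e, Function.iterate_add_apply, iter_mul hpm]
  obtain ⟨l, rfl⟩ : ∃ l, k = l + 1 := ⟨k - 1, by omega⟩
  rw [← hk, Function.iterate_succ_apply']
  obtain ⟨h2, h3⟩ := orbit_chain g hgK hi hε l
  exact Relation.TransGen.tail' h2 ⟨h3, hgK _ h3, by simpa using hε⟩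

/-- if there are finitely many chain recurrent points, they are periodic -/
theorem per_of_finite (g : X ≃ₜ X) (hgK : ∀ x ∈ K, g x ∈ K) (hgK' : ∀ x ∈ K, g.symm x ∈ K)
    (hfin : {a | ChainTo g K a a}.Finite) : {a | ChainTo g K a a} ⊆ Per g := by
  intro x hx
  have hiter : ∀ j : ℕ, g^[j] x ∈ cls g K x := by
    intro j
    induction j with
    | zero => exact ⟨hx, hx⟩
    | succ j ih =>
      rw [Function.iterate_succ_apply', ← cls_inv g hgK hgK' x]
      exact mem_image_of_mem _ ih
  have := hfin.to_subtype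
  obtain ⟨a, b, hab, heq⟩ := Finite.exists_ne_map_eq_of_infinite
    (fun k : ℕ => (⟨g^[k] x, (hiter k).2.trans (hiter k).1⟩ : {a | ChainTo g K a a}))
  have heq' : g^[a] x = g^[b] x := congrArg Subtype.val heq
  rcases lt_or_gt_of_ne hab with h | h
  · obtain ⟨k, rfl⟩ := Nat.exists_eq_add_of_lt h
    refine ⟨k + 1, by omega, ?_⟩
    have : g^[a] (g^[k + 1] x) = g^[a] x := by
      rw [← Function.iterate_add_apply, heq']
      rfl
    exact (g.injective.iterate a) this
  · obtain ⟨k, rfl⟩ := Nat.exists_eq_add_of_lt h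
    refine ⟨k + 1, by omega, ?_⟩
    have : g^[b] (g^[k + 1] x) = g^[b] x := by
      rw [← Function.iterate_add_apply, ← heq']
      rfl
    exact (g.injective.iterate b) this

end metric

/-- a closed chain of relations on `Fin (k + 2)` -/
theorem cyc_rel {X : Type u} {k : ℕ} {r : X → X → Prop} (ht : ∀ a b c, r a b → r b c → r a c)
    (z : Fin (k + 2) → X) (h : ∀ i, r (z i) (z (i + 1))) : r (z 0) (z 0) := by
  have key : ∀ m : ℕ, r (z 0) (z (Fin.ofNat (k + 2) (m + 1))) := by
    intro m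
    induction m with
    | zero =>
      have e : Fin.ofNat (k + 2) (0 + 1) = 0 + 1 := by
        ext
        simp
      rw [e]
      exact h 0
    | succ m ih =>
      have h1 := h (Fin.ofNat (k + 2) (m + 1))
      have e : Fin.ofNat (k + 2) (m + 1) + 1 = Fin.ofNat (k + 2) (m + 1 + 1) := by
        ext
        simp [Fin.val_add]
      rw [e] at h1
      exact ht _ _ _ ih h1
  have := key (k + 1)
  have e : Fin.ofNat (k + 2) (k + 1 + 1) = 0 := by
    ext
    simp
  rwa [e] at this

end Pool.Agent.Q182.MB
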