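import Pool.Agent.Q182.MB1
import Pool.Agent.Y318.MN.Cyc
import Pool.Agent.Y504.CO.Plug

/-!
# Second order growth at degenerate critical points
-/

set_option autoImplicit false
set_option linter.unusedSectionVars false

open scoped Manifold ContDiff Topology NNReal
open Filter Set Metric

universe u

namespace Pool.Agent.Q182.MB

open Pool.Agent.H718R2.G Pool.Agent.TH80.OMS Pool.Agent.Y504.CO Pool.Agent.Y318.MN

section euclid

variable {n : ℕ}

theorem norm_fderiv_le (H : V n → ℝ) (v : V n) : ‖fderiv ℝ H v‖ ≤ ‖gr H v‖ := by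
  refine ContinuousLinearMap.opNorm_le_bound _ (norm_nonneg _) fun w => ?_
  have e : fderiv ℝ H v w = inner ℝ (gr H v) w := by
    rw [fderiv_coord, PiLp.inner_apply]
    refine Finset.sum_congr rfl fun i _ => ?_
    simp [mul_comm]
  rw [e]
  exact norm_inner_le_norm _ _

/-- second order quotients along curves -/
theorem quot_tendsto {H : V n → ℝ} {v₀ : V n} (hH : ContDiffAt ℝ 2 H v₀) (h0 : fderiv ℝ H v₀ = 0)
    {u : ℝ → V n} {a : V n} (hu : Tendsto (fun s : ℝ => s⁻¹ • u s) (𝓝[≠] 0) (𝓝 a)) :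
    Tendsto (fun s : ℝ => (H (v₀ + u s) - H v₀) / s ^ 2) (𝓝[≠] 0)
      (𝓝 (1 / 2 * fderiv ℝ (fderiv ℝ H) v₀ a a)) := by
  set T := fderiv ℝ (fderiv ℝ H) v₀ with hT
  have e6 : ∀ᶠ s in 𝓝[≠] (0 : ℝ), s ≠ 0 := eventually_mem_nhdsWithin
  have hs0 : Tendsto (fun s : ℝ => s) (𝓝[≠] 0) (𝓝 0) := tendsto_nhdsWithin_of_tendsto_nhds tendsto_id
  have hul : Tendsto u (𝓝[≠] 0) (𝓝 0) := by
    have h1 := hs0.smul hu
    rw [zero_smul] at h1
    refine h1.congr' ?_
    filter_upwards [e6] with s hs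
    show s • s⁻¹ • u s = u s
    rw [smul_smul, mul_inv_cancel₀ hs, one_smul]
  have hTc : Continuous fun x : V n => T x x := by fun_prop
  have hmain : Tendsto (fun s : ℝ => 1 / 2 * T (s⁻¹ • u s) (s⁻¹ • u s)) (𝓝[≠] 0)
      (𝓝 (1 / 2 * T a a)) := ((hTc.tendsto a).comp hu).const_mul _
  have hdiff : Tendsto (fun s : ℝ => (H (v₀ + u s) - H v₀) / s ^ 2 -
      1 / 2 * T (s⁻¹ • u s) (s⁻¹ • u s)) (𝓝[≠] 0) (𝓝 0) := by
    rw [Metric.tendsto_nhds]
    intro η hη
    set ε := η / (2 * (‖a‖ ^ 2 + 1)) with hε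
    have hε0 : 0 < ε := by positivity
    have htay := hul.eventually (taylor2 hH h0 ε hε0)
    have e4 : ∀ᶠ s in 𝓝[≠] (0 : ℝ), ‖s⁻¹ • u s‖ ^ 2 < ‖a‖ ^ 2 + 1 :=
      (hu.norm.pow 2).eventually (gt_mem_nhds (by linarith))
    filter_upwards [htay, e4, e6] with s h1 h2 hs
    rw [Real.dist_eq, sub_zero]
    have hs2 : 0 < s ^ 2 := by positivity
    have k2 : T (u s) (u s) = s ^ 2 * T (s⁻¹ • u s) (s⁻¹ • u s) := by
      simp only [map_smul, ContinuousLinearMap.smul_apply, smul_eq_mul]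
      field_simp
    have k3 : ‖u s‖ ^ 2 = s ^ 2 * ‖s⁻¹ • u s‖ ^ 2 := by
      rw [norm_smul, mul_pow, norm_inv, Real.norm_eq_abs, inv_pow, sq_abs]
      field_simp
    rw [k2, k3] at h1
    have k4 : (H (v₀ + u s) - H v₀) / s ^ 2 - 1 / 2 * T (s⁻¹ • u s) (s⁻¹ • u s) =
        (H (v₀ + u s) - H v₀ - 1 / 2 * (s ^ 2 * T (s⁻¹ • u s) (s⁻¹ • u s))) / s ^ 2 := by
      field_simp
    rw [k4, abs_div, abs_of_pos hs2, div_lt_iff₀ hs2]
    refine h1.trans_lt ?_
    have k5 : ε * (s ^ 2 * ‖s⁻¹ • u s‖ ^ 2) ≤ ε * (s ^ 2 * (‖a‖ ^ 2 + 1)) := by gcongr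
    have k6 : ε * (s ^ 2 * (‖a‖ ^ 2 + 1)) = η / 2 * s ^ 2 := by
      rw [hε]
      field_simp
    have k7 : η / 2 * s ^ 2 < η * s ^ 2 := by
      apply mul_lt_mul_of_pos_right _ hs2
      linarith
    linarith
  have := hdiff.add hmain
  rw [zero_add] at this
  refine this.congr fun s => ?_
  ring

/-- the second derivative of a function which grows like the square of its gradient along a map -/
theorem second_order_grad {H : V n → ℝ} {v₀ : V n} (hH : ContDiffAt ℝ 2 H v₀)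
    (h0 : fderiv ℝ H v₀ = 0) {g : V n → V n} {A : V n →L[ℝ] V n} (hg : HasFDerivAt g A v₀)
    (hfix : g v₀ = v₀) {c : ℝ} (hgrow : ∀ᶠ v in 𝓝 v₀, H v + c * ‖fderiv ℝ H v‖ ^ 2 ≤ H (g v))
    (w : V n) :
    fderiv ℝ (fderiv ℝ H) v₀ w w + 2 * c * ‖fderiv ℝ (fderiv ℝ H) v₀ w‖ ^ 2 ≤
      fderiv ℝ (fderiv ℝ H) v₀ (A w) (A w) := by
  set T := fderiv ℝ (fderiv ℝ H) v₀ with hT
  have hline : HasDerivAt (fun s : ℝ => v₀ + s • w) w 0 := by
    simpa using ((hasDerivAt_id (0 : ℝ)).smul_const w).const_add v₀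
  have hgl : HasDerivAt (fun s : ℝ => g (v₀ + s • w)) (A w) 0 := by
    have hg' : HasFDerivAt g A (v₀ + (0 : ℝ) • w) := by simpa using hg
    exact hg'.comp_hasDerivAt (0 : ℝ) hline
  have hquot : Tendsto (fun s : ℝ => s⁻¹ • (g (v₀ + s • w) - v₀)) (𝓝[≠] 0) (𝓝 (A w)) := by
    have := hasDerivAt_iff_tendsto_slope_zero.1 hgl
    refine this.congr fun s => ?_
    simp only [zero_add, zero_smul, add_zero, hfix]
  have e6 : ∀ᶠ s in 𝓝[≠] (0 : ℝ), s ≠ 0 := eventually_mem_nhdsWithin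
  have hquot1 : Tendsto (fun s : ℝ => s⁻¹ • (s • w)) (𝓝[≠] 0) (𝓝 w) := by
    refine tendsto_const_nhds.congr' ?_
    filter_upwards [e6] with s hs
    rw [smul_smul, inv_mul_cancel₀ hs, one_smul]
  have hcl : Tendsto (fun s : ℝ => v₀ + s • w) (𝓝[≠] 0) (𝓝 v₀) := by
    have h1 : Continuous fun s : ℝ => v₀ + s • w := by fun_prop
    have h2 := h1.tendsto 0
    simp only [zero_smul, add_zero] at h2
    exact h2.mono_left nhdsWithin_le_nhds
  have l1 := quot_tendsto hH h0 hquot1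
  have l2 := quot_tendsto hH h0 hquot
  -- the gradient
  have hd : HasFDerivAt (fderiv ℝ H) T v₀ :=
    ((hH.fderiv_right (m := 1) (by norm_num)).differentiableAt (by simp)).hasFDerivAt
  have hdl : HasDerivAt (fun s : ℝ => fderiv ℝ H (v₀ + s • w)) (T w) 0 := by
    have hd' : HasFDerivAt (fderiv ℝ H) T (v₀ + (0 : ℝ) • w) := by simpa using hd
    exact hd'.comp_hasDerivAt (0 : ℝ) hline
  have l3 : Tendsto (fun s : ℝ => s⁻¹ • fderiv ℝ H (v₀ + s • w)) (𝓝[≠] 0) (𝓝 (T w)) := by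
    have := hasDerivAt_iff_tendsto_slope_zero.1 hdl
    refine this.congr fun s => ?_
    simp only [zero_add, zero_smul, add_zero, h0, sub_zero]
  have l4 := (l3.norm.pow 2).const_mul c
  have l5 := l1.add l4
  have key := le_of_tendsto_of_tendsto l5 l2 (by
    filter_upwards [hcl.eventually hgrow, e6] with s h1 hs
    have hs2 : 0 < s ^ 2 := by positivity
    have k1 : ‖s⁻¹ • fderiv ℝ H (v₀ + s • w)‖ ^ 2 = ‖fderiv ℝ H (v₀ + s • w)‖ ^ 2 / s ^ 2 := by
      rw [norm_smul, mul_pow, norm_inv, Real.norm_eq_abs, inv_pow, sq_abs]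
      field_simp
    show (H (v₀ + s • w) - H v₀) / s ^ 2 + c * ‖s⁻¹ • fderiv ℝ H (v₀ + s • w)‖ ^ 2 ≤
      (H (v₀ + (g (v₀ + s • w) - v₀)) - H v₀) / s ^ 2
    rw [k1, add_sub_cancel, ← mul_div_assoc, ← add_div]
    apply div_le_div_of_nonneg_right _ hs2.le
    linarith)
  linarith

/-- bounded orbits of a linear map along which a form grows like the square of its gradient -/
theorem ker_of_form {A : V n →L[ℝ] V n} {T : V n →L[ℝ] V n →L[ℝ] ℝ} {c : ℝ} (hc : 0 < c)
    (h : ∀ w, T w w + c * ‖T w‖ ^ 2 ≤ T (A w) (A w)) {v : ℤ → V n} {C : ℝ} (hC : ∀ i, ‖v i‖ ≤ C)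
    (hv : ∀ i, v (i + 1) = A (v i)) (i : ℤ) : T (v i) = 0 := by
  set q : ℤ → ℝ := fun i => T (v i) (v i) with hq
  have hC0 : 0 ≤ C := (norm_nonneg _).trans (hC 0)
  have hstep : ∀ i, q i + c * ‖T (v i)‖ ^ 2 ≤ q (i + 1) := by
    intro i
    have := h (v i)
    show T (v i) (v i) + c * ‖T (v i)‖ ^ 2 ≤ T (v (i + 1)) (v (i + 1))
    rw [hv i]
    exact this
  have hqb : ∀ i, |q i| ≤ ‖T (v i)‖ * C := by
    intro i
    rw [← Real.norm_eq_abs]
    exact (ContinuousLinearMap.le_opNorm _ _).trans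
      (mul_le_mul_of_nonneg_left (hC i) (norm_nonneg _))
  have hqB : ∀ i, |q i| ≤ ‖T‖ * C * C := by
    intro i
    refine (hqb i).trans (mul_le_mul_of_nonneg_right ?_ hC0)
    exact (T.le_opNorm _).trans (mul_le_mul_of_nonneg_left (hC i) (T.opNorm_nonneg))
  have hsum : ∀ (i : ℤ) (K : ℕ),
      ∑ k ∈ Finset.range K, c * ‖T (v (i + k))‖ ^ 2 ≤ q (i + K) - q i := by
    intro i K
    induction K with
    | zero => simp
    | succ K ih =>
      rw [Finset.sum_range_succ]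
      have := hstep (i + K)
      have e : i + ((K + 1 : ℕ) : ℤ) = i + K + 1 := by push_cast; ring
      rw [e]
      linarith
  have hmono : ∀ (i : ℤ) (K : ℕ), q i ≤ q (i + K) := by
    intro i K
    have h1 := hsum i K
    have h2 : 0 ≤ ∑ k ∈ Finset.range K, c * ‖T (v (i + k))‖ ^ 2 :=
      Finset.sum_nonneg fun k _ => by positivity
    linarith
  have hsq : ∀ f : ℕ → ℤ, Tendsto (fun k => c * ‖T (v (f k))‖ ^ 2) atTop (𝓝 0) →
      Tendsto (fun k => ‖T (v (f k))‖ * C) atTop (𝓝 0) := by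
    intro f hf
    have h1 := (hf.const_mul c⁻¹).sqrt
    rw [mul_zero, Real.sqrt_zero] at h1
    have h2 : Tendsto (fun k => ‖T (v (f k))‖) atTop (𝓝 0) := by
      refine h1.congr fun k => ?_
      rw [← mul_assoc, inv_mul_cancel₀ hc.ne', one_mul, Real.sqrt_sq (norm_nonneg _)]
    have h3 := h2.mul_const C
    rwa [zero_mul] at h3
  -- the future
  have hfut : ∀ i : ℤ, q i ≤ 0 := by
    intro i
    have hs : Summable fun k : ℕ => c * ‖T (v (i + k))‖ ^ 2 :=
      summable_of_sum_range_le (c := 2 * (‖T‖ * C * C)) (fun k => by positivity) fun K => by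
        have h1 := hsum i K
        have h2 := (abs_le.1 (hqB i)).1
        have h3 := (abs_le.1 (hqB (i + K))).2
        linarith
    refine ge_of_tendsto (hsq (fun k : ℕ => i + k) hs.tendsto_atTop_zero)
      (Eventually.of_forall fun k => ?_)
    exact (hmono i k).trans ((le_abs_self _).trans (hqb (i + k)))
  -- the past
  have hpast : ∀ i : ℤ, 0 ≤ q i := by
    intro i
    have hs : Summable fun k : ℕ => c * ‖T (v (i - 1 - k))‖ ^ 2 :=
      summable_of_sum_range_le (c := 2 * (‖T‖ * C * C)) (fun k => by positivity) fun K => by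
        have h1 := hsum (i - K) K
        have h2 := (abs_le.1 (hqB (i - K))).1
        have h3 := (abs_le.1 (hqB (i - K + K))).2
        have e : ∑ k ∈ Finset.range K, c * ‖T (v (i - 1 - k))‖ ^ 2 =
            ∑ k ∈ Finset.range K, c * ‖T (v (i - K + k))‖ ^ 2 := by
          rw [← Finset.sum_range_reflect]
          refine Finset.sum_congr rfl fun k hk => ?_
          rw [Finset.mem_range] at hk
          have e2 : i - 1 - ((K - 1 - k : ℕ) : ℤ) = i - K + k := by omega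
          rw [e2]
        rw [e]
        linarith
    have hlim : Tendsto (fun k : ℕ => -(‖T (v (i - 1 - k))‖ * C)) atTop (𝓝 0) := by
      have := (hsq (fun k : ℕ => i - 1 - k) hs.tendsto_atTop_zero).neg
      rwa [neg_zero] at this
    refine le_of_tendsto hlim (Eventually.of_forall fun k => ?_)
    have h1 := hmono (i - 1 - k) (k + 1)
    have e : i - 1 - (k : ℤ) + ((k + 1 : ℕ) : ℤ) = i := by push_cast; ring
    rw [e] at h1
    exact (neg_le_of_abs_le (hqb _)).trans h1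
  have h1 := hstep i
  have h2 := hfut (i + 1)
  have h3 := hpast i
  have h4 : c * ‖T (v i)‖ ^ 2 ≤ 0 := by linarith
  have h5 : ‖T (v i)‖ ^ 2 ≤ 0 := by
    by_contra hcon
    push Not at hcon
    have := mul_pos hc hcon
    linarith
  have h6 : ‖T (v i)‖ = 0 := by
    have := sq_nonneg ‖T (v i)‖
    exact pow_eq_zero_iff two_ne_zero |>.1 (le_antisymm h5 this)
  exact norm_eq_zero.1 h6

end euclid

end Pool.Agent.Q182.MB
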