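import Pool.Agent.Y318.MN.Attr

set_option autoImplicit false

/-!
# Chains

`ChainTo f K a b`: for every open neighbourhood `W` of the diagonal there is a chain in `K` from `a` to `b` whose
jumps are in `W`.
-/

open Set Filter Topology MeasureTheory

namespace Pool.Agent.Q182.MC

open Pool.Agent.H728R2.FA (omegaLim FiniteAttractors)

/-- there are chains in `K` from `a` to `b` with arbitrarily small jumps -/
def ChainTo {X : Type*} [TopologicalSpace X] (f : X → X) (K : Set X) (a b : X) : Prop :=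
  ∀ W : Set (X × X), IsOpen W → (∀ x, (x, x) ∈ W) →
    Relation.TransGen (fun x y => x ∈ K ∧ y ∈ K ∧ (f x, y) ∈ W) a b

section basic

variable {X : Type*} [TopologicalSpace X] {f g : X → X} {K : Set X} {a b c : X}

theorem ChainTo.trans (h1 : ChainTo f K a b) (h2 : ChainTo f K b c) : ChainTo f K a c :=
  fun W hW hd => (h1 W hW hd).trans (h2 W hW hd)

theorem ChainTo.step (ha : a ∈ K) (hb : f a ∈ K) : ChainTo f K a (f a) :=
  fun _ _ hd => Relation.TransGen.single ⟨ha, hb, hd _⟩

theorem ChainTo.congr (h : ∀ x ∈ K, f x = g x) (h1 : ChainTo f K a b) : ChainTo g K a b := by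
  intro W hW hd
  refine Relation.TransGen.mono (fun x y hxy => ?_) _ _ (h1 W hW hd)
  rw [← h x hxy.1]
  exact hxy

theorem ChainTo.mem_left (h : ChainTo f K a b) : a ∈ K := by
  obtain ⟨y, h1, -⟩ := Relation.TransGen.head'_iff.1 (h univ isOpen_univ fun _ => trivial)
  exact h1.1

theorem ChainTo.mem_right (h : ChainTo f K a b) : b ∈ K := by
  obtain ⟨y, -, h1⟩ := Relation.TransGen.tail'_iff.1 (h univ isOpen_univ fun _ => trivial)
  exact h1.2.1

/-- the chain class of `a` -/
def cls (f : X → X) (K : Set X) (a : X) : Set X := {b | ChainTo f K a b ∧ ChainTo f K b a}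

theorem cls_congr (h : ∀ x ∈ K, f x = g x) : cls f K a = cls g K a :=
  subset_antisymm (fun _ hb => ⟨hb.1.congr h, hb.2.congr h⟩)
    (fun _ hb => ⟨hb.1.congr fun x hx => (h x hx).symm, hb.2.congr fun x hx => (h x hx).symm⟩)

end basic

section metric

set_option linter.unusedSectionVars false

variable {X : Type*} [MetricSpace X] [CompactSpace X] {K : Set X} {a b : X}

/-- the step relation in the metric -/
def R (f : X → X) (K : Set X) (ε : ℝ) (x y : X) : Prop := x ∈ K ∧ y ∈ K ∧ dist (f x) y < ε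

theorem chainTo_iff {f : X → X} :
    ChainTo f K a b ↔ ∀ ε > 0, Relation.TransGen (R f K ε) a b := by
  constructor
  · intro h ε hε
    exact Relation.TransGen.mono (fun x y hxy => hxy) _ _
      (h {q : X × X | dist q.1 q.2 < ε} (isOpen_lt continuous_dist continuous_const)
      (fun x => by simpa using hε))
  · intro h W hW hd
    obtain ⟨ε, hε, hεW⟩ : ∃ ε > 0, ∀ x y : X, dist x y < ε → (x, y) ∈ W := by
      have hc : IsCompact (diagonal X) := by
        have := isCompact_range (f := fun x : X => (x, x)) (by fun_prop)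
        convert this using 1
        ext ⟨x, y⟩
        simp [diagonal, eq_comm]
      obtain ⟨ε, hε, h1⟩ := hc.exists_thickening_subset_open hW (by
        rintro ⟨x, y⟩ hxy
        have : x = y := hxy
        rw [this]
        exact hd y)
      refine ⟨ε, hε, fun x y hxy => h1 ?_⟩
      rw [Metric.mem_thickening_iff]
      refine ⟨(x, x), rfl, ?_⟩
      rw [Prod.dist_eq]
      simp only [dist_self]
      rw [dist_comm] at hxy
      exact max_lt hε hxy
    exact Relation.TransGen.mono (fun x y hxy => ⟨hxy.1, hxy.2.1, hεW _ _ hxy.2.2⟩) _ _ (h ε hε)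

theorem R_mono {f : X → X} {ε δ : ℝ} (h : δ ≤ ε) {x y : X} (hxy : R f K δ x y) : R f K ε x y :=
  ⟨hxy.1, hxy.2.1, hxy.2.2.trans_le h⟩

/-- an `ω`-limit set is internally chain transitive -/
theorem omega_chain (g : X ≃ₜ X) (p : X) (hK : omegaLim g p ⊆ K) (ha : a ∈ omegaLim g p)
    (hb : b ∈ omegaLim g p) : ChainTo g K a b := by
  rw [chainTo_iff]
  intro ε hε
  obtain ⟨δ', hδ', hu⟩ := Metric.uniformContinuous_iff.1
    (CompactSpace.uniformContinuous_of_continuous g.continuous) (ε / 2) (by positivity)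
  set δ := min δ' (ε / 2) with hδ
  have hδ0 : 0 < δ := lt_min hδ' (by positivity)
  have hev : ∃ N : ℕ, ∀ n, N ≤ n → ∃ x ∈ omegaLim g p, dist (g^[n] p) x < δ := by
    by_contra hcon
    push Not at hcon
    obtain ⟨y, hyK, hyω⟩ := Pool.Agent.Y318.MH.exists_omegaLim g p
      (⋃ x ∈ omegaLim g p, Metric.ball x δ)ᶜ
      (isOpen_biUnion fun _ _ => Metric.isOpen_ball).isClosed_compl
      (fun N => by
        obtain ⟨n, hn, h⟩ := hcon N
        refine ⟨n, hn, ?_⟩
        rw [mem_compl_iff, mem_iUnion₂]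
        rintro ⟨x, hx, hx'⟩
        exact absurd (Metric.mem_ball.1 hx') (not_lt.2 (h x hx)))
    exact hyK (mem_iUnion₂.2 ⟨y, hyω, Metric.mem_ball_self hδ0⟩)
  obtain ⟨N, hN⟩ := hev
  obtain ⟨n1, hn1, h1⟩ := ha (Metric.ball a δ) (Metric.ball_mem_nhds _ hδ0) N
  obtain ⟨n2, hn2, h2⟩ := hb (Metric.ball b δ) (Metric.ball_mem_nhds _ hδ0) (n1 + 1)
  have key : ∀ (u v : X) (k : ℕ), u ∈ omegaLim g p → v ∈ omegaLim g p → dist (g^[k] p) u < δ →
      dist (g^[k + 1] p) v < δ → R g K ε u v := by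
    intro u v k hu' hv' h3 h4
    refine ⟨hK hu', hK hv', ?_⟩
    have h5 : dist (g u) (g^[k + 1] p) < ε / 2 := by
      rw [Function.iterate_succ_apply']
      apply hu
      rw [dist_comm]
      exact h3.trans_le (min_le_left _ _)
    calc dist (g u) v ≤ dist (g u) (g^[k + 1] p) + dist (g^[k + 1] p) v := dist_triangle _ _ _
      _ < ε / 2 + ε / 2 := add_lt_add_of_lt_of_lt h5 (h4.trans_le (min_le_right _ _))
      _ = ε := by ring
  have main : ∀ k : ℕ, ∀ y ∈ omegaLim g p, dist (g^[n1 + k + 1] p) y < δ →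
      Relation.TransGen (R g K ε) a y := by
    intro k
    induction k with
    | zero => exact fun y hy h3 => Relation.TransGen.single (key _ _ _ ha hy h1 h3)
    | succ k ih =>
      intro y hy h3
      obtain ⟨x, hx, hx'⟩ := hN (n1 + k + 1) (by omega)
      exact (ih x hx hx').tail (key _ _ _ hx hy hx' h3)
  obtain ⟨k, rfl⟩ := Nat.exists_eq_add_of_le hn2
  exact main k b hb (by
    have e : n1 + k + 1 = n1 + 1 + k := by omega
    rw [e]
    exact h2)

/-- a chain recurrent point can be reached from its image -/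
theorem back_image (g : X ≃ₜ X) (hgK : ∀ x ∈ K, g x ∈ K) (h : ChainTo g K b b) :
    ChainTo g K (g b) b := by
  have hb := h.mem_left
  rw [chainTo_iff] at h ⊢
  intro ε hε
  obtain ⟨δ', hδ', hu⟩ := Metric.uniformContinuous_iff.1
    (CompactSpace.uniformContinuous_of_continuous g.continuous) (ε / 2) (by positivity)
  set δ := min δ' (ε / 2) with hδ
  have hδ0 : 0 < δ := lt_min hδ' (by positivity)
  obtain ⟨x1, hx1, hr⟩ := Relation.TransGen.head'_iff.1 (h δ hδ0)
  have hr2 : Relation.TransGen (R g K δ) x1 b := Relation.TransGen.trans_right hr (h δ hδ0)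
  obtain ⟨x2, hx2, hr3⟩ := Relation.TransGen.head'_iff.1 hr2
  have h3 : R g K ε (g b) x2 := by
    refine ⟨hgK b hb, hx2.2.1, ?_⟩
    have h4 : dist (g (g b)) (g x1) < ε / 2 := hu (hx1.2.2.trans_le (min_le_left _ _))
    calc dist (g (g b)) x2 ≤ dist (g (g b)) (g x1) + dist (g x1) x2 := dist_triangle _ _ _
      _ < ε / 2 + ε / 2 := add_lt_add_of_lt_of_lt h4 (hx2.2.2.trans_le (min_le_right _ _))
      _ = ε := by ring
  exact Relation.TransGen.head' h3 (Relation.ReflTransGen.mono (fun x y hxy => R_mono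
    ((min_le_right _ _).trans (by linarith)) hxy) _ _ hr3)

/-- the preimage of a chain recurrent point can be reached from it -/
theorem back_preimage (g : X ≃ₜ X) (hgK : ∀ x ∈ K, g.symm x ∈ K) (h : ChainTo g K b b) :
    ChainTo g K b (g.symm b) := by
  have hb := h.mem_left
  rw [chainTo_iff] at h ⊢
  intro ε hε
  obtain ⟨δ', hδ', hu⟩ := Metric.uniformContinuous_iff.1
    (CompactSpace.uniformContinuous_of_continuous g.symm.continuous) (ε / 2) (by positivity)
  set δ := min δ' (ε / 2) with hδ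
  have hδ0 : 0 < δ := lt_min hδ' (by positivity)
  obtain ⟨x1, hr, hx1⟩ := Relation.TransGen.tail'_iff.1 (h δ hδ0)
  have hr2 : Relation.TransGen (R g K δ) b x1 := Relation.TransGen.trans_left (h δ hδ0) hr
  obtain ⟨x2, hr3, hx2⟩ := Relation.TransGen.tail'_iff.1 hr2
  have h3 : R g K ε x2 (g.symm b) := by
    refine ⟨hx2.1, hgK b hb, ?_⟩
    have h4 : dist x1 (g.symm b) < ε / 2 := by
      have := hu (hx1.2.2.trans_le (min_le_left _ _))
      rwa [g.symm_apply_apply] at this
    calc dist (g x2) (g.symm b) ≤ dist (g x2) x1 + dist x1 (g.symm b) := dist_triangle _ _ _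
      _ < ε / 2 + ε / 2 := add_lt_add_of_lt_of_lt (hx2.2.2.trans_le (min_le_right _ _)) h4
      _ = ε := by ring
  exact Relation.TransGen.tail' (Relation.ReflTransGen.mono (fun x y hxy => R_mono
    ((min_le_right _ _).trans (by linarith)) hxy) _ _ hr3) h3

/-- chain classes are invariant -/
theorem cls_inv (g : X ≃ₜ X) (hgK : ∀ x ∈ K, g x ∈ K) (hgK' : ∀ x ∈ K, g.symm x ∈ K) (a : X) :
    g '' cls g K a = cls g K a := by
  apply subset_antisymm
  · rintro _ ⟨b, hb, rfl⟩
    have hbK := hb.1.mem_right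
    have hbb : ChainTo g K b b := hb.2.trans hb.1
    exact ⟨hb.1.trans (ChainTo.step hbK (hgK b hbK)), (back_image g hgK hbb).trans hb.2⟩
  · intro b hb
    have hbK := hb.1.mem_right
    have hbb : ChainTo g K b b := hb.2.trans hb.1
    refine ⟨g.symm b, ⟨hb.1.trans (back_preimage g hgK' hbb), ?_⟩, g.apply_symm_apply b⟩
    have h1 : ChainTo g K (g.symm b) (g (g.symm b)) :=
      ChainTo.step (hgK' b hbK) (by rw [g.apply_symm_apply]; exact hbK)
    rw [g.apply_symm_apply] at h1
    exact h1.trans hb.2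

/-- finitely many transitive chain classes -/
theorem finite_of_classes [MeasurableSpace X] (μ : Measure X) (g : X ≃ₜ X)
    (hgK : ∀ x ∈ K, g x ∈ K) (hgK' : ∀ x ∈ K, g.symm x ∈ K)
    (hω : ∀ p, omegaLim g p ⊆ K)
    (hfin : {C | ∃ a, ChainTo g K a a ∧ C = cls g K a}.Finite)
    (htr : ∀ a, ChainTo g K a a →
      ∃ x ∈ cls g K a, cls g K a ⊆ closure (range fun n : ℕ => g^[n] x)) :
    (∀ p, ∃ a, ChainTo g K a a ∧ omegaLim g p ⊆ cls g K a) ∧ FiniteAttractors μ g := by
  have h1 : ∀ p, ∃ a, ChainTo g K a a ∧ omegaLim g p ⊆ cls g K a := by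
    intro p
    obtain ⟨y, -, hy⟩ := Pool.Agent.Y318.MH.exists_omegaLim g p univ isClosed_univ
      (fun N => ⟨N, le_rfl, trivial⟩)
    exact ⟨y, omega_chain g p (hω p) hy hy, fun b hb =>
      ⟨omega_chain g p (hω p) hy hb, omega_chain g p (hω p) hb hy⟩⟩
  refine ⟨h1, ?_⟩
  have := hfin.fintype
  let e := Fintype.equivFin {C | ∃ a, ChainTo g K a a ∧ C = cls g K a}
  refine Pool.Agent.Y318.MH.finite_of_cover μ g (fun i => (e.symm i).1) (fun i => ?_) (fun i => ?_)
    (fun p => ?_)
  · obtain ⟨a, -, h2⟩ := (e.symm i).2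
    rw [h2]
    exact cls_inv g hgK hgK' a
  · obtain ⟨a, ha, h2⟩ := (e.symm i).2
    rw [h2]
    exact htr a ha
  · obtain ⟨a, ha, h2⟩ := h1 p
    refine ⟨e ⟨cls g K a, a, ha, rfl⟩, ?_⟩
    rw [e.symm_apply_apply]
    exact h2

end metric

end Pool.Agent.Q182.MC
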