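import Pool.Agent.Q182.MC1

set_option autoImplicit false

/-!
# Finitely many attractors near diffeomorphisms which do not decrease a function: chain classes
-/

open scoped Manifold ContDiff Topology NNReal
open Filter Set Metric MeasureTheory

universe u

namespace Pool.Agent.Q182.MC

open Pool.Agent.H718R2.G Pool.Agent.TH80.OMS Pool.Agent.Y504.CO Pool.Agent.Y318.MN

open Pool.Agent.H728R2.FA (omegaLim FiniteAttractors)

variable {n : ℕ} {N : Type u} [TopologicalSpace N] [T2Space N] [CompactSpace N]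
  [ChartedSpace (V n) N] [IsManifold (𝓡 n) ∞ N]

theorem crit_fwd {r : ℕ∞} {F : DiffM n N r} {h : N → ℝ} {x : N} (hx : x ∈ CritInv n F h) :
    F x ∈ CritInv n F h := by
  intro k
  refine ⟨(hx (k + 1)).1, ?_⟩
  rcases k with _ | k
  · exact (hx 1).1
  · rw [Function.iterate_succ_apply, F.symm_apply_apply]
    exact (hx k).2

theorem crit_bwd {r : ℕ∞} {F : DiffM n N r} {h : N → ℝ} {x : N} (hx : x ∈ CritInv n F h) :
    F.symm x ∈ CritInv n F h := by
  intro k
  refine ⟨?_, (hx (k + 1)).2⟩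
  rcases k with _ | k
  · exact (hx 1).2
  · rw [Function.iterate_succ_apply, F.apply_symm_apply]
    exact (hx k).1

theorem metric_part [TopologicalSpace.MetrizableSpace N] {K : Set N} (g : N ≃ₜ N)
    (hgK : ∀ x ∈ K, g x ∈ K) (hgK' : ∀ x ∈ K, g.symm x ∈ K)
    (hω : ∀ p, omegaLim g p ⊆ K)
    (hfin : {C | ∃ a, ChainTo g K a a ∧ C = cls g K a}.Finite)
    (htr : ∀ a, ChainTo g K a a →
      ∃ x ∈ cls g K a, cls g K a ⊆ closure (range fun n : ℕ => g^[n] x)) :
    (∀ p, ∃ a, ChainTo g K a a ∧ omegaLim g p ⊆ cls g K a) ∧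
      ∀ (_ : MeasurableSpace N) (μ : Measure N), FiniteAttractors μ g := by
  letI : MetricSpace N := TopologicalSpace.metrizableSpaceMetric N
  refine ⟨?_, fun _ μ => (finite_of_classes μ g hgK hgK' hω hfin htr).2⟩
  letI : MeasurableSpace N := borel N
  exact (finite_of_classes (0 : Measure N) g hgK hgK' hω hfin htr).1

/-- **Chain classes.** -/
theorem classes {r : ℕ∞} (hr : 1 ≤ r) (F : DiffM n N r) {h : N → ℝ}
    (hh : ContMDiff (𝓡 n) 𝓘(ℝ, ℝ) ∞ h) (hm : ∀ x, h x ≤ h (F x))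
    (hfin : {C | ∃ a, ChainTo F (CritInv n F h) a a ∧ C = cls F (CritInv n F h) a}.Finite)
    (htr : ∀ a, ChainTo F (CritInv n F h) a a → ∃ x ∈ cls F (CritInv n F h) a,
      cls F (CritInv n F h) a ⊆ closure (range fun k : ℕ => F^[k] x))
    (U : Set (DiffM n N r)) (hU : IsOpen[strongTop n N r] U) (hFU : F ∈ U) :
    ∃ G ∈ U, (∀ x, h x ≤ h (G x)) ∧ (∀ x ∈ CritInv n F h, G x = F x) ∧
      (∀ p, ∃ a, ChainTo F (CritInv n F h) a a ∧ omegaLim G p ⊆ cls F (CritInv n F h) a) ∧
      ∀ (_ : MeasurableSpace N) (μ : Measure N), FiniteAttractors μ G := by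
  obtain ⟨Φ, G, hGU, hG, hΦ⟩ := exists_push hh hr F U hU hFU
  have hmet := exists_metric n N
  set K := CritInv n F h with hK
  have hGF : ∀ x ∈ K, G x = F x := fun x hx => by rw [hG, hΦ.fix x (hx 0).1]
  have hFG : ∀ x ∈ K, F x = G x := fun x hx => (hGF x hx).symm
  have hgK : ∀ x ∈ K, G x ∈ K := fun x hx => by rw [hGF x hx]; exact crit_fwd hx
  have hgK' : ∀ x ∈ K, G.symm x ∈ K := by
    intro x hx
    have h1 : F.symm x ∈ K := crit_bwd hx
    have h2 : G (F.symm x) = x := by rw [hGF _ h1, F.apply_symm_apply]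
    have h3 : G.symm x = F.symm x := by rw [← h2, G.symm_apply_apply, h2]
    rw [h3]
    exact h1
  have hiter : ∀ x ∈ K, ∀ k : ℕ, G^[k] x = F^[k] x ∧ F^[k] x ∈ K := by
    intro x hx k
    induction k with
    | zero => exact ⟨rfl, hx⟩
    | succ k ih =>
      rw [Function.iterate_succ_apply', Function.iterate_succ_apply', ih.1]
      exact ⟨hGF _ ih.2, crit_fwd ih.2⟩
  have hcls : ∀ a, cls F K a = cls G K a := fun a => cls_congr hFG
  have hω : ∀ p, omegaLim G.toHomeomorph p ⊆ K := fun p =>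
    (omegaLim_sub_omega _ _).trans (omega_sub hh.continuous hm hG hΦ)
  obtain ⟨h1, h2⟩ := metric_part G.toHomeomorph (K := K) hgK hgK' hω (by
      refine hfin.subset ?_
      rintro C ⟨a, ha, rfl⟩
      exact ⟨a, ChainTo.congr hGF ha, (hcls a).symm⟩) (by
      intro a ha
      obtain ⟨x, hx, hd⟩ := htr a (ChainTo.congr hGF ha)
      rw [hcls a] at hx hd
      refine ⟨x, hx, ?_⟩
      have e : (fun k : ℕ => G.toHomeomorph^[k] x) = fun k : ℕ => F^[k] x := by
        funext k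
        exact (hiter x hx.1.mem_right k).1
      show cls G K a ⊆ closure (range fun k : ℕ => G.toHomeomorph^[k] x)
      rw [e]
      exact hd)
  refine ⟨G, hGU, g_mono hm hG hΦ, hGF, fun p => ?_, h2⟩
  obtain ⟨a, ha, h3⟩ := h1 p
  exact ⟨a, ChainTo.congr hGF ha, h3.trans (hcls a).symm.subset⟩

end Pool.Agent.Q182.MC
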