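import Mathlib

set_option autoImplicit false
set_option linter.unusedSectionVars false

/-!
# Flows on compact metric spaces: chains, `ω`-limit sets, attractors
-/

open Set Filter Topology MeasureTheory

universe u

namespace Pool.Agent.Q182.MF

/-- a continuous flow -/
structure IsFlow {X : Type u} [TopologicalSpace X] (φ : ℝ → X → X) : Prop where
  cont : Continuous fun q : ℝ × X => φ q.1 q.2
  zero : ∀ x, φ 0 x = x
  add : ∀ s t x, φ (s + t) x = φ s (φ t x)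

/-- there are chains in `K` from `a` to `b` with arbitrarily small jumps, with times between `1` and `2`
between the jumps -/
def ChainTo {X : Type u} [TopologicalSpace X] (φ : ℝ → X → X) (K : Set X) (a b : X) : Prop :=
  ∀ W : Set (X × X), IsOpen W → (∀ x, (x, x) ∈ W) →
    Relation.TransGen (fun x y => x ∈ K ∧ y ∈ K ∧ ∃ t ∈ Icc (1 : ℝ) 2, (φ t x, y) ∈ W) a b

/-- the chain class of `a` -/
def cls {X : Type u} [TopologicalSpace X] (φ : ℝ → X → X) (K : Set X) (a : X) : Set X :=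
  {b | ChainTo φ K a b ∧ ChainTo φ K b a}

/-- the `ω`-limit set -/
def omegaLim {X : Type u} [TopologicalSpace X] (φ : ℝ → X → X) (p : X) : Set X :=
  {q | ∀ U ∈ 𝓝 q, ∀ T : ℝ, ∃ t : ℝ, T ≤ t ∧ φ t p ∈ U}

/-- `C` contains a point whose forward orbit is dense in `C` -/
def Transitive {X : Type u} [TopologicalSpace X] (φ : ℝ → X → X) (C : Set X) : Prop :=
  ∃ x ∈ C, C ⊆ closure {y | ∃ t : ℝ, 0 ≤ t ∧ y = φ t x}

/-- attractors of flows -/
def IsAttractor {X : Type u} [TopologicalSpace X] [MeasurableSpace X] (μ : Measure X)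
    (φ : ℝ → X → X) (Λ : Set X) : Prop :=
  (∀ t, φ t '' Λ = Λ) ∧ Transitive φ Λ ∧ 0 < μ {p | omegaLim φ p ⊆ Λ}

/-- finitely many attractors whose basins cover the space up to a null set -/
def FiniteAttractors {X : Type u} [TopologicalSpace X] [MeasurableSpace X] (μ : Measure X)
    (φ : ℝ → X → X) : Prop :=
  ∃ (k : ℕ) (Λ : Fin k → Set X), (∀ i, IsAttractor μ φ (Λ i)) ∧
    μ {p | ∀ i, ¬ omegaLim φ p ⊆ Λ i} = 0

section basic

variable {X : Type u} [TopologicalSpace X] {φ ψ : ℝ → X → X} {K : Set X} {a b c : X}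

theorem ChainTo.trans (h1 : ChainTo φ K a b) (h2 : ChainTo φ K b c) : ChainTo φ K a c :=
  fun W hW hd => (h1 W hW hd).trans (h2 W hW hd)

theorem ChainTo.congr (h : ∀ x ∈ K, ∀ t, φ t x = ψ t x) (h1 : ChainTo φ K a b) :
    ChainTo ψ K a b := by
  intro W hW hd
  refine Relation.TransGen.mono (fun x y hxy => ?_) _ _ (h1 W hW hd)
  obtain ⟨hx, hy, t, ht, h2⟩ := hxy
  rw [h x hx t] at h2
  exact ⟨hx, hy, t, ht, h2⟩

theorem ChainTo.mem_left (h : ChainTo φ K a b) : a ∈ K := by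
  obtain ⟨y, h1, -⟩ := Relation.TransGen.head'_iff.1 (h univ isOpen_univ fun _ => trivial)
  exact h1.1

theorem ChainTo.mem_right (h : ChainTo φ K a b) : b ∈ K := by
  obtain ⟨y, -, h1⟩ := Relation.TransGen.tail'_iff.1 (h univ isOpen_univ fun _ => trivial)
  exact h1.2.1

theorem cls_congr (h : ∀ x ∈ K, ∀ t, φ t x = ψ t x) : cls φ K a = cls ψ K a :=
  subset_antisymm (fun _ hb => ⟨hb.1.congr h, hb.2.congr h⟩)
    (fun _ hb => ⟨hb.1.congr fun x hx t => (h x hx t).symm,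
      hb.2.congr fun x hx t => (h x hx t).symm⟩)

theorem IsFlow.cont_time (hφ : IsFlow φ) (t : ℝ) : Continuous (φ t) :=
  hφ.cont.comp (continuous_const.prodMk continuous_id)

theorem IsFlow.neg (hφ : IsFlow φ) (t : ℝ) (x : X) : φ (-t) (φ t x) = x := by
  rw [← hφ.add, neg_add_cancel, hφ.zero]

theorem IsFlow.neg' (hφ : IsFlow φ) (t : ℝ) (x : X) : φ t (φ (-t) x) = x := by
  rw [← hφ.add, add_neg_cancel, hφ.zero]

theorem IsFlow.omega_inv (hφ : IsFlow φ) {p q : X} (hq : q ∈ omegaLim φ p) (s : ℝ) :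
    φ s q ∈ omegaLim φ p := by
  intro U hU T
  obtain ⟨t, ht, h⟩ := hq (φ s ⁻¹' U) ((hφ.cont_time s).continuousAt.preimage_mem_nhds hU) (T - s)
  refine ⟨s + t, by linarith, ?_⟩
  rw [hφ.add]
  exact h

end basic

section metric

variable {X : Type u} [MetricSpace X] [CompactSpace X] {φ : ℝ → X → X} {K : Set X} {a b : X}

/-- the step relation in the metric, for times at least one -/
def R (φ : ℝ → X → X) (K : Set X) (ε : ℝ) (x y : X) : Prop :=
  x ∈ K ∧ y ∈ K ∧ ∃ t : ℝ, 1 ≤ t ∧ dist (φ t x) y < ε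

theorem chainTo_iff (hφ : IsFlow φ) (hK : ∀ x ∈ K, ∀ t, φ t x ∈ K) :
    ChainTo φ K a b ↔ ∀ ε > 0, Relation.TransGen (R φ K ε) a b := by
  constructor
  · intro h ε hε
    refine Relation.TransGen.mono (fun x y hxy => ?_) _ _
      (h {q : X × X | dist q.1 q.2 < ε} (isOpen_lt continuous_dist continuous_const)
      (fun x => by simpa using hε))
    obtain ⟨hx, hy, t, ht, h2⟩ := hxy
    exact ⟨hx, hy, t, ht.1, h2⟩
  · intro h W hW hd
    obtain ⟨ε, hε, hεW⟩ : ∃ ε > 0, ∀ x y : X, dist x y < ε → (x, y) ∈ W := by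
      have hc : IsCompact (diagonal X) := by
        have := isCompact_range (f := fun x : X => (x, x)) (by fun_prop)
        convert this using 1
        ext ⟨x, y⟩
        simp [diagonal, eq_comm]
      obtain ⟨ε, hε, h1⟩ := hc.exists_thickening_subset_open hW (by
        rintro ⟨x, y⟩ hxy
        have : x = y := hxy
        rw [this]
        exact hd y)
      refine ⟨ε, hε, fun x y hxy => h1 ?_⟩
      rw [Metric.mem_thickening_iff]
      refine ⟨(x, x), rfl, ?_⟩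
      rw [Prod.dist_eq]
      simp only [dist_self]
      rw [dist_comm] at hxy
      exact max_lt hε hxy
    have long : ∀ (k : ℕ) (x y : X), x ∈ K → y ∈ K → ∀ t : ℝ, 1 ≤ t → t ≤ k + 2 →
        dist (φ t x) y < ε → Relation.TransGen
          (fun x y => x ∈ K ∧ y ∈ K ∧ ∃ t ∈ Icc (1 : ℝ) 2, (φ t x, y) ∈ W) x y := by
      intro k
      induction k with
      | zero =>
        intro x y hx hy t h1 h2 h3
        exact Relation.TransGen.single ⟨hx, hy, t, ⟨h1, by simpa using h2⟩, hεW _ _ h3⟩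
      | succ k ih =>
        intro x y hx hy t h1 h2 h3
        by_cases h4 : t ≤ 2
        · exact Relation.TransGen.single ⟨hx, hy, t, ⟨h1, h4⟩, hεW _ _ h3⟩
        · push Not at h4
          refine Relation.TransGen.head ⟨hx, hK x hx 1, 1, ⟨le_rfl, by norm_num⟩, hd _⟩
            (ih (φ 1 x) y (hK x hx 1) hy (t - 1) (by linarith) (by push_cast at h2; linarith) ?_)
          rw [← hφ.add, sub_add_cancel]
          exact h3
    have h1 := h ε hε
    clear h
    induction h1 with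
    | single h2 =>
      obtain ⟨hx, hy, t, ht, h3⟩ := h2
      obtain ⟨k, hk⟩ := exists_nat_ge t
      exact long k _ _ hx hy t ht (by linarith) h3
    | tail _ h2 ih =>
      obtain ⟨hx, hy, t, ht, h3⟩ := h2
      obtain ⟨k, hk⟩ := exists_nat_ge t
      exact ih.trans (long k _ _ hx hy t ht (by linarith) h3)

theorem R_mono {ε δ : ℝ} (h : δ ≤ ε) {x y : X} (hxy : R φ K δ x y) : R φ K ε x y := by
  obtain ⟨hx, hy, t, ht, h2⟩ := hxy
  exact ⟨hx, hy, t, ht, h2.trans_le h⟩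

/-- uniform continuity for bounded times -/
theorem unif (hφ : IsFlow φ) (B : ℝ) {ε : ℝ} (hε : 0 < ε) : ∃ δ > 0, ∀ t ∈ Icc (-B) B, ∀ x y : X,
    dist x y < δ → dist (φ t x) (φ t y) < ε := by
  have hc : IsCompact (Icc (-B) B ×ˢ (univ : Set X)) := isCompact_Icc.prod isCompact_univ
  have hu := hc.uniformContinuousOn_of_continuous (f := fun q : ℝ × X => φ q.1 q.2)
    hφ.cont.continuousOn
  rw [Metric.uniformContinuousOn_iff] at hu
  obtain ⟨δ, hδ, h⟩ := hu ε hε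
  refine ⟨δ, hδ, fun t ht x y hxy => ?_⟩
  refine h (t, x) ⟨ht, trivial⟩ (t, y) ⟨ht, trivial⟩ ?_
  rw [Prod.dist_eq]
  simp only [dist_self]
  exact max_lt hδ hxy

theorem exists_omegaLim (p : X) (S : Set X) (hS : IsClosed S)
    (hp : ∀ N : ℕ, ∃ t : ℝ, (N : ℝ) ≤ t ∧ φ t p ∈ S) : ∃ y ∈ S, y ∈ omegaLim φ p := by
  choose τ hτ hτS using hp
  obtain ⟨y, hy, ψ, hψ, hlim⟩ := hS.isCompact.tendsto_subseq (x := fun n => φ (τ n) p) hτS
  refine ⟨y, hy, fun U hU T => ?_⟩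
  obtain ⟨M, hM⟩ := exists_nat_ge T
  obtain ⟨n, hn, hN⟩ := ((hlim.eventually hU).and (eventually_ge_atTop M)).exists
  refine ⟨τ (ψ n), ?_, hn⟩
  have h1 : (M : ℝ) ≤ ψ n := by exact_mod_cast hN.trans (hψ.id_le n)
  linarith [hτ (ψ n)]

theorem omega_near (p : X) {δ : ℝ} (hδ : 0 < δ) : ∃ T : ℝ, ∀ t, T ≤ t →
    ∃ x ∈ omegaLim φ p, dist (φ t p) x < δ := by
  by_contra hcon
  push Not at hcon
  obtain ⟨y, hyK, hyω⟩ := exists_omegaLim (φ := φ) p
    (⋃ x ∈ omegaLim φ p, Metric.ball x δ)ᶜ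
    (isOpen_biUnion fun _ _ => Metric.isOpen_ball).isClosed_compl
    (fun N => by
      obtain ⟨t, ht, h⟩ := hcon N
      refine ⟨t, ht, ?_⟩
      rw [mem_compl_iff, mem_iUnion₂]
      rintro ⟨x, hx, hx'⟩
      exact absurd (Metric.mem_ball.1 hx') (not_lt.2 (h x hx)))
  exact hyK (mem_iUnion₂.2 ⟨y, hyω, Metric.mem_ball_self hδ⟩)

/-- an `ω`-limit set is internally chain transitive -/
theorem omega_chain (hφ : IsFlow φ) (hKi : ∀ x ∈ K, ∀ t, φ t x ∈ K) (p : X)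
    (hK : omegaLim φ p ⊆ K) (ha : a ∈ omegaLim φ p)
    (hb : b ∈ omegaLim φ p) : ChainTo φ K a b := by
  rw [chainTo_iff hφ hKi]
  intro ε hε
  obtain ⟨δ', hδ', hu⟩ := unif hφ 2 (show 0 < ε / 2 by positivity)
  set δ := min δ' (ε / 2) with hδ
  have hδ0 : 0 < δ := lt_min hδ' (by positivity)
  obtain ⟨T, hT⟩ := omega_near (φ := φ) p hδ0
  obtain ⟨t1, ht1, h1⟩ := ha (Metric.ball a δ) (Metric.ball_mem_nhds _ hδ0) T
  obtain ⟨t2, ht2, h2⟩ := hb (Metric.ball b δ) (Metric.ball_mem_nhds _ hδ0) (t1 + 1)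
  obtain ⟨k, hk, hk1, τ, hτ, hsum⟩ : ∃ k : ℕ, 1 ≤ k ∧ (1 : ℝ) ≤ k ∧ ∃ τ ∈ Icc (1 : ℝ) 2,
      t2 = t1 + k * τ := by
    have hs : 1 ≤ t2 - t1 := by linarith
    have hf : 1 ≤ ⌊t2 - t1⌋₊ := Nat.one_le_floor_iff _ |>.2 hs
    have hf' : (1 : ℝ) ≤ ⌊t2 - t1⌋₊ := by exact_mod_cast hf
    have hle := Nat.floor_le (show 0 ≤ t2 - t1 by linarith)
    have hlt := Nat.lt_floor_add_one (t2 - t1)
    refine ⟨⌊t2 - t1⌋₊, hf, hf', (t2 - t1) / ⌊t2 - t1⌋₊, ⟨?_, ?_⟩, ?_⟩
    · rw [le_div_iff₀ (by linarith)]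
      linarith
    · rw [div_le_iff₀ (by linarith)]
      linarith
    · field_simp
      ring
  have key : ∀ (u v : X) (s : ℝ), u ∈ omegaLim φ p → v ∈ omegaLim φ p → dist (φ s p) u < δ →
      dist (φ (τ + s) p) v < δ → R φ K ε u v := by
    intro u v s hu' hv' h3 h4
    refine ⟨hK hu', hK hv', τ, hτ.1, ?_⟩
    have h5 : dist (φ τ u) (φ (τ + s) p) < ε / 2 := by
      rw [hφ.add]
      apply hu τ ⟨by linarith [hτ.1], hτ.2⟩
      rw [dist_comm]
      exact h3.trans_le (min_le_left _ _)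
    calc dist (φ τ u) v ≤ dist (φ τ u) (φ (τ + s) p) + dist (φ (τ + s) p) v := dist_triangle _ _ _
      _ < ε / 2 + ε / 2 := add_lt_add_of_lt_of_lt h5 (h4.trans_le (min_le_right _ _))
      _ = ε := by ring
  have main : ∀ k : ℕ, ∀ y ∈ omegaLim φ p, dist (φ (t1 + (k + 1 : ℕ) * τ) p) y < δ →
      Relation.TransGen (R φ K ε) a y := by
    intro k
    induction k with
    | zero =>
      intro y hy h3
      refine Relation.TransGen.single (key _ _ t1 ha hy h1 ?_)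
      have e : t1 + ((0 + 1 : ℕ) : ℝ) * τ = τ + t1 := by push_cast; ring
      rw [← e]
      exact h3
    | succ k ih =>
      intro y hy h3
      have h0 : 0 ≤ ((k + 1 : ℕ) : ℝ) * τ := by
        have := hτ.1
        positivity
      obtain ⟨x, hx, hx'⟩ := hT (t1 + (k + 1 : ℕ) * τ) (by linarith)
      refine (ih x hx hx').tail (key _ _ _ hx hy hx' ?_)
      have e : t1 + ((k + 1 + 1 : ℕ) : ℝ) * τ = τ + (t1 + (k + 1 : ℕ) * τ) := by push_cast; ring
      rw [← e]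
      exact h3
  obtain ⟨m, rfl⟩ : ∃ m, k = m + 1 := ⟨k - 1, by omega⟩
  refine main m b hb ?_
  rw [← hsum]
  exact h2

/-- a chain recurrent point can be reached from its images for small times -/
theorem back (hφ : IsFlow φ) (hK : ∀ x ∈ K, ∀ t, φ t x ∈ K) (h : ChainTo φ K b b) {s : ℝ}
    (hs : s ∈ Icc (-1 : ℝ) 1) : ChainTo φ K (φ s b) b := by
  have hb := h.mem_left
  rw [chainTo_iff hφ hK] at h ⊢
  intro ε hε
  obtain ⟨δ', hδ', hu⟩ := unif hφ 2 (show 0 < ε / 2 by positivity)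
  set δ := min δ' (ε / 2) with hδ
  have hδ0 : 0 < δ := lt_min hδ' (by positivity)
  have hWW : ∀ x y, R φ K δ x y → x ∈ K ∧ y ∈ K ∧
      Relation.TransGen (fun x y => x ∈ K ∧ y ∈ K ∧ ∃ t ∈ Icc (1 : ℝ) 2, dist (φ t x) y < δ) x y := by
    rintro x y ⟨hx, hy, t, ht, h1⟩
    refine ⟨hx, hy, ?_⟩
    obtain ⟨k, hk⟩ := exists_nat_ge t
    have long : ∀ (k : ℕ) (x : X), x ∈ K → ∀ t : ℝ, 1 ≤ t → t ≤ k + 2 →
        dist (φ t x) y < δ → Relation.TransGen
          (fun x y => x ∈ K ∧ y ∈ K ∧ ∃ t ∈ Icc (1 : ℝ) 2, dist (φ t x) y < δ) x y := by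
      intro k
      induction k with
      | zero =>
        intro x hx t h1 h2 h3
        exact Relation.TransGen.single ⟨hx, hy, t, ⟨h1, by simpa using h2⟩, h3⟩
      | succ k ih =>
        intro x hx t h1 h2 h3
        by_cases h4 : t ≤ 2
        · exact Relation.TransGen.single ⟨hx, hy, t, ⟨h1, h4⟩, h3⟩
        · push Not at h4
          refine Relation.TransGen.head ⟨hx, hK x hx 1, 1, ⟨le_rfl, by norm_num⟩, by simpa using hδ0⟩
            (ih (φ 1 x) (hK x hx 1) (t - 1) (by linarith) (by push_cast at h2; linarith) ?_)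
          rw [← hφ.add, sub_add_cancel]
          exact h3
    exact long k x hx t ht (by linarith) h1
  obtain ⟨x1, hx1, hr⟩ := Relation.TransGen.head'_iff.1 (h δ hδ0)
  have hr2 : Relation.TransGen (R φ K δ) x1 b := Relation.TransGen.trans_right hr (h δ hδ0)
  obtain ⟨x2', hx2', hr3'⟩ := Relation.TransGen.head'_iff.1 hr2
  -- refine the second step
  obtain ⟨x2, hx2, hr4⟩ := Relation.TransGen.head'_iff.1 (hWW _ _ hx2').2.2
  have hx2K : x2 ∈ K := hx2.2.1
  have hr3 : Relation.ReflTransGen (R φ K δ) x2 b := by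
    refine Relation.ReflTransGen.trans (Relation.ReflTransGen.mono (fun x y hxy => ?_) _ _ hr4) hr3'
    obtain ⟨hx, hy, t, ht, h2⟩ := hxy
    exact ⟨hx, hy, t, ht.1, h2⟩
  obtain ⟨-, -, t1, ht1, h1⟩ := hx1
  obtain ⟨-, -, t2, ht2, h2⟩ := hx2
  have h3 : R φ K ε (φ s b) x2 := by
    refine ⟨hK b hb s, hx2K, t2 + t1 + -s, by linarith [ht2.1, hs.2], ?_⟩
    have e : φ (t2 + t1 + -s) (φ s b) = φ t2 (φ t1 b) := by
      rw [hφ.add (t2 + t1), hφ.neg, hφ.add]
    rw [e]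
    have h4 : dist (φ t2 (φ t1 b)) (φ t2 x1) < ε / 2 :=
      hu t2 ⟨by linarith [ht2.1], ht2.2⟩ _ _ (h1.trans_le (min_le_left _ _))
    calc dist (φ t2 (φ t1 b)) x2 ≤ dist (φ t2 (φ t1 b)) (φ t2 x1) + dist (φ t2 x1) x2 :=
          dist_triangle _ _ _
      _ < ε / 2 + ε / 2 := add_lt_add_of_lt_of_lt h4 (h2.trans_le (min_le_right _ _))
      _ = ε := by ring
  exact Relation.TransGen.head' h3 (Relation.ReflTransGen.mono (fun x y hxy => R_mono
    ((min_le_right _ _).trans (by linarith)) hxy) _ _ hr3)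

/-- the images for small times of a chain recurrent point can be reached from it -/
theorem forth (hφ : IsFlow φ) (hK : ∀ x ∈ K, ∀ t, φ t x ∈ K) (h : ChainTo φ K b b) {s : ℝ}
    (hs : s ∈ Icc (-1 : ℝ) 1) : ChainTo φ K b (φ s b) := by
  have hb := h.mem_left
  have h0 := h
  rw [chainTo_iff hφ hK] at h0 ⊢
  intro ε hε
  obtain ⟨δ', hδ', hu⟩ := unif hφ 3 (show 0 < ε / 2 by positivity)
  set δ := min δ' (ε / 2) with hδ
  have hδ0 : 0 < δ := lt_min hδ' (by positivity)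
  have hc := h {q : X × X | dist q.1 q.2 < δ} (isOpen_lt continuous_dist continuous_const)
    (fun x => by simpa using hδ0)
  obtain ⟨x1, hr, hx1⟩ := Relation.TransGen.tail'_iff.1 hc
  have hr2 := Relation.TransGen.trans_left hc hr
  obtain ⟨x2, hr3, hx2⟩ := Relation.TransGen.tail'_iff.1 hr2
  obtain ⟨-, -, t1, ht1, h1⟩ := hx1
  obtain ⟨hx2K, -, t2, ht2, h2⟩ := hx2
  have h3 : R φ K ε x2 (φ s b) := by
    refine ⟨hx2K, hK b hb s, s + t1 + t2, by linarith [ht2.1, ht1.1, hs.1], ?_⟩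
    rw [hφ.add]
    have h4 : dist (φ (s + t1) (φ t2 x2)) (φ (s + t1) x1) < ε / 2 :=
      hu (s + t1) ⟨by linarith [ht1.1, hs.1], by linarith [ht1.2, hs.2]⟩ _ _
        (h2.trans_le (min_le_left _ _))
    have h5 : dist (φ (s + t1) x1) (φ s b) < ε / 2 := by
      rw [hφ.add]
      exact hu s ⟨by linarith [hs.1], by linarith [hs.2]⟩ _ _ (h1.trans_le (min_le_left _ _))
    calc dist (φ (s + t1) (φ t2 x2)) (φ s b) ≤
          dist (φ (s + t1) (φ t2 x2)) (φ (s + t1) x1) + dist (φ (s + t1) x1) (φ s b) :=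
          dist_triangle _ _ _
      _ < ε / 2 + ε / 2 := add_lt_add_of_lt_of_lt h4 h5
      _ = ε := by ring
  refine Relation.TransGen.tail' (Relation.ReflTransGen.mono (fun x y hxy => ?_) _ _ hr3) h3
  obtain ⟨hx, hy, t, ht, h4⟩ := hxy
  exact ⟨hx, hy, t, ht.1, lt_of_lt_of_le h4 ((min_le_right _ _).trans (by linarith))⟩

/-- chain classes are invariant -/
theorem cls_mem (hφ : IsFlow φ) (hK : ∀ x ∈ K, ∀ t, φ t x ∈ K) {x : X} (hx : x ∈ cls φ K a)
    (s : ℝ) : φ s x ∈ cls φ K a := by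
  have small : ∀ x ∈ cls φ K a, ∀ s ∈ Icc (-1 : ℝ) 1, φ s x ∈ cls φ K a := by
    intro x hx s hs
    have hxx : ChainTo φ K x x := hx.2.trans hx.1
    exact ⟨hx.1.trans (forth hφ hK hxx hs), (back hφ hK hxx hs).trans hx.2⟩
  obtain ⟨k, hk⟩ := exists_nat_gt |s|
  have hk0 : (0 : ℝ) < k := (abs_nonneg s).trans_lt hk
  have hsk : s / k ∈ Icc (-1 : ℝ) 1 := by
    rw [mem_Icc, ← abs_le, abs_div, abs_of_pos hk0, div_le_one hk0]
    exact hk.le
  have main : ∀ j : ℕ, φ (j * (s / k)) x ∈ cls φ K a := by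
    intro j
    induction j with
    | zero => simpa [hφ.zero] using hx
    | succ j ih =>
      have e : ((j + 1 : ℕ) : ℝ) * (s / k) = s / k + j * (s / k) := by push_cast; ring
      rw [e, hφ.add]
      exact small _ ih _ hsk
  have := main k
  rwa [mul_div_cancel₀ _ hk0.ne'] at this

theorem cls_inv (hφ : IsFlow φ) (hK : ∀ x ∈ K, ∀ t, φ t x ∈ K) (a : X) (t : ℝ) :
    φ t '' cls φ K a = cls φ K a := by
  apply subset_antisymm
  · rintro _ ⟨x, hx, rfl⟩
    exact cls_mem hφ hK hx t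
  · intro x hx
    exact ⟨φ (-t) x, cls_mem hφ hK hx (-t), hφ.neg' t x⟩

/-- finitely many candidates suffice -/
theorem finite_of_cover [MeasurableSpace X] (μ : Measure X) {m : ℕ}
    (M : Fin m → Set X) (hinv : ∀ i t, φ t '' M i = M i) (htr : ∀ i, Transitive φ (M i))
    (hcov : ∀ p, ∃ i, omegaLim φ p ⊆ M i) : FiniteAttractors μ φ := by
  classical
  let I := {i : Fin m // 0 < μ {p | omegaLim φ p ⊆ M i}}
  let e := Fintype.equivFin I
  refine ⟨Fintype.card I, fun a => M (e.symm a).1, fun a => ⟨hinv _, htr _, (e.symm a).2⟩, ?_⟩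
  have hsub : {p | ∀ a : Fin (Fintype.card I), ¬ omegaLim φ p ⊆ M (e.symm a).1} ⊆
      ⋃ i ∈ {i : Fin m | μ {p | omegaLim φ p ⊆ M i} = 0}, {p | omegaLim φ p ⊆ M i} := by
    intro p hp
    obtain ⟨i, hi⟩ := hcov p
    refine mem_iUnion₂.2 ⟨i, ?_, hi⟩
    by_contra hne
    have h1 : 0 < μ {p | omegaLim φ p ⊆ M i} := pos_iff_ne_zero.2 hne
    refine hp (e ⟨i, h1⟩) ?_
    rw [e.symm_apply_apply]
    exact hi
  refine measure_mono_null hsub ?_
  rw [measure_biUnion_null_iff (Set.to_countable _)]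
  exact fun i hi => hi

/-- finitely many transitive chain classes -/
theorem finite_of_classes (hφ : IsFlow φ) (hK : ∀ x ∈ K, ∀ t, φ t x ∈ K)
    (hω : ∀ p, omegaLim φ p ⊆ K)
    (hfin : {C | ∃ a, ChainTo φ K a a ∧ C = cls φ K a}.Finite)
    (htr : ∀ a, ChainTo φ K a a → Transitive φ (cls φ K a)) :
    (∀ p, ∃ a, ChainTo φ K a a ∧ omegaLim φ p ⊆ cls φ K a) ∧
      ∀ (_ : MeasurableSpace X) (μ : Measure X), FiniteAttractors μ φ := by
  have h1 : ∀ p, ∃ a, ChainTo φ K a a ∧ omegaLim φ p ⊆ cls φ K a := by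
    intro p
    obtain ⟨y, -, hy⟩ := exists_omegaLim (φ := φ) p univ isClosed_univ
      (fun N => ⟨N, le_rfl, trivial⟩)
    exact ⟨y, omega_chain hφ hK p (hω p) hy hy, fun b hb =>
      ⟨omega_chain hφ hK p (hω p) hy hb, omega_chain hφ hK p (hω p) hb hy⟩⟩
  refine ⟨h1, fun _ μ => ?_⟩
  have := hfin.fintype
  let e := Fintype.equivFin {C | ∃ a, ChainTo φ K a a ∧ C = cls φ K a}
  refine finite_of_cover μ (fun i => (e.symm i).1) (fun i t => ?_) (fun i => ?_)
    (fun p => ?_)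
  · obtain ⟨a, -, h2⟩ := (e.symm i).2
    rw [h2]
    exact cls_inv hφ hK a t
  · obtain ⟨a, ha, h2⟩ := (e.symm i).2
    rw [h2]
    exact htr a ha
  · obtain ⟨a, ha, h2⟩ := h1 p
    refine ⟨e ⟨cls φ K a, a, ha, rfl⟩, ?_⟩
    rw [e.symm_apply_apply]
    exact h2

end metric

end Pool.Agent.Q182.MF
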