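import Mathlib
import Pool.Agent.H826R2.Wein.Flw
import Pool.Agent.Q182.MF2
import Pool.Agent.H718R2.G0
import Pool.Agent.Y318.MN.Attr

/-! Vector fields which do not decrease a function: adding a gradient. -/

open scoped Topology ContDiff Manifold
open Set Metric Filter MeasureTheory

noncomputable section

namespace Pool.Agent.Q182.MF

open Pool.Agent.Helper186 Pool.Agent.H826R2.Wein Pool.Agent.H718R2.G

set_option linter.unusedSectionVars false

universe u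

variable {n : ℕ} {N : Type u} [TopologicalSpace N] [T2Space N] [CompactSpace N]
  [ChartedSpace (V n) N] [IsManifold (𝓡 n) ∞ N]

theorem exists_imm (n : ℕ) (N : Type u) [TopologicalSpace N] [T2Space N] [CompactSpace N]
    [ChartedSpace (V n) N] [IsManifold (𝓡 n) ∞ N] : ∃ m : ℕ, Nonempty (Imm (E := V n) N m) := by
  obtain ⟨m, e, h1, -, h2⟩ := exists_embedding_euclidean_of_compact (I := 𝓡 n) (M := N)
  exact ⟨m, ⟨⟨e, h1, h2⟩⟩⟩

/-- derivative of `h` along `X` -/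
theorem along {X : (x : N) → TangentSpace (𝓡 n) x} {c : ℝ → N} (hc : IsMIntegralCurve c X)
    {h : N → ℝ} (hh : ContMDiff (𝓡 n) 𝓘(ℝ, ℝ) ∞ h) (t : ℝ) :
    HasDerivAt (fun s => h (c s)) (dForm (𝓡 n) h (c t) (X (c t))) t :=
  hasDerivAt_along (hc t) hh

/-- the perturbed field -/
def pert {m : ℕ} (ι : Imm (E := V n) N m) (X : (x : N) → TangentSpace (𝓡 n) x) (h : N → ℝ) (ε : ℝ)
    (x : N) : TangentSpace (𝓡 n) x := X x + ε • ι.grad h x

theorem pert_smooth {m : ℕ} (ι : Imm (E := V n) N m) {r : ℕ∞}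
    {X : (x : N) → TangentSpace (𝓡 n) x}
    (hX : ContMDiff (𝓡 n) (𝓡 n).tangent r (fun x => (⟨x, X x⟩ : TangentBundle (𝓡 n) N)))
    {h : N → ℝ} (hh : ContMDiff (𝓡 n) 𝓘(ℝ, ℝ) ∞ h) (ε : ℝ) :
    ContMDiff (𝓡 n) (𝓡 n).tangent r (fun x => (⟨x, pert ι X h ε x⟩ : TangentBundle (𝓡 n) N)) := by
  have h1 : ContMDiff (𝓡 n) (𝓡 n).tangent r (fun x => (⟨x, ι.grad h x⟩ : TangentBundle (𝓡 n) N)) :=
    (ι.smooth_grad hh).of_le (by exact_mod_cast le_top)
  exact hX.add_section (h1.const_smul_section (a := ε))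

theorem dForm_pert {m : ℕ} (ι : Imm (E := V n) N m) (X : (x : N) → TangentSpace (𝓡 n) x)
    (h : N → ℝ) (ε : ℝ) (x : N) :
    dForm (𝓡 n) h x (pert ι X h ε x) = dForm (𝓡 n) h x (X x) + ε * ι.G h x := by
  unfold pert
  rw [map_add, map_smul]
  rfl

theorem pert_crit {m : ℕ} (ι : Imm (E := V n) N m) (X : (x : N) → TangentSpace (𝓡 n) x)
    {h : N → ℝ} (ε : ℝ) {x : N} (hx : dForm (𝓡 n) h x = 0) : pert ι X h ε x = X x := by
  have h1 : ι.grad h x = 0 := by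
    apply ι.nondeg
    intro v
    rw [ι.grad_spec, hx]
    rfl
  unfold pert
  rw [h1, smul_zero, add_zero]

/-- the largest invariant set of critical points -/
def critInv (n : ℕ) {N : Type u} [TopologicalSpace N] [ChartedSpace (V n) N] (ψ : ℝ → N → N)
    (h : N → ℝ) : Set N :=
  {x | ∀ t, dForm (𝓡 n) h (ψ t x) = 0}

section

variable {X : (x : N) → TangentSpace (𝓡 n) x} {ψ : ℝ → N → N} {h : N → ℝ}

theorem mono_curve (hψ : IsFlow ψ) (hm : ∀ x t, 0 ≤ t → h x ≤ h (ψ t x)) (x : N) :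
    Monotone fun t => h (ψ t x) := by
  intro s t hst
  have h1 := hm (ψ s x) (t - s) (by linarith)
  rw [← hψ.add, sub_add_cancel] at h1
  exact h1

theorem dForm_nonneg (hψ : IsFlow ψ) (hX : ∀ x, IsMIntegralCurve (fun t => ψ t x) X)
    (hh : ContMDiff (𝓡 n) 𝓘(ℝ, ℝ) ∞ h) (hm : ∀ x t, 0 ≤ t → h x ≤ h (ψ t x)) (x : N) :
    0 ≤ dForm (𝓡 n) h x (X x) := by
  have h1 := along (hX x) hh 0
  have h2 := (mono_curve hψ hm x).deriv_nonneg (x := (0 : ℝ))
  rw [h1.deriv] at h2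
  have e : ψ 0 x = x := hψ.zero x
  have key : ∀ y : N, y = x → dForm (𝓡 n) h y (X y) = dForm (𝓡 n) h x (X x) := by
    rintro _ rfl; rfl
  rw [key _ e] at h2
  exact h2

/-- **The perturbed flow.** -/
theorem pert_flow {m : ℕ} (ι : Imm (E := V n) N m) (hψ : IsFlow ψ)
    (hX1 : ContMDiff (𝓡 n) (𝓡 n).tangent 1 (fun x => (⟨x, X x⟩ : TangentBundle (𝓡 n) N)))
    (hX : ∀ x, IsMIntegralCurve (fun t => ψ t x) X)
    (hh : ContMDiff (𝓡 n) 𝓘(ℝ, ℝ) ∞ h) (hm : ∀ x t, 0 ≤ t → h x ≤ h (ψ t x)) {ε : ℝ} (hε : 0 < ε)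
    {φ : ℝ → N → N} (hφ : IsFlow φ) (hY : ∀ x, IsMIntegralCurve (fun t => φ t x) (pert ι X h ε)) :
    (∀ x t, 0 ≤ t → h x ≤ h (φ t x)) ∧
    (∀ x, (∀ t, h (φ t x) = h x) → x ∈ critInv n ψ h) ∧
    (∀ x ∈ critInv n ψ h, ∀ t, φ t x = ψ t x) := by
  have : IsManifold (𝓡 n) 1 N := IsManifold.of_le (n := ∞) (by simp)
  have hnn := dForm_nonneg hψ hX hh hm
  have hder : ∀ x t, HasDerivAt (fun s => h (φ s x))
      (dForm (𝓡 n) h (φ t x) (X (φ t x)) + ε * ι.G h (φ t x)) t := by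
    intro x t
    have := along (hY x) hh t
    rw [dForm_pert] at this
    exact this
  have hmono : ∀ x, Monotone fun t => h (φ t x) := fun x =>
    monotone_of_hasDerivAt_nonneg (hder x) (fun t =>
      add_nonneg (hnn _) (mul_nonneg hε.le (ι.G_nonneg _ _)))
  have hYs : ContMDiff (𝓡 n) (𝓡 n).tangent 1
      (fun x => (⟨x, pert ι X h ε x⟩ : TangentBundle (𝓡 n) N)) :=
    pert_smooth ι (r := 1) hX1 hh ε
  refine ⟨fun x t ht => ?_, fun x hx => ?_, fun x hx => ?_⟩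
  · have := hmono x ht
    simpa [hφ.zero] using this
  · -- all points of the orbit are critical
    have hcrit : ∀ t, dForm (𝓡 n) h (φ t x) = 0 := by
      intro t
      have h1 : (fun s => h (φ s x)) = fun _ => h x := funext hx
      have h2 := hder x t
      rw [h1] at h2
      have h3 := h2.unique (hasDerivAt_const t (h x))
      have h4 := hnn (φ t x)
      have h5 := ι.G_nonneg h (φ t x)
      have h6 : ε * ι.G h (φ t x) = 0 := by
        have := mul_nonneg hε.le h5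
        linarith
      exact ι.G_eq_zero ((mul_eq_zero.1 h6).resolve_left hε.ne')
    have hc : IsMIntegralCurve (fun t => φ t x) X := by
      intro t
      have h1 := hY x t
      rw [pert_crit ι X ε (hcrit t)] at h1
      exact h1
    have h2 : (fun t => φ t x) = fun t => ψ t x :=
      curve_unique hX1 hc (hX x) (by simp [hφ.zero, hψ.zero])
    intro t
    rw [← congrFun h2 t]
    exact hcrit t
  · have hc : IsMIntegralCurve (fun t => ψ t x) (pert ι X h ε) := by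
      intro t
      have h1 := hX x t
      have h2 := pert_crit ι X ε (hx t)
      rw [← h2] at h1
      exact h1
    have h2 : (fun t => φ t x) = fun t => ψ t x :=
      curve_unique hYs (hY x) hc (by simp [hφ.zero, hψ.zero])
    exact fun t => congrFun h2 t

theorem omega_const {φ : ℝ → N → N} (hφ : IsFlow φ) (hc : Continuous h)
    (hm : ∀ x t, 0 ≤ t → h x ≤ h (φ t x)) (p : N) :
    ∃ c : ℝ, ∀ y ∈ omegaLim φ p, h y = c := by
  have hmono := mono_curve hφ hm p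
  obtain ⟨B, hB⟩ : ∃ B, ∀ x, h x ≤ B := by
    obtain ⟨B, hB⟩ := (isCompact_range hc).bddAbove
    exact ⟨B, fun x => hB ⟨x, rfl⟩⟩
  have hlim := tendsto_atTop_ciSup hmono ⟨B, by rintro _ ⟨n, rfl⟩; exact hB _⟩
  refine ⟨⨆ t : ℝ, h (φ t p), fun y hy => ?_⟩
  set c := ⨆ t : ℝ, h (φ t p) with hc'
  by_contra hne
  have hpos : 0 < |h y - c| := abs_pos.2 (sub_ne_zero.2 hne)
  have hU : {x | |h x - h y| < |h y - c| / 2} ∈ 𝓝 y := by
    have : Tendsto (fun x => |h x - h y|) (𝓝 y) (𝓝 |h y - h y|) :=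
      ((hc.continuousAt (x := y)).tendsto.sub_const (h y)).abs
    rw [sub_self, abs_zero] at this
    exact this.eventually (gt_mem_nhds (by positivity))
  obtain ⟨T, hT⟩ := Metric.tendsto_atTop.1 hlim (|h y - c| / 2) (by positivity)
  obtain ⟨t, ht, h1⟩ := hy _ hU T
  have h2 := hT t ht
  rw [Real.dist_eq] at h2
  have h3 : |h y - c| ≤ |h (φ t p) - h y| + |h (φ t p) - c| := by
    have := abs_sub_le (h y) (h (φ t p)) c
    rwa [abs_sub_comm (h y) (h (φ t p))] at this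
  have h4 : |h (φ t p) - h y| < |h y - c| / 2 := h1
  linarith

theorem critInv_inv (hψ : IsFlow ψ) {x : N} (hx : x ∈ critInv n ψ h) (t : ℝ) :
    ψ t x ∈ critInv n ψ h := by
  intro s
  rw [← hψ.add]
  exact hx _

theorem metric_part [TopologicalSpace.MetrizableSpace N] {K : Set N} {φ : ℝ → N → N}
    (hφ : IsFlow φ) (hK : ∀ x ∈ K, ∀ t, φ t x ∈ K)
    (hω : ∀ p, omegaLim φ p ⊆ K)
    (hfin : {C | ∃ a, ChainTo φ K a a ∧ C = cls φ K a}.Finite)
    (htr : ∀ a, ChainTo φ K a a → Transitive φ (cls φ K a)) :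
    (∀ p, ∃ a, ChainTo φ K a a ∧ omegaLim φ p ⊆ cls φ K a) ∧
      ∀ (_ : MeasurableSpace N) (μ : Measure N), FiniteAttractors μ φ := by
  let _ : MetricSpace N := TopologicalSpace.metrizableSpaceMetric N
  exact finite_of_classes hφ hK hω hfin htr

/-- **Main theorem.** -/
theorem main {r : ℕ∞} (hr : 1 ≤ r)
    (hX : ContMDiff (𝓡 n) (𝓡 n).tangent r (fun x => (⟨x, X x⟩ : TangentBundle (𝓡 n) N)))
    (h0 : ∀ x, ψ 0 x = x) (hψ : ∀ x, IsMIntegralCurve (fun t => ψ t x) X)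
    (hh : ContMDiff (𝓡 n) 𝓘(ℝ, ℝ) ∞ h) (hm : ∀ x t, 0 ≤ t → h x ≤ h (ψ t x))
    (hfin : {C | ∃ a, ChainTo ψ (critInv n ψ h) a a ∧ C = cls ψ (critInv n ψ h) a}.Finite)
    (htr : ∀ a, ChainTo ψ (critInv n ψ h) a a → Transitive ψ (cls ψ (critInv n ψ h) a)) :
    ∃ Z : (x : N) → TangentSpace (𝓡 n) x,
      ContMDiff (𝓡 n) (𝓡 n).tangent ∞ (fun x => (⟨x, Z x⟩ : TangentBundle (𝓡 n) N)) ∧
      ∀ ε : ℝ, 0 < ε → ∃ φ : ℝ → N → N, IsFlow φ ∧
        (∀ x, IsMIntegralCurve (I := 𝓡 n) (fun t => φ t x) (fun y => X y + ε • Z y)) ∧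
        (∀ x t, 0 ≤ t → h x ≤ h (φ t x)) ∧
        (∀ x ∈ critInv n ψ h, ∀ t, φ t x = ψ t x) ∧
        (∀ p, ∃ a, ChainTo ψ (critInv n ψ h) a a ∧ omegaLim φ p ⊆ cls ψ (critInv n ψ h) a) ∧
        ∀ (_ : MeasurableSpace N) (μ : Measure N), FiniteAttractors μ φ := by
  have hX1 : ContMDiff (𝓡 n) (𝓡 n).tangent 1 (fun x => (⟨x, X x⟩ : TangentBundle (𝓡 n) N)) :=
    hX.of_le (by exact_mod_cast hr)
  have hψf : IsFlow ψ := isFlow_of hX1 h0 hψ
  obtain ⟨m, ⟨ι⟩⟩ := exists_imm n N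
  have hmet := Pool.Agent.Y504.CO.exists_metric n N
  refine ⟨ι.grad h, ι.smooth_grad hh, fun ε hε => ?_⟩
  have hYs : ContMDiff (𝓡 n) (𝓡 n).tangent 1
      (fun x => (⟨x, pert ι X h ε x⟩ : TangentBundle (𝓡 n) N)) :=
    pert_smooth ι (r := 1) hX1 hh ε
  obtain ⟨φ, hφ, hY⟩ := exists_flow (I := 𝓡 n) (M := N) hYs
  obtain ⟨h1, h2, h3⟩ := pert_flow ι hψf hX1 hψ hh hm hε hφ hY
  set K := critInv n ψ h with hK
  have hKφ : ∀ x ∈ K, ∀ t, φ t x ∈ K := fun x hx t => by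
    rw [h3 x hx t]
    exact critInv_inv hψf hx t
  have hKψ : ∀ x ∈ K, ∀ t, ψ t x = φ t x := fun x hx t => (h3 x hx t).symm
  have hω : ∀ p, omegaLim φ p ⊆ K := by
    intro p y hy
    obtain ⟨c, hc⟩ := omega_const hφ hh.continuous h1 p
    exact h2 y fun t => by rw [hc _ (hφ.omega_inv hy t), hc y hy]
  have hcls : ∀ a, cls ψ K a = cls φ K a := fun a => cls_congr hKψ
  obtain ⟨h4, h5⟩ := metric_part hφ hKφ hω (by
      refine hfin.subset ?_
      rintro C ⟨a, ha, rfl⟩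
      exact ⟨a, ChainTo.congr h3 ha, (hcls a).symm⟩) (by
      intro a ha
      obtain ⟨x, hx, hd⟩ := htr a (ChainTo.congr h3 ha)
      rw [hcls a] at hx hd
      refine ⟨x, hx, hd.trans (closure_mono ?_)⟩
      rintro y ⟨t, ht, rfl⟩
      exact ⟨t, ht, hKψ x hx.1.mem_right t⟩)
  refine ⟨φ, hφ, hY, h1, h3, fun p => ?_, h5⟩
  obtain ⟨a, ha, h6⟩ := h4 p
  exact ⟨a, ChainTo.congr h3 ha, h6.trans (hcls a).symm.subset⟩

end

end Pool.Agent.Q182.MF
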