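import Pool.Agent.Q182.MF3

/-! The case of finitely many critical points. -/

open scoped Topology ContDiff Manifold
open Set Metric Filter MeasureTheory

noncomputable section

namespace Pool.Agent.Q182.MF

open Pool.Agent.Helper186 Pool.Agent.H826R2.Wein Pool.Agent.H718R2.G

set_option linter.unusedSectionVars false

universe u

/-- a path in a finite set is constant -/
theorem const_of_finite {N : Type u} [TopologicalSpace N] [T2Space N] {S : Set N} (hS : S.Finite)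
    {c : ℝ → N} (hc : Continuous c) (h : ∀ t, c t ∈ S) (s t : ℝ) : c s = c t := by
  by_contra hne
  have h1 : IsPreconnected (range c) := isPreconnected_range hc
  exact (h1.infinite_of_nontrivial ⟨_, ⟨s, rfl⟩, _, ⟨t, rfl⟩, hne⟩)
    (hS.subset (by rintro _ ⟨t, rfl⟩; exact h t))

theorem IsFlow.cont_orbit {X : Type u} [TopologicalSpace X] {φ : ℝ → X → X} (hφ : IsFlow φ) (x : X) :
    Continuous fun t => φ t x :=
  hφ.cont.comp (continuous_id.prodMk continuous_const)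

/-- chains in a finite set of rest points are constant -/
theorem chain_rest {N : Type u} [TopologicalSpace N] [T2Space N] {K : Set N} (hK : K.Finite)
    {ψ : ℝ → N → N} (hr : ∀ x ∈ K, ∀ t, ψ t x = x) {a b : N} (h : ChainTo ψ K a b) : a = b := by
  have hW : IsOpen {q : N × N | q.1 ∈ K ∧ q.2 ∈ K ∧ q.1 ≠ q.2}ᶜ := by
    have hf : {q : N × N | q.1 ∈ K ∧ q.2 ∈ K ∧ q.1 ≠ q.2}.Finite :=
      (hK.prod hK).subset fun q hq => ⟨hq.1, hq.2.1⟩
    exact hf.isClosed.isOpen_compl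
  have h1 := h _ hW (fun x hx => hx.2.2 rfl)
  have step : ∀ x y, (x ∈ K ∧ y ∈ K ∧ ∃ t ∈ Icc (1 : ℝ) 2,
      (ψ t x, y) ∈ {q : N × N | q.1 ∈ K ∧ q.2 ∈ K ∧ q.1 ≠ q.2}ᶜ) → x = y := by
    rintro x y ⟨hx, hy, t, -, h2⟩
    rw [hr x hx t] at h2
    by_contra hne
    exact h2 ⟨hx, hy, hne⟩
  clear h
  induction h1 with
  | single h2 => exact step _ _ h2
  | tail _ h2 ih => exact ih.trans (step _ _ h2)

theorem tendsto_of_omega {X : Type u} [MetricSpace X] [CompactSpace X] {φ : ℝ → X → X} {p q : X}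
    (h : omegaLim φ p ⊆ {q}) : Tendsto (fun t => φ t p) atTop (𝓝 q) := by
  rw [_root_.tendsto_nhds]
  intro U hU hq
  by_contra hcon
  rw [mem_atTop_sets] at hcon
  push Not at hcon
  obtain ⟨y, hy, hyω⟩ := exists_omegaLim (φ := φ) p Uᶜ hU.isClosed_compl (fun k => by
    obtain ⟨t, ht, h1⟩ := hcon k
    exact ⟨t, ht, h1⟩)
  have : y = q := h hyω
  rw [this] at hy
  exact hy hq

section

variable {n : ℕ} {N : Type u} [TopologicalSpace N] [T2Space N] [CompactSpace N]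
  [ChartedSpace (V n) N] [IsManifold (𝓡 n) ∞ N]
  {X : (x : N) → TangentSpace (𝓡 n) x} {ψ : ℝ → N → N} {h : N → ℝ}

theorem tendsto_metrizable [TopologicalSpace.MetrizableSpace N] {φ : ℝ → N → N} {p q : N}
    (h : omegaLim φ p ⊆ {q}) : Tendsto (fun t => φ t p) atTop (𝓝 q) := by
  let _ : MetricSpace N := TopologicalSpace.metrizableSpaceMetric N
  exact tendsto_of_omega h

/-- **Finitely many critical points.** -/
theorem main_finite {r : ℕ∞} (hr : 1 ≤ r)
    (hX : ContMDiff (𝓡 n) (𝓡 n).tangent r (fun x => (⟨x, X x⟩ : TangentBundle (𝓡 n) N)))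
    (h0 : ∀ x, ψ 0 x = x) (hψ : ∀ x, IsMIntegralCurve (fun t => ψ t x) X)
    (hh : ContMDiff (𝓡 n) 𝓘(ℝ, ℝ) ∞ h) (hm : ∀ x t, 0 ≤ t → h x ≤ h (ψ t x))
    (hfin : {x | dForm (𝓡 n) h x = 0}.Finite) :
    ∃ Z : (x : N) → TangentSpace (𝓡 n) x,
      ContMDiff (𝓡 n) (𝓡 n).tangent ∞ (fun x => (⟨x, Z x⟩ : TangentBundle (𝓡 n) N)) ∧
      ∀ ε : ℝ, 0 < ε → ∃ φ : ℝ → N → N, IsFlow φ ∧
        (∀ x, IsMIntegralCurve (I := 𝓡 n) (fun t => φ t x) (fun y => X y + ε • Z y)) ∧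
        (∀ p, ∃ q, dForm (𝓡 n) h q = 0 ∧ (∀ t, ψ t q = q) ∧ (∀ t, φ t q = q) ∧
          Tendsto (fun t => φ t p) atTop (𝓝 q)) ∧
        ∀ (_ : MeasurableSpace N) (μ : Measure N), FiniteAttractors μ φ := by
  have hX1 : ContMDiff (𝓡 n) (𝓡 n).tangent 1 (fun x => (⟨x, X x⟩ : TangentBundle (𝓡 n) N)) :=
    hX.of_le (by exact_mod_cast hr)
  have hψf : IsFlow ψ := isFlow_of hX1 h0 hψ
  have hmet := Pool.Agent.Y504.CO.exists_metric n N
  have hKsub : critInv n ψ h ⊆ {x | dForm (𝓡 n) h x = 0} := by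
    intro x hx
    have := hx 0
    rwa [h0] at this
  have hKfin : (critInv n ψ h).Finite := hfin.subset hKsub
  have hrest : ∀ x ∈ critInv n ψ h, ∀ t, ψ t x = x := by
    intro x hx t
    have := const_of_finite hfin (hψf.cont_orbit x) (fun t => hx t) t 0
    rwa [h0] at this
  have hcls : ∀ a, ChainTo ψ (critInv n ψ h) a a → cls ψ (critInv n ψ h) a = {a} := by
    intro a ha
    apply subset_antisymm
    · intro b hb
      exact (chain_rest hKfin hrest hb.1).symm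
    · rintro _ rfl
      exact ⟨ha, ha⟩
  obtain ⟨Z, hZ, h1⟩ := main hr hX h0 hψ hh hm (by
      refine (hKfin.finite_subsets).subset ?_
      rintro C ⟨a, ha, rfl⟩
      intro b hb
      exact hb.1.mem_right) (by
      intro a ha
      rw [hcls a ha]
      refine ⟨a, rfl, ?_⟩
      rintro _ rfl
      exact subset_closure ⟨0, le_rfl, (h0 _).symm⟩)
  refine ⟨Z, hZ, fun ε hε => ?_⟩
  obtain ⟨φ, hφ, h2, h3, h4, h5, h6⟩ := h1 ε hε
  refine ⟨φ, hφ, h2, fun p => ?_, h6⟩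
  obtain ⟨a, ha, h7⟩ := h5 p
  rw [hcls a ha] at h7
  have haK := ha.mem_left
  exact ⟨a, hKsub haK, hrest a haK, fun t => by rw [h4 a haK, hrest a haK], tendsto_metrizable h7⟩

end

end Pool.Agent.Q182.MF
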