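import Mathlib

/-!
# The space of sequences of natural numbers with its ultrametric: balls, and the weak type (1,1)
inequality for the centred maximal operator of any probability measure
-/

set_option autoImplicit false

open Set Filter Topology MeasureTheory Metric
open scoped ENNReal

namespace Pool.Agent.Q182.NatHL

/-- sequences of natural numbers -/
abbrev W := ℕ → ℕ

noncomputable instance instW : MetricSpace W := PiNat.metricSpaceNatNat

lemma dist_ne {x y : W} (h : x ≠ y) :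
    dist x y = (1 / 2 : ℝ) ^ PiNat.firstDiff (E := fun _ => ℕ) x y :=
  PiNat.dist_eq_of_ne h

instance : BorelSpace W := inferInstance

/-- sequences agreeing with `x` before `m` -/
def cyl (x : W) (m : ℕ) : Set W := {y | ∀ i < m, y i = x i}

lemma cyl_meas (x : W) (m : ℕ) : MeasurableSet (cyl x m) := by
  have : cyl x m = ⋂ i ∈ Finset.range m, {y : W | y i = x i} := by
    ext y; simp [cyl]
  rw [this]
  refine Finset.measurableSet_biInter _ fun i _ => ?_
  have h : Measurable fun y : W => y i := measurable_pi_apply (X := fun _ : ℕ => ℕ) i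
  exact h (MeasurableSet.of_discrete (s := {x i}))

lemma dist_lt_iff {x y : W} (m : ℕ) : dist y x < (1 / 2 : ℝ) ^ m ↔ y ∈ cyl x (m + 1) := by
  by_cases h : y = x
  · subst h
    simp [cyl]
  · rw [dist_ne h]
    have h1 : (1 / 2 : ℝ) ^ PiNat.firstDiff (E := fun _ => ℕ) y x < (1 / 2) ^ m ↔
        m < PiNat.firstDiff (E := fun _ => ℕ) y x :=
      pow_lt_pow_iff_right_of_lt_one₀ (by norm_num) (by norm_num)
    rw [h1]
    constructor
    · intro hlt i hi
      exact PiNat.apply_eq_of_lt_firstDiff (E := fun _ => ℕ) (by omega)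
    · intro hc
      by_contra hle
      rw [not_lt] at hle
      exact PiNat.apply_firstDiff_ne (E := fun _ => ℕ) h (hc _ (by omega))

lemma ball_pow (x : W) (m : ℕ) : ball x ((1 / 2 : ℝ) ^ m) = cyl x (m + 1) := by
  ext y
  rw [mem_ball, dist_lt_iff]

lemma ball_eq (x : W) {r : ℝ} (hr : 0 < r) : ∃ m, ball x r = cyl x m := by
  by_cases h1 : 1 < r
  · refine ⟨0, ?_⟩
    ext y
    simp only [mem_ball, cyl, not_lt_zero, IsEmpty.forall_iff, implies_true, mem_ofPred_eq, iff_true]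
    refine lt_of_le_of_lt ?_ h1
    by_cases h : y = x
    · rw [h, dist_self]; norm_num
    · rw [dist_ne h]
      exact pow_le_one₀ (by norm_num) (by norm_num)
  · rw [not_lt] at h1
    have hex : ∃ m : ℕ, (1 / 2 : ℝ) ^ (m + 1) < r := by
      obtain ⟨m, hm⟩ := exists_pow_lt_of_lt_one hr (show (1 / 2 : ℝ) < 1 by norm_num)
      exact ⟨m, lt_of_le_of_lt (pow_le_pow_of_le_one (by norm_num) (by norm_num) (by omega)) hm⟩
    classical
    have hspec := Nat.find_spec hex
    set m := Nat.find hex with hm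
    have hle : r ≤ (1 / 2 : ℝ) ^ m := by
      rcases Nat.eq_zero_or_pos m with h0 | h0
      · rw [h0]; simpa using h1
      · have := Nat.find_min hex (show m - 1 < Nat.find hex by omega)
        rw [not_lt] at this
        rwa [Nat.sub_add_cancel h0] at this
    refine ⟨m + 1, ?_⟩
    rw [← ball_pow]
    ext y
    rw [mem_ball, mem_ball]
    constructor
    · intro h; exact lt_of_lt_of_le h hle
    · intro h
      by_cases hyx : y = x
      · rw [hyx, dist_self]; exact hr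
      · rw [dist_ne hyx] at h ⊢
        have h2 : m < PiNat.firstDiff (E := fun _ => ℕ) y x :=
          (pow_lt_pow_iff_right_of_lt_one₀ (by norm_num) (by norm_num)).1 h
        refine lt_of_le_of_lt ?_ hspec
        exact pow_le_pow_of_le_one (by norm_num) (by norm_num) (by omega)

/-- average over cylinders -/
noncomputable def av (μ : Measure W) (f : W → ℝ) (m : ℕ) (x : W) : ℝ≥0∞ :=
  (∫⁻ y in cyl x m, ‖f y‖ₑ ∂μ) / μ (cyl x m)

/-- the restriction to the first coordinates -/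
def pr (m : ℕ) (x : W) : Fin m → ℕ := fun i => x i

lemma cyl_eq (x : W) (m : ℕ) : cyl x m = pr m ⁻¹' {pr m x} := by
  ext y
  simp only [cyl, mem_ofPred_eq, mem_preimage, mem_singleton_iff]
  constructor
  · intro h; funext i; exact h i i.2
  · intro h i hi; exact congrFun h ⟨i, hi⟩

lemma pr_meas (m : ℕ) : Measurable (pr m) :=
  measurable_pi_lambda _ fun i => measurable_pi_apply (X := fun _ : ℕ => ℕ) (i : ℕ)

lemma level (μ : Measure W) [IsProbabilityMeasure μ] (f : W → ℝ) (m : ℕ) (t : ℝ≥0∞) (ht : t ≠ ∞)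
    (Q : Set (Fin m → ℕ)) (hQ : ∀ x, pr m x ∈ Q → t < av μ f m x) :
    t * μ (pr m ⁻¹' Q) ≤ ∫⁻ y in pr m ⁻¹' Q, ‖f y‖ₑ ∂μ := by
  have hU : pr m ⁻¹' Q = ⋃ q ∈ Q, pr m ⁻¹' {q} := by
    ext x; simp
  have hd : Q.PairwiseDisjoint fun q => pr m ⁻¹' {q} := by
    intro a _ b _ hab
    exact (Set.disjoint_singleton.2 hab).preimage _
  have hm : ∀ q ∈ Q, MeasurableSet (pr m ⁻¹' {q}) := fun q _ => pr_meas m (MeasurableSet.of_discrete)
  rw [hU, measure_biUnion (Set.to_countable Q) hd hm, lintegral_biUnion (Set.to_countable Q) hm hd,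
    ← ENNReal.tsum_mul_left]
  refine ENNReal.tsum_le_tsum fun q => ?_
  by_cases hne : ∃ x, pr m x = q
  · obtain ⟨x, hx⟩ := hne
    have h1 := hQ x (by rw [hx]; exact q.2)
    unfold av at h1
    rw [cyl_eq, hx] at h1
    by_cases h0 : μ (pr m ⁻¹' {(q : Fin m → ℕ)}) = 0
    · rw [h0, mul_zero]; exact bot_le
    · exact (ENNReal.le_div_iff_mul_le (Or.inl h0) (Or.inl (measure_ne_top _ _))).1 h1.le
  · have : pr m ⁻¹' {(q : Fin m → ℕ)} = ∅ := by
      ext x
      simp only [mem_preimage, mem_singleton_iff, mem_empty_iff_false, iff_false]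
      exact fun h => hne ⟨x, h⟩
    rw [this]
    simp

lemma av_congr (μ : Measure W) (f : W → ℝ) {m : ℕ} {x y : W} (h : pr m x = pr m y) :
    av μ f m x = av μ f m y := by
  unfold av
  rw [cyl_eq, cyl_eq, h]

lemma pr_of_le {m l : ℕ} (hl : l ≤ m) {x y : W} (h : pr m x = pr m y) : pr l x = pr l y := by
  funext i
  exact congrFun h ⟨i, lt_of_lt_of_le i.2 hl⟩

lemma maximal (μ : Measure W) [IsProbabilityMeasure μ] (f : W → ℝ)
    (t : ℝ≥0∞) (ht : t ≠ ∞) : t * μ {x | ∃ m, t < av μ f m x} ≤ ∫⁻ y, ‖f y‖ₑ ∂μ := by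
  set G : ℕ → Set W := fun m => {x | t < av μ f m x ∧ ∀ l < m, ¬ t < av μ f l x} with hG
  set Q : (m : ℕ) → Set (Fin m → ℕ) := fun m => pr m '' G m with hQ
  have hGQ : ∀ m, G m = pr m ⁻¹' (Q m) := by
    intro m
    ext x
    constructor
    · intro h; exact ⟨x, h, rfl⟩
    · rintro ⟨y, ⟨hy1, hy2⟩, hyx⟩
      refine ⟨?_, fun l hl => ?_⟩
      · rwa [← av_congr μ f hyx]
      · rw [← av_congr μ f (pr_of_le hl.le hyx)]
        exact hy2 l hl
  have hGm : ∀ m, MeasurableSet (G m) := fun m => by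
    rw [hGQ]; exact pr_meas m (MeasurableSet.of_discrete)
  have hU : {x | ∃ m, t < av μ f m x} = ⋃ m, G m := by
    classical
    ext x
    rw [mem_iUnion]
    constructor
    · intro h
      have h' : ∃ m, t < av μ f m x := h
      exact ⟨Nat.find h', Nat.find_spec h', fun l hl => Nat.find_min h' hl⟩
    · rintro ⟨m, hm, _⟩
      exact ⟨m, hm⟩
  have hd : Pairwise (Function.onFun Disjoint G) := by
    intro a b hab
    rw [Function.onFun, Set.disjoint_left]
    rintro x ⟨h1, h2⟩ ⟨h3, h4⟩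
    rcases lt_or_gt_of_ne hab with h | h
    · exact h4 a h h1
    · exact h2 b h h3
  rw [hU, measure_iUnion hd hGm, ← ENNReal.tsum_mul_left]
  calc ∑' m, t * μ (G m) ≤ ∑' m, ∫⁻ y in G m, ‖f y‖ₑ ∂μ := by
        refine ENNReal.tsum_le_tsum fun m => ?_
        rw [hGQ]
        apply level μ f m t ht
        intro x hx
        have : x ∈ G m := by rw [hGQ]; exact hx
        exact this.1
    _ = ∫⁻ y in ⋃ m, G m, ‖f y‖ₑ ∂μ := (lintegral_iUnion hGm hd _).symm
    _ ≤ ∫⁻ y, ‖f y‖ₑ ∂μ := setLIntegral_le_lintegral _ _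

/-- The centred maximal operator is of weak type (1,1) with constant 1. -/
theorem hardy_littlewood (μ : Measure W) [IsProbabilityMeasure μ] (f : W → ℝ)
    (hf : Integrable f μ) (ε : ℝ) (hε : 0 < ε) :
    μ {x | ENNReal.ofReal ε ≤ ⨆ (r : ℝ) (_ : 0 < r),
      (∫⁻ y in ball x r, ‖f y‖ₑ ∂μ) / μ (ball x r)} ≤ ENNReal.ofReal ((∫ x, |f x| ∂μ) / ε) := by
  have hI : ∫⁻ y, ‖f y‖ₑ ∂μ = ENNReal.ofReal (∫ x, |f x| ∂μ) := by
    rw [← ofReal_integral_norm_eq_lintegral_enorm hf]
    simp [Real.norm_eq_abs]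
  have h1 : ∀ t : ℝ, 0 < t → t < ε → μ {x | ENNReal.ofReal ε ≤ ⨆ (r : ℝ) (_ : 0 < r),
      (∫⁻ y in ball x r, ‖f y‖ₑ ∂μ) / μ (ball x r)} ≤ ENNReal.ofReal ((∫ x, |f x| ∂μ) / t) := by
    intro t ht htε
    have h2 := maximal μ f (ENNReal.ofReal t) ENNReal.ofReal_ne_top
    have h3 : {x | ENNReal.ofReal ε ≤ ⨆ (r : ℝ) (_ : 0 < r),
        (∫⁻ y in ball x r, ‖f y‖ₑ ∂μ) / μ (ball x r)} ⊆ {x | ∃ m, ENNReal.ofReal t < av μ f m x} := by
      intro x hx
      have hx' : ENNReal.ofReal t < ⨆ (r : ℝ) (_ : 0 < r),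
          (∫⁻ y in ball x r, ‖f y‖ₑ ∂μ) / μ (ball x r) :=
        lt_of_lt_of_le ((ENNReal.ofReal_lt_ofReal_iff hε).2 htε) hx
      rw [lt_iSup_iff] at hx'
      obtain ⟨r, hr⟩ := hx'
      rw [lt_iSup_iff] at hr
      obtain ⟨hr0, hr1⟩ := hr
      obtain ⟨m, hm⟩ := ball_eq x hr0
      rw [hm] at hr1
      exact ⟨m, hr1⟩
    rw [ENNReal.ofReal_div_of_pos ht, ENNReal.le_div_iff_mul_le (Or.inl (by simpa using ht))
      (Or.inl ENNReal.ofReal_ne_top), mul_comm]
    exact (mul_le_mul_right (measure_mono h3) _).trans (h2.trans hI.le)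
  have h4 : Tendsto (fun t : ℝ => ENNReal.ofReal ((∫ x, |f x| ∂μ) / t)) (𝓝[<] ε)
      (𝓝 (ENNReal.ofReal ((∫ x, |f x| ∂μ) / ε))) := by
    apply ENNReal.tendsto_ofReal
    exact (tendsto_const_nhds.div tendsto_id hε.ne').mono_left nhdsWithin_le_nhds
  refine ge_of_tendsto h4 ?_
  filter_upwards [Ioo_mem_nhdsLT hε] with t ht
  exact h1 t ht.1 ht.2

end Pool.Agent.Q182.NatHL
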