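import Pool.Agent.Q182.OT3

/-!
# Recurrent points on smooth tori with triangular return maps are periodic
-/

set_option autoImplicit false
set_option linter.unusedSectionVars false

open scoped Manifold ContDiff Topology
open Filter Set

universe u

namespace Pool.Agent.Q182.OT

open Pool.Agent.H718R2.G Pool.Agent.TH80.OMS Pool.Agent.Y504.CO Pool.Agent.TH290.CL
open Pool.Agent.TH80.CLX

/-- `E` is a smooth immersion of `ℝ^k`: its derivative at `v`, in the preferred chart at `E(v)`, is
injective. -/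
def IsImm (n k : ℕ) (N : Type u) [TopologicalSpace N] [ChartedSpace (V n) N]
    (E : V k → N) : Prop :=
  ContMDiff (𝓡 k) (𝓡 n) ∞ E ∧ ∀ v, ∃ L : V k →L[ℝ] V n, Function.Injective L ∧
    HasFDerivAt (fun u => chartAt (V n) (E v) (E u)) L v

/-- `E` takes the same value at two points if and only if they differ by a vector of `ℤ^k`. -/
def PeriodZ {k : ℕ} {N : Type u} (E : V k → N) : Prop :=
  ∀ u v, E u = E v ↔ ∀ i, ∃ z : ℤ, u i = v i + z

/-- Some smooth flow of `N` acts on the image of `E` by translations of the coordinate `i`. -/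
def FlowMoves (n k : ℕ) (N : Type u) [TopologicalSpace N] [ChartedSpace (V n) N]
    (E : V k → N) (i : Fin k) : Prop :=
  ∃ ψ : ℝ → N → N, IsFlow n N ψ ∧ ∀ s v, ψ s (E v) = E (v + s • EuclideanSpace.single i (1 : ℝ))

/-- `E` is (the universal cover of) a smooth torus of dimension `k` in `N`: a smooth immersion of
`ℝ^k` with period lattice exactly `ℤ^k`, such that the translations in the coordinate directions are
induced by smooth flows of `N`. -/
structure IsTorus (n k : ℕ) (N : Type u) [TopologicalSpace N] [ChartedSpace (V n) N]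
    (E : V k → N) : Prop where
  imm : IsImm n k N E
  periodZ : PeriodZ E
  flow : ∀ i : Fin k, FlowMoves n k N E i

theorem IsTorus.period {n k : ℕ} {N : Type u} [TopologicalSpace N] [ChartedSpace (V n) N]
    {E : V k → N} (h : IsTorus n k N E) (u v : V k) :
    E u = E v ↔ ∀ i, ∃ z : ℤ, u i = v i + z := h.periodZ u v

section tm

variable {k : ℕ} {N : Type u} {E : V k → N} {c : V k} {m : ℕ} {Φ Ψ : V k → V k}

theorem add_fib {j : Fin k} {v : V k} (hv : v ∈ fib j c) (s : ℝ) :
    v + s • EuclideanSpace.single j (1 : ℝ) ∈ fib j c := by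
  intro i hi
  rw [add_e, if_neg (fun e => by rw [e] at hi; exact lt_irrefl _ hi), add_zero]
  exact hv i hi

/-- The perturbed return map. -/
theorem TM.pert {j : Fin k} {G G' : N → N} (h : TM E G j c m Φ Ψ) (hm : 1 ≤ m) {s : ℝ}
    {ψ : ℝ → N → N} (hψ : ∀ v, ψ s (E v) = E (v + s • EuclideanSpace.single j (1 : ℝ)))
    (h1 : ∀ v ∈ fib j c, G' (E v) = G (ψ s (E v)))
    (h2 : ∀ l, 1 ≤ l → l < m → ∀ v ∈ fib j c, G' (G^[l] (E v)) = G (G^[l] (E v))) :
    (∀ l, 1 ≤ l → l ≤ m → ∀ v ∈ fib j c,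
      G'^[l] (E v) = G^[l] (E (v + s • EuclideanSpace.single j (1 : ℝ)))) ∧
    TM E G' j c m (fun v => Φ (v + s • EuclideanSpace.single j (1 : ℝ)))
      (fun v => Ψ v + (-s) • EuclideanSpace.single j (1 : ℝ)) := by
  have key : ∀ l, 1 ≤ l → l ≤ m → ∀ v ∈ fib j c,
      G'^[l] (E v) = G^[l] (E (v + s • EuclideanSpace.single j (1 : ℝ))) := by
    intro l hl
    induction l, hl using Nat.le_induction with
    | base =>
      intro _ v hv
      show G' (E v) = G _
      rw [h1 v hv, hψ]
    | succ l hl ih =>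
      intro hlm v hv
      rw [Function.iterate_succ_apply', Function.iterate_succ_apply', ih (by omega) v hv]
      exact h2 l hl (by omega) _ (add_fib hv s)
  refine ⟨key, ?_, fun v => ?_, fun v => ?_, ?_, ?_, ?_, ?_⟩
  · exact h.cont.comp (continuous_id.add continuous_const)
  · rw [h.left, add_assoc, ← add_smul, add_neg_cancel, zero_smul, add_zero]
  · rw [add_assoc, ← add_smul, neg_add_cancel, zero_smul, add_zero, h.right]
  · intro i u v huv
    apply h.tri i
    intro l hl
    rw [add_e, add_e, huv l hl]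
  · intro i u v huv
    simp only
    rw [add_e, add_e, h.tri' i u v huv]
  · intro i hi
    exact h.phi_fib (add_fib (self_fib (j : ℕ) c) s) i hi
  · intro v hv
    rw [key m hm le_rfl v hv, h.ret _ (add_fib hv s)]

theorem bs_pert {j : Fin k} (s : ℝ) :
    bs (fun v => Φ (v + s • EuclideanSpace.single j (1 : ℝ))) c j = sh (bs Φ c j) s := by
  funext t
  show Φ (pt c j t + s • EuclideanSpace.single j (1 : ℝ)) j = Φ (pt c j (t + s)) j
  have e : pt c j t + s • EuclideanSpace.single j (1 : ℝ) = pt c j (t + s) := by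
    rw [pt, pt, add_assoc, ← add_smul]
    congr 2
    ring
  rw [e]

theorem bs_shift {j : Fin k} (p : ℤ) :
    bs (fun v => Φ v + ((-p : ℤ) : ℝ) • EuclideanSpace.single j (1 : ℝ)) c j =
      fun t => bs Φ c j t - p := by
  funext t
  show (Φ (pt c j t) + ((-p : ℤ) : ℝ) • EuclideanSpace.single j (1 : ℝ)) j = _
  rw [add_e, if_pos rfl]
  push_cast
  rfl

theorem bs_latz {j : Fin k} {G : N → N} (hE : ∀ u v, E u = E v ↔ ∀ i, ∃ z : ℤ, u i = v i + z)
    (h : TM E G j c m Φ Ψ) (t : ℝ) (z : ℤ) : ∃ z' : ℤ, bs Φ c j (t + z) = bs Φ c j t + z' := by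
  have h0 : E (pt c j (t + z)) = E (pt c j t) := by
    rw [hE]
    intro i
    by_cases h : i = j
    · rw [h, pt_same, pt_same]
      exact ⟨z, rfl⟩
    · rw [pt_ne c h, pt_ne c h]
      exact ⟨0, by simp⟩
  have h1 : E (Φ (pt c j (t + z))) = E (Φ (pt c j t)) := by
    rw [← h.ret _ (pt_fib c j _), ← h.ret _ (pt_fib c j _), h0]
  exact (hE _ _).1 h1 j

end tm

theorem iter_sub {F R : ℝ → ℝ} {p : ℤ} (hF : ∀ x, F x = R x + p) (h1 : ∀ t, R (t + 1) = R t + 1)
    (a : ℕ) (x : ℝ) : F^[a] x = R^[a] x + ((a * p : ℤ) : ℝ) := by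
  induction a with
  | zero => simp
  | succ a ih =>
    rw [Function.iterate_succ_apply', Function.iterate_succ_apply', ih, hF, add_int h1]
    push_cast
    ring

section recb

variable {k : ℕ} {N : Type u} [TopologicalSpace N] [T2Space N] {E : V k → N} {c : V k} {m : ℕ}
  {Φ Ψ : V k → V k} {G : N → N}

theorem rec_base {j : Fin k} (hGc : Continuous G) (hG : Function.Injective G)
    (hE : ∀ u v, E u = E v ↔ ∀ i, ∃ z : ℤ, u i = v i + z) (hEc : Continuous E) (hm : 1 ≤ m)
    (h : TM E G j c m Φ Ψ) (hd : Disj E G j c m) {v : V k} (hv : v ∈ fib j c)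
    (hrec : E v ∈ Rec G) (hnp : E v ∉ Per G) {Q : ℕ} (hQ : 1 ≤ Q) {p : ℤ} {t0 : ℝ}
    (hmono : StrictMono (bs Φ c j)^[Q]) (ht0 : (bs Φ c j)^[Q] t0 = t0 + p) :
    ∃ q : ℕ, 1 ≤ q ∧ ∃ z : ℤ, (bs Φ c j)^[q] (v j) = v j + z := by
  set f := bs Φ c j with hf
  have hTQ := (h.iter Q).shift hE p
  have hRe : bs (fun v => Φ^[Q] v + ((-p : ℤ) : ℝ) • EuclideanSpace.single j (1 : ℝ)) c j =
      fun t => f^[Q] t - p := by
    rw [bs_shift, bs_iter' h]
  set R : ℝ → ℝ := fun t => f^[Q] t - p with hR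
  have hRm : StrictMono R := fun a b hab => by
    have := hmono hab
    show f^[Q] a - p < f^[Q] b - p
    linarith
  have hR1 : ∀ t, R (t + 1) = R t + 1 := by
    have := bs_deg hE hG hTQ (by rw [hRe]; exact hRm)
    rw [hRe] at this
    exact this
  have hRc : Continuous R := by
    have := bs_cont hTQ.cont c j
    rwa [hRe] at this
  have hR0 : R t0 = t0 := by
    show f^[Q] t0 - p = t0
    rw [ht0]
    ring
  obtain ⟨T, hRT, hT⟩ := conv hRc hRm hR1 hR0 (v j)
  by_contra hcon
  push Not at hcon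
  have hlat : ∀ (b : ℕ) (y : ℝ) (z : ℤ), ∃ z' : ℤ, f^[b] (y + z) = f^[b] y + z' := by
    intro b y z
    have := bs_latz hE (h.iter b) y z
    rwa [bs_iter' h] at this
  have hFR : ∀ x, f^[Q] x = R x + p := fun x => by
    show f^[Q] x = f^[Q] x - p + p
    ring
  have hne : ∀ (b : ℕ) (z : ℤ), v j ≠ f^[b] T + z := by
    intro b z he
    obtain ⟨z1, hz1⟩ := hlat Q (f^[b] T) z
    obtain ⟨z2, hz2⟩ := hlat b T p
    have h1 : f^[Q] (f^[b] T) = f^[b] (f^[Q] T) := by
      rw [← Function.iterate_add_apply, ← Function.iterate_add_apply, Nat.add_comm]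
    have h2 : f^[Q] T = T + p := by rw [hFR, hRT]
    apply hcon Q hQ (z2 + z1 - z)
    calc f^[Q] (v j) = f^[Q] (f^[b] T + z) := by rw [he]
      _ = f^[b] T + z2 + z1 := by rw [hz1, h1, h2, hz2]
      _ = v j + ((z2 + z1 - z : ℤ) : ℝ) := by rw [he]; push_cast; ring
  set δ : ℕ → ℝ := fun b => |v j - f^[b] T - round (v j - f^[b] T)| with hδ
  have hδ0 : ∀ b, 0 < δ b := by
    intro b
    apply abs_pos.2
    intro h0
    apply hne b (round (v j - f^[b] T))
    linarith
  have hfc : ∀ b : ℕ, Continuous (f^[b]) := fun b => (bs_cont h.cont c j).iterate b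
  have hev : ∀ᶠ a in atTop, ∀ b < Q, |f^[b] (R^[a] (v j)) - f^[b] T| ≤ δ b / 2 := by
    have h1 : ∀ b ∈ Finset.range Q, ∀ᶠ a in atTop, |f^[b] (R^[a] (v j)) - f^[b] T| ≤ δ b / 2 := by
      intro b _
      have h2 : Tendsto (fun a => f^[b] (R^[a] (v j))) atTop (𝓝 (f^[b] T)) :=
        ((hfc b).tendsto T).comp hT
      filter_upwards [h2.eventually (Metric.closedBall_mem_nhds _ (half_pos (hδ0 b)))] with a ha
      rwa [Real.dist_eq] at ha
    have h3 := (Finset.eventually_all (Finset.range Q)).2 h1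
    filter_upwards [h3] with a ha b hb
    exact ha b (Finset.mem_range.2 hb)
  obtain ⟨A, hA⟩ := eventually_atTop.1 hev
  set C1 : Set N := ⋃ l ∈ Finset.Ico 1 m, G^[l] '' (E '' fib j c) with hC1
  set C2 : Set N := ⋃ b ∈ Finset.range Q,
    E '' {u | u ∈ fib j c ∧ u j ∈ Metric.closedBall (f^[b] T) (δ b / 2)} with hC2
  set C3 : Set N := ⋃ l ∈ Finset.Ico 1 (m * (Q * A) + 1), {G^[l] (E v)} with hC3
  have hC1c : IsClosed C1 := by
    apply isClosed_biUnion_finset
    intro l _
    exact ((fib_compact hE hEc j c).image (hGc.iterate l)).isClosed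
  have hC2c : IsClosed C2 := by
    apply isClosed_biUnion_finset
    intro b _
    exact (fibT_compact hE hEc j c (isCompact_closedBall _ _)).isClosed
  have hC3c : IsClosed C3 := by
    apply isClosed_biUnion_finset
    intro l _
    exact isClosed_singleton
  have hx1 : E v ∉ C1 := by
    intro hx
    rw [hC1, mem_iUnion₂] at hx
    obtain ⟨l, hl, _, ⟨u, hu, rfl⟩, he⟩ := hx
    rw [Finset.mem_Ico] at hl
    exact hd l hl.1 hl.2 u hu v hv he
  have hx2 : E v ∉ C2 := by
    intro hx
    rw [hC2, mem_iUnion₂] at hx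
    obtain ⟨b, _, u, ⟨hu, hub⟩, he⟩ := hx
    obtain ⟨z, hz⟩ := (hE _ _).1 he j
    rw [Metric.mem_closedBall, Real.dist_eq, hz] at hub
    have h1 := round_le (v j - f^[b] T) (-z)
    have h2 : v j - f^[b] T - ((-z : ℤ) : ℝ) = v j + z - f^[b] T := by push_cast; ring
    rw [h2] at h1
    have h3 : δ b ≤ δ b / 2 := h1.trans hub
    linarith [hδ0 b]
  have hx3 : E v ∉ C3 := by
    intro hx
    rw [hC3, mem_iUnion₂] at hx
    obtain ⟨l, hl, he⟩ := hx
    rw [Finset.mem_Ico] at hl
    exact hnp ⟨l, hl.1, (mem_singleton_iff.1 he).symm⟩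
  obtain ⟨K, hK1, hKW⟩ := hrec ((C1 ∪ C2 ∪ C3)ᶜ)
    (((hC1c.union hC2c).union hC3c).isOpen_compl.mem_nhds (by
      rintro ((h1 | h1) | h1)
      · exact hx1 h1
      · exact hx2 h1
      · exact hx3 h1))
  apply hKW
  rcases Nat.lt_or_ge K (m * (Q * A) + 1) with hKs | hKs
  · right
    rw [hC3, mem_iUnion₂]
    exact ⟨K, Finset.mem_Ico.2 ⟨hK1, hKs⟩, rfl⟩
  left
  have hKe : K = K % m + m * (K / m) := (Nat.mod_add_div K m).symm
  have hGK : G^[K] (E v) = G^[K % m] (E (Φ^[K / m] v)) := by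
    conv_lhs => rw [hKe]
    rw [Function.iterate_add_apply, h.iter_ret hv]
  rcases Nat.eq_zero_or_pos (K % m) with h0 | h0
  · right
    rw [h0] at hGK hKe
    set K' := K / m with hK'
    have hK'e : K' = K' % Q + Q * (K' / Q) := (Nat.mod_add_div K' Q).symm
    set a := K' / Q with ha
    set b := K' % Q with hb
    have hK'A : Q * A ≤ K' := by
      rw [hK', Nat.le_div_iff_mul_le (by omega), Nat.mul_comm]
      omega
    have haA : A ≤ a := by
      rw [ha, Nat.le_div_iff_mul_le (by omega), Nat.mul_comm]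
      exact hK'A
    have hbQ : b < Q := Nat.mod_lt _ (by omega)
    have e1 : f^[K'] (v j) = f^[b] (R^[a] (v j) + ((a * p : ℤ) : ℝ)) := by
      conv_lhs => rw [hK'e]
      rw [Function.iterate_add_apply, Function.iterate_mul, iter_sub hFR hR1]
    obtain ⟨z', hz'⟩ := hlat b (R^[a] (v j)) (a * p)
    rw [hz'] at e1
    rw [hC2, mem_iUnion₂]
    refine ⟨b, Finset.mem_range.2 hbQ,
      Φ^[K'] v + ((-z' : ℤ) : ℝ) • EuclideanSpace.single j (1 : ℝ),
      ⟨add_fib (h.iter_fib hv K') _, ?_⟩, ?_⟩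
    · rw [add_e, if_pos rfl, bs_iter h hv, ← hf, e1, Metric.mem_closedBall, Real.dist_eq]
      have e2 : f^[b] (R^[a] (v j)) + (z' : ℝ) + ((-z' : ℤ) : ℝ) = f^[b] (R^[a] (v j)) := by
        push_cast
        ring
      rw [e2]
      exact hA a haA b hbQ
    · rw [lat_e hE, hGK]
      rfl
  · left
    rw [hC1, mem_iUnion₂]
    refine ⟨K % m, Finset.mem_Ico.2 ⟨h0, Nat.mod_lt _ (by omega)⟩, _,
      ⟨_, h.iter_fib hv (K / m), rfl⟩, hGK.symm⟩

end recb

section mani

variable {n k : ℕ} {N : Type u} [TopologicalSpace N] [T2Space N] [CompactSpace N]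
  [ChartedSpace (V n) N] [IsManifold (𝓡 n) ∞ N] {E : V k → N}

theorem torus_deriv (hE : IsTorus n k N E) (w : V k) :
    ∃ L : V k →L[ℝ] V n, Function.Injective L ∧
      HasStrictFDerivAt (fun u : V k => chartAt (V n) (E w) (E (w + u))) L 0 := by
  have h1 : ContMDiffAt (𝓡 k) (𝓡 n) ∞ E w := hE.imm.1.contMDiffAt
  have h2 : ContMDiffAt (𝓡 n) (𝓡 n) ∞ (chartAt (V n) (E w)) (E w) := by
    have h4 : ContMDiffOn (𝓡 n) (𝓡 n) ∞ (chartAt (V n) (E w)) (chartAt (V n) (E w)).source :=
      contMDiffOn_of_mem_maximalAtlas (IsManifold.chart_mem_maximalAtlas (E w))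
    exact h4.contMDiffAt (chart_source_mem_nhds _ _)
  have h3 : ContMDiffAt (𝓡 k) (𝓡 n) ∞ (fun v => chartAt (V n) (E w) (E v)) w :=
    ContMDiffAt.comp w h2 h1
  have h4 : ContDiffAt ℝ ∞ (fun v => chartAt (V n) (E w) (E v)) w := contMDiffAt_iff_contDiffAt.1 h3
  have h5 : HasStrictFDerivAt (fun v => chartAt (V n) (E w) (E v))
      (fderiv ℝ (fun v => chartAt (V n) (E w) (E v)) w) w :=
    h4.hasStrictFDerivAt (by simp)
  obtain ⟨L, hLi, hL⟩ := hE.imm.2 w
  have h6 : L = fderiv ℝ (fun v => chartAt (V n) (E w) (E v)) w := hL.fderiv.symm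
  refine ⟨fderiv ℝ (fun v => chartAt (V n) (E w) (E v)) w, ?_, ?_⟩
  · rw [← h6]
    exact hLi
  · have h7 : HasStrictFDerivAt (fun u : V k => w + u) (ContinuousLinearMap.id ℝ (V k)) 0 :=
      (hasStrictFDerivAt_id (0 : V k)).const_add w
    have h8 : HasStrictFDerivAt (fun v => chartAt (V n) (E w) (E v))
      (fderiv ℝ (fun v => chartAt (V n) (E w) (E v)) w) (w + 0) := by rw [add_zero]; exact h5
    have h9 := h8.comp (0 : V k) h7
    rw [ContinuousLinearMap.comp_id] at h9
    exact h9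

theorem no_touch {r : ℕ∞} (hE : IsTorus n k N E) {G : DiffM n N r}
    (hH : ∀ p ∈ Per G, IsHyperbolicPer n G p) {j : Fin k} {c : V k} {M : ℕ} {Φ Ψ : V k → V k}
    (h : TM E G j c M Φ Ψ) (hM : 1 ≤ M) {w : V k} (hw : w ∈ fib j c)
    (hper : G^[M] (E w) = E w)
    (hR : (∀ x, bs Φ c j x ≤ x) ∨ (∀ x, x ≤ bs Φ c j x)) (hRw : bs Φ c j (w j) = w j) : False := by
  have hE' := hE.period
  obtain ⟨-, hh⟩ := hH (E w) ⟨M, hM, hper⟩
  obtain ⟨D, hD, hDr⟩ := hh M hM hper (chartAt (V n) (E w)) (IsManifold.chart_mem_maximalAtlas _)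
    (mem_chart_source _ _)
  obtain ⟨L, hLi, hL⟩ := torus_deriv hE w
  set φ := chartAt (V n) (E w) with hφ
  have hint : E (Φ w) = E w := by rw [← h.ret w hw, hper]
  obtain ⟨x, hx0, hx⟩ := eig (c := fun u : V k => φ (E (w + u)))
    (g := fun y => φ (G^[M] (φ.symm y))) (D := D) (Θ := fun u => Φ (w + u) - Φ w) (L := L) hL hLi
    (by rw [add_zero]; exact hD) j
    ((h.cont.comp (continuous_const.add continuous_id)).sub continuous_const).continuousAt
    (by simp only [add_zero, sub_self])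
    (fun u hu i hi => by
      rw [PiLp.sub_apply, sub_eq_zero]
      apply h.tri i
      intro l hl
      rw [PiLp.add_apply, hu l (lt_of_le_of_lt hl hi), add_zero])
    (by
      have hcE : Continuous (fun u : V k => E (w + u)) :=
        hE.imm.1.continuous.comp (continuous_const.add continuous_id)
      have h1 : ∀ᶠ u in 𝓝 (0 : V k), E (w + u) ∈ φ.source := by
        apply hcE.continuousAt.eventually_mem
        rw [add_zero]
        exact chart_source_mem_nhds _ _
      filter_upwards [h1] with u hu hu0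
      have hwu : w + u ∈ fib j c := by
        intro i hi
        rw [PiLp.add_apply, hu0 i hi, add_zero]
        exact hw i hi
      rw [φ.left_inv hu, h.ret _ hwu]
      congr 1
      rw [hE']
      intro i
      obtain ⟨z, hz⟩ := (hE' _ _).1 hint i
      refine ⟨z, ?_⟩
      rw [PiLp.add_apply, PiLp.sub_apply, hz]
      ring)
    (fun τ => bs Φ c j (w j + τ) - w j)
    (fun u hu => by
      have hwu : w + u ∈ fib j c := by
        intro i hi
        rw [PiLp.add_apply, hu i hi, add_zero]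
        exact hw i hi
      rw [PiLp.sub_apply, bs_eq h.tri hwu, bs_eq h.tri hw, PiLp.add_apply, hRw])
    (by rw [add_zero, hRw, sub_self])
    (by
      rcases hR with hR | hR
      · left
        intro t
        have := hR (w j + t)
        linarith
      · right
        intro t
        have := hR (w j + t)
        linarith)
  exact hDr 1 (charpoly_root D hx0 hx) norm_one

theorem main {r : ℕ∞} (hr : 1 ≤ r) {U : Set (DiffM n N r)} (hU : IsOpen[strongTop n N r] U)
    (hH : ∀ G ∈ U, ∀ p ∈ Per G, IsHyperbolicPer n G p) (hE : IsTorus n k N E) (d : ℕ) :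
    ∀ j, j + d = k → ∀ G ∈ U, ∀ (c : V k) (m : ℕ) (Φ Ψ : V k → V k), 1 ≤ m →
      TM E G j c m Φ Ψ → Disj E G j c m → ∀ v ∈ fib j c, E v ∈ Rec G → E v ∈ Per G := by
  have hE' := hE.period
  have hEc : Continuous E := hE.imm.1.continuous
  induction d with
  | zero =>
    intro j hj G hG c m Φ Ψ hm h hd v hv hrec
    have hjk : j = k := by omega
    have hc : ∀ u ∈ fib j c, u = c := by
      intro u hu
      ext i
      exact hu i (by rw [hjk]; exact i.2)
    refine ⟨m, hm, ?_⟩
    rw [h.ret v hv, hc _ (h.phi_fib hv), hc v hv]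
  | succ d ih =>
    intro j hj G hG c m Φ Ψ hm h hd v hv hrec
    obtain ⟨jj, rfl⟩ : ∃ jj : Fin k, (jj : ℕ) = j := ⟨⟨j, by omega⟩, rfl⟩
    have hGi : Function.Injective G := G.injective
    have hGc : Continuous G := G.continuous
    set f := bs Φ c jj with hf
    have hfc : Continuous f := bs_cont h.cont c jj
    by_cases hyp : ∃ Q : ℕ, 1 ≤ Q ∧ ∃ (p : ℤ) (t0 : ℝ), StrictMono f^[Q] ∧ f^[Q] t0 = t0 + p
    · -- the base map has a periodic point
      by_contra hnp
      obtain ⟨Q, hQ, p, t0, hmono, ht0⟩ := hyp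
      have hex := rec_base hGc hGi hE' hEc hm h hd hv hrec hnp hQ hmono ht0
      classical
      obtain ⟨hq1, z, hz⟩ := Nat.find_spec hex
      obtain ⟨h1, h2⟩ := descend hE' hm h hd (t := v jj) hz (fun a ha1 ha2 z' he =>
        Nat.find_min hex ha2 ⟨ha1, z', he⟩)
      exact hnp (ih ((jj : ℕ) + 1) (by omega) G hG _ _ _ _ (Nat.mul_pos hm hq1) h1 h2 v
        (fib_succ' hv) hrec)
    · exfalso
      have hfi : Function.Injective f := by
        intro a b hab
        have h1 := bs_inv' h a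
        have h2 := bs_inv' h b
        rw [← hf] at h1 h2
        rw [← h1, ← h2, hab]
      have hfm : StrictMono f := by
        rcases hfc.strictMono_of_inj hfi with h1 | h1
        · exact h1
        · exfalso
          obtain ⟨t0, ht0⟩ := anti_fixed hfc h1
          refine hyp ⟨2, by norm_num, 0, t0, h1.comp h1, ?_⟩
          show f (f t0) = t0 + ((0 : ℤ) : ℝ)
          rw [ht0, ht0]
          simp
      have hf1 : ∀ t, f (t + 1) = f t + 1 := bs_deg hE' hGi h hfm
      obtain ⟨ψ, hψ, hψE⟩ := hE.flow jj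
      have hAc : IsClosed (E '' fib jj c) := (fib_compact hE' hEc jj c).isClosed
      have hBc : IsClosed (⋃ l ∈ Finset.Ico 1 m, G^[l] '' (E '' fib (jj : ℕ) c)) := by
        apply isClosed_biUnion_finset
        intro l _
        exact ((fib_compact hE' hEc jj c).image (hGc.iterate l)).isClosed
      have hBA : Disjoint (⋃ l ∈ Finset.Ico 1 m, G^[l] '' (E '' fib (jj : ℕ) c))
          (E '' fib jj c) := by
        rw [Set.disjoint_left]
        intro x hx hx'
        rw [mem_iUnion₂] at hx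
        obtain ⟨l, hl, _, ⟨u, hu, rfl⟩, he⟩ := hx
        obtain ⟨u', hu', he'⟩ := hx'
        rw [Finset.mem_Ico] at hl
        exact hd l hl.1 hl.2 u hu u' hu' (he.trans he'.symm)
      obtain ⟨s0, hs0, hpert⟩ := perturb hr hU hG hψ hAc hBc hBA (E v)
      obtain ⟨s, hs, q, hq, p, t, htp, htt, hmin⟩ := touch hfc hfm hf1
        (fun q hq p t he => hyp ⟨q, hq, p, t, hfm.iterate q, he⟩) hs0
      obtain ⟨G', hG', hGA, hGB⟩ := hpert s hs
      obtain ⟨hit, h'⟩ := h.pert (G' := G') hm (hψE s)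
        (fun v hv => hGA _ (mem_image_of_mem _ hv))
        (fun l hl1 hl2 v hv => hGB _ (by
          rw [mem_iUnion₂]
          exact ⟨l, Finset.mem_Ico.2 ⟨hl1, hl2⟩, _, mem_image_of_mem _ hv, rfl⟩))
      have hd' : Disj E G' jj c m := by
        intro l hl1 hl2 u hu v hv
        rw [hit l hl1 hl2.le u hu]
        exact hd l hl1 hl2 _ (add_fib hu s) v hv
      have hbs : bs (fun v => Φ (v + s • EuclideanSpace.single jj (1 : ℝ))) c jj = sh f s :=
        bs_pert s
      obtain ⟨h1, h2⟩ := descend hE' hm h' hd' (t := t) (by rw [hbs]; exact htp)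
        (by rw [hbs]; exact hmin)
      have hmq : 1 ≤ m * q := Nat.mul_pos hm hq
      obtain ⟨z, ⟨w, hw, rfl⟩, hzr⟩ := exists_rec (G'^[m * q]) (G'.continuous.iterate _)
        (fib_compact hE' hEc ((jj : ℕ) + 1) (pt c jj t)) ⟨_, mem_image_of_mem _ (self_fib _ _)⟩
        (by
          rintro _ ⟨u, hu, rfl⟩
          rw [h1.ret u hu]
          exact mem_image_of_mem _ (h1.phi_fib hu))
      have hper : E w ∈ Per G' := ih ((jj : ℕ) + 1) (by omega) G' hG' _ _ _ _ hmq h1 h2 w hw
        (rec_of_iterate hmq hzr)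
      obtain ⟨b, hb, hbw⟩ := hper
      obtain ⟨hw1, hw2⟩ := fib_succ hw
      have h3 := ((h'.iter q).shift hE' p).iter b
      have hbs3 := bs_iter' ((h'.iter q).shift hE' p) b
      have hbs4 : bs (fun v => (fun v => Φ (v + s • EuclideanSpace.single jj (1 : ℝ)))^[q] v +
          ((-p : ℤ) : ℝ) • EuclideanSpace.single jj (1 : ℝ)) c jj =
          fun x => (sh f s)^[q] x - p := by
        rw [bs_shift, bs_iter' h', hbs]
      rw [hbs4] at hbs3
      refine no_touch hE (hH G' hG') h3 (Nat.mul_pos hmq hb) hw1 ?_ ?_ ?_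
      · rw [Nat.mul_comm, Function.iterate_mul]
        exact Function.iterate_fixed hbw _
      · rw [hbs3]
        rcases htt with htt | htt
        · left
          intro x
          clear hbs3 h3 hbw hb
          induction b with
          | zero => exact le_rfl
          | succ b ihb =>
            rw [Function.iterate_succ_apply']
            have := htt ((fun x => (sh f s)^[q] x - p)^[b] x)
            linarith
        · right
          intro x
          clear hbs3 h3 hbw hb
          induction b with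
          | zero => exact le_rfl
          | succ b ihb =>
            rw [Function.iterate_succ_apply']
            have := htt ((fun x => (sh f s)^[q] x - p)^[b] x)
            linarith
      · rw [hbs3, hw2]
        apply Function.iterate_fixed
        show (sh f s)^[q] t - p = t
        rw [htp]
        ring

end mani

end Pool.Agent.Q182.OT
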