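import Pool.Agent.Q182.OT4

/-!
# Stable diffeomorphisms whose recurrence lies on smooth tori with triangular return maps
-/

set_option autoImplicit false
set_option linter.unusedSectionVars false

open scoped Manifold ContDiff Topology
open Filter Set

universe u

namespace Pool.Agent.Q182.OT

open Pool.Agent.H718R2.G Pool.Agent.TH80.OMS Pool.Agent.Y504.CO Pool.Agent.TH290.CL
open Pool.Agent.Y318.MN

/-- `x` lies on an `F`-periodic smooth torus on which the return map is triangular. -/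
def OnTorus (n : ℕ) (N : Type u) [TopologicalSpace N] [ChartedSpace (V n) N] (F : N → N)
    (x : N) : Prop :=
  ∃ (k : ℕ) (E : V k → N) (m : ℕ) (Φ : V k ≃ₜ V k), IsTorus n k N E ∧ 1 ≤ m ∧ x ∈ range E ∧
    (∀ v, F^[m] (E v) = E (Φ v)) ∧ Tri Φ ∧ Tri Φ.symm ∧
    ∀ l, 1 ≤ l → l < m → ∀ u v, F^[l] (E u) ≠ E v

variable {n : ℕ} {N : Type u} [TopologicalSpace N] [T2Space N] [CompactSpace N]
  [ChartedSpace (V n) N] [IsManifold (𝓡 n) ∞ N]

theorem per_of_torus {r : ℕ∞} (hr : 1 ≤ r) {U : Set (DiffM n N r)}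
    (hU : IsOpen[strongTop n N r] U) (hH : ∀ G ∈ U, ∀ p ∈ Per G, IsHyperbolicPer n G p)
    {G : DiffM n N r} (hG : G ∈ U) {x : N} (hx : x ∈ Rec G) (ht : OnTorus n N G x) :
    x ∈ Per G := by
  obtain ⟨k, E, m, Φ, hE, hm, ⟨v, rfl⟩, hret, h1, h2, hd⟩ := ht
  refine main hr hU hH hE k 0 (by omega) G hG 0 m Φ Φ.symm hm
    ⟨Φ.continuous, Φ.symm_apply_apply, Φ.apply_symm_apply, h1, h2,
      fun i hi => absurd hi (Nat.not_lt_zero _), fun v _ => hret v⟩
    (fun l hl1 hl2 u _ v _ => hd l hl1 hl2 u v) v (fun i hi => absurd hi (Nat.not_lt_zero _)) hx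

theorem stable_nbhd {r : ℕ∞} (hr : 1 ≤ r) {F : DiffM n N r} (hF : OmegaStable n N r F) :
    ∃ U : Set (DiffM n N r), IsOpen[strongTop n N r] U ∧ F ∈ U ∧ (∀ G ∈ U, OmegaConj F G) ∧
      ∀ G ∈ U, ∀ p ∈ Per G, IsHyperbolicPer n G p := by
  obtain ⟨U, hU, hFU, hconj⟩ := id hF
  refine ⟨U, hU, hFU, hconj, fun G hG => ?_⟩
  have hGF : OmegaConj G F := omegaConj_symm F.continuous (hconj G hG)
  exact Gen.stable_hyp hr
    (F := G) ⟨U, hU, hG, fun G' hG' => omegaConj_trans hGF (hconj G' hG')⟩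

theorem tri_main {r : ℕ∞} (hr : 1 ≤ r) {F : DiffM n N r} (hF : OmegaStable n N r F)
    (h : ∀ U : Set (DiffM n N r), IsOpen[strongTop n N r] U → F ∈ U →
      ∃ G ∈ U, {x | x ∈ Rec G ∧ x ∉ Per G ∧ ¬ OnTorus n N G x}.Countable) :
    FiniteNoCycle F ∧ ∀ p ∈ Omega F, IsHyperbolicPer n F p := by
  obtain ⟨U, hU, hFU, hconj, hH⟩ := stable_nbhd hr hF
  obtain ⟨G, hG, hc⟩ := h U hU hFU
  have hGF : OmegaConj G F := omegaConj_symm F.continuous (hconj G hG)
  have hRG : Rec G ⊆ Per G := by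
    apply Gen.rec_per G
    refine hc.mono ?_
    rintro x ⟨hx, hxp⟩
    exact ⟨hx, hxp, fun ht => hxp (per_of_torus hr hU hH hG hx ht)⟩
  have hRF : Rec F ⊆ Per F := rec_conj G.continuous F.continuous hGF hRG
  refine Gen.stable hr hF ?_
  rw [sdiff_eq_empty.2 hRF]
  exact countable_empty

end Pool.Agent.Q182.OT
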