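import Mathlib
import Pool.Agent.H713R5.QJ.TAPX
import Pool.Agent.H713R5.QJ.TOPG
import Pool.Agent.H713R5.QJ.TAF
import Pool.Agent.H713R5.QJ.TPF
import Pool.Agent.H713R5.QJ.TINJ
import Pool.Agent.H713R5.QJ.TSURL
import Pool.Agent.H713R5.QJ.TCURVE
import Pool.Agent.H713R5.QJ.TSGL
import Pool.Agent.H713R5.QJ.TPBL
import Pool.Agent.H713R5.QJ.TAPP
import Pool.Agent.H713R5.QJ.TAPSb

set_option autoImplicit false

/-!
# Indifferent cycles of a polynomial: boundedness of the periods and simultaneous perturbation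

The argument of `Pool.Agent.Q90.RB.Cnt` (rational maps) for polynomials.
-/

open Topology Filter Metric Set Polynomial MeasureTheory

namespace Pool.Agent.Q182.PB

open Pool.Agent.H713R5.QJ

/-- the orbit of a point -/
def orb (f : ℂ → ℂ) (z : ℂ) : Set ℂ := {w | ∃ i : ℕ, f^[i] z = w}

theorem mem_orb (f : ℂ → ℂ) (z : ℂ) : z ∈ orb f z := ⟨0, rfl⟩

theorem orb_map {f : ℂ → ℂ} {z : ℂ} {p : ℕ} (hp : 0 < p) (h : f^[p] z = z) :
    orb f (f z) = orb f z := by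
  apply Set.Subset.antisymm
  · rintro w ⟨i, rfl⟩
    exact ⟨i + 1, by rw [Function.iterate_succ_apply]⟩
  · rintro w ⟨i, rfl⟩
    rcases Nat.eq_zero_or_pos i with rfl | hi
    · obtain ⟨q, rfl⟩ : ∃ q, p = q + 1 := ⟨p - 1, by omega⟩
      refine ⟨q, ?_⟩
      rw [Function.iterate_succ_apply] at h
      rw [h]
      rfl
    · obtain ⟨q, rfl⟩ : ∃ q, i = q + 1 := ⟨i - 1, by omega⟩
      exact ⟨q, by rw [Function.iterate_succ_apply]⟩

theorem orb_finite {f : ℂ → ℂ} {z : ℂ} {p : ℕ} (hp : 0 < p) (h : f^[p] z = z) :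
    (orb f z).Finite := by
  refine (((Finset.range p).finite_toSet).image (fun j => f^[j] z)).subset ?_
  rintro _ ⟨j, rfl⟩
  refine ⟨j % p, ?_, ?_⟩
  · rw [Finset.mem_coe, Finset.mem_range]
    exact Nat.mod_lt _ hp
  · exact Function.IsPeriodicPt.iterate_mod_apply h j

open Classical in
/-- extension by zero -/
noncomputable def ex {Z : Finset ℂ} (v : Z → ℂ) (z : ℂ) : ℂ := if h : z ∈ Z then v ⟨z, h⟩ else 0

theorem ex_add {Z : Finset ℂ} (v w : Z → ℂ) (z : ℂ) : ex (v + w) z = ex v z + ex w z := by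
  unfold ex
  split_ifs <;> simp

theorem ex_smul {Z : Finset ℂ} (c : ℂ) (v : Z → ℂ) (z : ℂ) : ex (c • v) z = c * ex v z := by
  unfold ex
  split_ifs <;> simp

theorem ex_of {Z : Finset ℂ} (u : ℂ → ℂ) {z : ℂ} (hz : z ∈ Z) : ex (fun w : Z => u w) z = u z := by
  unfold ex
  rw [dif_pos hz]

/-- the linearized equations -/
noncomputable def Phi (T : ℂ[X]) (Z : Finset ℂ) (O : Finset (Set ℂ)) (r : O → ℂ) (n : ℕ) :
    (degreeLT ℂ n × (Z → ℂ)) →ₗ[ℂ] ((Z → ℂ) × (O → ℂ)) where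
  toFun q := (fun z => ex q.2 (T.eval (z : ℂ)) - (derivative T).eval (z : ℂ) * ex q.2 z -
      (q.1 : ℂ[X]).eval (z : ℂ),
    fun o => ∑ i ∈ Finset.range (Function.minimalPeriod (ev T) (r o)),
      ((derivative (q.1 : ℂ[X])).eval ((ev T)^[i] (r o)) +
        (derivative (derivative T)).eval ((ev T)^[i] (r o)) * ex q.2 ((ev T)^[i] (r o))) /
        (derivative T).eval ((ev T)^[i] (r o)))
  map_add' q q' := by
    refine Prod.ext ?_ ?_
    · funext z
      simp only [Prod.fst_add, Prod.snd_add, Submodule.coe_add, ex_add, eval_add, Pi.add_apply]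
      ring
    · funext o
      simp only [Prod.fst_add, Prod.snd_add, Submodule.coe_add, ex_add, derivative_add, eval_add,
        Pi.add_apply]
      rw [← Finset.sum_add_distrib]
      refine Finset.sum_congr rfl fun i _ => ?_
      ring
  map_smul' c q := by
    refine Prod.ext ?_ ?_
    · funext z
      simp only [Prod.smul_fst, Prod.smul_snd, Submodule.coe_smul, ex_smul, eval_smul,
        Pi.smul_apply, RingHom.id_apply, smul_eq_mul]
      ring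
    · funext o
      simp only [Prod.smul_fst, Prod.smul_snd, Submodule.coe_smul, ex_smul, derivative_smul,
        eval_smul, Pi.smul_apply, RingHom.id_apply, smul_eq_mul]
      rw [Finset.mul_sum]
      refine Finset.sum_congr rfl fun i _ => ?_
      ring

theorem card_le {T : ℂ[X]} {Z : Finset ℂ} (h2 : 2 ≤ T.natDegree) (hC : Cyc T Z)
    (hI : ∀ z ∈ Z, ∀ p : ℕ, 0 < p → (ev T)^[p] z = z → ‖deriv ((ev T)^[p]) z‖ = 1)
    (hper : ∀ z ∈ Z, ∃ p : ℕ, 0 < p ∧ (ev T)^[p] z = z) (O : Finset (Set ℂ))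
    (hO : ∀ o ∈ O, ∃ z ∈ Z, orb (ev T) z = o) : O.card ≤ T.natDegree - 1 := by
  classical
  have h1 : ∀ o : O, ∃ z, z ∈ Z ∧ orb (ev T) z = o := fun o => by
    obtain ⟨z, hz, ho⟩ := hO o o.2
    exact ⟨z, hz, ho⟩
  choose r hrZ hro using h1
  have hsur : Function.Surjective (Phi T Z O r (T.natDegree - 1)) := by
    rintro ⟨e, k⟩
    obtain ⟨H, u, hH, h3, h4⟩ := surl_holds af_holds pf_holds inj_holds T Z h2 hC hI (ex e)
      (fun w => if h : orb (ev T) w ∈ O then k ⟨orb (ev T) w, h⟩ else 0) (by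
        intro z hz
        obtain ⟨p, hp, hpz⟩ := hper z hz
        have h5 : orb (ev T) (T.eval z) = orb (ev T) z := orb_map hp hpz
        simp only [h5])
    refine ⟨(⟨H, ?_⟩, fun z => u z), ?_⟩
    · rw [mem_degreeLT]
      refine lt_of_le_of_lt degree_le_natDegree ?_
      exact_mod_cast (show H.natDegree < T.natDegree - 1 by omega)
    · have hit : ∀ z ∈ Z, ∀ i : ℕ, (ev T)^[i] z ∈ Z := by
        intro z hz i
        induction i with
        | zero => exact hz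
        | succ i ih =>
          rw [Function.iterate_succ_apply']
          exact hC.1 _ ih
      refine Prod.ext ?_ ?_
      · funext z
        have h5 := h3 z z.2
        simp only [Phi, LinearMap.coe_mk, AddHom.coe_mk]
        rw [ex_of u (hC.1 z z.2), ex_of u z.2, h5]
        unfold ex
        rw [dif_pos z.2]
      · funext o
        have h5 := h4 (r o) (hrZ o)
        simp only [Phi, LinearMap.coe_mk, AddHom.coe_mk]
        have h6 : orb (ev T) (r o) ∈ O := by rw [hro o]; exact o.2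
        rw [dif_pos h6] at h5
        have h7 : (⟨orb (ev T) (r o), h6⟩ : O) = o := Subtype.ext (hro o)
        rw [h7] at h5
        rw [← h5]
        refine Finset.sum_congr rfl fun i _ => ?_
        rw [ex_of u (hit _ (hrZ o) i)]
  have hfin : Module.Finite ℂ (degreeLT ℂ (T.natDegree - 1)) :=
    Module.Finite.equiv (degreeLTEquiv ℂ (T.natDegree - 1)).symm
  have h7 := LinearMap.finrank_le_finrank_of_surjective hsur
  rw [Module.finrank_prod, Module.finrank_prod, (degreeLTEquiv ℂ (T.natDegree - 1)).finrank_eq,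
    Module.finrank_fintype_fun_eq_card, Module.finrank_fintype_fun_eq_card,
    Module.finrank_fintype_fun_eq_card, Fintype.card_fin, Fintype.card_coe, Fintype.card_coe] at h7
  omega

/-- all indifferent periodic points have bounded period -/
theorem ind_bounded (T : ℂ[X]) (h2 : 2 ≤ T.natDegree) :
    ∃ J : ℕ, ∀ j, APX.Ind T j ⊆ APX.Ind T J := by
  classical
  have hmono : ∀ {i j : ℕ}, i ≤ j → APX.Ind T i ⊆ APX.Ind T j := by
    rintro i j hij a ⟨p, hp, hpi, h⟩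
    exact ⟨p, hp, hpi.trans hij, h⟩
  have key : (⋃ j, APX.Ind T j).Finite := by
    refine Set.Finite.of_finite_fibers (orb (ev T)) ?_ ?_
    · by_contra hinf
      obtain ⟨O, hO, hOc⟩ := (show ((orb (ev T)) '' ⋃ j, APX.Ind T j).Infinite from
        hinf).exists_subset_card_eq T.natDegree
      have h1 : ∀ o : O, ∃ j z, z ∈ APX.Ind T j ∧ orb (ev T) z = o := by
        intro o
        obtain ⟨z, hz, ho⟩ := hO o.2
        obtain ⟨j, hj⟩ := mem_iUnion.1 hz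
        exact ⟨j, z, hj, ho⟩
      choose j z hz ho using h1
      set J := Finset.univ.sup j with hJ
      have h3 := card_le h2 (APX.ind_cyc T h2 J) (APX.ind_unit T h2 J) (by
        intro w hw
        rw [Set.Finite.mem_toFinset] at hw
        obtain ⟨p, hp, -, hpw, -⟩ := hw
        exact ⟨p, hp, hpw⟩) O (by
        intro o ho'
        refine ⟨z ⟨o, ho'⟩, ?_, ho ⟨o, ho'⟩⟩
        rw [Set.Finite.mem_toFinset]
        exact hmono (Finset.le_sup (f := j) (Finset.mem_univ _)) (hz ⟨o, ho'⟩))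
      omega
    · rintro o ⟨z, hz, rfl⟩
      obtain ⟨j, p, hp, -, hpz, -⟩ := mem_iUnion.1 hz
      refine (orb_finite hp hpz).subset ?_
      rintro w ⟨-, hw⟩
      have : orb (ev T) w = orb (ev T) z := hw
      rw [← this]
      exact mem_orb _ w
  have h3 : ∀ z : (⋃ j, APX.Ind T j), ∃ j, (z : ℂ) ∈ APX.Ind T j := fun z => mem_iUnion.1 z.2
  choose j hj using h3
  have : Fintype (⋃ j, APX.Ind T j) := key.fintype
  refine ⟨Finset.univ.sup j, fun i z hz => ?_⟩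
  have hz' : z ∈ ⋃ j, APX.Ind T j := mem_iUnion.2 ⟨i, hz⟩
  exact hmono (Finset.le_sup (f := j) (Finset.mem_univ ⟨z, hz'⟩)) (hj ⟨z, hz'⟩)

/-- the data of a curve of polynomials along which all indifferent cycles become attracting -/
structure Curve (T : ℂ[X]) (t₀ C₀ : ℝ) (S : ℝ → ℂ[X]) (y : ℝ → ℂ → ℂ) (kk : ℂ → ℕ → ℕ) :
    Prop where
  t0 : 0 < t₀
  C0 : 0 < C₀
  deg : ∀ t : ℝ, 0 ≤ t → t ≤ t₀ → (S t).natDegree = T.natDegree
  top : ∀ t : ℝ, 0 ≤ t → t ≤ t₀ → ∀ j : ℕ, T.natDegree - 1 ≤ j → (S t).coeff j = T.coeff j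
  cf : ∀ t : ℝ, 0 ≤ t → t ≤ t₀ → ∀ j : ℕ, ‖(S t).coeff j - T.coeff j‖ ≤ C₀ * t
  pc : ∀ (p : ℕ) (x ρ : ℂ), 0 < p → (ev T)^[p] x = x → deriv ((ev T)^[p]) x = ρ → ‖ρ‖ = 1 →
    PC T p x ρ S (fun t => y t x) (kk x p) t₀ C₀

theorem exists_curve (T : ℂ[X]) (h2 : 2 ≤ T.natDegree) :
    ∃ (t₀ C₀ : ℝ) (S : ℝ → ℂ[X]) (y : ℝ → ℂ → ℂ) (kk : ℂ → ℕ → ℕ), Curve T t₀ C₀ S y kk := by
  classical
  obtain ⟨J, hJ⟩ := ind_bounded T h2
  have hcyc := APX.ind_cyc T h2 J
  have hunit := APX.ind_unit T h2 J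
  obtain ⟨t₀, C₀, S, y, kk, ht₀, hC₀, hkk, hS⟩ := curve_holds T (APX.ind_finite T h2 J).toFinset h2
    hcyc hunit (surl_holds af_holds pf_holds inj_holds T (APX.ind_finite T h2 J).toFinset h2 hcyc
      hunit)
  refine ⟨t₀, C₀, S, y, kk, ht₀, hC₀, fun t h0 h1 => (hS t h0 h1).1, fun t h0 h1 => (hS t h0 h1).2.1,
    fun t h0 h1 => (hS t h0 h1).2.2.1, ?_⟩
  intro p x ρ hp hx hm hρ
  have hxZ : x ∈ (APX.ind_finite T h2 J).toFinset := by
    rw [Set.Finite.mem_toFinset]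
    exact hJ p ⟨p, hp, le_rfl, hx, by rw [hm, hρ]⟩
  refine ⟨ht₀, hC₀, hkk x hxZ p hp hx, hp, hx, hm, fun t h0 h1 => (hS t h0 h1).1,
    fun t h0 h1 => (hS t h0 h1).2.2.1, fun t h0 h1 => ((hS t h0 h1).2.2.2 x hxZ).1,
    fun t h0 h1 => ?_, fun t h0 h1 => ?_⟩
  · have h := (APX.iter_cyc T _ hcyc.1 (S t) (y t)
      (fun z hz => ((hS t h0 h1).2.2.2 z hz).2.1) p x hxZ).2
    show (ev (S t))^[p] (y t x) = y t x
    rw [h, hx]
  · have h := ((hS t h0 h1).2.2.2 x hxZ).2.2 p hp hx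
    rw [hm] at h
    exact h

theorem local_good {T : ℂ[X]} (h2 : 2 ≤ T.natDegree) {t₀ C₀ : ℝ} {S : ℝ → ℂ[X]} {y : ℝ → ℂ → ℂ}
    {kk : ℂ → ℕ → ℕ} (hS : Curve T t₀ C₀ S y kk) (u : ℂ)
    (hu : Good (ev T) u ∨ Para (ev T) u ∨ Sieg (ev T) u) :
    ∃ δ t₁ : ℝ, 0 < δ ∧ 0 < t₁ ∧ ∀ t : ℝ, 0 < t → t < t₁ → ∀ z' ∈ ball u δ,
      Good (ev (S t)) z' := by
  rcases hu with h | ⟨p, x, hp, hx, hm, hlim, hne⟩ | ⟨n, p, r, h, ρ, hp, hr, hρ, hirr, hd, hi, hc, hn⟩
  · obtain ⟨σ, hσ, H⟩ := opg_holds T u h2 h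
    have hC₀ := hS.C0
    refine ⟨σ, min t₀ (σ / C₀), hσ, lt_min hS.t0 (by positivity), ?_⟩
    intro t h0 h1 z' hz'
    have h3 : t ≤ t₀ := (h1.trans_le (min_le_left _ _)).le
    have h4 : t < σ / C₀ := h1.trans_le (min_le_right _ _)
    rw [lt_div_iff₀ hC₀] at h4
    refine H (S t) (hS.deg t h0.le h3) (fun j => ?_) z' hz'
    exact (hS.cf t h0.le h3 j).trans_lt (by linarith)
  · exact app_holds pbl_holds T p x S (fun t => y t x) (kk x p) t₀ C₀ u h2
      (hS.pc p x 1 hp hx hm norm_one) hlim hne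
  · obtain ⟨b1, b2⟩ := APX.sieg_mul T p r h ρ hr hρ hd hi hc
    exact aps_holds sgl_holds T n p ρ r h S (fun t => y t (h 0)) (kk (h 0) p) t₀ C₀ u h2
      (hS.pc p (h 0) ρ hp b1 b2 hρ) hr hρ hirr hd hi hc hn

/-- points in none of the basins and not mapped into a Siegel disc -/
def NJ (T : ℂ[X]) : Set ℂ := {z : ℂ | ¬ (Good (ev T) z ∨ Para (ev T) z ∨ Sieg (ev T) z)}

/-- **Semicontinuity.** For every open `V` containing `NJ T` all bad points of `S t` are in `V`. -/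
theorem semi {T : ℂ[X]} (h2 : 2 ≤ T.natDegree) {t₀ C₀ : ℝ} {S : ℝ → ℂ[X]} {y : ℝ → ℂ → ℂ}
    {kk : ℂ → ℕ → ℕ} (hS : Curve T t₀ C₀ S y kk) (V : Set ℂ) (hV : IsOpen V) (hT : NJ T ⊆ V) :
    ∃ t₁ : ℝ, 0 < t₁ ∧ t₁ ≤ t₀ ∧ ∀ t : ℝ, 0 < t → t < t₁ → ∀ z : ℂ, ¬ Good (ev (S t)) z → z ∈ V := by
  classical
  obtain ⟨R, hR1, hR⟩ := APX.escape_radius T h2
  have hC₀ := hS.C0
  have hK : IsCompact (closedBall (0 : ℂ) R \ V) := (isCompact_closedBall (0 : ℂ) R).diff hV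
  have hloc : ∀ u ∈ closedBall (0 : ℂ) R \ V, ∃ δ t₁ : ℝ, 0 < δ ∧ 0 < t₁ ∧
      ∀ t : ℝ, 0 < t → t < t₁ → ∀ z' ∈ ball u δ, Good (ev (S t)) z' := by
    intro u hu
    refine local_good h2 hS u ?_
    by_contra h
    exact hu.2 (hT h)
  choose! δ t₁ hδ ht₁ hgood using hloc
  obtain ⟨F, hF, hFfin, hFcov⟩ := hK.elim_finite_subcover_image (b := closedBall (0 : ℂ) R \ V)
    (c := fun u => ball u (δ u)) (fun u _ => isOpen_ball)
    (fun u hu => mem_biUnion hu (mem_ball_self (hδ u hu)))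
  obtain ⟨m, hm0, hm⟩ : ∃ m : ℝ, 0 < m ∧ ∀ u ∈ F, m ≤ t₁ u := by
    rcases F.eq_empty_or_nonempty with h | h
    · exact ⟨1, one_pos, fun u hu => by rw [h] at hu; exact absurd hu (notMem_empty u)⟩
    · obtain ⟨u, hu, hmin⟩ := hFfin.exists_minimalFor t₁ F h
      refine ⟨t₁ u, ht₁ u (hF hu), fun v hv => ?_⟩
      rcases le_total (t₁ u) (t₁ v) with h' | h'
      · exact h'
      · exact hmin hv h'
  refine ⟨min m (min t₀ (1 / C₀)), lt_min hm0 (lt_min hS.t0 (by positivity)),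
    (min_le_right _ _).trans (min_le_left _ _), ?_⟩
  intro t h0 h1 z hz
  have a1 : t < m := h1.trans_le (min_le_left _ _)
  have a2 : t ≤ t₀ := (h1.trans_le ((min_le_right _ _).trans (min_le_left _ _))).le
  have a3 : t < 1 / C₀ := h1.trans_le ((min_le_right _ _).trans (min_le_right _ _))
  rw [lt_div_iff₀ hC₀] at a3
  by_contra hzV
  apply hz
  by_cases hzK : z ∈ closedBall (0 : ℂ) R
  · obtain ⟨u, hu, hzu⟩ := mem_iUnion₂.1 (hFcov ⟨hzK, hzV⟩)
    exact hgood u (hF hu) t h0 (a1.trans_le (hm u hu)) z hzu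
  · apply APX.good_big (ev (S t)) R hR1
      (hR (S t) (hS.deg t h0.le a2) (hS.top t h0.le a2 _ (Nat.sub_le _ _))
        (fun i => (hS.cf t h0.le a2 i).trans (by linarith))) z
    rw [mem_closedBall, dist_zero_right, not_le] at hzK
    exact hzK.le

/-- **Area.** -/
theorem area {T : ℂ[X]} (h2 : 2 ≤ T.natDegree) {t₀ C₀ : ℝ} {S : ℝ → ℂ[X]} {y : ℝ → ℂ → ℂ}
    {kk : ℂ → ℕ → ℕ} (hS : Curve T t₀ C₀ S y kk) (ε : ℝ) (hε : 0 < ε) :
    ∃ t₁ : ℝ, 0 < t₁ ∧ t₁ ≤ t₀ ∧ ∀ t : ℝ, 0 < t → t < t₁ →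
      volume {z : ℂ | ¬ Good (ev (S t)) z} ≤ volume (NJ T) + ENNReal.ofReal ε := by
  obtain ⟨V, hV1, hV2, hV3⟩ := (NJ T).exists_isOpen_le_add volume (ENNReal.ofReal_pos.2 hε).ne'
  obtain ⟨t₁, h1, h3, h4⟩ := semi h2 hS V hV2 hV1
  exact ⟨t₁, h1, h3, fun t a b => (measure_mono fun z hz => h4 t a b z hz).trans hV3⟩

end Pool.Agent.Q182.PB
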