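import Mathlib
import Pool.Agent.Q182.PB1

set_option autoImplicit false

/-!
# Critical points along the curve
-/

open Topology Filter Metric Set Polynomial MeasureTheory

namespace Pool.Agent.Q182.PB

open Pool.Agent.H713R5.QJ

theorem roots_enum (P : ℂ[X]) (N : ℕ) (hP : P.natDegree = N) :
    ∃ r : Fin N → ℂ, P.roots = Finset.univ.val.map r := by
  have h1 : P.roots.card = N := by
    rw [← hP]
    exact (IsAlgClosed.splits P).natDegree_eq_card_roots.symm
  have h2 : P.roots.toList.length = N := by rw [Multiset.length_toList, h1]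
  refine ⟨fun i => P.roots.toList.get (i.cast h2.symm), ?_⟩
  have h3 : (Finset.univ : Finset (Fin N)).val.map (fun i => P.roots.toList.get (i.cast h2.symm)) =
      ((List.finRange N).map (fun i => P.roots.toList.get (i.cast h2.symm)) : List ℂ) := by
    rw [Fin.univ_val_map]
    rw [List.ofFn_eq_map]
  rw [h3]
  have h4 : (List.finRange N).map (fun i => P.roots.toList.get (i.cast h2.symm)) =
      P.roots.toList := by
    subst h2
    rw [← List.ofFn_eq_map]
    exact List.ofFn_get _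
  rw [h4, Multiset.coe_toList]

theorem prod_enum (P : ℂ[X]) {N : ℕ} (r : Fin N → ℂ) (h : P.roots = Finset.univ.val.map r) (z : ℂ) :
    P.eval z = P.leadingCoeff * ∏ i, (z - r i) := by
  have h1 := (IsAlgClosed.splits P).eq_prod_roots
  rw [h, Multiset.map_map] at h1
  conv_lhs => rw [h1]
  rw [eval_mul, eval_C]
  congr 1
  have h2 : (Multiset.map ((fun a => X - C a) ∘ r) Finset.univ.val).prod =
      ∏ i, (X - C (r i)) := rfl
  rw [h2, eval_prod]
  simp

theorem roots_of_eval {N : ℕ} (P : ℂ[X]) (a : ℂ) (ha : a ≠ 0) (s : Fin N → ℂ)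
    (h : ∀ z : ℂ, P.eval z = a * ∏ i, (z - s i)) : P.roots = Finset.univ.val.map s := by
  have h1 : P = C a * ∏ i, (X - C (s i)) := by
    apply Polynomial.funext
    intro z
    rw [h z, eval_mul, eval_C, eval_prod]
    simp
  have h2 : (∏ i, (X - C (s i)) : ℂ[X]) = ((Finset.univ.val.map s).map fun b => X - C b).prod := by
    rw [Multiset.map_map]
    rfl
  rw [h1, roots_C_mul _ ha, h2, roots_multiset_prod_X_sub_C]

/-- Roots of polynomials with convergent coefficients and the same leading coefficient. -/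
theorem roots_limit {N : ℕ} (P : ℂ[X]) (Q : ℕ → ℂ[X]) (hP0 : P ≠ 0) (hP : P.natDegree = N)
    (hQ : ∀ n, (Q n).natDegree = N) (hl : ∀ n, (Q n).leadingCoeff = P.leadingCoeff)
    (hlim : ∀ j, Tendsto (fun n => (Q n).coeff j) atTop (𝓝 (P.coeff j)))
    (B : ℝ) (hB : ∀ n z, (Q n).eval z = 0 → ‖z‖ ≤ B) :
    ∃ (φ : ℕ → ℕ) (r : ℕ → Fin N → ℂ) (s : Fin N → ℂ), StrictMono φ ∧
      (∀ n, (Q n).roots = Finset.univ.val.map (r n)) ∧ P.roots = Finset.univ.val.map s ∧
      ∀ i, Tendsto (fun n => r (φ n) i) atTop (𝓝 (s i)) := by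
  have h1 : ∀ n, ∃ r : Fin N → ℂ, (Q n).roots = Finset.univ.val.map r := fun n =>
    roots_enum (Q n) N (hQ n)
  choose r hr using h1
  have hQ0 : ∀ n, Q n ≠ 0 := by
    intro n h
    have h2 := hl n
    rw [h, leadingCoeff_zero] at h2
    exact hP0 (leadingCoeff_eq_zero.1 h2.symm)
  have hmem : ∀ n, r n ∈ Set.pi Set.univ (fun _ : Fin N => closedBall (0 : ℂ) B) := by
    intro n i _
    rw [mem_closedBall, dist_zero_right]
    apply hB n
    have h3 : r n i ∈ (Q n).roots := by
      rw [hr n]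
      exact Multiset.mem_map_of_mem _ (Finset.mem_univ_val i)
    exact (mem_roots (hQ0 n)).1 h3
  have hcomp : IsCompact (Set.pi Set.univ (fun _ : Fin N => closedBall (0 : ℂ) B)) :=
    isCompact_univ_pi fun _ => isCompact_closedBall _ _
  obtain ⟨s, -, φ, hφ, hs⟩ := hcomp.tendsto_subseq hmem
  have hs' : ∀ i, Tendsto (fun n => r (φ n) i) atTop (𝓝 (s i)) := fun i =>
    (tendsto_pi_nhds.1 hs) i
  refine ⟨φ, r, s, hφ, hr, ?_, hs'⟩
  apply roots_of_eval P P.leadingCoeff (leadingCoeff_ne_zero.2 hP0) s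
  intro z
  have e1 : Tendsto (fun n => (Q (φ n)).eval z) atTop (𝓝 (P.eval z)) := by
    have e2 : ∀ n, (Q (φ n)).eval z = ∑ i ∈ Finset.range (N + 1), (Q (φ n)).coeff i * z ^ i := by
      intro n
      rw [eval_eq_sum_range, hQ]
    have e3 : P.eval z = ∑ i ∈ Finset.range (N + 1), P.coeff i * z ^ i := by
      rw [eval_eq_sum_range, hP]
    rw [e3]
    simp only [e2]
    exact tendsto_finsetSum _ fun i _ => ((hlim i).comp hφ.tendsto_atTop).mul_const _
  have e2 : Tendsto (fun n => (Q (φ n)).eval z) atTop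
      (𝓝 (P.leadingCoeff * ∏ i, (z - s i))) := by
    have e3 : ∀ n, (Q (φ n)).eval z = P.leadingCoeff * ∏ i, (z - r (φ n) i) := by
      intro n
      rw [prod_enum _ _ (hr (φ n)) z, hl]
    simp only [e3]
    exact (tendsto_finsetProd _ fun i _ => (hs' i).const_sub z).const_mul _
  exact tendsto_nhds_unique e1 e2

/-- **Critical points.** -/
theorem crit {T : ℂ[X]} (h2 : 2 ≤ T.natDegree) {t₀ C₀ : ℝ} {S : ℝ → ℂ[X]} {y : ℝ → ℂ → ℂ}
    {kk : ℂ → ℕ → ℕ} (hS : Curve T t₀ C₀ S y kk) (ε : ℝ) (hε : 0 < ε) :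
    ∃ t₁ : ℝ, 0 < t₁ ∧ t₁ ≤ t₀ ∧ ∀ t : ℝ, 0 < t → t < t₁ →
      ∃ c s : Fin (T.natDegree - 1) → ℂ, (derivative (S t)).roots = Finset.univ.val.map c ∧
        (derivative T).roots = Finset.univ.val.map s ∧
        ∀ i, ‖c i - s i‖ < ε ∧ (s i ∉ NJ T → Good (ev (S t)) (c i)) := by
  classical
  by_contra hcon
  push Not at hcon
  have hC₀ := hS.C0
  have hex : ∀ n : ℕ, ∃ t : ℝ, 0 < t ∧ t < min t₀ (1 / ((n : ℝ) + 1)) ∧
      ∀ c s : Fin (T.natDegree - 1) → ℂ, (derivative (S t)).roots = Finset.univ.val.map c →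
        (derivative T).roots = Finset.univ.val.map s →
        ∃ i, (‖c i - s i‖ < ε → (s i ∉ NJ T ∧ ¬ Good (ev (S t)) (c i))) := by
    intro n
    obtain ⟨t, h0, h1, h3⟩ := hcon (min t₀ (1 / ((n : ℝ) + 1)))
      (lt_min hS.t0 (by positivity)) (min_le_left _ _)
    exact ⟨t, h0, h1, h3⟩
  choose t ht0 ht1 ht2 using hex
  have htt : ∀ n, t n ≤ t₀ := fun n => ((ht1 n).trans_le (min_le_left _ _)).le
  have htlim : Tendsto t atTop (𝓝 0) := by
    refine squeeze_zero (fun n => (ht0 n).le) (fun n => ((ht1 n).trans_le (min_le_right _ _)).le) ?_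
    exact tendsto_one_div_add_atTop_nhds_zero_nat
  have hd0 : T.coeff T.natDegree ≠ 0 := by
    intro h
    have h3 : T = 0 := leadingCoeff_eq_zero.1 h
    rw [h3, natDegree_zero] at h2
    omega
  -- the degree and the leading coefficient of the derivatives
  have hcf : ∀ P : ℂ[X], P.natDegree = T.natDegree → P.coeff T.natDegree = T.coeff T.natDegree →
      (derivative P).natDegree = T.natDegree - 1 ∧
      (derivative P).leadingCoeff = T.coeff T.natDegree * T.natDegree := by
    intro P hP1 hP2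
    have h3 : (derivative P).natDegree = T.natDegree - 1 := by
      rw [natDegree_derivative, hP1]
    refine ⟨h3, ?_⟩
    rw [leadingCoeff, h3, coeff_derivative]
    have h4 : T.natDegree - 1 + 1 = T.natDegree := by omega
    rw [h4, hP2]
    congr 1
    have h5 : ((T.natDegree - 1 : ℕ) : ℂ) + 1 = ((T.natDegree - 1 + 1 : ℕ) : ℂ) := by push_cast; ring
    rw [h5, h4]
  have hT' := hcf T rfl rfl
  have hS' : ∀ n, _ := fun n => hcf (S (t n)) (hS.deg _ (ht0 n).le (htt n))
    (hS.top _ (ht0 n).le (htt n) _ (Nat.sub_le _ _))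
  have hlc0 : T.coeff T.natDegree * T.natDegree ≠ 0 := by
    apply mul_ne_zero hd0
    have : (T.natDegree : ℂ) ≠ 0 := by
      rw [Nat.cast_ne_zero]
      omega
    exact this
  have hTd0 : derivative T ≠ 0 := by
    intro h
    have h3 := hT'.2
    rw [h, leadingCoeff_zero] at h3
    exact hlc0 h3.symm
  have hlim : ∀ j, Tendsto (fun n => (derivative (S (t n))).coeff j) atTop
      (𝓝 ((derivative T).coeff j)) := by
    intro j
    simp only [coeff_derivative]
    apply Tendsto.mul_const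
    rw [tendsto_iff_norm_sub_tendsto_zero]
    have h3 : Tendsto (fun n => C₀ * t n) atTop (𝓝 0) := by
      have := htlim.const_mul C₀
      rwa [mul_zero] at this
    exact squeeze_zero (fun n => norm_nonneg _) (fun n => hS.cf _ (ht0 n).le (htt n) _) h3
  -- the roots are bounded
  obtain ⟨B, hB⟩ : ∃ B : ℝ, ∀ n z, (derivative (S (t n))).eval z = 0 → ‖z‖ ≤ B := by
    set d := T.natDegree with hd
    have hc1 : ∀ n j, ‖(derivative (S (t n))).coeff j‖ ≤ (‖T.coeff (j + 1)‖ + C₀ * t₀) * (j + 1) := by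
      intro n j
      rw [coeff_derivative, norm_mul]
      have h3 : ‖((j : ℂ) + 1)‖ = (j : ℝ) + 1 := by
        have : ((j : ℂ) + 1) = ((j + 1 : ℕ) : ℂ) := by push_cast; ring
        rw [this, Complex.norm_natCast]
        push_cast
        ring
      rw [h3]
      apply mul_le_mul_of_nonneg_right _ (by positivity)
      have h4 := hS.cf _ (ht0 n).le (htt n) (j + 1)
      have h5 : (S (t n)).coeff (j + 1) = T.coeff (j + 1) +
        ((S (t n)).coeff (j + 1) - T.coeff (j + 1)) := by ring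
      rw [h5]
      refine (norm_add_le _ _).trans ?_
      have h6 : C₀ * t n ≤ C₀ * t₀ := mul_le_mul_of_nonneg_left (htt n) hC₀.le
      linarith
    set A : ℝ := ∑ j ∈ Finset.range (d - 1), (‖T.coeff (j + 1)‖ + C₀ * t₀) * (j + 1) with hA
    set a : ℝ := ‖T.coeff d * (d : ℂ)‖ with ha
    have ha0 : 0 < a := norm_pos_iff.2 hlc0
    have ht00 := hS.t0
    have hA0 : 0 ≤ A := Finset.sum_nonneg fun i _ => by positivity
    refine ⟨max 1 (A / a), fun n z hz => ?_⟩
    by_contra hlt
    rw [not_le, max_lt_iff] at hlt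
    obtain ⟨hz1, hz2⟩ := hlt
    rw [div_lt_iff₀ ha0] at hz2
    have e1 : (derivative (S (t n))).eval z =
        (∑ i ∈ Finset.range (d - 1), (derivative (S (t n))).coeff i * z ^ i) +
          (T.coeff d * (d : ℂ)) * z ^ (d - 1) := by
      rw [eval_eq_sum_range, (hS' n).1, Finset.sum_range_succ]
      congr 2
      have := (hS' n).2
      rwa [leadingCoeff, (hS' n).1] at this
    rw [hz] at e1
    have e2 : ‖∑ i ∈ Finset.range (d - 1), (derivative (S (t n))).coeff i * z ^ i‖ ≤
        A * ‖z‖ ^ (d - 2) := by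
      rw [hA, Finset.sum_mul]
      refine (norm_sum_le _ _).trans (Finset.sum_le_sum ?_)
      intro i hi
      rw [Finset.mem_range] at hi
      rw [norm_mul, norm_pow]
      exact mul_le_mul (hc1 n i) (pow_le_pow_right₀ hz1.le (by omega)) (by positivity)
        (by positivity)
    have e3 : ‖(T.coeff d * (d : ℂ)) * z ^ (d - 1)‖ = a * ‖z‖ * ‖z‖ ^ (d - 2) := by
      rw [norm_mul, norm_pow, ← ha, mul_assoc, ← pow_succ']
      congr 2
      omega
    have e4 : (T.coeff d * (d : ℂ)) * z ^ (d - 1) =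
        -(∑ i ∈ Finset.range (d - 1), (derivative (S (t n))).coeff i * z ^ i) := by
      linear_combination -e1
    rw [e4, norm_neg] at e3
    rw [e3] at e2
    have e5 : 0 < ‖z‖ ^ (d - 2) := by
      have : 0 < ‖z‖ := by linarith
      positivity
    have e6 := le_of_mul_le_mul_right e2 e5
    nlinarith
  obtain ⟨φ, r, s, hφ, hr, hs, hrs⟩ := roots_limit (derivative T) (fun n => derivative (S (t n)))
    hTd0 hT'.1 (fun n => (hS' n).1) (fun n => by rw [(hS' n).2, hT'.2]) hlim B hB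
  have hφt : Tendsto (fun n => t (φ n)) atTop (𝓝 0) := htlim.comp hφ.tendsto_atTop
  have hgood : ∀ i, ∀ᶠ n in atTop, ‖r (φ n) i - s i‖ < ε ∧
      (s i ∉ NJ T → Good (ev (S (t (φ n)))) (r (φ n) i)) := by
    intro i
    have h3 : ∀ᶠ n in atTop, ‖r (φ n) i - s i‖ < ε := by
      have := (hrs i).eventually (ball_mem_nhds (s i) hε)
      filter_upwards [this] with n hn
      rwa [dist_eq_norm] at hn
    by_cases hsi : s i ∈ NJ T
    · filter_upwards [h3] with n hn
      exact ⟨hn, fun h => absurd hsi h⟩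
    · have hgi : Good (ev T) (s i) ∨ Para (ev T) (s i) ∨ Sieg (ev T) (s i) := by
        by_contra h
        exact hsi h
      obtain ⟨δ, t₁, hδ, ht₁, H⟩ := local_good h2 hS (s i) hgi
      filter_upwards [h3, (hrs i).eventually (ball_mem_nhds (s i) hδ),
        hφt.eventually (gt_mem_nhds ht₁)] with n hn1 hn2 hn3
      exact ⟨hn1, fun _ => H _ (ht0 _) hn3 _ hn2⟩
  obtain ⟨n, hn⟩ := (eventually_all.2 hgood).exists
  obtain ⟨i, hi⟩ := ht2 (φ n) (r (φ n)) s (hr (φ n)) hs
  have h3 := hi (hn i).1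
  exact h3.2 ((hn i).2 h3.1)

end Pool.Agent.Q182.PB
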