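import Mathlib

/-!
# A simplex with split points over the unit interval, part 1: moments, compactness, extreme points
-/

set_option autoImplicit false

open MeasureTheory Topology Set Filter
open scoped unitInterval

namespace Pool.Agent.Q182.Porc

/-- a fixed countable dense subset of the unit interval -/
def D : Set I := (TopologicalSpace.exists_countable_dense I).choose

lemma D_countable : D.Countable := (TopologicalSpace.exists_countable_dense I).choose_spec.1

lemma D_dense : Dense D := (TopologicalSpace.exists_countable_dense I).choose_spec.2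

instance : Countable D := D_countable.to_subtype

/-- the ambient space -/
abbrev E : Type := (ℕ → ℝ) × (D → ℝ)

/-- the simplex: pairs of the moment sequence of a probability measure `μ` on `[0,1]` and a family
`w` with `|w d| ≤ μ {d}` -/
def K : Set E := {p | ∃ μ : Measure I, IsProbabilityMeasure μ ∧
  (∀ n, p.1 n = ∫ x : I, (x : ℝ) ^ n ∂μ) ∧ ∀ d : D, |p.2 d| ≤ μ.real {(d : I)}}

lemma integ (μ : Measure I) [IsFiniteMeasure μ] {f : I → ℝ} (hf : Continuous f) :
    Integrable f μ :=
  hf.integrable_of_hasCompactSupport (HasCompactSupport.of_compactSpace f)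

lemma cont_pow (n : ℕ) : Continuous fun x : I => (x : ℝ) ^ n := by fun_prop

/-! ### moments determine the measure -/

lemma mom_unique {μ ν : Measure I} [IsFiniteMeasure μ] [IsFiniteMeasure ν]
    (h : ∀ n : ℕ, ∫ x : I, (x : ℝ) ^ n ∂μ = ∫ x : I, (x : ℝ) ^ n ∂ν) : μ = ν := by
  have hpoly : ∀ p : Polynomial ℝ, ∫ x : I, p.eval (x : ℝ) ∂μ = ∫ x : I, p.eval (x : ℝ) ∂ν := by
    intro p
    have hp : ∀ x : I, p.eval (x : ℝ) = ∑ i ∈ Finset.range (p.natDegree + 1), p.coeff i * (x : ℝ) ^ i :=
      fun x => Polynomial.eval_eq_sum_range _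
    simp_rw [hp]
    rw [integral_finsetSum _ fun i _ => (integ μ (cont_pow i)).const_mul _,
      integral_finsetSum _ fun i _ => (integ ν (cont_pow i)).const_mul _]
    refine Finset.sum_congr rfl fun i _ => ?_
    rw [integral_const_mul, integral_const_mul, h]
  have hcont : ∀ f : C(I, ℝ), ∫ x, f x ∂μ = ∫ x, f x ∂ν := by
    intro f
    have key : ∀ ε > 0, |∫ x, f x ∂μ - ∫ x, f x ∂ν| ≤ ε * (μ.real univ + ν.real univ) := by
      intro ε hε
      obtain ⟨p, hp⟩ := exists_polynomial_near_continuousMap 0 1 f ε hε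
      have hpx : ∀ x : I, |p.eval (x : ℝ) - f x| ≤ ε := fun x =>
        (ContinuousMap.norm_coe_le_norm (p.toContinuousMapOn (Set.Icc 0 1) - f) x).trans hp.le
      have hpc : Continuous fun x : I => p.eval (x : ℝ) := by fun_prop
      have est : ∀ (ρ : Measure I) [IsFiniteMeasure ρ],
          |∫ x, p.eval (x : ℝ) ∂ρ - ∫ x, f x ∂ρ| ≤ ε * ρ.real univ := by
        intro ρ _
        rw [← integral_sub (integ ρ hpc) (integ ρ f.continuous)]
        exact norm_integral_le_of_norm_le_const (μ := ρ) (f := fun x : I => p.eval (x : ℝ) - f x)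
          (Eventually.of_forall hpx)
      have h1 := est μ
      have h2 := est ν
      rw [hpoly p] at h1
      rw [abs_le] at h1 h2 ⊢
      constructor <;> linarith [h1.1, h1.2, h2.1, h2.2]
    have h0 : |∫ x, f x ∂μ - ∫ x, f x ∂ν| ≤ 0 := by
      refine le_of_forall_pos_le_add fun δ hδ => ?_
      have hM : 0 < μ.real univ + ν.real univ + 1 := by positivity
      have := key (δ / (μ.real univ + ν.real univ + 1)) (by positivity)
      have h3 : δ / (μ.real univ + ν.real univ + 1) * (μ.real univ + ν.real univ) ≤ δ := by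
        rw [div_mul_eq_mul_div, div_le_iff₀ hM]
        nlinarith
      linarith
    exact sub_eq_zero.1 (abs_eq_zero.1 (le_antisymm h0 (abs_nonneg _)))
  apply ext_of_forall_integral_eq_of_IsFiniteMeasure
  intro f
  exact hcont f.toContinuousMap

/-! ### convex combinations -/

lemma comb (μ ν : Measure I) [IsProbabilityMeasure μ] [IsProbabilityMeasure ν] {a b : ℝ}
    (ha : 0 ≤ a) (hb : 0 ≤ b) (hab : a + b = 1) :
    ∃ ρ : Measure I, IsProbabilityMeasure ρ ∧
      (∀ f : I → ℝ, Integrable f μ → Integrable f ν → ∫ x, f x ∂ρ = a * ∫ x, f x ∂μ + b * ∫ x, f x ∂ν) ∧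
      ∀ s : Set I, ρ.real s = a * μ.real s + b * ν.real s := by
  have hval : ∀ s : Set I, (ENNReal.ofReal a • μ + ENNReal.ofReal b • ν) s
      = ENNReal.ofReal a * μ s + ENNReal.ofReal b * ν s := fun s => by
    rw [Measure.add_apply, Measure.smul_apply, Measure.smul_apply, smul_eq_mul, smul_eq_mul]
  refine ⟨ENNReal.ofReal a • μ + ENNReal.ofReal b • ν, ⟨?_⟩, ?_, ?_⟩
  · rw [hval, measure_univ, measure_univ, mul_one, mul_one, ← ENNReal.ofReal_add ha hb, hab,
      ENNReal.ofReal_one]
  · intro f hf hg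
    rw [integral_add_measure (hf.smul_measure ENNReal.ofReal_ne_top)
      (hg.smul_measure ENNReal.ofReal_ne_top), integral_smul_measure, integral_smul_measure,
      ENNReal.toReal_ofReal ha, ENNReal.toReal_ofReal hb, smul_eq_mul, smul_eq_mul]
  · intro s
    rw [Measure.real, hval, ENNReal.toReal_add (by finiteness) (by finiteness), ENNReal.toReal_mul,
      ENNReal.toReal_mul, ENNReal.toReal_ofReal ha, ENNReal.toReal_ofReal hb]
    rfl

lemma K_convex : Convex ℝ K := by
  rintro x ⟨μ, hμ, hμ1, hμ2⟩ y ⟨ν, hν, hν1, hν2⟩ a b ha hb hab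
  obtain ⟨ρ, hρ, hρ1, hρ2⟩ := comb μ ν ha hb hab
  refine ⟨ρ, hρ, fun n => ?_, fun d => ?_⟩
  · rw [hρ1 _ (integ μ (cont_pow n)) (integ ν (cont_pow n)), ← hμ1, ← hν1]
    simp
  · rw [hρ2]
    have h1 := hμ2 d
    have h2 := hν2 d
    have : (a • x + b • y).2 d = a * x.2 d + b * y.2 d := by simp
    rw [this]
    calc |a * x.2 d + b * y.2 d| ≤ |a * x.2 d| + |b * y.2 d| := abs_add_le _ _
      _ = a * |x.2 d| + b * |y.2 d| := by rw [abs_mul, abs_mul, abs_of_nonneg ha, abs_of_nonneg hb]
      _ ≤ _ := by gcongr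

/-! ### compactness -/

/-- tent functions -/
noncomputable def tent (d : I) (k : ℕ) : C(I, ℝ) :=
  ⟨fun x => max 0 (1 - k * |(x : ℝ) - d|), by fun_prop⟩

lemma tent_nonneg (d : I) (k : ℕ) (x : I) : 0 ≤ tent d k x := le_max_left _ _

lemma tent_le_one (d : I) (k : ℕ) (x : I) : tent d k x ≤ 1 := by
  show max 0 (1 - k * |(x : ℝ) - d|) ≤ 1
  refine max_le zero_le_one ?_
  have : 0 ≤ (k : ℝ) * |(x : ℝ) - d| := by positivity
  linarith

lemma tent_self (d : I) (k : ℕ) : tent d k d = 1 := by
  show max 0 (1 - k * |(d : ℝ) - d|) = 1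
  simp

lemma tent_tendsto (d x : I) :
    Tendsto (fun k => tent d k x) atTop (𝓝 (({d} : Set I).indicator (fun _ => (1 : ℝ)) x)) := by
  by_cases h : x = d
  · subst h
    simp [tent_self]
  · rw [indicator_of_notMem (by simpa using h)]
    have hpos : 0 < |(x : ℝ) - d| := abs_pos.2 (sub_ne_zero.2 fun h' => h (Subtype.ext h'))
    obtain ⟨N, hN⟩ := exists_nat_gt (1 / |(x : ℝ) - d|)
    refine tendsto_const_nhds.congr' ?_
    filter_upwards [eventually_ge_atTop N] with k hk
    show 0 = max 0 (1 - k * |(x : ℝ) - d|)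
    rw [max_eq_left]
    have : (N : ℝ) ≤ k := by exact_mod_cast hk
    rw [div_lt_iff₀ hpos] at hN
    nlinarith

lemma atom_iff (μ : Measure I) [IsFiniteMeasure μ] (d : I) (r : ℝ) :
    r ≤ μ.real {d} ↔ ∀ k, r ≤ ∫ x, tent d k x ∂μ := by
  have hind : ∫ x, ({d} : Set I).indicator (fun _ => (1 : ℝ)) x ∂μ = μ.real {d} := by
    rw [integral_indicator (measurableSet_singleton d)]
    simp [Measure.real]
  constructor
  · intro h k
    refine h.trans ?_
    rw [← hind]
    refine integral_mono ((integrable_const (1 : ℝ)).indicator (measurableSet_singleton d))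
      (integ μ (tent d k).continuous) fun x => ?_
    by_cases hx : x = d
    · subst hx; simp [tent_self]
    · rw [indicator_of_notMem (by simpa using hx)]; exact tent_nonneg _ _ _
  · intro h
    rw [← hind]
    have hlim : Tendsto (fun k => ∫ x, tent d k x ∂μ) atTop
        (𝓝 (∫ x, ({d} : Set I).indicator (fun _ => (1 : ℝ)) x ∂μ)) := by
      refine tendsto_integral_of_dominated_convergence (fun _ => (1 : ℝ)) ?_ ?_ ?_ ?_
      · exact fun k => (tent d k).continuous.aestronglyMeasurable
      · exact integrable_const _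
      · refine fun k => Eventually.of_forall fun x => ?_
        rw [Real.norm_eq_abs, abs_of_nonneg (tent_nonneg _ _ _)]
        exact tent_le_one _ _ _
      · exact Eventually.of_forall fun x => tent_tendsto d x
    exact ge_of_tendsto' hlim h

lemma cont_int (f : C(I, ℝ)) :
    Continuous fun μ : ProbabilityMeasure I => ∫ x, f x ∂(μ : Measure I) :=
  ProbabilityMeasure.continuous_integral_boundedContinuousFunction
    (BoundedContinuousFunction.mkOfCompact f)

/-- the compact model -/
def KK : Set (ProbabilityMeasure I × (D → Set.Icc (-1 : ℝ) 1)) :=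
  {q | ∀ (d : D) (k : ℕ), |(q.2 d : ℝ)| ≤ ∫ x, tent d k x ∂(q.1 : Measure I)}

/-- the parametrisation -/
noncomputable def Phi (q : ProbabilityMeasure I × (D → Set.Icc (-1 : ℝ) 1)) : E :=
  (fun n => ∫ x : I, (x : ℝ) ^ n ∂(q.1 : Measure I), fun d => (q.2 d : ℝ))

lemma Phi_cont : Continuous Phi := by
  refine Continuous.prodMk ?_ ?_
  · exact continuous_pi fun n => (cont_int ⟨fun x => (x : ℝ) ^ n, cont_pow n⟩).comp continuous_fst
  · exact continuous_pi fun d => continuous_subtype_val.comp
      ((continuous_apply d).comp continuous_snd)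

lemma KK_closed : IsClosed KK := by
  have : KK = ⋂ (d : D) (k : ℕ), {q : ProbabilityMeasure I × (D → Set.Icc (-1 : ℝ) 1) |
      |(q.2 d : ℝ)| ≤ ∫ x, tent d k x ∂(q.1 : Measure I)} := by
    ext q; simp [KK]
  rw [this]
  refine isClosed_iInter fun d => isClosed_iInter fun k => isClosed_le ?_ ?_
  · exact (continuous_subtype_val.comp ((continuous_apply d).comp continuous_snd)).abs
  · exact (cont_int (tent d k)).comp continuous_fst

lemma K_eq : K = Phi '' KK := by
  ext p
  constructor
  · rintro ⟨μ, hμ, h1, h2⟩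
    have hb : ∀ d : D, p.2 d ∈ Set.Icc (-1 : ℝ) 1 := fun d => by
      exact abs_le.1 ((h2 d).trans measureReal_le_one)
    refine ⟨(⟨μ, hμ⟩, fun d => ⟨p.2 d, hb d⟩), fun d k => ?_, ?_⟩
    · exact (atom_iff μ d _).1 (h2 d) k
    · refine Prod.ext (funext fun n => ?_) rfl
      exact (h1 n).symm
  · rintro ⟨q, hq, rfl⟩
    exact ⟨q.1, inferInstance, fun n => rfl, fun d => (atom_iff _ _ _).2 (hq d)⟩

lemma K_compact : IsCompact K := by
  rw [K_eq]
  exact KK_closed.isCompact.image Phi_cont

end Pool.Agent.Q182.Porc
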