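import Pool.Agent.Q182.Porc1

/-!
# A simplex with split points over the unit interval, part 2: extreme points
-/

set_option autoImplicit false

open MeasureTheory Topology Set Filter
open scoped unitInterval

namespace Pool.Agent.Q182.Porc

/-- the point of the simplex over `c` with `w = 0` -/
noncomputable def iota (c : I) : E := (fun n => (c : ℝ) ^ n, 0)

open Classical in
/-- the two split points over `d ∈ D` are `apex d 1` and `apex d (-1)` -/
noncomputable def apex (d : D) (s : ℝ) : E := (fun n => ((d : I) : ℝ) ^ n, Pi.single d s)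

/-- the extreme points -/
def T : Set E := {p | (∃ c : I, c ∉ D ∧ p = iota c) ∨ ∃ d : D, p = apex d 1 ∨ p = apex d (-1)}

lemma apex_self (d : D) (s : ℝ) : (apex d s).2 d = s := by
  simp [apex]

lemma apex_ne {d d' : D} (h : d' ≠ d) (s : ℝ) : (apex d s).2 d' = 0 := by
  simp [apex, h]

lemma eq_dirac {μ : Measure I} [IsProbabilityMeasure μ] {c : I} (h : μ {c}ᶜ = 0) :
    μ = Measure.dirac c := by
  refine Measure.ext fun s hs => ?_
  rw [Measure.dirac_apply' _ hs]
  by_cases hc : c ∈ s
  · rw [indicator_of_mem hc]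
    have : μ sᶜ = 0 := measure_mono_null (compl_subset_compl.2 (singleton_subset_iff.2 hc)) h
    simpa using (prob_compl_eq_zero_iff hs).1 this
  · rw [indicator_of_notMem hc]
    exact measure_mono_null (fun x hx => by
      rintro rfl
      exact hc hx) h

lemma dirac_real (c d : I) : (Measure.dirac c).real {d} = if c = d then 1 else 0 := by
  rw [Measure.real, Measure.dirac_apply' _ (measurableSet_singleton d)]
  by_cases h : c = d
  · simp [h]
  · simp [h]

/-- the variance about `c` as an affine function of the point of `K` -/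
noncomputable def G (c : I) (p : E) : ℝ := p.1 2 - 2 * c * p.1 1 + c ^ 2 * p.1 0

lemma G_eq (c : I) {p : E} {μ : Measure I} [IsProbabilityMeasure μ]
    (h : ∀ n, p.1 n = ∫ x : I, (x : ℝ) ^ n ∂μ) : G c p = ∫ x : I, ((x : ℝ) - c) ^ 2 ∂μ := by
  have h1 : ∀ x : I, ((x : ℝ) - c) ^ 2 = (x : ℝ) ^ 2 - 2 * c * (x : ℝ) ^ 1 + c ^ 2 * (x : ℝ) ^ 0 :=
    fun x => by ring
  have i2 := integ μ (cont_pow 2)
  have i1 : Integrable (fun x : I => 2 * (c : ℝ) * (x : ℝ) ^ 1) μ := (integ μ (cont_pow 1)).const_mul _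
  have i0 : Integrable (fun x : I => (c : ℝ) ^ 2 * (x : ℝ) ^ 0) μ := (integ μ (cont_pow 0)).const_mul _
  have i21 : Integrable (fun x : I => (x : ℝ) ^ 2 - 2 * (c : ℝ) * (x : ℝ) ^ 1) μ := i2.sub i1
  simp_rw [h1]
  rw [integral_add i21 i0, integral_sub i2 i1, integral_const_mul, integral_const_mul, ← h, ← h, ← h]
  rfl

lemma G_nonneg (c : I) {p : E} (hp : p ∈ K) : 0 ≤ G c p := by
  obtain ⟨μ, hμ, h1, -⟩ := hp
  rw [G_eq c h1]
  exact integral_nonneg fun x => sq_nonneg _

lemma G_zero (c : I) {p : E} (hp : p ∈ K) (h : G c p = 0) :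
    (∀ n, p.1 n = (c : ℝ) ^ n) ∧ ∀ d : D, |p.2 d| ≤ if c = d then 1 else 0 := by
  obtain ⟨μ, hμ, h1, h2⟩ := hp
  have hcont : Continuous fun x : I => ((x : ℝ) - (c : ℝ)) ^ 2 :=
    (continuous_subtype_val.sub continuous_const).pow 2
  rw [G_eq c h1, integral_eq_zero_iff_of_nonneg (fun x => sq_nonneg _) (integ μ hcont)] at h
  have hd : μ = Measure.dirac c := by
    apply eq_dirac
    rw [Filter.EventuallyEq, ae_iff] at h
    refine measure_mono_null (fun x hx => ?_) h
    intro hx'
    apply hx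
    have : ((x : ℝ) - c) ^ 2 = 0 := hx'
    exact Subtype.ext (sub_eq_zero.1 (pow_eq_zero_iff (by norm_num)|>.1 this))
  subst hd
  constructor
  · intro n; rw [h1, integral_dirac]
  · intro d; rw [← dirac_real]; exact h2 d

lemma iota_mem (c : I) : iota c ∈ K :=
  ⟨Measure.dirac c, inferInstance, fun n => by rw [integral_dirac]; rfl, fun d => by
    simp [iota]⟩

lemma apex_mem (d : D) {s : ℝ} (hs : |s| ≤ 1) : apex d s ∈ K := by
  refine ⟨Measure.dirac d, inferInstance, fun n => by rw [integral_dirac]; rfl, fun d' => ?_⟩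
  by_cases h : d' = d
  · subst h
    rw [apex_self, dirac_real, if_pos rfl]; exact hs
  · rw [apex_ne h, abs_zero]; exact measureReal_nonneg

lemma G_of_moments (c : I) {p : E} (h : ∀ n, p.1 n = (c : ℝ) ^ n) : G c p = 0 := by
  unfold G
  rw [h, h, h]; ring

lemma G_comb (c : I) (a b : ℝ) (x y : E) : G c (a • x + b • y) = a * G c x + b * G c y := by
  simp [G]; ring

lemma seg (c : I) {p x y : E} (hp : ∀ n, p.1 n = (c : ℝ) ^ n) (hx : x ∈ K) (hy : y ∈ K)
    {a b : ℝ} (ha : 0 < a) (hb : 0 < b) (h : a • x + b • y = p) : G c x = 0 ∧ G c y = 0 := by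
  have h0 := G_of_moments c hp
  rw [← h, G_comb] at h0
  have h1 := G_nonneg c hx
  have h2 := G_nonneg c hy
  have h3 : 0 ≤ a * G c x := mul_nonneg ha.le h1
  have h4 : 0 ≤ b * G c y := mul_nonneg hb.le h2
  constructor
  · exact (mul_eq_zero.1 (by linarith : a * G c x = 0)).resolve_left ha.ne'
  · exact (mul_eq_zero.1 (by linarith : b * G c y = 0)).resolve_left hb.ne'

lemma T_subset : T ⊆ K.extremePoints ℝ := by
  rintro p (⟨c, hc, rfl⟩ | ⟨d, hd⟩)
  · rw [mem_extremePoints_iff_left]
    refine ⟨iota_mem c, fun x hx y hy hseg => ?_⟩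
    obtain ⟨a, b, ha, hb, hab, h⟩ := hseg
    have hG := (seg c (fun n => rfl) hx hy ha hb h).1
    obtain ⟨h1, h2⟩ := G_zero c hx hG
    refine Prod.ext (funext h1) (funext fun d => ?_)
    have := h2 d
    rw [if_neg (show ¬ (c = (d : I)) from fun h => hc (by rw [h]; exact d.2))] at this
    exact abs_nonpos_iff.1 this
  · obtain ⟨s, hs, rfl⟩ : ∃ s : ℝ, (s = 1 ∨ s = -1) ∧ p = apex d s := by
      rcases hd with rfl | rfl
      · exact ⟨1, Or.inl rfl, rfl⟩
      · exact ⟨-1, Or.inr rfl, rfl⟩
    have hs1 : |s| ≤ 1 := by rcases hs with rfl | rfl <;> simp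
    rw [mem_extremePoints_iff_left]
    refine ⟨apex_mem d hs1, fun x hx y hy hseg => ?_⟩
    obtain ⟨a, b, ha, hb, hab, h⟩ := hseg
    obtain ⟨hG, hG'⟩ := seg d (fun n => rfl) hx hy ha hb h
    obtain ⟨h1, h2⟩ := G_zero _ hx hG
    obtain ⟨-, h2'⟩ := G_zero _ hy hG'
    refine Prod.ext (funext h1) (funext fun d' => ?_)
    by_cases hdd : d' = d
    · subst hdd
      rw [apex_self]
      have e : a * x.2 d' + b * y.2 d' = s := by
        have := congrArg (fun q : E => q.2 d') h
        simpa [apex_self] using this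
      have u1 := h2 d'
      have u2 := h2' d'
      rw [if_pos rfl, abs_le] at u1 u2
      rcases hs with rfl | rfl
      · nlinarith
      · nlinarith
    · rw [apex_ne hdd]
      have := h2 d'
      rw [if_neg (show ¬ ((d : I) = (d' : I)) from fun h => hdd (Subtype.ext h.symm))] at this
      exact abs_nonpos_iff.1 this

open Classical in
/-- the normalised restriction of a point of `K` to a subset of the interval -/
noncomputable def part (μ : Measure I) (p : E) (S : Set I) : E :=
  (fun n => (μ.real S)⁻¹ * ∫ x in S, (x : ℝ) ^ n ∂μ,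
    fun d => if (d : I) ∈ S then (μ.real S)⁻¹ * p.2 d else 0)

lemma part_mem {μ : Measure I} [IsProbabilityMeasure μ] {p : E}
    (h2 : ∀ d : D, |p.2 d| ≤ μ.real {(d : I)}) {S : Set I} (_hS : MeasurableSet S)
    (hpos : 0 < μ.real S) : part μ p S ∈ K := by
  have hS0 : μ S ≠ 0 := fun h => by simp [Measure.real, h] at hpos
  have hinv : ((μ S)⁻¹).toReal = (μ.real S)⁻¹ := ENNReal.toReal_inv _
  refine ⟨(μ S)⁻¹ • μ.restrict S, ⟨?_⟩, fun n => ?_, fun d => ?_⟩
  · rw [Measure.smul_apply, Measure.restrict_apply_univ, smul_eq_mul,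
      ENNReal.inv_mul_cancel hS0 (measure_ne_top _ _)]
  · rw [integral_smul_measure, hinv, smul_eq_mul]; rfl
  · have hval : ((μ S)⁻¹ • μ.restrict S).real {(d : I)} = (μ.real S)⁻¹ * μ.real ({(d : I)} ∩ S) := by
      rw [Measure.real, Measure.smul_apply, smul_eq_mul, ENNReal.toReal_mul, hinv,
        Measure.restrict_apply (measurableSet_singleton _)]
      rfl
    rw [hval]
    by_cases hd : (d : I) ∈ S
    · have e1 : (part μ p S).2 d = (μ.real S)⁻¹ * p.2 d := by simp [part, hd]
      rw [e1, abs_mul, abs_of_pos (inv_pos.2 hpos),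
        inter_eq_left.2 (singleton_subset_iff.2 hd)]
      exact mul_le_mul_of_nonneg_left (h2 d) (inv_pos.2 hpos).le
    · have e1 : (part μ p S).2 d = 0 := by simp [part, hd]
      rw [e1, abs_zero]
      positivity

lemma part_seg {μ : Measure I} [IsProbabilityMeasure μ] {p : E}
    (h1 : ∀ n, p.1 n = ∫ x : I, (x : ℝ) ^ n ∂μ) {S : Set I} (hS : MeasurableSet S)
    (hpos : 0 < μ.real S) (hpos' : 0 < μ.real Sᶜ) :
    p ∈ openSegment ℝ (part μ p S) (part μ p Sᶜ) := by
  refine ⟨μ.real S, μ.real Sᶜ, hpos, hpos', ?_, ?_⟩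
  · rw [probReal_compl_eq_one_sub hS]; ring
  · refine Prod.ext (funext fun n => ?_) (funext fun d => ?_)
    · show μ.real S * ((μ.real S)⁻¹ * ∫ x in S, (x : ℝ) ^ n ∂μ)
        + μ.real Sᶜ * ((μ.real Sᶜ)⁻¹ * ∫ x in Sᶜ, (x : ℝ) ^ n ∂μ) = p.1 n
      rw [mul_inv_cancel_left₀ hpos.ne', mul_inv_cancel_left₀ hpos'.ne', h1,
        integral_add_compl hS (integ μ (cont_pow n))]
    · show μ.real S * (part μ p S).2 d + μ.real Sᶜ * (part μ p Sᶜ).2 d = p.2 d
      by_cases hd : (d : I) ∈ S
      · have e1 : (part μ p S).2 d = (μ.real S)⁻¹ * p.2 d := by simp [part, hd]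
        have e2 : (part μ p Sᶜ).2 d = 0 := by simp [part, hd]
        rw [e1, e2, mul_inv_cancel_left₀ hpos.ne']; ring
      · have e1 : (part μ p S).2 d = 0 := by simp [part, hd]
        have e2 : (part μ p Sᶜ).2 d = (μ.real Sᶜ)⁻¹ * p.2 d := by simp [part, hd]
        rw [e1, e2, mul_inv_cancel_left₀ hpos'.ne']; ring

lemma extreme_subset : K.extremePoints ℝ ⊆ T := by
  intro p hp
  obtain ⟨hpK, hext⟩ := mem_extremePoints_iff_left.1 hp
  obtain ⟨μ, hμ, h1, h2⟩ := hpK
  set c₀ : ℝ := ∫ x : I, (x : ℝ) ∂μ with hc₀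
  have hc1 : p.1 1 = c₀ := by rw [h1 1]; simp [hc₀]
  have hint : Integrable (fun x : I => (x : ℝ)) μ := integ μ (by fun_prop)
  set S : Set I := {x | c₀ < (x : ℝ)} with hSdef
  have hS : MeasurableSet S := measurableSet_lt measurable_const measurable_subtype_coe
  -- the part above the mean is null
  have hS0 : μ.real S = 0 := by
    by_contra hne
    have hpos : 0 < μ.real S := lt_of_le_of_ne measureReal_nonneg (Ne.symm hne)
    -- the mean over S is larger
    have hmean : 0 < ∫ x in S, ((x : ℝ) - c₀) ∂μ := by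
      rw [setIntegral_pos_iff_support_of_nonneg_ae]
      · have : (Function.support fun x : I => (x : ℝ) - c₀) ∩ S = S := by
          refine inter_eq_right.2 fun x hx => ?_
          have : c₀ < (x : ℝ) := hx
          exact sub_ne_zero.2 this.ne'
        rw [this]
        exact (ENNReal.toReal_pos_iff.1 hpos).1
      · refine (ae_restrict_iff' hS).2 (Eventually.of_forall fun x hx => ?_)
        have : c₀ < (x : ℝ) := hx
        show 0 ≤ (x : ℝ) - c₀
        linarith
      · exact (hint.sub (integrable_const _)).integrableOn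
    have hmean' : c₀ * μ.real S < ∫ x in S, (x : ℝ) ∂μ := by
      rw [integral_sub hint.integrableOn (integrable_const _).integrableOn, setIntegral_const] at hmean
      rw [smul_eq_mul] at hmean
      linarith
    by_cases hc : 0 < μ.real Sᶜ
    · have := hext _ (part_mem h2 hS hpos) _ (part_mem h2 hS.compl hc) (part_seg h1 hS hpos hc)
      have h3 : (part μ p S).1 1 = c₀ := by rw [this, hc1]
      have h4 : (part μ p S).1 1 = (μ.real S)⁻¹ * ∫ x in S, (x : ℝ) ∂μ := by
        show (μ.real S)⁻¹ * ∫ x in S, (x : ℝ) ^ 1 ∂μ = _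
        simp
      rw [h4, inv_mul_eq_iff_eq_mul₀ hpos.ne'] at h3
      rw [h3] at hmean'
      linarith
    · have hz : μ.real Sᶜ = 0 := le_antisymm (not_lt.1 hc) measureReal_nonneg
      have hS1 : μ.real S = 1 := by
        rw [probReal_compl_eq_one_sub hS] at hz; linarith
      have : ∫ x in S, (x : ℝ) ∂μ = c₀ := by
        rw [hc₀, ← integral_add_compl hS hint]
        have : μ Sᶜ = 0 := by
          rcases (ENNReal.toReal_eq_zero_iff _).1 hz with h | h
          · exact h
          · exact absurd h (measure_ne_top _ _)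
        rw [Measure.restrict_eq_zero.2 this, integral_zero_measure, add_zero]
      rw [this, hS1] at hmean'
      linarith
  have hS0' : μ S = 0 := by
    rcases (ENNReal.toReal_eq_zero_iff _).1 hS0 with h | h
    · exact h
    · exact absurd h (measure_ne_top _ _)
  -- hence μ is a Dirac measure
  have hle : ∀ᵐ x : I ∂μ, 0 ≤ c₀ - (x : ℝ) := by
    rw [ae_iff]
    refine measure_mono_null (fun x hx => ?_) hS0'
    have hx' : ¬ (0 ≤ c₀ - (x : ℝ)) := hx
    show c₀ < (x : ℝ)
    linarith [not_le.1 hx']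
  have hzero : ∫ x : I, (c₀ - (x : ℝ)) ∂μ = 0 := by
    rw [integral_sub (integrable_const _) hint, integral_const, ← hc₀]
    simp
  have hae : ∀ᵐ x : I ∂μ, (x : ℝ) = c₀ := by
    have := (integral_eq_zero_iff_of_nonneg_ae hle ((integrable_const _).sub hint)).1 hzero
    filter_upwards [this] with x hx
    have : c₀ - (x : ℝ) = 0 := hx
    linarith
  obtain ⟨c, hc⟩ := hae.exists
  have hnull : μ {c}ᶜ = 0 := by
    rw [ae_iff] at hae
    refine measure_mono_null (fun x hx => ?_) hae
    intro hx'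
    exact hx (Subtype.ext (hx'.trans hc.symm))
  have hd := eq_dirac hnull
  subst hd
  have hp1 : ∀ n, p.1 n = (c : ℝ) ^ n := fun n => by rw [h1, integral_dirac]
  have hp2 : ∀ d : D, |p.2 d| ≤ if c = d then 1 else 0 := fun d => by rw [← dirac_real]; exact h2 d
  by_cases hcD : c ∈ D
  · right
    refine ⟨⟨c, hcD⟩, ?_⟩
    set d : D := ⟨c, hcD⟩ with hd
    have hbd := hp2 d
    rw [if_pos rfl, abs_le] at hbd
    have hother : ∀ d' : D, d' ≠ d → p.2 d' = 0 := fun d' hd' => by
      have := hp2 d'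
      rw [if_neg (show ¬ (c = (d' : I)) from fun h => hd' (Subtype.ext h.symm))] at this
      exact abs_nonpos_iff.1 this
    have hpa : p = apex d (p.2 d) := by
      refine Prod.ext (funext hp1) (funext fun d' => ?_)
      by_cases h : d' = d
      · subst h; rw [apex_self]
      · rw [apex_ne h, hother d' h]
    by_contra hcon
    push Not at hcon
    have hlt : -1 < p.2 d ∧ p.2 d < 1 := by
      constructor
      · refine lt_of_le_of_ne hbd.1 fun h => hcon.2 ?_
        rw [h]; exact hpa
      · refine lt_of_le_of_ne hbd.2 fun h => hcon.1 ?_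
        rw [← h]; exact hpa
    have hseg : p ∈ openSegment ℝ (apex d 1) (apex d (-1)) := by
      refine ⟨(1 + p.2 d) / 2, (1 - p.2 d) / 2, by linarith, by linarith, by ring, ?_⟩
      refine Prod.ext (funext fun n => ?_) (funext fun d' => ?_)
      · show (1 + p.2 d) / 2 * (c : ℝ) ^ n + (1 - p.2 d) / 2 * (c : ℝ) ^ n = p.1 n
        rw [hp1]; ring
      · show (1 + p.2 d) / 2 * (apex d 1).2 d' + (1 - p.2 d) / 2 * (apex d (-1)).2 d' = p.2 d'
        by_cases h : d' = d
        · subst h; rw [apex_self, apex_self]; ring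
        · rw [apex_ne h, apex_ne h, hother d' h]; ring
    have := hext _ (apex_mem d (by simp)) _ (apex_mem d (by simp)) hseg
    exact hcon.1 this.symm
  · left
    refine ⟨c, hcD, Prod.ext (funext hp1) (funext fun d => ?_)⟩
    have := hp2 d
    rw [if_neg (show ¬ (c = (d : I)) from fun h => hcD (by rw [h]; exact d.2))] at this
    exact abs_nonpos_iff.1 this

lemma extreme_eq : K.extremePoints ℝ = T := Subset.antisymm extreme_subset T_subset

end Pool.Agent.Q182.Porc
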