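import Pool.Agent.Q182.Porc2

/-!
# A simplex with split points over the unit interval, part 3: representing measures
-/

set_option autoImplicit false

open MeasureTheory Topology Set Filter
open scoped unitInterval

namespace Pool.Agent.Q182.Porc

/-! ### continuous functionals on products of lines -/

lemma functional_finite {ι : Type*} (ℓ : (ι → ℝ) →L[ℝ] ℝ) :
    ∃ (s : Finset ι) (c : ι → ℝ), ∀ x, ℓ x = ∑ i ∈ s, c i * x i := by
  classical
  have h0 : {x : ι → ℝ | ℓ x < 1} ∈ 𝓝 (0 : ι → ℝ) := by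
    refine (isOpen_lt ℓ.continuous continuous_const).mem_nhds ?_
    show ℓ 0 < 1
    simp
  rw [nhds_pi, Filter.mem_pi] at h0
  obtain ⟨J, hJ, t, ht, hsub⟩ := h0
  have hvan : ∀ x : ι → ℝ, (∀ i ∈ J, x i = 0) → ℓ x = 0 := by
    intro x hx
    by_contra hne
    have hmem : (fun i => (2 / ℓ x) * x i) ∈ J.pi t := by
      intro i hi
      show 2 / ℓ x * x i ∈ t i
      rw [hx i hi, mul_zero]
      exact mem_of_mem_nhds (ht i)
    have h1 : ℓ (fun i => (2 / ℓ x) * x i) < 1 := hsub hmem
    have h2 : (fun i => (2 / ℓ x) * x i) = (2 / ℓ x) • x := rfl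
    rw [h2, map_smul, smul_eq_mul, div_mul_cancel₀ _ hne] at h1
    linarith
  refine ⟨hJ.toFinset, fun i => ℓ (Pi.single i 1), fun x => ?_⟩
  have hdec : ℓ (x - ∑ i ∈ hJ.toFinset, x i • (Pi.single i (1 : ℝ) : ι → ℝ)) = 0 := by
    apply hvan
    intro j hj
    have hj' : j ∈ hJ.toFinset := hJ.mem_toFinset.2 hj
    rw [Pi.sub_apply, Finset.sum_apply, Finset.sum_eq_single j]
    · simp
    · intro i _ hij
      simp [Ne.symm hij]
    · intro h; exact absurd hj' h
  rw [map_sub, map_sum, sub_eq_zero] at hdec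
  rw [hdec]
  refine Finset.sum_congr rfl fun i _ => ?_
  rw [map_smul, smul_eq_mul, mul_comm]

/-- a continuous functional on `E` depends on finitely many coordinates -/
lemma functional_E (ℓ : E →L[ℝ] ℝ) :
    ∃ (s : Finset ℕ) (a : ℕ → ℝ) (t : Finset D) (b : D → ℝ),
      ∀ p : E, ℓ p = ∑ n ∈ s, a n * p.1 n + ∑ d ∈ t, b d * p.2 d := by
  obtain ⟨s, a, h1⟩ := functional_finite (ℓ.comp (ContinuousLinearMap.inl ℝ (ℕ → ℝ) (D → ℝ)))
  obtain ⟨t, b, h2⟩ := functional_finite (ℓ.comp (ContinuousLinearMap.inr ℝ (ℕ → ℝ) (D → ℝ)))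
  refine ⟨s, a, t, b, fun p => ?_⟩
  rw [← h1, ← h2]
  have : p = (p.1, 0) + (0, p.2) := by simp
  conv_lhs => rw [this]
  rw [map_add]
  rfl

/-! ### measures on the extreme points -/

lemma meas_fst (n : ℕ) : Measurable fun p : E => p.1 n :=
  ((continuous_apply n).comp continuous_fst).measurable

lemma meas_snd (d : D) : Measurable fun p : E => p.2 d :=
  ((continuous_apply d).comp continuous_snd).measurable

lemma T_fst {p : E} (hp : p ∈ T) (n : ℕ) : |p.1 n| ≤ 1 := by
  have key : ∀ c : I, |(c : ℝ) ^ n| ≤ 1 := fun c => by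
    rw [abs_of_nonneg (pow_nonneg c.2.1 n)]; exact pow_le_one₀ c.2.1 c.2.2
  rcases hp with ⟨c, -, rfl⟩ | ⟨d, rfl | rfl⟩
  · exact key c
  · exact key d
  · exact key d

lemma T_snd {p : E} (hp : p ∈ T) (d : D) : |p.2 d| ≤ 1 := by
  rcases hp with ⟨c, -, rfl⟩ | ⟨d', rfl | rfl⟩
  · simp [iota]
  · by_cases h : d = d'
    · subst h; rw [apex_self]; simp
    · rw [apex_ne h]; simp
  · by_cases h : d = d'
    · subst h; rw [apex_self]; simp
    · rw [apex_ne h]; simp

lemma int_fst {ξ : Measure E} [IsFiniteMeasure ξ] (hT : ∀ᵐ p ∂ξ, p ∈ T) (n : ℕ) :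
    Integrable (fun p : E => p.1 n) ξ :=
  Integrable.of_bound (meas_fst n).aestronglyMeasurable 1 (hT.mono fun _ hp => T_fst hp n)

lemma int_snd {ξ : Measure E} [IsFiniteMeasure ξ] (hT : ∀ᵐ p ∂ξ, p ∈ T) (d : D) :
    Integrable (fun p : E => p.2 d) ξ :=
  Integrable.of_bound (meas_snd d).aestronglyMeasurable 1 (hT.mono fun _ hp => T_snd hp d)

/-- barycentres are determined by coordinates -/
lemma bary_iff {ξ : Measure E} [IsFiniteMeasure ξ] (hT : ∀ᵐ p ∂ξ, p ∈ T) (x : E) :
    (∀ ℓ : E →L[ℝ] ℝ, ∫ y, ℓ y ∂ξ = ℓ x) ↔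
      (∀ n, ∫ p : E, p.1 n ∂ξ = x.1 n) ∧ ∀ d : D, ∫ p : E, p.2 d ∂ξ = x.2 d := by
  constructor
  · intro h
    constructor
    · intro n
      exact h ((ContinuousLinearMap.proj n).comp (ContinuousLinearMap.fst ℝ (ℕ → ℝ) (D → ℝ)))
    · intro d
      exact h ((ContinuousLinearMap.proj d).comp (ContinuousLinearMap.snd ℝ (ℕ → ℝ) (D → ℝ)))
  · rintro ⟨h1, h2⟩ ℓ
    obtain ⟨s, a, t, b, hℓ⟩ := functional_E ℓ
    simp_rw [hℓ]
    have i1 : ∀ n ∈ s, Integrable (fun p : E => a n * p.1 n) ξ :=
      fun n _ => (int_fst hT n).const_mul _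
    have i2 : ∀ d ∈ t, Integrable (fun p : E => b d * p.2 d) ξ :=
      fun d _ => (int_snd hT d).const_mul _
    rw [integral_add (integrable_finsetSum _ i1) (integrable_finsetSum _ i2),
      integral_finsetSum _ i1, integral_finsetSum _ i2]
    congr 1
    · exact Finset.sum_congr rfl fun n _ => by rw [integral_const_mul, h1]
    · exact Finset.sum_congr rfl fun d _ => by rw [integral_const_mul, h2]

/-- the projection to the interval -/
noncomputable def prj (p : E) : I := projIcc 0 1 zero_le_one (p.1 1)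

lemma prj_cont : Continuous prj :=
  continuous_projIcc.comp ((continuous_apply 1).comp continuous_fst)

lemma prj_iota (c : I) : prj (iota c) = c := by
  show projIcc 0 1 zero_le_one ((c : ℝ) ^ 1) = c
  rw [pow_one]
  exact projIcc_val _ c

lemma prj_apex (d : D) (s : ℝ) : prj (apex d s) = d := by
  show projIcc 0 1 zero_le_one (((d : I) : ℝ) ^ 1) = d
  rw [pow_one]
  exact projIcc_val _ _

lemma T_prj {p : E} (hp : p ∈ T) (n : ℕ) : p.1 n = (prj p : ℝ) ^ n := by
  rcases hp with ⟨c, -, rfl⟩ | ⟨d, rfl | rfl⟩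
  · rw [prj_iota]; rfl
  · rw [prj_apex]; rfl
  · rw [prj_apex]; rfl

lemma T_of_prj {p : E} (hp : p ∈ T) (h : prj p ∉ D) : p = iota (prj p) := by
  rcases hp with ⟨c, -, rfl⟩ | ⟨d, rfl | rfl⟩
  · rw [prj_iota]
  · rw [prj_apex] at h; exact absurd d.2 h
  · rw [prj_apex] at h; exact absurd d.2 h

lemma T_of_prj' {p : E} (hp : p ∈ T) {d : D} (h : prj p = d) : p = apex d 1 ∨ p = apex d (-1) := by
  rcases hp with ⟨c, hc, rfl⟩ | ⟨d', rfl | rfl⟩
  · rw [prj_iota] at h; exact absurd (h ▸ d.2) hc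
  · rw [prj_apex] at h; left; rw [Subtype.ext h]
  · rw [prj_apex] at h; right; rw [Subtype.ext h]

lemma apex_inj {d : D} : apex d 1 ≠ apex d (-1) := by
  intro h
  have := congrArg (fun q : E => q.2 d) h
  simp only [apex_self] at this
  norm_num at this

lemma T_snd_eq {p : E} (hp : p ∈ T) (d : D) :
    p.2 d = ({apex d 1} : Set E).indicator (fun _ => (1 : ℝ)) p
      - ({apex d (-1)} : Set E).indicator (fun _ => (1 : ℝ)) p := by
  by_cases h : prj p = d
  · rcases T_of_prj' hp h with rfl | rfl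
    · rw [indicator_of_mem (mem_singleton _), indicator_of_notMem (by simpa using apex_inj),
        apex_self]
      norm_num
    · rw [indicator_of_mem (mem_singleton _), indicator_of_notMem (by simpa using apex_inj.symm),
        apex_self]
      norm_num
  · have h1 : p ≠ apex d 1 := fun e => h (by rw [e, prj_apex])
    have h2 : p ≠ apex d (-1) := fun e => h (by rw [e, prj_apex])
    rw [indicator_of_notMem (by simpa using h1), indicator_of_notMem (by simpa using h2), sub_zero]
    rcases hp with ⟨c, -, rfl⟩ | ⟨d', rfl | rfl⟩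
    · rfl
    · refine apex_ne (fun e => h ?_) _
      rw [prj_apex, e]
    · refine apex_ne (fun e => h ?_) _
      rw [prj_apex, e]

/-- the data of a representing measure -/
structure Rep (x : E) (ξ : Measure E) : Prop where
  prob : IsProbabilityMeasure ξ
  conc : ∀ᵐ p ∂ξ, p ∈ T
  fst : ∀ n, ∫ p : E, p.1 n ∂ξ = x.1 n
  snd : ∀ d : D, ∫ p : E, p.2 d ∂ξ = x.2 d

lemma Rep.map_mom {x : E} {ξ : Measure E} (h : Rep x ξ) (n : ℕ) :
    ∫ c : I, (c : ℝ) ^ n ∂(ξ.map prj) = x.1 n := by
  have := h.prob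
  rw [integral_map prj_cont.aemeasurable (cont_pow n).aestronglyMeasurable, ← h.fst n]
  exact integral_congr_ae (h.conc.mono fun p hp => (T_prj hp n).symm)

lemma Rep.map_eq {x : E} {ξ ξ' : Measure E} (h : Rep x ξ) (h' : Rep x ξ') :
    ξ.map prj = ξ'.map prj := by
  have := h.prob
  have := h'.prob
  have i1 : IsProbabilityMeasure (ξ.map prj) := Measure.isProbabilityMeasure_map prj_cont.aemeasurable
  have i2 : IsProbabilityMeasure (ξ'.map prj) := Measure.isProbabilityMeasure_map prj_cont.aemeasurable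
  exact mom_unique fun n => by rw [h.map_mom, h'.map_mom]

lemma Rep.diff {x : E} {ξ : Measure E} (h : Rep x ξ) (d : D) :
    ξ.real {apex d 1} - ξ.real {apex d (-1)} = x.2 d := by
  have := h.prob
  rw [← h.snd d, integral_congr_ae (h.conc.mono fun p hp => T_snd_eq hp d), integral_sub,
    integral_indicator (measurableSet_singleton _), integral_indicator (measurableSet_singleton _)]
  · simp [Measure.real]
  · exact (integrable_const _).indicator (measurableSet_singleton _)
  · exact (integrable_const _).indicator (measurableSet_singleton _)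

lemma Rep.sum {x : E} {ξ : Measure E} (h : Rep x ξ) (d : D) :
    ξ.real {apex d 1} + ξ.real {apex d (-1)} = (ξ.map prj).real {(d : I)} := by
  have := h.prob
  rw [← measureReal_union (by simpa using apex_inj) (measurableSet_singleton _), Measure.real,
    Measure.real, Measure.map_apply prj_cont.measurable (measurableSet_singleton _)]
  congr 1
  refine measure_congr (h.conc.mono fun p hp => ?_)
  refine propext ⟨?_, ?_⟩
  · rintro (hp | hp)
    · have : p = apex d 1 := hp
      show prj p = d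
      rw [this, prj_apex]
    · have : p = apex d (-1) := hp
      show prj p = d
      rw [this, prj_apex]
  · intro hpd
    exact T_of_prj' hp hpd

lemma Rep.apexes {x : E} {ξ ξ' : Measure E} (h : Rep x ξ) (h' : Rep x ξ') (d : D) :
    ξ {apex d 1} = ξ' {apex d 1} ∧ ξ {apex d (-1)} = ξ' {apex d (-1)} := by
  have := h.prob
  have := h'.prob
  have e1 := h.diff d
  have e2 := h.sum d
  have e3 := h'.diff d
  have e4 := h'.sum d
  rw [h.map_eq h'] at e2
  constructor
  · exact (measureReal_eq_measureReal_iff).1 (by linarith)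
  · exact (measureReal_eq_measureReal_iff).1 (by linarith)

lemma Rep.off {x : E} {ξ ξ' : Measure E} (h : Rep x ξ) (h' : Rep x ξ') :
    ξ.restrict (prj ⁻¹' Dᶜ) = ξ'.restrict (prj ⁻¹' Dᶜ) := by
  have hDm : MeasurableSet (Dᶜ : Set I) := D_countable.measurableSet.compl
  have hio : Measurable iota := by
    have : Continuous iota := Continuous.prodMk (continuous_pi fun n => cont_pow n) continuous_const
    exact this.measurable
  have key : ∀ {η : Measure E}, Rep x η → ∀ B : Set E, MeasurableSet B →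
      η (B ∩ prj ⁻¹' Dᶜ) = η.map prj (Dᶜ ∩ iota ⁻¹' B) := by
    intro η hη B hB
    rw [Measure.map_apply prj_cont.measurable (hDm.inter (hio hB))]
    refine measure_congr (hη.conc.mono fun p hp => propext ⟨?_, ?_⟩)
    · rintro ⟨hpB, hpD⟩
      refine ⟨hpD, ?_⟩
      show iota (prj p) ∈ B
      rw [← T_of_prj hp hpD]; exact hpB
    · rintro ⟨hpD, hpB⟩
      refine ⟨?_, hpD⟩
      have : iota (prj p) ∈ B := hpB
      rwa [← T_of_prj hp hpD] at this
  refine Measure.ext fun B hB => ?_
  rw [Measure.restrict_apply hB, Measure.restrict_apply hB, key h B hB, key h' B hB, h.map_eq h']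

/-- the pieces -/
def piece : Option (D × Bool) → Set E
  | none => prj ⁻¹' Dᶜ
  | some (d, true) => {apex d 1}
  | some (d, false) => {apex d (-1)}

lemma T_piece {p : E} (hp : p ∈ T) : p ∈ ⋃ i, piece i := by
  rw [mem_iUnion]
  by_cases h : prj p ∈ D
  · rcases T_of_prj' hp (d := ⟨prj p, h⟩) rfl with e | e
    · exact ⟨some (⟨prj p, h⟩, true), e⟩
    · exact ⟨some (⟨prj p, h⟩, false), e⟩
  · exact ⟨none, h⟩

lemma Rep.unique {x : E} {ξ ξ' : Measure E} (h : Rep x ξ) (h' : Rep x ξ') : ξ = ξ' := by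
  have e1 : ξ.restrict (⋃ i, piece i) = ξ :=
    Measure.restrict_eq_self_of_ae_mem (h.conc.mono fun p hp => T_piece hp)
  have e2 : ξ'.restrict (⋃ i, piece i) = ξ' :=
    Measure.restrict_eq_self_of_ae_mem (h'.conc.mono fun p hp => T_piece hp)
  rw [← e1, ← e2, Measure.restrict_iUnion_congr]
  rintro (_ | ⟨d, _ | _⟩)
  · exact h.off h'
  · show ξ.restrict {apex d (-1)} = ξ'.restrict {apex d (-1)}
    rw [Measure.restrict_singleton, Measure.restrict_singleton, (h.apexes h' d).2]
  · show ξ.restrict {apex d 1} = ξ'.restrict {apex d 1}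
    rw [Measure.restrict_singleton, Measure.restrict_singleton, (h.apexes h' d).1]

end Pool.Agent.Q182.Porc
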