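import Pool.Agent.Q182.Porc3

/-!
# A simplex with split points over the unit interval, part 4: existence of representing measures
-/

set_option autoImplicit false

open MeasureTheory Topology Set Filter
open scoped unitInterval

namespace Pool.Agent.Q182.Porc

open Classical in
/-- the two sections of the projection -/
noncomputable def Psi (s : ℝ) (c : I) : E := if h : c ∈ D then apex ⟨c, h⟩ s else iota c

lemma iota_cont : Continuous iota :=
  Continuous.prodMk (continuous_pi fun n => cont_pow n) continuous_const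

lemma Psi_meas (s : ℝ) : Measurable (Psi s) := by
  refine Measurable.measurable_of_countable_ne (f := iota) iota_cont.measurable ?_
  refine D_countable.mono fun c hc => ?_
  by_contra h
  exact hc (by simp [Psi, h])

lemma Psi_T {s : ℝ} (hs : s = 1 ∨ s = -1) (c : I) : Psi s c ∈ T := by
  by_cases h : c ∈ D
  · right
    refine ⟨⟨c, h⟩, ?_⟩
    rcases hs with rfl | rfl
    · left; simp [Psi, h]
    · right; simp [Psi, h]
  · left
    exact ⟨c, h, by simp [Psi, h]⟩

lemma Psi_fst (s : ℝ) (c : I) (n : ℕ) : (Psi s c).1 n = (c : ℝ) ^ n := by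
  by_cases h : c ∈ D
  · simp [Psi, h, apex]
  · simp [Psi, h, iota]

open Classical in
lemma Psi_snd (s : ℝ) (c : I) (d : D) : (Psi s c).2 d = if c = d then s else 0 := by
  by_cases h : c ∈ D
  · have e : Psi s c = apex ⟨c, h⟩ s := by simp [Psi, h]
    rw [e]
    by_cases hd : c = d
    · rw [if_pos hd]
      have : d = ⟨c, h⟩ := Subtype.ext hd.symm
      rw [this, apex_self]
    · rw [if_neg hd]
      exact apex_ne (fun e' => hd (congrArg Subtype.val e').symm) _
  · have e : Psi s c = iota c := by simp [Psi, h]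
    rw [e, if_neg (show ¬ (c = (d : I)) from fun hd => h (by rw [hd]; exact d.2))]
    rfl

lemma T_eq : T = (Set.range iota ∩ prj ⁻¹' Dᶜ) ∪ ⋃ d : D, {apex d 1, apex d (-1)} := by
  ext p
  constructor
  · rintro (⟨c, hc, rfl⟩ | ⟨d, hd⟩)
    · left
      exact ⟨⟨c, rfl⟩, by show prj (iota c) ∉ D; rw [prj_iota]; exact hc⟩
    · right
      exact mem_iUnion.2 ⟨d, hd⟩
  · rintro (⟨⟨c, rfl⟩, hc⟩ | h)
    · left
      refine ⟨c, ?_, rfl⟩
      have : prj (iota c) ∉ D := hc
      rwa [prj_iota] at this
    · right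
      exact mem_iUnion.1 h

lemma T_meas : MeasurableSet T := by
  rw [T_eq]
  refine ((isCompact_range iota_cont).isClosed.measurableSet.inter
    (prj_cont.measurable D_countable.measurableSet.compl)).union ?_
  exact MeasurableSet.iUnion fun d => (measurableSet_singleton _).insert _

/-- half of the measure, tilted by `ρ` -/
noncomputable def half (μ : Measure I) (ρ : I → ℝ) : Measure I :=
  μ.withDensity fun c => ENNReal.ofReal ((1 + ρ c) / 2)

lemma half_dens_meas {ρ : I → ℝ} (hρ : Measurable ρ) :
    Measurable fun c => ENNReal.ofReal ((1 + ρ c) / 2) :=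
  ((measurable_const.add hρ).div_const 2).ennreal_ofReal

lemma half_integral (μ : Measure I) {ρ : I → ℝ} (hρ : Measurable ρ)
    (hb : ∀ c, |ρ c| ≤ 1) (g : I → ℝ) :
    ∫ c, g c ∂(half μ ρ) = ∫ c, (1 + ρ c) / 2 * g c ∂μ := by
  rw [half, integral_withDensity_eq_integral_toReal_smul (half_dens_meas hρ)
    (Eventually.of_forall fun c => ENNReal.ofReal_lt_top)]
  refine integral_congr_ae (Eventually.of_forall fun c => ?_)
  show (ENNReal.ofReal ((1 + ρ c) / 2)).toReal • g c = _
  rw [ENNReal.toReal_ofReal (by have := (abs_le.1 (hb c)).1; linarith), smul_eq_mul]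

lemma half_univ (μ : Measure I) [IsProbabilityMeasure μ] {ρ : I → ℝ} (hρ : Measurable ρ)
    (hb : ∀ c, |ρ c| ≤ 1) : half μ ρ univ + half μ (fun c => -ρ c) univ = 1 := by
  rw [half, half, withDensity_apply _ MeasurableSet.univ, withDensity_apply _ MeasurableSet.univ,
    Measure.restrict_univ, ← lintegral_add_left (half_dens_meas hρ)]
  have : ∀ c, ENNReal.ofReal ((1 + ρ c) / 2) + ENNReal.ofReal ((1 + -ρ c) / 2) = 1 := fun c => by
    have h := abs_le.1 (hb c)
    rw [← ENNReal.ofReal_add (by linarith [h.1]) (by linarith [h.2])]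
    rw [show (1 + ρ c) / 2 + (1 + -ρ c) / 2 = 1 by ring, ENNReal.ofReal_one]
  simp_rw [this]
  simp

open Classical in
/-- the tilt of a point of `K` -/
noncomputable def rho (μ : Measure I) (x : E) (c : I) : ℝ :=
  if h : c ∈ D then x.2 ⟨c, h⟩ / μ.real {c} else 0

lemma rho_meas (μ : Measure I) (x : E) : Measurable (rho μ x) := by
  refine Measurable.measurable_of_countable_ne (f := fun _ => (0 : ℝ)) measurable_const ?_
  refine D_countable.mono fun c hc => ?_
  by_contra h
  exact hc (by simp [rho, h])

lemma rho_le {μ : Measure I} {x : E} (h2 : ∀ d : D, |x.2 d| ≤ μ.real {(d : I)}) (c : I) :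
    |rho μ x c| ≤ 1 := by
  by_cases h : c ∈ D
  · have e : rho μ x c = x.2 ⟨c, h⟩ / μ.real {c} := by simp [rho, h]
    rw [e, abs_div, abs_of_nonneg (measureReal_nonneg (μ := μ) (s := {c}))]
    exact div_le_one_of_le₀ (h2 ⟨c, h⟩) measureReal_nonneg
  · have e : rho μ x c = 0 := by simp [rho, h]
    rw [e, abs_zero]
    exact zero_le_one

lemma rho_mul {μ : Measure I} {x : E} (h2 : ∀ d : D, |x.2 d| ≤ μ.real {(d : I)}) (d : D) :
    rho μ x d * μ.real {(d : I)} = x.2 d := by
  have e : rho μ x d = x.2 d / μ.real {(d : I)} := by simp [rho]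
  rw [e]
  by_cases h0 : μ.real {(d : I)} = 0
  · have := h2 d
    rw [h0] at this
    rw [h0, mul_zero, abs_nonpos_iff.1 this]
  · exact div_mul_cancel₀ _ h0

lemma rep_exists {x : E} (hx : x ∈ K) : ∃ ξ : Measure E, Rep x ξ := by
  classical
  obtain ⟨μ, hμ, h1, h2⟩ := hx
  set ρ := rho μ x with hρdef
  have hρ : Measurable ρ := rho_meas μ x
  have hb : ∀ c, |ρ c| ≤ 1 := rho_le h2
  have hρ' : Measurable fun c => -ρ c := hρ.neg
  have hb' : ∀ c, |-ρ c| ≤ 1 := fun c => by rw [abs_neg]; exact hb c
  have huniv := half_univ μ hρ hb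
  have f1 : IsFiniteMeasure (half μ ρ) := ⟨lt_of_le_of_lt le_self_add (huniv ▸ ENNReal.one_lt_top)⟩
  have f2 : IsFiniteMeasure (half μ fun c => -ρ c) :=
    ⟨lt_of_le_of_lt le_add_self (huniv ▸ ENNReal.one_lt_top)⟩
  have g1 : IsFiniteMeasure ((half μ ρ).map (Psi 1)) := inferInstance
  have g2 : IsFiniteMeasure ((half μ fun c => -ρ c).map (Psi (-1))) := inferInstance
  have c1 : ∀ᵐ p ∂(half μ ρ).map (Psi 1), p ∈ T :=
    (ae_map_iff (Psi_meas 1).aemeasurable T_meas).2 (Eventually.of_forall fun c => Psi_T (Or.inl rfl) c)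
  have c2 : ∀ᵐ p ∂(half μ fun c => -ρ c).map (Psi (-1)), p ∈ T :=
    (ae_map_iff (Psi_meas (-1)).aemeasurable T_meas).2
      (Eventually.of_forall fun c => Psi_T (Or.inr rfl) c)
  refine ⟨(half μ ρ).map (Psi 1) + (half μ fun c => -ρ c).map (Psi (-1)), ⟨?_⟩, ?_, ?_, ?_⟩
  · rw [Measure.add_apply, Measure.map_apply (Psi_meas 1) MeasurableSet.univ,
      Measure.map_apply (Psi_meas (-1)) MeasurableSet.univ, preimage_univ, preimage_univ, huniv]
  · rw [ae_add_measure_iff]
    exact ⟨c1, c2⟩
  · intro n
    rw [integral_add_measure (int_fst c1 n) (int_fst c2 n),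
      integral_map (Psi_meas 1).aemeasurable (meas_fst n).aestronglyMeasurable,
      integral_map (Psi_meas (-1)).aemeasurable (meas_fst n).aestronglyMeasurable,
      half_integral μ hρ hb, half_integral μ hρ' hb', ← integral_add, h1]
    · refine integral_congr_ae (Eventually.of_forall fun c => ?_)
      show (1 + ρ c) / 2 * (Psi 1 c).1 n + (1 + -ρ c) / 2 * (Psi (-1) c).1 n = (c : ℝ) ^ n
      rw [Psi_fst, Psi_fst]; ring
    · refine Integrable.of_bound (C := 1) ?_ (Eventually.of_forall fun c => ?_)
      · exact (((measurable_const.add hρ).div_const 2).mul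
          ((meas_fst n).comp (Psi_meas 1))).aestronglyMeasurable
      · have h := abs_le.1 (hb c)
        rw [Real.norm_eq_abs, abs_mul, abs_of_nonneg (by linarith [h.1] : 0 ≤ (1 + ρ c) / 2)]
        exact mul_le_one₀ (by linarith [h.2]) (abs_nonneg _) (T_fst (Psi_T (Or.inl rfl) c) n)
    · refine Integrable.of_bound (C := 1) ?_ (Eventually.of_forall fun c => ?_)
      · exact (((measurable_const.add hρ').div_const 2).mul
          ((meas_fst n).comp (Psi_meas (-1)))).aestronglyMeasurable
      · have h := abs_le.1 (hb c)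
        rw [Real.norm_eq_abs, abs_mul, abs_of_nonneg (by linarith [h.2] : 0 ≤ (1 + -ρ c) / 2)]
        exact mul_le_one₀ (by linarith [h.1]) (abs_nonneg _) (T_fst (Psi_T (Or.inr rfl) c) n)
  · intro d
    rw [integral_add_measure (int_snd c1 d) (int_snd c2 d),
      integral_map (Psi_meas 1).aemeasurable (meas_snd d).aestronglyMeasurable,
      integral_map (Psi_meas (-1)).aemeasurable (meas_snd d).aestronglyMeasurable,
      half_integral μ hρ hb, half_integral μ hρ' hb', ← integral_add]
    · have key : ∀ c : I, (1 + ρ c) / 2 * (Psi 1 c).2 d + (1 + -ρ c) / 2 * (Psi (-1) c).2 d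
          = ({(d : I)} : Set I).indicator (fun _ => ρ d) c := by
        intro c
        rw [Psi_snd, Psi_snd]
        by_cases h : c = d
        · rw [if_pos h, if_pos h, h, indicator_of_mem (mem_singleton _)]; ring
        · rw [if_neg h, if_neg h, indicator_of_notMem (by simpa using h)]; ring
      rw [integral_congr_ae (Eventually.of_forall key), integral_indicator (measurableSet_singleton _),
        setIntegral_const, smul_eq_mul, mul_comm]
      exact rho_mul h2 d
    · refine Integrable.of_bound (C := 1) ?_ (Eventually.of_forall fun c => ?_)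
      · exact (((measurable_const.add hρ).div_const 2).mul
          ((meas_snd d).comp (Psi_meas 1))).aestronglyMeasurable
      · have h := abs_le.1 (hb c)
        rw [Real.norm_eq_abs, abs_mul, abs_of_nonneg (by linarith [h.1] : 0 ≤ (1 + ρ c) / 2)]
        exact mul_le_one₀ (by linarith [h.2]) (abs_nonneg _) (T_snd (Psi_T (Or.inl rfl) c) d)
    · refine Integrable.of_bound (C := 1) ?_ (Eventually.of_forall fun c => ?_)
      · exact (((measurable_const.add hρ').div_const 2).mul
          ((meas_snd d).comp (Psi_meas (-1)))).aestronglyMeasurable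
      · have h := abs_le.1 (hb c)
        rw [Real.norm_eq_abs, abs_mul, abs_of_nonneg (by linarith [h.2] : 0 ≤ (1 + -ρ c) / 2)]
        exact mul_le_one₀ (by linarith [h.1]) (abs_nonneg _) (T_snd (Psi_T (Or.inr rfl) c) d)

/-! ### general definitions -/

section Defs

variable {V : Type*} [AddCommGroup V] [Module ℝ V] [TopologicalSpace V] [MeasurableSpace V]

/-- `ξ` is a Borel probability measure concentrated on the extreme points of `K` whose barycentre
is `x` -/
def Represents (K : Set V) (x : V) (ξ : Measure V) : Prop :=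
  IsProbabilityMeasure ξ ∧ ξ (K.extremePoints ℝ)ᶜ = 0 ∧ ∀ ℓ : V →L[ℝ] ℝ, ∫ y, ℓ y ∂ξ = ℓ x

/-- metrizable Choquet simplices: metrizable compact convex sets each of whose points is the
barycentre of exactly one Borel probability measure concentrated on the extreme points -/
structure IsMetrizableSimplex (K : Set V) : Prop where
  compact : IsCompact K
  convex : Convex ℝ K
  metrizable : TopologicalSpace.MetrizableSpace K
  unique : ∀ x ∈ K, ∃! ξ : Measure V, Represents K x ξ

end Defs

section Defs2

variable {V : Type*} [AddCommGroup V] [Module ℝ V]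

/-- `x = ∑ e ∈ s, p e • e` with `s` a finite set of extreme points of `K`, `p e > 0` for all `e ∈ s`
and `∑ e ∈ s, p e = 1` -/
def IsFiniteRep (K : Set V) (s : Finset (K.extremePoints ℝ)) (x : V) : Prop :=
  ∃ p : K.extremePoints ℝ → ℝ, (∀ e ∈ s, 0 < p e) ∧ ∑ e ∈ s, p e = 1 ∧ ∑ e ∈ s, p e • (e : V) = x

/-- `F` is the extension of `f` by the additive rule: `F x = ∑ e ∈ s, f e` if `x` is a convex
combination with positive coefficients of the elements of a finite set `s` of extreme points,
and `F x = ∞` for all other points -/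
def IsAdditiveExtension (K : Set V) (f : K.extremePoints ℝ → ℕ∞) (F : K → ℕ∞) : Prop :=
  ∀ x : K, (∀ s, IsFiniteRep K s x → F x = ∑ e ∈ s, f e) ∧ ((∀ s, ¬ IsFiniteRep K s x) → F x = ⊤)

end Defs2

/-- upper semicontinuity of extended real-valued functions -/
def IsUSC {Y : Type*} [TopologicalSpace Y] (g : Y → EReal) : Prop :=
  ∀ t : ℝ, IsOpen {y | g y < (t : EReal)}

/-- Young class `LU`: pointwise limits of nondecreasing sequences of upper semicontinuous functions -/
def IsLU {Y : Type*} [TopologicalSpace Y] (g : Y → EReal) : Prop :=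
  ∃ u : ℕ → Y → EReal, (∀ n, IsUSC (u n)) ∧ (∀ n y, u n y ≤ u (n + 1) y) ∧
    ∀ y, Tendsto (fun n => u n y) atTop (𝓝 (g y))

/-- the inclusion of `ℕ ∪ {∞}` in the extended reals -/
noncomputable def toE (n : ℕ∞) : EReal := ((n : ENNReal) : EReal)

end Pool.Agent.Q182.Porc
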