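import Pool.Agent.Q182.Porc4

/-!
# A simplex with split points over the unit interval, part 5: the additive extension is not LU
-/

set_option autoImplicit false

open MeasureTheory Topology Set Filter
open scoped unitInterval

namespace Pool.Agent.Q182.Porc

lemma conc_iff {ξ : Measure E} : ξ (K.extremePoints ℝ)ᶜ = 0 ↔ ∀ᵐ p ∂ξ, p ∈ T := by
  rw [extreme_eq, ae_iff]; rfl

lemma represents_iff {x : E} {ξ : Measure E} : Represents K x ξ ↔ Rep x ξ := by
  constructor
  · rintro ⟨h1, h2, h3⟩
    have h4 := (bary_iff (conc_iff.1 h2) x).1 h3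
    exact ⟨h1, conc_iff.1 h2, h4.1, h4.2⟩
  · intro h
    have := h.prob
    exact ⟨h.prob, conc_iff.2 h.conc, (bary_iff h.conc x).2 ⟨h.fst, h.snd⟩⟩

theorem simplex : IsMetrizableSimplex K where
  compact := K_compact
  convex := K_convex
  metrizable := inferInstance
  unique := fun x hx => by
    obtain ⟨ξ, hξ⟩ := rep_exists hx
    exact ⟨ξ, represents_iff.2 hξ, fun ξ' hξ' => (represents_iff.1 hξ').unique hξ⟩

/-! ### finite representations -/

/-- the measure of a finite representation -/
noncomputable def fm (s : Finset (K.extremePoints ℝ)) (p : K.extremePoints ℝ → ℝ) : Measure E :=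
  ∑ e ∈ s, ENNReal.ofReal (p e) • Measure.dirac (e : E)

lemma fm_apply (s : Finset (K.extremePoints ℝ)) (p : K.extremePoints ℝ → ℝ) (B : Set E) :
    fm s p B = ∑ e ∈ s, ENNReal.ofReal (p e) * B.indicator 1 (e : E) := by
  rw [fm, Measure.finsetSum_apply]
  refine Finset.sum_congr rfl fun e _ => ?_
  rw [Measure.smul_apply, Measure.dirac_apply, smul_eq_mul]

lemma fm_rep {s : Finset (K.extremePoints ℝ)} {p : K.extremePoints ℝ → ℝ} {x : E}
    (h1 : ∀ e ∈ s, 0 < p e) (h2 : ∑ e ∈ s, p e = 1) (h3 : ∑ e ∈ s, p e • (e : E) = x) :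
    Represents K x (fm s p) := by
  refine ⟨⟨?_⟩, ?_, fun ℓ => ?_⟩
  · rw [fm_apply]
    simp only [indicator_univ, Pi.one_apply, mul_one]
    rw [← ENNReal.ofReal_sum_of_nonneg fun e he => (h1 e he).le, h2, ENNReal.ofReal_one]
  · rw [fm_apply]
    refine Finset.sum_eq_zero fun e _ => ?_
    rw [indicator_of_notMem (by simp), mul_zero]
  · rw [fm, integral_finsetSum_measure]
    · rw [← h3, map_sum]
      refine Finset.sum_congr rfl fun e he => ?_
      rw [integral_smul_measure, integral_dirac, ENNReal.toReal_ofReal (h1 e he).le, map_smul]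
    · intro e _
      exact (integrable_dirac (by simp)).smul_measure ENNReal.ofReal_ne_top

lemma fm_singleton {s : Finset (K.extremePoints ℝ)} {p : K.extremePoints ℝ → ℝ}
    (h1 : ∀ e ∈ s, 0 < p e) (e₀ : K.extremePoints ℝ) : e₀ ∈ s ↔ fm s p {(e₀ : E)} ≠ 0 := by
  rw [fm_apply]
  constructor
  · intro h h0
    have := (Finset.sum_eq_zero_iff.1 h0) e₀ h
    rw [indicator_of_mem (mem_singleton _), Pi.one_apply, mul_one, ENNReal.ofReal_eq_zero] at this
    exact absurd (h1 e₀ h) (not_lt.2 this)
  · intro h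
    by_contra hne
    apply h
    refine Finset.sum_eq_zero fun e he => ?_
    rw [indicator_of_notMem, mul_zero]
    intro h'
    have : e = e₀ := Subtype.ext h'
    exact hne (this ▸ he)

lemma finite_unique {s s' : Finset (K.extremePoints ℝ)} {x : E} (hx : x ∈ K)
    (h : IsFiniteRep K s x) (h' : IsFiniteRep K s' x) : s = s' := by
  obtain ⟨p, h1, h2, h3⟩ := h
  obtain ⟨p', h1', h2', h3'⟩ := h'
  have e := (simplex.unique x hx).unique (fm_rep h1 h2 h3) (fm_rep h1' h2' h3')
  ext e₀
  rw [fm_singleton h1, fm_singleton h1', e]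

/-! ### the function and its extension -/

open Classical in
/-- `1` on the split points, `3` elsewhere -/
noncomputable def f (e : K.extremePoints ℝ) : ℕ∞ := if ∃ d : D, (e : E).2 d ≠ 0 then 1 else 3

lemma f_usc : IsUSC fun e => toE (f e) := by
  intro t
  have hopen : IsOpen {e : K.extremePoints ℝ | ∃ d : D, (e : E).2 d ≠ 0} := by
    have : {e : K.extremePoints ℝ | ∃ d : D, (e : E).2 d ≠ 0}
        = ⋃ d : D, {e : K.extremePoints ℝ | (e : E).2 d ≠ 0} := by
      ext e; simp
    rw [this]
    refine isOpen_iUnion fun d => ?_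
    have hc : Continuous fun e : K.extremePoints ℝ => (e : E).2 d :=
      (continuous_apply d).comp (continuous_snd.comp continuous_subtype_val)
    exact isOpen_ne_fun hc continuous_const
  have e1 : toE 1 = ((1 : ℝ) : EReal) := by simp [toE]
  have e3 : toE 3 = ((3 : ℝ) : EReal) := by
    simp only [toE]
    norm_num
    rfl
  rcases le_or_gt t 1 with ht | ht
  · convert isOpen_empty
    ext e
    simp only [mem_ofPred_eq, mem_empty_iff_false, iff_false, not_lt]
    by_cases h : ∃ d : D, (e : E).2 d ≠ 0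
    · rw [show f e = 1 by simp only [f]; rw [if_pos h], e1]; exact_mod_cast ht
    · rw [show f e = 3 by simp only [f]; rw [if_neg h], e3]; exact_mod_cast ht.trans (by norm_num)
  · rcases le_or_gt t 3 with ht3 | ht3
    · convert hopen
      rename_i e
      show toE (f e) < (t : EReal) ↔ ∃ d : D, (e : E).2 d ≠ 0
      by_cases h : ∃ d : D, (e : E).2 d ≠ 0
      · rw [show f e = 1 by simp only [f]; rw [if_pos h], e1]
        simp only [h, iff_true]
        exact_mod_cast ht
      · rw [show f e = 3 by simp only [f]; rw [if_neg h], e3]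
        simp only [h, iff_false, not_lt]
        exact_mod_cast ht3
    · convert isOpen_univ
      ext e
      simp only [mem_ofPred_eq, mem_univ, iff_true]
      by_cases h : ∃ d : D, (e : E).2 d ≠ 0
      · rw [show f e = 1 by simp only [f]; rw [if_pos h], e1]; exact_mod_cast ht
      · rw [show f e = 3 by simp only [f]; rw [if_neg h], e3]; exact_mod_cast ht3

open Classical in
/-- the additive extension -/
noncomputable def F (x : K) : ℕ∞ :=
  if h : ∃ s, IsFiniteRep K s (x : E) then ∑ e ∈ h.choose, f e else ⊤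

lemma F_ext : IsAdditiveExtension K f F := by
  intro x
  constructor
  · intro s hs
    have h : ∃ s, IsFiniteRep K s (x : E) := ⟨s, hs⟩
    have : F x = ∑ e ∈ h.choose, f e := by simp only [F]; rw [dif_pos h]
    rw [this, finite_unique x.2 h.choose_spec hs]
  · intro h
    simp only [F]
    rw [dif_neg (by push Not; exact h)]

/-- the points over `d ∈ D` -/
lemma F_iota_mem {F' : K → ℕ∞} (hF : IsAdditiveExtension K f F') {c : I} (hc : c ∈ D) :
    F' ⟨iota c, iota_mem c⟩ = 2 := by
  classical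
  set d : D := ⟨c, hc⟩ with hd
  have m1 : apex d 1 ∈ K.extremePoints ℝ := by
    rw [extreme_eq]; exact Or.inr ⟨d, Or.inl rfl⟩
  have m2 : apex d (-1) ∈ K.extremePoints ℝ := by
    rw [extreme_eq]; exact Or.inr ⟨d, Or.inr rfl⟩
  have hne : (⟨apex d 1, m1⟩ : K.extremePoints ℝ) ≠ ⟨apex d (-1), m2⟩ :=
    fun h => apex_inj (congrArg Subtype.val h)
  have hrep : IsFiniteRep K {⟨apex d 1, m1⟩, ⟨apex d (-1), m2⟩} (iota c) := by
    refine ⟨fun _ => 1 / 2, fun e _ => by norm_num, ?_, ?_⟩
    · rw [Finset.sum_pair hne]; norm_num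
    · rw [Finset.sum_pair hne]
      refine Prod.ext (funext fun n => ?_) (funext fun d' => ?_)
      · show (1 / 2 : ℝ) * (c : ℝ) ^ n + (1 / 2 : ℝ) * (c : ℝ) ^ n = (c : ℝ) ^ n
        ring
      · show (1 / 2 : ℝ) * (apex d 1).2 d' + (1 / 2 : ℝ) * (apex d (-1)).2 d' = 0
        by_cases h : d' = d
        · subst h; rw [apex_self, apex_self]; ring
        · rw [apex_ne h, apex_ne h]; ring
  rw [(hF ⟨iota c, iota_mem c⟩).1 _ hrep, Finset.sum_pair hne]
  have v1 : f ⟨apex d 1, m1⟩ = 1 := by
    simp only [f]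
    rw [if_pos ⟨d, by rw [apex_self]; norm_num⟩]
  have v2 : f ⟨apex d (-1), m2⟩ = 1 := by
    simp only [f]
    rw [if_pos ⟨d, by rw [apex_self]; norm_num⟩]
  rw [v1, v2]
  norm_num

lemma F_iota_notMem {F' : K → ℕ∞} (hF : IsAdditiveExtension K f F') {c : I} (hc : c ∉ D) :
    F' ⟨iota c, iota_mem c⟩ = 3 := by
  classical
  have m : iota c ∈ K.extremePoints ℝ := by
    rw [extreme_eq]; exact Or.inl ⟨c, hc, rfl⟩
  have hrep : IsFiniteRep K {⟨iota c, m⟩} (iota c) :=
    ⟨fun _ => 1, fun e _ => one_pos, by simp, by simp⟩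
  rw [(hF ⟨iota c, iota_mem c⟩).1 _ hrep, Finset.sum_singleton]
  simp only [f]
  rw [if_neg]
  rintro ⟨d, hd⟩
  exact hd rfl

/-- sublevel sets of `LU` functions are `G_δ` -/
lemma lu_gdelta {Y : Type*} [TopologicalSpace Y] {g : Y → EReal} (h : IsLU g) (r : ℝ) :
    IsGδ {y | g y ≤ (r : EReal)} := by
  obtain ⟨u, hu, hmono, hlim⟩ := h
  have hm : ∀ y, Monotone fun n => u n y := fun y => monotone_nat_of_le_succ fun n => hmono n y
  have : {y | g y ≤ (r : EReal)} = ⋂ (n : ℕ) (k : ℕ), {y | u n y < ((r + 1 / ((k : ℝ) + 1) : ℝ) : EReal)} := by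
    ext y
    simp only [mem_ofPred_eq, mem_iInter]
    constructor
    · intro hy n k
      have h1 : u n y ≤ g y := (hm y).ge_of_tendsto (hlim y) n
      refine (h1.trans hy).trans_lt ?_
      have : (0 : ℝ) < 1 / ((k : ℝ) + 1) := Nat.one_div_pos_of_nat
      exact_mod_cast (by linarith : r < r + 1 / ((k : ℝ) + 1))
    · intro hy
      refine le_of_tendsto' (hlim y) fun n => ?_
      have hlim' : Tendsto (fun k : ℕ => ((r + 1 / ((k : ℝ) + 1) : ℝ) : EReal)) atTop (𝓝 ((r : ℝ) : EReal)) := by
        refine (continuous_coe_real_ereal.tendsto _).comp ?_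
        have := (tendsto_const_nhds (x := r)).add (tendsto_one_div_add_atTop_nhds_zero_nat (𝕜 := ℝ))
        simpa using this
      exact ge_of_tendsto' hlim' fun k => (hy n k).le
  rw [this]
  exact IsGδ.iInter fun n => IsGδ.iInter fun k => (hu n _).isGδ

lemma not_lu {F' : K → ℕ∞} (hF : IsAdditiveExtension K f F') : ¬ IsLU fun x => toE (F' x) := by
  intro h
  have hg := lu_gdelta h 2
  set j : I → K := fun c => ⟨iota c, iota_mem c⟩ with hj
  have hjc : Continuous j := iota_cont.subtype_mk _
  have hpre : j ⁻¹' {y | toE (F' y) ≤ ((2 : ℝ) : EReal)} = D := by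
    ext c
    have e2 : toE 2 = ((2 : ℝ) : EReal) := by
      simp only [toE]
      norm_num
      rfl
    have e3 : toE 3 = ((3 : ℝ) : EReal) := by
      simp only [toE]
      norm_num
      rfl
    show toE (F' (j c)) ≤ ((2 : ℝ) : EReal) ↔ c ∈ D
    constructor
    · intro hc
      by_contra hne
      rw [F_iota_notMem hF hne, e3] at hc
      have : (3 : ℝ) ≤ 2 := by exact_mod_cast hc
      norm_num at this
    · intro hc
      rw [F_iota_mem hF hc, e2]
  have hD : IsGδ D := by
    rw [← hpre]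
    exact hg.preimage hjc
  have hDc : IsGδ (Dᶜ : Set I) := D_countable.isGδ_compl
  have hdc : Dense (Dᶜ : Set I) := by
    have e : (Dᶜ : Set I) = ⋂ d ∈ D, {d}ᶜ := by
      ext x
      simp only [mem_compl_iff, mem_iInter, mem_singleton_iff]
      exact ⟨fun hx d hd h => hx (h ▸ hd), fun hx hxD => hx x hxD rfl⟩
    rw [e]
    refine dense_biInter_of_isOpen (fun d _ => isOpen_compl_singleton) D_countable fun d _ => ?_
    have : (𝓝[≠] d).NeBot := ConnectedSpace.neBot_nhdsWithin_compl_of_nontrivial_of_t1space d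
    exact dense_compl_singleton d
  have := D_dense.inter_of_Gδ hD hDc hdc
  rw [inter_compl_self] at this
  obtain ⟨x, hx⟩ := this.nonempty
  exact hx

end Pool.Agent.Q182.Porc
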