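import Pool.Agent.Y331.PH.Latt
import Pool.Agent.Y331.PH.EtMet
import Pool.Agent.Y331.PH.EtAna

/-!
# A twistor family of six-dimensional tori over the projective line: algebra
-/

set_option autoImplicit false

open scoped Topology ComplexConjugate Manifold ContDiff
open Set Filter

namespace Pool.Agent.Q182.TW

open Pool.Agent.Y331.PH

/-- the space of the lattice. -/
abbrev V3 : Type := Fin 3 → ℂ
/-- the model space. -/
abbrev EE : Type := ℂ × V3

/-! ### The cubic unit -/

theorem exists_rho : ∃ x : ℝ, 1.3 < x ∧ x < 1.4 ∧ x ^ 3 = x + 1 := by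
  have hc : ContinuousOn (fun x : ℝ => x ^ 3 - x - 1) (Icc 1.3 1.4) := by fun_prop
  obtain ⟨x, ⟨h1, h2⟩, h3⟩ := intermediate_value_Icc (by norm_num) hc
    (show (0 : ℝ) ∈ Icc _ _ from ⟨by norm_num, by norm_num⟩)
  simp only at h3
  refine ⟨x, lt_of_le_of_ne h1 ?_, lt_of_le_of_ne h2 ?_, by linarith⟩
  · rintro rfl
    norm_num at h3
  · rintro rfl
    norm_num at h3

/-- the real root of `x³ = x + 1`. -/
noncomputable def rho : ℝ := exists_rho.choose
theorem rho_gt : 1.3 < rho := exists_rho.choose_spec.1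
theorem rho_lt : rho < 1.4 := exists_rho.choose_spec.2.1
theorem rho_eq : rho ^ 3 = rho + 1 := exists_rho.choose_spec.2.2

/-- the nonreal root. -/
noncomputable def lam : ℂ := ⟨-rho / 2, √(3 * rho ^ 2 - 4) / 2⟩

theorem disc_pos : 0 < 3 * rho ^ 2 - 4 := by nlinarith [rho_gt]

theorem lam_im : 0 < lam.im := by
  have := Real.sqrt_pos.2 disc_pos
  simp only [lam]
  positivity

theorem lam_quad : lam ^ 2 + rho * lam + (rho ^ 2 - 1) = 0 := by
  have h := Real.sq_sqrt disc_pos.le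
  apply Complex.ext
  · simp [lam, pow_two]
    ring_nf at h ⊢
    linarith
  · simp [lam, pow_two]
    ring

theorem lam_cub : lam ^ 3 = lam + 1 := by
  have h1 : (rho : ℂ) ^ 3 = rho + 1 := by exact_mod_cast congrArg (fun x : ℝ => (x : ℂ)) rho_eq
  linear_combination (lam - rho) * lam_quad + h1

theorem norm_lam_sq : ‖lam‖ ^ 2 = rho ^ 2 - 1 := by
  have h := Real.sq_sqrt disc_pos.le
  rw [← Complex.normSq_eq_norm_sq, Complex.normSq_apply]
  simp only [lam]
  ring_nf at h ⊢
  linarith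

theorem norm_lam_lt : ‖lam‖ < 1 := by
  have h := norm_lam_sq
  have h1 : ‖lam‖ ^ 2 < 1 := by
    rw [h]
    nlinarith [rho_gt, rho_lt]
  nlinarith [norm_nonneg lam]

/-- the roots. -/
noncomputable def rt : V3 := ![rho, lam, conj lam]

@[simp] theorem rt_0 : rt 0 = rho := rfl
@[simp] theorem rt_1 : rt 1 = lam := rfl
@[simp] theorem rt_2 : rt 2 = conj lam := rfl

theorem rt_cub (i : Fin 3) : rt i ^ 3 = rt i + 1 := by
  fin_cases i
  · simpa using (show (rho : ℂ) ^ 3 = rho + 1 by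
      exact_mod_cast congrArg (fun x : ℝ => (x : ℂ)) rho_eq)
  · simpa using lam_cub
  · have := congrArg conj lam_cub
    simpa using this

theorem rt_ne (i : Fin 3) : rt i ≠ 0 := by
  intro h
  have := rt_cub i
  rw [h] at this
  norm_num at this

theorem d01 : rt 0 - rt 1 ≠ 0 := by
  intro h
  have := congrArg Complex.im h
  simp at this
  exact lam_im.ne' this

theorem d02 : rt 0 - rt 2 ≠ 0 := by
  intro h
  have := congrArg Complex.im h
  simp at this
  exact lam_im.ne' this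

theorem d12 : rt 1 - rt 2 ≠ 0 := by
  intro h
  have := congrArg Complex.im h
  simp at this
  have h2 := lam_im
  linarith

/-- the values of a polynomial. -/
noncomputable def ev (a : V3) (i : Fin 3) : ℂ := a 0 + a 1 * rt i + a 2 * rt i ^ 2

/-- the embedding of the lattice. -/
noncomputable def TT : V3 →ₗ[ℂ] V3 where
  toFun a := ev a
  map_add' a b := by
    ext i
    simp only [ev, Pi.add_apply]
    ring
  map_smul' c a := by
    ext i
    simp only [ev, Pi.smul_apply, smul_eq_mul, RingHom.id_apply]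
    ring

theorem TT_apply (a : V3) (i : Fin 3) : TT a i = ev a i := rfl

theorem ev_inj {a : V3} (h : ∀ i, ev a i = 0) : a = 0 := by
  have h0 := h 0
  have h1 := h 1
  have h2 := h 2
  unfold ev at h0 h1 h2
  have e1 : a 1 + a 2 * (rt 0 + rt 1) = 0 := by
    apply mul_left_cancel₀ d01
    linear_combination h0 - h1
  have e2 : a 1 + a 2 * (rt 0 + rt 2) = 0 := by
    apply mul_left_cancel₀ d02
    linear_combination h0 - h2
  have e3 : a 2 = 0 := by
    apply mul_left_cancel₀ d12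
    linear_combination e1 - e2
  have e4 : a 1 = 0 := by rw [e3] at e1; simpa using e1
  have e5 : a 0 = 0 := by rw [e3, e4] at h0; simpa using h0
  ext i
  fin_cases i
  · exact e5
  · exact e4
  · exact e3

theorem TT_inj : Function.Injective TT := by
  rw [← LinearMap.ker_eq_bot, LinearMap.ker_eq_bot']
  intro a ha
  exact ev_inj fun i => congrFun ha i

/-- the lattice. -/
noncomputable def Lam : AddSubgroup V3 := lat TT

/-- multiplication by the roots. -/
noncomputable def AA (v : V3) : V3 := fun i => rt i * v i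
/-- multiplication by their inverses. -/
noncomputable def BB (v : V3) : V3 := fun i => (rt i)⁻¹ * v i

theorem AA_BB (v : V3) : AA (BB v) = v := by
  funext i
  simp only [AA, BB]
  rw [← mul_assoc, mul_inv_cancel₀ (rt_ne i), one_mul]

theorem BB_AA (v : V3) : BB (AA v) = v := by
  funext i
  simp only [AA, BB]
  rw [← mul_assoc, inv_mul_cancel₀ (rt_ne i), one_mul]

theorem AA_mem {v : V3} (hv : v ∈ Lam) : AA v ∈ Lam := by
  obtain ⟨a, ha, rfl⟩ := hv
  refine ⟨![a 2, a 0 + a 2, a 1], fun i => ?_, ?_⟩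
  · fin_cases i
    · exact ha 2
    · exact Gs.add_mem (ha 0) (ha 2)
    · exact ha 1
  · funext i
    have h := rt_cub i
    simp only [TT_apply, ev, AA, Matrix.cons_val_zero, Matrix.cons_val_one, Matrix.cons_val]
    linear_combination -(a 2) * h

theorem BB_mem {v : V3} (hv : v ∈ Lam) : BB v ∈ Lam := by
  obtain ⟨a, ha, rfl⟩ := hv
  refine ⟨![a 1 - a 0, a 2, a 0], fun i => ?_, ?_⟩
  · fin_cases i
    · exact Gs.sub_mem (ha 1) (ha 0)
    · exact ha 2
    · exact ha 0
  · funext i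
    have h := rt_cub i
    simp only [TT_apply, ev, BB, Matrix.cons_val_zero, Matrix.cons_val_one, Matrix.cons_val]
    rw [eq_inv_mul_iff_mul_eq₀ (rt_ne i)]
    linear_combination (a 0) * h

theorem Lam_sep : ∃ r > 0, ∀ l ∈ Lam, ‖l‖ < r → l = 0 := lat_sep TT_inj
theorem Lam_cov : ∃ R, ∀ x, ∃ l ∈ Lam, ‖x + l‖ ≤ R := lat_cov TT_inj

/-! ### The twistor coordinates -/

/-- the section of `O ⊕ O(1) ⊕ O(1)` with parameter `k`. -/
noncomputable def Sk (X Y : ℂ) (k : V3) : V3 :=
  ![k 0, k 1 * X + conj (k 2) * Y, k 2 * X - conj (k 1) * Y]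

/-- the norm. -/
noncomputable def nq (X Y : ℂ) : ℝ := Complex.normSq X + Complex.normSq Y

/-- the parameter of the section through a vector. -/
noncomputable def Rk (X Y : ℂ) (v : V3) : V3 :=
  ![v 0, (conj X * v 1 - Y * conj (v 2)) / (nq X Y : ℂ), (conj X * v 2 + Y * conj (v 1)) / (nq X Y : ℂ)]

@[simp] theorem Sk_0 (X Y : ℂ) (k : V3) : Sk X Y k 0 = k 0 := rfl
@[simp] theorem Sk_1 (X Y : ℂ) (k : V3) : Sk X Y k 1 = k 1 * X + conj (k 2) * Y := rfl
@[simp] theorem Sk_2 (X Y : ℂ) (k : V3) : Sk X Y k 2 = k 2 * X - conj (k 1) * Y := rfl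
@[simp] theorem Rk_0 (X Y : ℂ) (k : V3) : Rk X Y k 0 = k 0 := rfl
@[simp] theorem Rk_1 (X Y : ℂ) (v : V3) :
    Rk X Y v 1 = (conj X * v 1 - Y * conj (v 2)) / (nq X Y : ℂ) := rfl
@[simp] theorem Rk_2 (X Y : ℂ) (v : V3) :
    Rk X Y v 2 = (conj X * v 2 + Y * conj (v 1)) / (nq X Y : ℂ) := rfl

theorem nq_coe (X Y : ℂ) : (nq X Y : ℂ) = conj X * X + conj Y * Y := by
  unfold nq
  push_cast
  rw [Complex.normSq_eq_conj_mul_self, Complex.normSq_eq_conj_mul_self]

theorem ext3 {u v : V3} (h0 : u 0 = v 0) (h1 : u 1 = v 1) (h2 : u 2 = v 2) : u = v := by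
  funext i
  fin_cases i
  · exact h0
  · exact h1
  · exact h2

theorem Rk_Sk {X Y : ℂ} (h : nq X Y ≠ 0) (k : V3) : Rk X Y (Sk X Y k) = k := by
  have h' : (nq X Y : ℂ) ≠ 0 := by exact_mod_cast h
  apply ext3
  · simp
  · simp only [Rk_1, Sk_1, Sk_2, map_sub, map_mul, Complex.conj_conj]
    rw [div_eq_iff h', nq_coe]
    ring
  · simp only [Rk_2, Sk_1, Sk_2, map_add, map_mul, Complex.conj_conj]
    rw [div_eq_iff h', nq_coe]
    ring

theorem Sk_Rk {X Y : ℂ} (h : nq X Y ≠ 0) (v : V3) : Sk X Y (Rk X Y v) = v := by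
  have h' : (nq X Y : ℂ) ≠ 0 := by exact_mod_cast h
  apply ext3
  · simp
  · simp only [Rk_1, Rk_2, Sk_1, map_add, map_mul, map_div₀, Complex.conj_conj, Complex.conj_ofReal]
    field_simp
    rw [nq_coe]
    ring
  · simp only [Rk_1, Rk_2, Sk_2, map_sub, map_mul, map_div₀, Complex.conj_conj, Complex.conj_ofReal]
    field_simp
    rw [nq_coe]
    ring

theorem Sk_add (X Y : ℂ) (k l : V3) : Sk X Y (k + l) = Sk X Y k + Sk X Y l := by
  apply ext3
  · simp
  · simp; ring
  · simp; ring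

theorem Rk_add (X Y : ℂ) (k l : V3) : Rk X Y (k + l) = Rk X Y k + Rk X Y l := by
  apply ext3
  · simp
  · simp; ring
  · simp; ring

theorem Rk_smul (X Y : ℂ) (r : ℝ) (l : V3) : Rk X Y (r • l) = r • Rk X Y l := by
  apply ext3
  · simp
  · simp; ring
  · simp; ring

theorem Sk_smul (X Y : ℂ) (r : ℝ) (l : V3) : Sk X Y (r • l) = r • Sk X Y l := by
  apply ext3
  · simp
  · simp; ring
  · simp; ring

/-- `Rk` as a real linear map. -/
noncomputable def RkL (X Y : ℂ) : V3 →ₗ[ℝ] V3 where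
  toFun := Rk X Y
  map_add' := Rk_add X Y
  map_smul' := Rk_smul X Y

/-- `Sk` as a real linear map. -/
noncomputable def SkL (X Y : ℂ) : V3 →ₗ[ℝ] V3 where
  toFun := Sk X Y
  map_add' := Sk_add X Y
  map_smul' := Sk_smul X Y

theorem Rk_sub (X Y : ℂ) (k l : V3) : Rk X Y (k - l) = Rk X Y k - Rk X Y l := map_sub (RkL X Y) k l
theorem Sk_sub (X Y : ℂ) (k l : V3) : Sk X Y (k - l) = Sk X Y k - Sk X Y l := map_sub (SkL X Y) k l
theorem Rk_zero (X Y : ℂ) : Rk X Y 0 = 0 := map_zero (RkL X Y)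
theorem Sk_zero (X Y : ℂ) : Sk X Y 0 = 0 := map_zero (SkL X Y)

/-- scaling of the last two coordinates. -/
noncomputable def sc (c : ℂ) (v : V3) : V3 := ![v 0, c * v 1, c * v 2]

@[simp] theorem sc_0 (c : ℂ) (v : V3) : sc c v 0 = v 0 := rfl
@[simp] theorem sc_1 (c : ℂ) (v : V3) : sc c v 1 = c * v 1 := rfl
@[simp] theorem sc_2 (c : ℂ) (v : V3) : sc c v 2 = c * v 2 := rfl

theorem Sk_sc (c X Y : ℂ) (k : V3) : Sk (c * X) (c * Y) k = sc c (Sk X Y k) := by
  apply ext3
  · simp
  · simp; ring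
  · simp; ring

theorem nq_sc (c X Y : ℂ) : nq (c * X) (c * Y) = Complex.normSq c * nq X Y := by
  unfold nq
  rw [Complex.normSq_mul, Complex.normSq_mul]
  ring

theorem Rk_sc {c X Y : ℂ} (hc : c ≠ 0) (h : nq X Y ≠ 0) (v : V3) :
    Rk (c * X) (c * Y) (sc c v) = Rk X Y v := by
  conv_lhs => rw [← Sk_Rk h v]
  rw [← Sk_sc]
  apply Rk_Sk
  rw [nq_sc]
  exact mul_ne_zero (by simpa using hc) h

theorem Rk_AA (X Y : ℂ) (v : V3) : Rk X Y (AA v) = AA (Rk X Y v) := by
  apply ext3
  · simp [AA]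
  · simp [AA]; ring
  · simp [AA]; ring

theorem Sk_AA (X Y : ℂ) (v : V3) : Sk X Y (AA v) = AA (Sk X Y v) := by
  apply ext3
  · simp [AA]
  · simp [AA]; ring
  · simp [AA]; ring

/-! ### The two charts of the projective line -/

/-- first homogeneous coordinate. -/
noncomputable def hX (z : ℂ) : ℂ := if z.re < 0 then 1 else z - 2
/-- second homogeneous coordinate. -/
noncomputable def hY (z : ℂ) : ℂ := if z.re < 0 then z + 2 else 1
/-- derivative of the first. -/
noncomputable def dX (z : ℂ) : ℂ := if z.re < 0 then 0 else 1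
/-- derivative of the second. -/
noncomputable def dY (z : ℂ) : ℂ := if z.re < 0 then 1 else 0

/-- the norm of the homogeneous coordinates. -/
noncomputable def nz (z : ℂ) : ℝ := nq (hX z) (hY z)

theorem nz_ge (z : ℂ) : 1 ≤ nz z := by
  unfold nz nq hX hY
  split_ifs
  · simp [Complex.normSq_nonneg]
  · simp [Complex.normSq_nonneg]

theorem nz_pos (z : ℂ) : 0 < nz z := lt_of_lt_of_le one_pos (nz_ge z)
theorem nz_ne (z : ℂ) : nq (hX z) (hY z) ≠ 0 := (nz_pos z).ne'

/-- the parameter of a point. -/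
noncomputable def al (x : EE) : V3 := Rk (hX x.1) (hY x.1) x.2

/-- the point with parameter `k` over `z`. -/
noncomputable def pt (z : ℂ) (k : V3) : EE := (z, Sk (hX z) (hY z) k)

theorem al_pt (z : ℂ) (k : V3) : al (pt z k) = k := Rk_Sk (nz_ne z) k
theorem pt_al (x : EE) : pt x.1 (al x) = x := Prod.ext rfl (Sk_Rk (nz_ne x.1) x.2)

/-- the open set. -/
def UU : Set EE := {x | x.1.re ≠ 0}

/-- proportionality of the homogeneous coordinates. -/
def prp (z z' : ℂ) : Prop := hX z * hY z' = hY z * hX z'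

theorem prp_refl (z : ℂ) : prp z z := mul_comm _ _
theorem prp_symm {z z' : ℂ} (h : prp z z') : prp z' z := by
  unfold prp at h ⊢
  rw [mul_comm (hX z'), mul_comm (hY z'), h]

theorem hXY_ne (z : ℂ) : hX z ≠ 0 ∨ hY z ≠ 0 := by
  unfold hX hY
  split_ifs
  · left; exact one_ne_zero
  · right; exact one_ne_zero

theorem prp_scale {z z' : ℂ} (h : prp z z') :
    ∃ c : ℂ, c ≠ 0 ∧ hX z' = c * hX z ∧ hY z' = c * hY z := by
  unfold prp at h
  rcases hXY_ne z with h1 | h1
  · refine ⟨hX z' / hX z, ?_, by field_simp, ?_⟩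
    · rw [div_ne_zero_iff]
      refine ⟨fun h2 => ?_, h1⟩
      rw [h2, mul_zero] at h
      rcases mul_eq_zero.1 h with h3 | h3
      · exact h1 h3
      · rcases hXY_ne z' with h4 | h4
        · exact h4 h2
        · exact h4 h3
    · field_simp
      linear_combination h
  · refine ⟨hY z' / hY z, ?_, ?_, by field_simp⟩
    · rw [div_ne_zero_iff]
      refine ⟨fun h2 => ?_, h1⟩
      rw [h2, mul_zero] at h
      rcases mul_eq_zero.1 h.symm with h3 | h3
      · exact h1 h3
      · rcases hXY_ne z' with h4 | h4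
        · exact h4 h3
        · exact h4 h2
    · field_simp
      linear_combination -h

theorem prp_trans {z z' z'' : ℂ} (h : prp z z') (h' : prp z' z'') : prp z z'' := by
  obtain ⟨c, hc, h1, h2⟩ := prp_scale h
  obtain ⟨d, hd, h3, h4⟩ := prp_scale h'
  unfold prp
  rw [h3, h4, h1, h2]
  ring

/-- the relation. -/
def Rel (x y : EE) : Prop := x ∈ UU ∧ y ∈ UU ∧ prp x.1 y.1 ∧ al y - al x ∈ Lam

theorem isOpen_UU : IsOpen UU := by
  apply isOpen_ne.preimage
  fun_prop

theorem ev_lt {z : ℂ} (h : z.re < 0) : ∀ᶠ y in 𝓝 z, y.re < 0 :=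
  Complex.continuous_re.continuousAt.eventually (gt_mem_nhds h)

theorem ev_gt {z : ℂ} (h : 0 < z.re) : ∀ᶠ y in 𝓝 z, 0 < y.re :=
  Complex.continuous_re.continuousAt.eventually (lt_mem_nhds h)

theorem hX_of_lt {z : ℂ} (h : z.re < 0) : hX z = 1 := if_pos h
theorem hY_of_lt {z : ℂ} (h : z.re < 0) : hY z = z + 2 := if_pos h
theorem dX_of_lt {z : ℂ} (h : z.re < 0) : dX z = 0 := if_pos h
theorem dY_of_lt {z : ℂ} (h : z.re < 0) : dY z = 1 := if_pos h
theorem hX_of_gt {z : ℂ} (h : 0 < z.re) : hX z = z - 2 := if_neg (not_lt.2 h.le)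
theorem hY_of_gt {z : ℂ} (h : 0 < z.re) : hY z = 1 := if_neg (not_lt.2 h.le)
theorem dX_of_gt {z : ℂ} (h : 0 < z.re) : dX z = 1 := if_neg (not_lt.2 h.le)
theorem dY_of_gt {z : ℂ} (h : 0 < z.re) : dY z = 0 := if_neg (not_lt.2 h.le)

theorem hX_ana {z : ℂ} (h : z.re ≠ 0) : ContDiffAt ℂ ω hX z := by
  rcases lt_or_gt_of_ne h with h | h
  · refine (contDiffAt_const (c := (1 : ℂ))).congr_of_eventuallyEq ?_
    filter_upwards [ev_lt h] with y hy using hX_of_lt hy
  · refine (contDiffAt_id.sub (contDiffAt_const (c := (2 : ℂ)))).congr_of_eventuallyEq ?_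
    filter_upwards [ev_gt h] with y hy using hX_of_gt hy

theorem hY_ana {z : ℂ} (h : z.re ≠ 0) : ContDiffAt ℂ ω hY z := by
  rcases lt_or_gt_of_ne h with h | h
  · refine (contDiffAt_id.add (contDiffAt_const (c := (2 : ℂ)))).congr_of_eventuallyEq ?_
    filter_upwards [ev_lt h] with y hy using hY_of_lt hy
  · refine (contDiffAt_const (c := (1 : ℂ))).congr_of_eventuallyEq ?_
    filter_upwards [ev_gt h] with y hy using hY_of_gt hy

theorem hX_der {z : ℂ} (h : z.re ≠ 0) : HasDerivAt hX (dX z) z := by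
  rcases lt_or_gt_of_ne h with h | h
  · rw [dX_of_lt h]
    refine (hasDerivAt_const z (1 : ℂ)).congr_of_eventuallyEq ?_
    filter_upwards [ev_lt h] with y hy using hX_of_lt hy
  · rw [dX_of_gt h]
    refine ((hasDerivAt_id z).sub_const 2).congr_of_eventuallyEq ?_
    filter_upwards [ev_gt h] with y hy using hX_of_gt hy

theorem hY_der {z : ℂ} (h : z.re ≠ 0) : HasDerivAt hY (dY z) z := by
  rcases lt_or_gt_of_ne h with h | h
  · rw [dY_of_lt h]
    refine ((hasDerivAt_id z).add_const 2).congr_of_eventuallyEq ?_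
    filter_upwards [ev_lt h] with y hy using hY_of_lt hy
  · rw [dY_of_gt h]
    refine (hasDerivAt_const z (1 : ℂ)).congr_of_eventuallyEq ?_
    filter_upwards [ev_gt h] with y hy using hY_of_gt hy

theorem wron {z : ℂ} (h : z.re ≠ 0) : ‖hX z * dY z - hY z * dX z‖ = 1 := by
  rcases lt_or_gt_of_ne h with h | h
  · rw [hX_of_lt h, hY_of_lt h, dX_of_lt h, dY_of_lt h]
    simp
  · rw [hX_of_gt h, hY_of_gt h, dX_of_gt h, dY_of_gt h]
    simp

end Pool.Agent.Q182.TW
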