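import Pool.Agent.Q182.TW1

/-!
# The manifold as an étale quotient
-/

set_option autoImplicit false

open scoped Topology ComplexConjugate Manifold ContDiff
open Set Filter

namespace Pool.Agent.Q182.TW

open Pool.Agent.Y331.PH

theorem isClosed_Lam : IsClosed (Lam : Set V3) := by
  obtain ⟨r, hr, h⟩ := Lam_sep
  have h1 : DiscreteTopology Lam := by
    apply discreteTopology_of_isOpen_singleton_zero
    rw [Metric.isOpen_singleton_iff]
    refine ⟨r, hr, ?_⟩
    rintro ⟨l, hl⟩ hd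
    apply Subtype.ext
    exact h l hl (by simpa [dist_eq_norm] using hd)
  exact AddSubgroup.isClosed_of_discrete

theorem conj_ana : ContDiff ℝ ω (fun z : ℂ => conj z) := Complex.conjCLE.contDiff

theorem cd_X {x : EE} (hx : x ∈ UU) : ContDiffAt ℝ ω (fun y : EE => hX y.1) x :=
  ((hX_ana hx).restrict_scalars ℝ).comp x contDiffAt_fst

theorem cd_Y {x : EE} (hx : x ∈ UU) : ContDiffAt ℝ ω (fun y : EE => hY y.1) x :=
  ((hY_ana hx).restrict_scalars ℝ).comp x contDiffAt_fst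

theorem cd_v (x : EE) (i : Fin 3) : ContDiffAt ℝ ω (fun y : EE => y.2 i) x :=
  (contDiffAt_pi.1 contDiffAt_snd i)

theorem cd_n {x : EE} (hx : x ∈ UU) :
    ContDiffAt ℝ ω (fun y : EE => ((nq (hX y.1) (hY y.1) : ℝ) : ℂ)) x := by
  have h : (fun y : EE => ((nq (hX y.1) (hY y.1) : ℝ) : ℂ)) =
      fun y => conj (hX y.1) * hX y.1 + conj (hY y.1) * hY y.1 := by
    funext y
    exact nq_coe _ _
  rw [h]
  have h1 := conj_ana.contDiffAt.comp x (cd_X hx)
  have h2 := conj_ana.contDiffAt.comp x (cd_Y hx)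
  exact (h1.mul (cd_X hx)).add (h2.mul (cd_Y hx))

theorem al_ana {x : EE} (hx : x ∈ UU) : ContDiffAt ℝ ω al x := by
  have hn : ((nq (hX x.1) (hY x.1) : ℝ) : ℂ) ≠ 0 := by exact_mod_cast nz_ne x.1
  have h1 := conj_ana.contDiffAt.comp x (cd_X hx)
  have c1 := conj_ana.contDiffAt.comp x (cd_v x 1)
  have c2 := conj_ana.contDiffAt.comp x (cd_v x 2)
  rw [contDiffAt_pi]
  intro i
  fin_cases i
  · exact cd_v x 0
  · have := ((h1.mul (cd_v x 1)).sub ((cd_Y hx).mul c2)).mul ((cd_n hx).inv hn)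
    refine this.congr_of_eventuallyEq (Eventually.of_forall fun y => ?_)
    simp only [al, Fin.mk_one, Rk_1, Function.comp_apply, div_eq_mul_inv, Pi.inv_apply]
  · have := ((h1.mul (cd_v x 2)).add ((cd_Y hx).mul c1)).mul ((cd_n hx).inv hn)
    refine this.congr_of_eventuallyEq (Eventually.of_forall fun y => ?_)
    simp only [al, Fin.reduceFinMk, Rk_2, Function.comp_apply, div_eq_mul_inv, Pi.inv_apply]

theorem al_cont {x : EE} (hx : x ∈ UU) : ContinuousAt al x := (al_ana hx).continuousAt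

/-! ### Changes of the base coordinate -/

theorem exists_psi {z₀ z₁ : ℂ} (h₀ : z₀.re ≠ 0) (h₁ : z₁.re ≠ 0) (h : prp z₀ z₁) :
    ∃ ψ c : ℂ → ℂ, ψ z₀ = z₁ ∧ ContDiffAt ℂ ω ψ z₀ ∧ ContDiffAt ℂ ω c z₀ ∧
      ∀ᶠ z in 𝓝 z₀, (ψ z).re ≠ 0 ∧ c z ≠ 0 ∧ hX (ψ z) = c z * hX z ∧ hY (ψ z) = c z * hY z := by
  obtain ⟨c₀, hc₀, e1, e2⟩ := prp_scale h
  rcases lt_or_gt_of_ne h₁ with h1 | h1
  · rw [hX_of_lt h1] at e1
    rw [hY_of_lt h1] at e2
    have hX0 : hX z₀ ≠ 0 := fun h => by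
      rw [h, mul_zero] at e1
      exact one_ne_zero e1
    have hc : c₀ = (hX z₀)⁻¹ := by
      field_simp
      exact e1.symm
    have a1 : ContDiffAt ℂ ω (fun z => (hX z)⁻¹) z₀ := (hX_ana h₀).inv hX0
    have a2 : ContDiffAt ℂ ω (fun z => (hX z)⁻¹ * hY z - 2) z₀ :=
      (a1.mul (hY_ana h₀)).sub contDiffAt_const
    have a3 : (hX z₀)⁻¹ * hY z₀ - 2 = z₁ := by
      rw [← hc, ← e2]
      ring
    refine ⟨fun z => (hX z)⁻¹ * hY z - 2, fun z => (hX z)⁻¹, a3, a2, a1, ?_⟩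
    have b1 : ∀ᶠ z in 𝓝 z₀, ((hX z)⁻¹ * hY z - 2).re < 0 := by
      refine a2.continuousAt.eventually (p := fun z => z.re < 0) ?_
      change ∀ᶠ y in 𝓝 ((hX z₀)⁻¹ * hY z₀ - 2), y.re < 0
      rw [a3]
      exact ev_lt h1
    have b2 : ∀ᶠ z in 𝓝 z₀, hX z ≠ 0 := (hX_ana h₀).continuousAt.eventually_ne hX0
    filter_upwards [b1, b2] with z h2 h3
    refine ⟨h2.ne, inv_ne_zero h3, ?_, ?_⟩
    · rw [hX_of_lt h2, inv_mul_cancel₀ h3]
    · rw [hY_of_lt h2]
      ring
  · rw [hX_of_gt h1] at e1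
    rw [hY_of_gt h1] at e2
    have hY0 : hY z₀ ≠ 0 := fun h => by
      rw [h, mul_zero] at e2
      exact one_ne_zero e2
    have hc : c₀ = (hY z₀)⁻¹ := by
      field_simp
      exact e2.symm
    have a1 : ContDiffAt ℂ ω (fun z => (hY z)⁻¹) z₀ := (hY_ana h₀).inv hY0
    have a2 : ContDiffAt ℂ ω (fun z => (hY z)⁻¹ * hX z + 2) z₀ :=
      (a1.mul (hX_ana h₀)).add contDiffAt_const
    have a3 : (hY z₀)⁻¹ * hX z₀ + 2 = z₁ := by
      rw [← hc, ← e1]
      ring
    refine ⟨fun z => (hY z)⁻¹ * hX z + 2, fun z => (hY z)⁻¹, a3, a2, a1, ?_⟩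
    have b1 : ∀ᶠ z in 𝓝 z₀, 0 < ((hY z)⁻¹ * hX z + 2).re := by
      refine a2.continuousAt.eventually (p := fun z => 0 < z.re) ?_
      change ∀ᶠ y in 𝓝 ((hY z₀)⁻¹ * hX z₀ + 2), 0 < y.re
      rw [a3]
      exact ev_gt h1
    have b2 : ∀ᶠ z in 𝓝 z₀, hY z ≠ 0 := (hY_ana h₀).continuousAt.eventually_ne hY0
    filter_upwards [b1, b2] with z h2 h3
    refine ⟨h2.ne', inv_ne_zero h3, ?_, ?_⟩
    · rw [hX_of_gt h2]
      ring
    · rw [hY_of_gt h2, inv_mul_cancel₀ h3]

theorem Rel_deck {x y : EE} (h : Rel x y) :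
    ∃ φ : EE → EE, φ x = y ∧ ContDiffAt ℂ ω φ x ∧ ∀ᶠ z in 𝓝 x, Rel z (φ z) := by
  obtain ⟨hx, hy, hp, hl⟩ := h
  obtain ⟨ψ, c, h1, h2, h3, h4⟩ := exists_psi hx hy hp
  have f1 : ContinuousAt (Prod.fst : EE → ℂ) x := continuousAt_fst
  have h0 := h4.self_of_nhds
  refine ⟨fun z => (ψ z.1, sc (c z.1) (z.2 + Sk (hX z.1) (hY z.1) (al y - al x))), ?_, ?_, ?_⟩
  · apply Prod.ext
    · exact h1
    · change sc (c x.1) (x.2 + Sk (hX x.1) (hY x.1) (al y - al x)) = y.2
      have e1 : x.2 = Sk (hX x.1) (hY x.1) (al x) := (Sk_Rk (nz_ne x.1) x.2).symm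
      have e2 : y.2 = Sk (hX y.1) (hY y.1) (al y) := (Sk_Rk (nz_ne y.1) y.2).symm
      rw [e2]
      conv_lhs => rw [e1]
      rw [← Sk_add, add_sub_cancel, ← Sk_sc, ← h0.2.2.1, ← h0.2.2.2, h1]
  · have g1 : ContDiffAt ℂ ω (fun z : EE => ψ z.1) x := h2.comp x contDiffAt_fst
    have g2 : ContDiffAt ℂ ω (fun z : EE => c z.1) x := h3.comp x contDiffAt_fst
    have g3 : ContDiffAt ℂ ω (fun z : EE => hX z.1) x := (hX_ana hx).comp x contDiffAt_fst
    have g4 : ContDiffAt ℂ ω (fun z : EE => hY z.1) x := (hY_ana hx).comp x contDiffAt_fst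
    have g5 : ∀ i : Fin 3, ContDiffAt ℂ ω (fun z : EE => z.2 i) x := fun i =>
      contDiffAt_pi.1 contDiffAt_snd i
    refine g1.prodMk ?_
    rw [contDiffAt_pi]
    intro i
    fin_cases i
    · exact (g5 0).add contDiffAt_const
    · exact g2.mul ((g5 1).add ((contDiffAt_const.mul g3).add (contDiffAt_const.mul g4)))
    · exact g2.mul ((g5 2).add ((contDiffAt_const.mul g3).sub (contDiffAt_const.mul g4)))
  · filter_upwards [f1.eventually h4, isOpen_UU.mem_nhds hx] with z hz hzU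
    obtain ⟨k1, k2, k3, k4⟩ := hz
    refine ⟨hzU, k1, ?_, ?_⟩
    · change hX z.1 * hY (ψ z.1) = hY z.1 * hX (ψ z.1)
      rw [k3, k4]
      ring
    · have e : al (ψ z.1, sc (c z.1) (z.2 + Sk (hX z.1) (hY z.1) (al y - al x))) =
          al z + (al y - al x) := by
        unfold al
        simp only
        rw [k3, k4, Rk_sc k2 (nz_ne z.1), Rk_add, Rk_Sk (nz_ne z.1)]
      rw [e, add_sub_cancel_left]
      exact hl

theorem eq_of_al {x y : EE} (h1 : x.1 = y.1) (h2 : al x = al y) : x = y := by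
  rw [← pt_al x, ← pt_al y, h1, h2]

theorem Rel_inj {x : EE} (hx : x ∈ UU) : ∀ᶠ p : EE × EE in 𝓝 (x, x), Rel p.1 p.2 → p.1 = p.2 := by
  obtain ⟨r, hr, hsep⟩ := Lam_sep
  have f1 : Tendsto (fun p : EE × EE => p.1) (𝓝 (x, x)) (𝓝 x) := continuous_fst.tendsto (x, x)
  have f2 : Tendsto (fun p : EE × EE => p.2) (𝓝 (x, x)) (𝓝 x) := continuous_snd.tendsto (x, x)
  have f3 : Tendsto (fun p : EE × EE => al p.2 - al p.1) (𝓝 (x, x)) (𝓝 0) := by
    have := ((al_cont hx).tendsto.comp f2).sub ((al_cont hx).tendsto.comp f1)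
    rw [sub_self] at this
    exact this
  have f4 : ∀ᶠ p : EE × EE in 𝓝 (x, x), ‖al p.2 - al p.1‖ < r := by
    have := f3.norm
    rw [norm_zero] at this
    exact this.eventually (gt_mem_nhds hr)
  have g1 : ContinuousAt (Prod.fst : EE → ℂ) x := continuousAt_fst
  have f5 : ∀ᶠ p : EE × EE in 𝓝 (x, x), prp p.1.1 p.2.1 → p.1.1 = p.2.1 := by
    rcases lt_or_gt_of_ne hx with h | h
    · have h1 := g1.eventually (ev_lt h)
      filter_upwards [f1.eventually h1, f2.eventually h1] with p h2 h3 h4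
      unfold prp at h4
      rw [hX_of_lt h2, hX_of_lt h3, hY_of_lt h2, hY_of_lt h3] at h4
      linear_combination -h4
    · have h1 := g1.eventually (ev_gt h)
      filter_upwards [f1.eventually h1, f2.eventually h1] with p h2 h3 h4
      unfold prp at h4
      rw [hX_of_gt h2, hX_of_gt h3, hY_of_gt h2, hY_of_gt h3] at h4
      linear_combination h4
  filter_upwards [f4, f5] with p h1 h2 h3
  apply eq_of_al (h2 h3.2.2.1)
  have := hsep _ h3.2.2.2 h1
  exact (sub_eq_zero.1 this).symm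

theorem Rel_closed {x y : EE} (hx : x ∈ UU) (hy : y ∈ UU)
    (h : ∃ᶠ p : EE × EE in 𝓝 (x, y), Rel p.1 p.2) : Rel x y := by
  have f1 : Tendsto (fun p : EE × EE => p.1) (𝓝 (x, y)) (𝓝 x) := continuous_fst.tendsto (x, y)
  have f2 : Tendsto (fun p : EE × EE => p.2) (𝓝 (x, y)) (𝓝 y) := continuous_snd.tendsto (x, y)
  have g1 := (cd_X hx).continuousAt.tendsto.comp f1
  have g2 := (cd_Y hx).continuousAt.tendsto.comp f1
  have g3 := (cd_X hy).continuousAt.tendsto.comp f2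
  have g4 := (cd_Y hy).continuousAt.tendsto.comp f2
  refine ⟨hx, hy, ?_, ?_⟩
  · by_contra hne
    have h1 := ((g1.mul g4).sub (g2.mul g3)).eventually_ne (sub_ne_zero.2 hne)
    exact h (h1.mono fun p hp hp2 => hp (sub_eq_zero.2 hp2.2.2.1))
  · by_contra hne
    have h2 : Tendsto (fun p : EE × EE => al p.2 - al p.1) (𝓝 (x, y)) (𝓝 (al y - al x)) :=
      ((al_cont hy).tendsto.comp f2).sub ((al_cont hx).tendsto.comp f1)
    have h1 := h2.eventually (isClosed_Lam.isOpen_compl.mem_nhds hne)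
    exact h (h1.mono fun p hp hp2 => hp hp2.2.2.2)

/-- the étale relation. -/
noncomputable def SS : Et EE where
  U := UU
  isOpen := isOpen_UU
  pt := pt (-1) 0
  pt_mem := by simp [UU, pt]
  rel := Rel
  refl x hx := ⟨hx, hx, prp_refl _, by rw [sub_self]; exact Lam.zero_mem⟩
  symm x y h := ⟨h.2.1, h.1, prp_symm h.2.2.1, by rw [← neg_sub]; exact Lam.neg_mem h.2.2.2⟩
  trans x y z h h' := ⟨h.1, h'.2.1, prp_trans h.2.2.1 h'.2.2.1, by
    have := Lam.add_mem h.2.2.2 h'.2.2.2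
    rwa [show al y - al x + (al z - al y) = al z - al x by abel] at this⟩
  mem x y h := h.1
  deck x y h := Rel_deck h
  inj x hx := Rel_inj hx
  closed x hx y hy h := Rel_closed hx hy h

/-! ### The derivative of the parameter -/

/-- the derivative in `z` of the section with parameter `k`. -/
noncomputable def Sd (z : ℂ) (k : V3) : V3 :=
  ![0, k 1 * dX z + conj (k 2) * dY z, k 2 * dX z - conj (k 1) * dY z]

/-- the real derivative of the parameter. -/
noncomputable def Dal (x : EE) : EE →L[ℝ] V3 := fderiv ℝ al x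

theorem Dal_has {x : EE} (hx : x ∈ UU) : HasFDerivAt al (Dal x) x :=
  ((al_ana hx).differentiableAt (by simp)).hasFDerivAt

theorem line_has (x w : EE) : HasDerivAt (fun t : ℝ => x + t • w) w 0 := by
  have := ((hasDerivAt_id (0 : ℝ)).smul_const w).const_add x
  simpa using this

theorem Dal_line {x : EE} (hx : x ∈ UU) (w : EE) :
    HasDerivAt (fun t : ℝ => al (x + t • w)) (Dal x w) 0 := by
  have h := Dal_has hx
  have h' : HasFDerivAt al (Dal x) (x + (0 : ℝ) • w) := by simpa using h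
  exact h'.comp_hasDerivAt (0 : ℝ) (line_has x w)

theorem hX_line {z : ℂ} (hz : z.re ≠ 0) (a : ℂ) :
    HasDerivAt (fun t : ℝ => hX (z + t • a)) (a * dX z) 0 := by
  have h1 : HasDerivAt (fun t : ℝ => z + t • a) a 0 := by
    have := ((hasDerivAt_id (0 : ℝ)).smul_const a).const_add z
    simpa using this
  have h2 : HasDerivAt hX (dX z) (z + (0 : ℝ) • a) := by simpa using hX_der hz
  have := h2.comp_of_eq (0 : ℝ) h1 rfl
  simpa [mul_comm, Function.comp_def] using this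

theorem hY_line {z : ℂ} (hz : z.re ≠ 0) (a : ℂ) :
    HasDerivAt (fun t : ℝ => hY (z + t • a)) (a * dY z) 0 := by
  have h1 : HasDerivAt (fun t : ℝ => z + t • a) a 0 := by
    have := ((hasDerivAt_id (0 : ℝ)).smul_const a).const_add z
    simpa using this
  have h2 : HasDerivAt hY (dY z) (z + (0 : ℝ) • a) := by simpa using hY_der hz
  have := h2.comp_of_eq (0 : ℝ) h1 rfl
  simpa [mul_comm, Function.comp_def] using this

theorem conj_has {f : ℝ → ℂ} {f' : ℂ} {t : ℝ} (h : HasDerivAt f f' t) :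
    HasDerivAt (fun s => conj (f s)) (conj f') t :=
  (Complex.conjCLE.toContinuousLinearMap.hasFDerivAt (x := f t)).comp_hasDerivAt t h

theorem Sk_Dal {x : EE} (hx : x ∈ UU) (w : EE) :
    Sk (hX x.1) (hY x.1) (Dal x w) = w.2 - w.1 • Sd x.1 (al x) := by
  have h1 := hX_line hx w.1
  have h2 := hY_line hx w.1
  have h3 := hasDerivAt_pi.1 (Dal_line hx w)
  have h4 : ∀ i, HasDerivAt (fun t : ℝ => (x + t • w).2 i) (w.2 i) 0 := by
    intro i
    have := ((hasDerivAt_id (0 : ℝ)).smul_const (w.2 i)).const_add (x.2 i)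
    simpa using this
  have e : ∀ t : ℝ, Sk (hX (x + t • w).1) (hY (x + t • w).1) (al (x + t • w)) = (x + t • w).2 :=
    fun t => Sk_Rk (nz_ne _) _
  have z1 : x.1 + (0 : ℝ) • w.1 = x.1 := by simp
  have z2 : x + (0 : ℝ) • w = x := by simp
  apply ext3
  · have k := (h3 0).unique ((h4 0).congr_of_eventuallyEq (Eventually.of_forall fun t => ?_))
    · simp [k, Sd]
    · have := congrFun (e t) 0
      simpa using this
  · have k1 := (((h3 1).mul h1).add ((conj_has (h3 2)).mul h2))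
    have k := k1.unique ((h4 1).congr_of_eventuallyEq (Eventually.of_forall fun t => ?_))
    · simp only [z1, z2] at k
      simp only [Sk_1, Pi.sub_apply, Pi.smul_apply, Sd, Matrix.cons_val_one, Matrix.cons_val_zero,
        smul_eq_mul]
      linear_combination k
    · have := congrFun (e t) 1
      simpa using this
  · have k1 := (((h3 2).mul h1).sub ((conj_has (h3 1)).mul h2))
    have k := k1.unique ((h4 2).congr_of_eventuallyEq (Eventually.of_forall fun t => ?_))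
    · simp only [z1, z2] at k
      simp only [Sk_2, Pi.sub_apply, Pi.smul_apply, Sd, Matrix.cons_val, smul_eq_mul]
      linear_combination k
    · have := congrFun (e t) 2
      simpa using this

theorem Dal_eq {x : EE} (hx : x ∈ UU) (w : EE) :
    Dal x w = Rk (hX x.1) (hY x.1) (w.2 - w.1 • Sd x.1 (al x)) := by
  rw [← Sk_Dal hx w, Rk_Sk (nz_ne x.1)]

theorem Dal_inj {x : EE} (hx : x ∈ UU) {w : EE} (h1 : w.1 = 0) (h2 : Dal x w = 0) : w = 0 := by
  have h3 := Sk_Dal hx w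
  rw [h2, Sk_zero, h1, zero_smul, sub_zero] at h3
  exact Prod.ext h1 h3.symm

end Pool.Agent.Q182.TW
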