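import Pool.Agent.Q182.TW2

/-!
# Invariant distributions and domination
-/

set_option autoImplicit false

open scoped Topology ComplexConjugate Manifold ContDiff
open Set Filter

namespace Pool.Agent.Q182.TW

open Pool.Agent.Y331.PH

theorem germ_mem {φ : EE → EE} {x : EE} (h : SS.Germ φ x) : x ∈ UU ∧ φ x ∈ UU :=
  ⟨h.rel.1, h.rel.2.1⟩

theorem germ_al {φ : EE → EE} {x : EE} (h : SS.Germ φ x) :
    ∀ᶠ y in 𝓝 x, al (φ y) = al y + (al (φ x) - al x) := by
  obtain ⟨r, hr, hsep⟩ := Lam_sep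
  obtain ⟨hx, hφ⟩ := germ_mem h
  have f1 : Tendsto (fun y => al (φ y)) (𝓝 x) (𝓝 (al (φ x))) := (al_cont hφ).tendsto.comp h.1
  have f2 : Tendsto (fun y => (al (φ y) - al y) - (al (φ x) - al x)) (𝓝 x) (𝓝 0) := by
    have := (f1.sub (al_cont hx).tendsto).sub_const (al (φ x) - al x)
    rwa [sub_self] at this
  have f3 := f2.norm
  rw [norm_zero] at f3
  filter_upwards [f3.eventually (gt_mem_nhds hr), h.2] with y h1 h2
  have h3 := hsep _ (Lam.sub_mem h2.2.2.2 h.rel.2.2.2) h1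
  have h4 := sub_eq_zero.1 h3
  rw [← h4]
  abel

theorem germ_Dal {φ : EE → EE} {x : EE} (h : SS.Germ φ x) (w : EE) :
    Dal (φ x) (fderiv ℂ φ x w) = Dal x w := by
  obtain ⟨hx, hφ⟩ := germ_mem h
  have h1 := (Dal_has hφ).comp x (h.hasFDerivAt.restrictScalars ℝ)
  have h2 := (Dal_has hx).add_const (al (φ x) - al x)
  have h3 := h1.unique (h2.congr_of_eventuallyEq (germ_al h))
  exact DFunLike.congr_fun h3 w

theorem germ_fst {φ : EE → EE} {x : EE} (h : SS.Germ φ x) (w : EE) :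
    ‖(fderiv ℂ φ x w).1‖ / nz (φ x).1 = ‖w.1‖ / nz x.1 := by
  obtain ⟨hx, hφ⟩ := germ_mem h
  obtain ⟨c, hc, e1, e2⟩ := prp_scale h.rel.2.2.1
  -- the curve
  have z2 : x + (0 : ℝ) • w = x := by simp
  have l1 : HasDerivAt (fun t : ℝ => φ (x + t • w)) (fderiv ℂ φ x w) 0 := by
    have h' : HasFDerivAt φ ((fderiv ℂ φ x).restrictScalars ℝ) (x + (0 : ℝ) • w) := by
      rw [z2]
      exact h.hasFDerivAt.restrictScalars ℝ
    exact h'.comp_hasDerivAt (0 : ℝ) (line_has x w)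
  have l2 : HasDerivAt (fun t : ℝ => (φ (x + t • w)).1) (fderiv ℂ φ x w).1 0 :=
    (ContinuousLinearMap.fst ℝ ℂ V3).hasFDerivAt.comp_hasDerivAt (0 : ℝ) l1
  have l3 : HasDerivAt (fun t : ℝ => hX (φ (x + t • w)).1)
      (dX (φ x).1 * (fderiv ℂ φ x w).1) 0 := by
    have h2 : HasDerivAt hX (dX (φ x).1) (φ (x + (0 : ℝ) • w)).1 := by
      rw [z2]
      exact hX_der hφ
    exact h2.comp_of_eq (0 : ℝ) l2 rfl
  have l4 : HasDerivAt (fun t : ℝ => hY (φ (x + t • w)).1)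
      (dY (φ x).1 * (fderiv ℂ φ x w).1) 0 := by
    have h2 : HasDerivAt hY (dY (φ x).1) (φ (x + (0 : ℝ) • w)).1 := by
      rw [z2]
      exact hY_der hφ
    exact h2.comp_of_eq (0 : ℝ) l2 rfl
  have m1 := (hX_line hx w.1).mul l4
  have m2 := (hY_line hx w.1).mul l3
  have ht : Tendsto (fun t : ℝ => x + t • w) (𝓝 0) (𝓝 x) := by
    have := (line_has x w).continuousAt.tendsto
    rwa [z2] at this
  have m3 := m1.unique (m2.congr_of_eventuallyEq ?_)
  · simp only [zero_smul, add_zero] at m3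
    have hw1 := wron hx
    have hw2 := wron hφ
    have hn := nz_pos x.1
    have hn2 := nz_pos (φ x).1
    have e3 : nz (φ x).1 = ‖c‖ ^ 2 * nz x.1 := by
      unfold nz
      rw [e1, e2, nq_sc, Complex.normSq_eq_norm_sq]
    have e4 : (fderiv ℂ φ x w).1 * (hX (φ x).1 * dY (φ x).1 - hY (φ x).1 * dX (φ x).1) =
        c ^ 2 * w.1 * (hX x.1 * dY x.1 - hY x.1 * dX x.1) := by
      rw [e1, e2] at m3 ⊢
      linear_combination c * m3
    have e5 := congrArg norm e4
    rw [norm_mul, norm_mul, norm_mul, norm_pow, hw1, hw2, mul_one, mul_one] at e5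
    rw [e5, e3]
    have : ‖c‖ ≠ 0 := norm_ne_zero_iff.2 hc
    field_simp
  · filter_upwards [ht.eventually h.2] with t h1
    exact h1.2.2.1

/-- the invariant norm. -/
noncomputable def NN (x w : EE) : ℝ := ‖w.1‖ / nz x.1 + ‖Dal x w‖

theorem inv_NN : SS.InvFun NN := by
  intro φ x h w
  unfold NN
  rw [germ_Dal h, germ_fst h]

/-! ### The distributions -/

/-- the center distribution. -/
noncomputable def Cen (x : EE) : Submodule ℂ EE where
  carrier := {w | w.2 = w.1 • Sd x.1 (al x)}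
  add_mem' := by
    intro a b ha hb
    simp only [mem_ofPred_eq] at ha hb ⊢
    rw [Prod.snd_add, Prod.fst_add, ha, hb, add_smul]
  zero_mem' := by simp
  smul_mem' := by
    intro c a ha
    simp only [mem_ofPred_eq] at ha ⊢
    rw [Prod.smul_snd, Prod.smul_fst, ha, smul_smul, smul_eq_mul]

/-- the stable distribution. -/
noncomputable def Vs (_ : EE) : Submodule ℂ EE where
  carrier := {w | w.1 = 0 ∧ w.2 0 = 0}
  add_mem' := by
    rintro a b ⟨h1, h2⟩ ⟨h3, h4⟩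
    exact ⟨by simp [h1, h3], by simp [h2, h4]⟩
  zero_mem' := by simp
  smul_mem' := by
    rintro c a ⟨h1, h2⟩
    exact ⟨by simp [h1], by simp [h2]⟩

/-- the unstable distribution. -/
noncomputable def Vu (_ : EE) : Submodule ℂ EE where
  carrier := {w | w.1 = 0 ∧ w.2 1 = 0 ∧ w.2 2 = 0}
  add_mem' := by
    rintro a b ⟨h1, h2, h5⟩ ⟨h3, h4, h6⟩
    exact ⟨by simp [h1, h3], by simp [h2, h4], by simp [h5, h6]⟩
  zero_mem' := by simp
  smul_mem' := by
    rintro c a ⟨h1, h2, h3⟩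
    exact ⟨by simp [h1], by simp [h2], by simp [h3]⟩

theorem mem_Cen {x w : EE} : w ∈ Cen x ↔ w.2 = w.1 • Sd x.1 (al x) := Iff.rfl
theorem mem_Vs {x w : EE} : w ∈ Vs x ↔ w.1 = 0 ∧ w.2 0 = 0 := Iff.rfl
theorem mem_Vu {x w : EE} : w ∈ Vu x ↔ w.1 = 0 ∧ w.2 1 = 0 ∧ w.2 2 = 0 := Iff.rfl

theorem mem_Cen_iff {x : EE} (hx : x ∈ UU) (w : EE) : w ∈ Cen x ↔ Dal x w = 0 := by
  rw [mem_Cen, ← sub_eq_zero, ← Sk_Dal hx w]
  constructor
  · intro h
    rw [← Rk_Sk (nz_ne x.1) (Dal x w), h, Rk_zero]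
  · intro h
    rw [h, Sk_zero]

theorem vert_snd {x : EE} (hx : x ∈ UU) {w : EE} (h : w.1 = 0) :
    Sk (hX x.1) (hY x.1) (Dal x w) = w.2 := by
  rw [Sk_Dal hx w, h, zero_smul, sub_zero]

theorem vert_Dal {x : EE} (hx : x ∈ UU) {w : EE} (h : w.1 = 0) :
    Dal x w = Rk (hX x.1) (hY x.1) w.2 := by
  rw [Dal_eq hx w, h, zero_smul, sub_zero]

theorem mem_Vs_iff {x : EE} (hx : x ∈ UU) (w : EE) : w ∈ Vs x ↔ w.1 = 0 ∧ Dal x w 0 = 0 := by
  rw [mem_Vs]
  refine and_congr_right fun h => ?_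
  rw [vert_Dal hx h, Rk_0]

theorem mem_Vu_iff {x : EE} (hx : x ∈ UU) (w : EE) :
    w ∈ Vu x ↔ w.1 = 0 ∧ Dal x w 1 = 0 ∧ Dal x w 2 = 0 := by
  rw [mem_Vu]
  refine and_congr_right fun h => ?_
  constructor
  · rintro ⟨h1, h2⟩
    rw [vert_Dal hx h, Rk_1, Rk_2, h1, h2]
    simp
  · rintro ⟨h1, h2⟩
    rw [← vert_snd hx h, Sk_1, Sk_2, h1, h2]
    simp

theorem germ_fst_zero {φ : EE → EE} {x : EE} (h : SS.Germ φ x) {w : EE} (hw : w.1 = 0) :
    (fderiv ℂ φ x w).1 = 0 := by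
  have h1 := germ_fst h w
  rw [hw, norm_zero, zero_div, div_eq_zero_iff] at h1
  exact norm_eq_zero.1 (h1.resolve_right (nz_pos _).ne')

theorem inv_Cen : SS.InvSub Cen := by
  intro φ x h w hw
  obtain ⟨hx, hφ⟩ := germ_mem h
  rw [mem_Cen_iff hφ, germ_Dal h]
  exact (mem_Cen_iff hx w).1 hw

theorem inv_Vs : SS.InvSub Vs := by
  intro φ x h w hw
  obtain ⟨hx, hφ⟩ := germ_mem h
  rw [mem_Vs_iff hx] at hw
  rw [mem_Vs_iff hφ, germ_Dal h]
  exact ⟨germ_fst_zero h hw.1, hw.2⟩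

theorem inv_Vu : SS.InvSub Vu := by
  intro φ x h w hw
  obtain ⟨hx, hφ⟩ := germ_mem h
  rw [mem_Vu_iff hx] at hw
  rw [mem_Vu_iff hφ, germ_Dal h]
  exact ⟨germ_fst_zero h hw.1, hw.2⟩

/-! ### The biholomorphism -/

/-- `AA` as a linear map. -/
noncomputable def AL : V3 →ₗ[ℂ] V3 where
  toFun := AA
  map_add' a b := by funext i; simp only [AA, Pi.add_apply]; ring
  map_smul' c a := by funext i; simp only [AA, Pi.smul_apply, smul_eq_mul, RingHom.id_apply]; ring

/-- `BB` as a linear map. -/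
noncomputable def BL : V3 →ₗ[ℂ] V3 where
  toFun := BB
  map_add' a b := by funext i; simp only [BB, Pi.add_apply]; ring
  map_smul' c a := by funext i; simp only [BB, Pi.smul_apply, smul_eq_mul, RingHom.id_apply]; ring

/-- the map. -/
noncomputable def FF : EE →L[ℂ] EE :=
  (ContinuousLinearMap.id ℂ ℂ).prodMap (LinearMap.toContinuousLinearMap AL)
/-- the inverse. -/
noncomputable def GG : EE →L[ℂ] EE :=
  (ContinuousLinearMap.id ℂ ℂ).prodMap (LinearMap.toContinuousLinearMap BL)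

theorem FF_apply (x : EE) : FF x = (x.1, AA x.2) := rfl
theorem GG_apply (x : EE) : GG x = (x.1, BB x.2) := rfl

theorem FG (x : EE) : FF (GG x) = x := by
  rw [GG_apply, FF_apply]
  exact Prod.ext rfl (AA_BB _)

theorem GF (x : EE) : GG (FF x) = x := by
  rw [FF_apply, GG_apply]
  exact Prod.ext rfl (BB_AA _)

theorem AA_sub (u v : V3) : AA (u - v) = AA u - AA v := map_sub AL u v
theorem BB_sub (u v : V3) : BB (u - v) = BB u - BB v := map_sub BL u v

theorem al_FF (x : EE) : al (FF x) = AA (al x) := Rk_AA _ _ _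
theorem al_GG (x : EE) : al (GG x) = BB (al x) := by
  rw [← BB_AA (al (GG x)), ← al_FF, FG]

theorem FF_mem {x : EE} (hx : x ∈ UU) : FF x ∈ UU := hx

theorem nor_F : SS.Nor FF := by
  rintro x y ⟨h1, h2, h3, h4⟩
  refine ⟨h1, h2, h3, ?_⟩
  rw [al_FF, al_FF, ← AA_sub]
  exact AA_mem h4

theorem nor_G : SS.Nor GG := by
  rintro x y ⟨h1, h2, h3, h4⟩
  refine ⟨h1, h2, h3, ?_⟩
  rw [al_GG, al_GG, ← BB_sub]
  exact BB_mem h4

theorem Sd_AA (z : ℂ) (k : V3) : Sd z (AA k) = AA (Sd z k) := by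
  apply ext3
  · simp [Sd, AA]
  · simp [Sd, AA]; ring
  · simp [Sd, AA]; ring

theorem Dal_FF {x : EE} (hx : x ∈ UU) (w : EE) : Dal (FF x) (FF w) = AA (Dal x w) := by
  rw [Dal_eq (FF_mem hx), Dal_eq hx, al_FF]
  simp only [FF_apply]
  rw [Sd_AA, ← Rk_AA, AA_sub]
  congr 2
  exact (map_smul AL _ _).symm

theorem NN_FF {x : EE} (hx : x ∈ UU) (w : EE) :
    NN (FF x) (FF w) = ‖w.1‖ / nz x.1 + ‖AA (Dal x w)‖ := by
  unfold NN
  rw [Dal_FF hx]
  rfl

theorem mF_Cen {x : EE} (hx : x ∈ UU) (w : EE) : FF w ∈ Cen (FF x) ↔ w ∈ Cen x := by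
  rw [mem_Cen_iff (FF_mem hx), mem_Cen_iff hx, Dal_FF hx]
  constructor
  · intro h
    rw [← BB_AA (Dal x w), h]
    exact map_zero BL
  · intro h
    rw [h]
    exact map_zero AL

theorem mF_Vs {x : EE} (w : EE) : FF w ∈ Vs (FF x) ↔ w ∈ Vs x := by
  rw [mem_Vs, mem_Vs, FF_apply]
  simp only [AA]
  rw [mul_eq_zero, or_iff_right (rt_ne 0)]

theorem mF_Vu {x : EE} (w : EE) : FF w ∈ Vu (FF x) ↔ w ∈ Vu x := by
  rw [mem_Vu, mem_Vu, FF_apply]
  simp only [AA]
  rw [mul_eq_zero, or_iff_right (rt_ne 1), mul_eq_zero, or_iff_right (rt_ne 2)]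

theorem norm_AA_s {k : V3} (h : k 0 = 0) : ‖AA k‖ ≤ ‖lam‖ * ‖k‖ := by
  rw [pi_norm_le_iff_of_nonneg (by positivity)]
  intro i
  have hi := norm_le_pi_norm k i
  fin_cases i
  · simp only [Fin.zero_eta, AA, h, mul_zero, norm_zero]
    positivity
  · simp only [Fin.mk_one, AA, rt_1, norm_mul]
    gcongr
    exact hi
  · simp only [Fin.reduceFinMk, AA, rt_2, norm_mul, RCLike.norm_conj]
    gcongr
    exact hi

theorem norm_AA_u {k : V3} (h1 : k 1 = 0) (h2 : k 2 = 0) : rho * ‖k‖ ≤ ‖AA k‖ := by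
  have hr : (0 : ℝ) < rho := by linarith [rho_gt]
  have h3 : ‖k‖ ≤ ‖k 0‖ := by
    rw [pi_norm_le_iff_of_nonneg (norm_nonneg _)]
    intro i
    fin_cases i
    · exact le_rfl
    · simp [h1]
    · simp [h2]
  have h4 := norm_le_pi_norm (AA k) 0
  simp only [AA, rt_0, norm_mul, Complex.norm_real, Real.norm_eq_abs, abs_of_pos hr] at h4
  calc rho * ‖k‖ ≤ rho * ‖k 0‖ := by gcongr
    _ ≤ _ := h4

theorem NN_s {x : EE} (hx : x ∈ UU) {w : EE} (hw : w ∈ Vs x) :
    NN (FF x) (FF w) ≤ ‖lam‖ * NN x w := by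
  obtain ⟨h1, h2⟩ := (mem_Vs_iff hx w).1 hw
  rw [NN_FF hx, NN, h1, norm_zero, zero_div, zero_add, zero_add]
  exact norm_AA_s h2

theorem NN_u {x : EE} (hx : x ∈ UU) {w : EE} (hw : w ∈ Vu x) :
    rho * NN x w ≤ NN (FF x) (FF w) := by
  obtain ⟨h1, h2, h3⟩ := (mem_Vu_iff hx w).1 hw
  rw [NN_FF hx, NN, h1, norm_zero, zero_div, zero_add, zero_add]
  exact norm_AA_u h2 h3

theorem NN_c {x : EE} (hx : x ∈ UU) {w : EE} (hw : w ∈ Cen x) :
    NN (FF x) (FF w) = NN x w := by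
  have h := (mem_Cen_iff hx w).1 hw
  rw [NN_FF hx, NN, h]
  have : AA (0 : V3) = 0 := map_zero AL
  rw [this]

/-! ### Compactness -/

theorem pt_cont : ContinuousOn (fun p : ℂ × V3 => pt p.1 p.2) ({z | z.re ≠ 0} ×ˢ univ) := by
  rintro ⟨z, k⟩ ⟨hz, -⟩
  apply ContinuousAt.continuousWithinAt
  have h1 : ContinuousAt (fun p : ℂ × V3 => hX p.1) (z, k) :=
    ContinuousAt.comp (f := fun p : ℂ × V3 => p.1) (g := hX) (x := (z, k))
      (hX_ana hz).continuousAt continuousAt_fst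
  have h2 : ContinuousAt (fun p : ℂ × V3 => hY p.1) (z, k) :=
    ContinuousAt.comp (f := fun p : ℂ × V3 => p.1) (g := hY) (x := (z, k))
      (hY_ana hz).continuousAt continuousAt_fst
  have h3 : ∀ i : Fin 3, ContinuousAt (fun p : ℂ × V3 => p.2 i) (z, k) := fun i => by fun_prop
  have h4 : ∀ i : Fin 3, ContinuousAt (fun p : ℂ × V3 => conj (p.2 i)) (z, k) := fun i => by fun_prop
  refine continuousAt_fst.prodMk ?_
  rw [continuousAt_pi]
  intro i
  fin_cases i
  · exact h3 0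
  · exact ((h3 1).mul h1).add ((h4 2).mul h2)
  · exact ((h3 2).mul h1).sub ((h4 1).mul h2)

theorem exists_KK : ∃ K : Set EE, IsCompact K ∧ K ⊆ UU ∧ ∀ x ∈ UU, ∃ y ∈ K, Rel x y := by
  obtain ⟨R, hR⟩ := Lam_cov
  have hsub : (Metric.closedBall (-2 : ℂ) 1 ∪ Metric.closedBall (2 : ℂ) 1) ×ˢ
      Metric.closedBall (0 : V3) R ⊆ {z : ℂ | z.re ≠ 0} ×ˢ univ := by
    rintro ⟨z, k⟩ ⟨hz, -⟩
    refine ⟨?_, mem_univ _⟩
    rcases hz with hz | hz
    · rw [mem_closedBall_iff_norm] at hz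
      have := (abs_le.1 ((Complex.abs_re_le_norm _).trans hz)).2
      simp only [Complex.sub_re, Complex.neg_re, Complex.re_ofNat] at this
      have : z.re < 0 := by linarith
      exact this.ne
    · rw [mem_closedBall_iff_norm] at hz
      have := (abs_le.1 ((Complex.abs_re_le_norm _).trans hz)).1
      simp only [Complex.sub_re, Complex.re_ofNat] at this
      have : 0 < z.re := by linarith
      exact this.ne'
  refine ⟨(fun p : ℂ × V3 => pt p.1 p.2) ''
    ((Metric.closedBall (-2 : ℂ) 1 ∪ Metric.closedBall (2 : ℂ) 1) ×ˢ Metric.closedBall (0 : V3) R),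
    ?_, ?_, ?_⟩
  · exact (((isCompact_closedBall _ _).union (isCompact_closedBall _ _)).prod
      (isCompact_closedBall _ _)).image_of_continuousOn (pt_cont.mono hsub)
  · rintro _ ⟨p, hp, rfl⟩
    exact (hsub hp).1
  · intro x hx
    obtain ⟨l, hl, hl2⟩ := hR (al x)
    have key : ∃ z ∈ Metric.closedBall (-2 : ℂ) 1 ∪ Metric.closedBall (2 : ℂ) 1, prp x.1 z := by
      rcases le_or_gt ‖hY x.1‖ ‖hX x.1‖ with h | h
      · have h0 : hX x.1 ≠ 0 := by
          intro h0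
          rw [h0, norm_zero, norm_le_zero_iff] at h
          rcases hXY_ne x.1 with h1 | h1
          · exact h1 h0
          · exact h1 h
        have h1 : ‖hY x.1 / hX x.1‖ ≤ 1 := by
          rw [norm_div]
          exact div_le_one_of_le₀ h (norm_nonneg _)
        have h2 : (hY x.1 / hX x.1 - 2).re < 0 := by
          have := (abs_le.1 ((Complex.abs_re_le_norm _).trans h1)).2
          simp only [Complex.sub_re, Complex.re_ofNat]
          linarith
        refine ⟨hY x.1 / hX x.1 - 2, Or.inl ?_, ?_⟩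
        · rw [mem_closedBall_iff_norm]
          simpa using h1
        · unfold prp
          rw [hX_of_lt h2, hY_of_lt h2]
          field_simp
          ring
      · have h0 : hY x.1 ≠ 0 := by
          intro h0
          rw [h0, norm_zero] at h
          exact absurd (norm_nonneg (hX x.1)) (not_le.2 h)
        have h1 : ‖hX x.1 / hY x.1‖ ≤ 1 := by
          rw [norm_div]
          exact div_le_one_of_le₀ h.le (norm_nonneg _)
        have h2 : 0 < (hX x.1 / hY x.1 + 2).re := by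
          have := (abs_le.1 ((Complex.abs_re_le_norm _).trans h1)).1
          simp only [Complex.add_re, Complex.re_ofNat]
          linarith
        refine ⟨hX x.1 / hY x.1 + 2, Or.inr ?_, ?_⟩
        · rw [mem_closedBall_iff_norm]
          simpa using h1
        · unfold prp
          rw [hX_of_gt h2, hY_of_gt h2]
          field_simp
          ring
    obtain ⟨z, hz, hp⟩ := key
    have hm : (z, al x + l) ∈ (Metric.closedBall (-2 : ℂ) 1 ∪ Metric.closedBall (2 : ℂ) 1) ×ˢ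
        Metric.closedBall (0 : V3) R := ⟨hz, by simpa using hl2⟩
    refine ⟨pt z (al x + l), ⟨_, hm, rfl⟩, hx, (hsub hm).1, hp, ?_⟩
    rw [al_pt, add_sub_cancel_left]
    exact hl

/-- a compact set that meets all classes. -/
noncomputable def KK : Set EE := exists_KK.choose
theorem isCompact_KK : IsCompact KK := exists_KK.choose_spec.1
theorem KK_sub : KK ⊆ UU := exists_KK.choose_spec.2.1
theorem KK_cover : ∀ x ∈ UU, ∃ y ∈ KK, Rel x y := exists_KK.choose_spec.2.2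

theorem NN_cont : ContinuousOn (fun p : EE × EE => NN p.1 p.2) (UU ×ˢ univ) := by
  rintro ⟨x, w⟩ ⟨hx, -⟩
  apply ContinuousAt.continuousWithinAt
  have h1 : ContinuousAt (fun p : EE × EE => Dal p.1 p.2) (x, w) := by
    have h2 : ContinuousAt Dal x := ((al_ana hx).fderiv_right (m := 0) (by simp)).continuousAt
    exact (h2.comp (f := Prod.fst) (x := (x, w)) continuousAt_fst).clm_apply continuousAt_snd
  have hx' : x.1.re ≠ 0 := hx
  have h2 : ContinuousAt nz x.1 := by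
    have e : nz = fun z => Complex.normSq (hX z) + Complex.normSq (hY z) := rfl
    rw [e]
    exact (Complex.continuous_normSq.continuousAt.comp (hX_ana hx').continuousAt).add
      (Complex.continuous_normSq.continuousAt.comp (hY_ana hx').continuousAt)
  have h3 : ContinuousAt (fun p : EE × EE => nz p.1.1) (x, w) :=
    ContinuousAt.comp (f := fun p : EE × EE => p.1.1) (g := nz) (x := (x, w)) h2 (by fun_prop)
  have h4 : ContinuousAt (fun p : EE × EE => ‖p.2.1‖) (x, w) := by fun_prop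
  exact (h4.div h3 (nz_pos _).ne').add h1.norm

theorem NN_nonneg (x w : EE) : 0 ≤ NN x w := by
  have := nz_pos x.1
  unfold NN
  positivity

theorem NN_pos {x : EE} (hx : x ∈ UU) {w : EE} (hw : w ≠ 0) : 0 < NN x w := by
  rcases (NN_nonneg x w).lt_or_eq with h | h
  · exact h
  · exfalso
    have hn := nz_pos x.1
    have h1 : 0 ≤ ‖w.1‖ / nz x.1 := by positivity
    have h2 := norm_nonneg (Dal x w)
    unfold NN at h
    have h3 : ‖w.1‖ / nz x.1 = 0 := by linarith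
    have h4 : ‖Dal x w‖ = 0 := by linarith
    rw [div_eq_zero_iff] at h3
    exact hw (Dal_inj hx (norm_eq_zero.1 (h3.resolve_right hn.ne')) (norm_eq_zero.1 h4))

theorem NN_smul (x : EE) (r : ℝ) (w : EE) : NN x (r • w) = |r| * NN x w := by
  unfold NN
  rw [map_smul, Prod.smul_fst, norm_smul, norm_smul, Real.norm_eq_abs]
  ring

theorem compare_NN : ∃ c₁ > 0, ∃ C₁ > 0, ∀ b ∈ KK, ∀ w, c₁ * ‖w‖ ≤ NN b w ∧ NN b w ≤ C₁ * ‖w‖ := by
  have hc : IsCompact (KK ×ˢ Metric.sphere (0 : EE) 1) := isCompact_KK.prod (isCompact_sphere 0 1)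
  have hcont : ContinuousOn (fun p : EE × EE => NN p.1 p.2) (KK ×ˢ Metric.sphere (0 : EE) 1) :=
    NN_cont.mono fun z hz => ⟨KK_sub hz.1, mem_univ _⟩
  have hpos : ∀ z ∈ KK ×ˢ Metric.sphere (0 : EE) 1, 0 < NN z.1 z.2 := by
    rintro ⟨x, w⟩ ⟨hx, hw⟩
    apply NN_pos (KK_sub hx)
    rintro rfl
    simp at hw
  obtain ⟨c, hc0, hc1⟩ := hc.exists_forall_le' hcont hpos
  obtain ⟨C, hC⟩ := hc.exists_bound_of_continuousOn hcont
  refine ⟨c, hc0, |C| + 1, by positivity, fun x hx w => ?_⟩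
  rcases eq_or_ne w 0 with rfl | hw
  · have : NN x 0 = 0 := by simp [NN]
    simp [this]
  · have hn : 0 < ‖w‖ := norm_pos_iff.2 hw
    set u : EE := ‖w‖⁻¹ • w with hu
    have hun : ‖u‖ = 1 := by
      rw [hu, norm_smul, norm_inv, norm_norm]
      exact inv_mul_cancel₀ hn.ne'
    have hwu : w = ‖w‖ • u := by
      rw [hu, smul_smul, mul_inv_cancel₀ hn.ne', one_smul]
    have hmem : (x, u) ∈ KK ×ˢ Metric.sphere (0 : EE) 1 := ⟨hx, by simpa using hun⟩
    have h1 := hc1 _ hmem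
    have h2 := hC _ hmem
    simp only at h1 h2
    have h3 : NN x w = ‖w‖ * NN x u := by
      conv_lhs => rw [hwu]
      rw [NN_smul, abs_of_pos hn]
    rw [h3]
    have h4 : NN x u ≤ |C| + 1 := by
      have := le_abs_self (NN x u)
      rw [Real.norm_eq_abs] at h2
      have := le_abs_self C
      linarith
    constructor
    · rw [mul_comm]
      exact mul_le_mul_of_nonneg_left h1 hn.le
    · rw [mul_comm]
      exact mul_le_mul_of_nonneg_right h4 hn.le

theorem dominated (g : SS.Met) :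
    ∃ n : ℕ, 1 ≤ n ∧ ∀ (q : SS.Pt) (vs vc vu : EE), vs ∈ Vs (chartAt EE q q) →
      vc ∈ Cen (chartAt EE q q) → vu ∈ Vu (chartAt EE q q) → Et.len g q vs = 1 →
      Et.len g q vc = 1 → Et.len g q vu = 1 →
      Et.len g ((Et.map FF nor_F)^[n] q)
        ((mfderiv 𝓘(ℝ, EE) 𝓘(ℝ, EE) (Et.map FF nor_F)^[n] q : EE →L[ℝ] EE) vs) <
        min 1 (Et.len g ((Et.map FF nor_F)^[n] q)
          ((mfderiv 𝓘(ℝ, EE) 𝓘(ℝ, EE) (Et.map FF nor_F)^[n] q : EE →L[ℝ] EE) vc)) ∧
      max 1 (Et.len g ((Et.map FF nor_F)^[n] q)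
          ((mfderiv 𝓘(ℝ, EE) 𝓘(ℝ, EE) (Et.map FF nor_F)^[n] q : EE →L[ℝ] EE) vc)) <
        Et.len g ((Et.map FF nor_F)^[n] q)
          ((mfderiv 𝓘(ℝ, EE) 𝓘(ℝ, EE) (Et.map FF nor_F)^[n] q : EE →L[ℝ] EE) vu) := by
  obtain ⟨c₁, hc₁, C₁, hC₁, hcomp⟩ := compare_NN
  have hl0 : 0 < ‖lam‖ := norm_pos_iff.2 (rt_ne 1)
  exact Et.domination g isCompact_KK KK_sub KK_cover inv_NN hc₁ hC₁ hcomp FF nor_F
    (As := Vs) (Ac := Cen) (Au := Vu)
    (fun b _ w => mF_Vs w)
    (fun b hb w => mF_Cen hb w)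
    (fun b _ w => mF_Vu w)
    (η := ‖lam‖) (κ := 1) (l := rho) hl0 norm_lam_lt one_pos (by simpa using norm_lam_lt)
    (by linarith [rho_gt]) (by linarith [rho_gt])
    (fun b hb w hw => NN_s hb hw) (fun b hb w hw => by rw [one_mul]; exact (NN_c hb hw).le)
    (fun b hb w hw => by rw [inv_one, one_mul]; exact (NN_c hb hw).ge)
    (fun b hb w hw => NN_u hb hw)

theorem compactSpace_SS : CompactSpace SS.Pt := by
  refine ⟨?_⟩
  have h1 : (univ : Set SS.Pt) = SS.p '' KK := by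
    symm
    rw [eq_univ_iff_forall]
    intro q
    obtain ⟨x, hx, rfl⟩ := SS.exists_rep q
    obtain ⟨y, hy, hr⟩ := KK_cover x hx
    exact ⟨y, hy, (SS.p_eq_of_rel hr).symm⟩
  rw [h1]
  exact isCompact_KK.image_of_continuousOn (SS.continuousOn_p.mono KK_sub)

/-! ### Connectedness -/

/-- the two halves. -/
theorem conn_lt (k : V3) : IsConnected ((fun z => SS.p (pt z k)) '' {z : ℂ | z.re < 0}) := by
  refine IsConnected.image ?_ _ ?_
  · exact ⟨⟨-1, by simp⟩, (convex_halfSpace_re_lt 0).isPreconnected⟩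
  · refine SS.continuousOn_p.comp ?_ fun z hz => ?_
    · exact pt_cont.comp (continuousOn_id.prodMk continuousOn_const) fun z hz =>
        ⟨(show z.re < 0 from hz).ne, mem_univ _⟩
    · exact (show z.re < 0 from hz).ne

theorem conn_gt (k : V3) : IsConnected ((fun z => SS.p (pt z k)) '' {z : ℂ | 0 < z.re}) := by
  refine IsConnected.image ?_ _ ?_
  · exact ⟨⟨1, by simp⟩, (convex_halfSpace_re_gt 0).isPreconnected⟩
  · refine SS.continuousOn_p.comp ?_ fun z hz => ?_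
    · exact pt_cont.comp (continuousOn_id.prodMk continuousOn_const) fun z hz =>
        ⟨(show 0 < z.re from hz).ne', mem_univ _⟩
    · exact (show 0 < z.re from hz).ne'

theorem leaf_rel (k : V3) : SS.p (pt (-1) k) = SS.p (pt 3 k) := by
  apply SS.p_eq_of_rel
  have h1 : (-1 : ℂ).re < 0 := by simp
  have h2 : 0 < (3 : ℂ).re := by simp
  refine ⟨h1.ne, h2.ne', ?_, ?_⟩
  · change prp (-1) 3
    unfold prp
    rw [hX_of_lt h1, hY_of_lt h1, hX_of_gt h2, hY_of_gt h2]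
    norm_num
  · rw [al_pt, al_pt, sub_self]
    exact Lam.zero_mem

/-- the leaf with parameter `k`. -/
def leaf (k : V3) : Set SS.Pt := (fun z => SS.p (pt z k)) '' {z : ℂ | z.re ≠ 0}

theorem isConnected_leaf (k : V3) : IsConnected (leaf k) := by
  have h1 : leaf k = (fun z => SS.p (pt z k)) '' {z : ℂ | z.re < 0} ∪
      (fun z => SS.p (pt z k)) '' {z : ℂ | 0 < z.re} := by
    rw [← image_union]
    unfold leaf
    congr 1
    ext z
    simp only [mem_ofPred_eq, mem_union]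
    exact ne_iff_lt_or_gt
  rw [h1]
  refine IsConnected.union ⟨SS.p (pt (-1) k), ⟨-1, by simp, rfl⟩, ⟨3, by simp, (leaf_rel k).symm⟩⟩
    (conn_lt k) (conn_gt k)

theorem connectedSpace_SS : ConnectedSpace SS.Pt := by
  -- the leaves meet a connected set
  have h0 : IsConnected (range fun k : V3 => SS.p (pt (-1) k)) := by
    rw [← image_univ]
    refine isConnected_univ.image _ ?_
    refine SS.continuousOn_p.comp ?_ fun k _ => ?_
    · exact pt_cont.comp (continuousOn_const.prodMk continuousOn_id) fun z hz =>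
        ⟨by simp, mem_univ _⟩
    · simp [SS, UU, pt]
  have h1 : IsConnected (⋃ k : V3, ((range fun k : V3 => SS.p (pt (-1) k)) ∪ leaf k)) := by
    refine ⟨⟨SS.p (pt (-1) 0), mem_iUnion.2 ⟨0, Or.inl ⟨0, rfl⟩⟩⟩, ?_⟩
    apply isPreconnected_iUnion
    · exact ⟨SS.p (pt (-1) 0), mem_iInter.2 fun k => Or.inl ⟨0, rfl⟩⟩
    · intro k
      have hne : ((range fun k : V3 => SS.p (pt (-1) k)) ∩ leaf k).Nonempty :=
        ⟨SS.p (pt (-1) k), ⟨k, rfl⟩, ⟨-1, by simp, rfl⟩⟩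
      exact (IsConnected.union hne h0 (isConnected_leaf k)).isPreconnected
  have h3 : (⋃ k : V3, ((range fun k : V3 => SS.p (pt (-1) k)) ∪ leaf k)) = univ := by
    rw [eq_univ_iff_forall]
    intro q
    obtain ⟨x, hx, rfl⟩ := SS.exists_rep q
    refine mem_iUnion.2 ⟨al x, Or.inr ⟨x.1, hx, ?_⟩⟩
    simp only [pt_al]
  rw [h3] at h1
  exact connectedSpace_iff_univ.2 h1

end Pool.Agent.Q182.TW
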