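import Pool.Agent.Q182.TW3

/-!
# Continuity of the distributions, the fibration, and the center is not holomorphic
-/

set_option autoImplicit false

open scoped Topology ComplexConjugate Manifold ContDiff
open Set Filter

namespace Pool.Agent.Q182.TW

open Pool.Agent.Y331.PH

/-! ### Continuity -/

theorem Sd_cont {x : EE} (hx : x ∈ UU) (i : Fin 3) :
    ContinuousAt (fun y : EE => Sd y.1 (al y) i) x := by
  have hx' : x.1.re ≠ 0 := hx
  have h3 : ∀ i : Fin 3, ContinuousAt (fun y : EE => al y i) x := fun i =>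
    (continuous_apply i).continuousAt.comp (al_cont hx)
  have h4 : ∀ i : Fin 3, ContinuousAt (fun y : EE => conj (al y i)) x := fun i =>
    Complex.continuous_conj.continuousAt.comp (h3 i)
  have f1 : ContinuousAt (Prod.fst : EE → ℂ) x := continuousAt_fst
  have h1 : ContinuousAt (fun y : EE => dX y.1) x := by
    rcases lt_or_gt_of_ne hx' with h | h
    · refine (continuousAt_const (y := (0 : ℂ))).congr ?_
      filter_upwards [f1.eventually (ev_lt h)] with y hy using (dX_of_lt hy).symm
    · refine (continuousAt_const (y := (1 : ℂ))).congr ?_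
      filter_upwards [f1.eventually (ev_gt h)] with y hy using (dX_of_gt hy).symm
  have h2 : ContinuousAt (fun y : EE => dY y.1) x := by
    rcases lt_or_gt_of_ne hx' with h | h
    · refine (continuousAt_const (y := (1 : ℂ))).congr ?_
      filter_upwards [f1.eventually (ev_lt h)] with y hy using (dY_of_lt hy).symm
    · refine (continuousAt_const (y := (0 : ℂ))).congr ?_
      filter_upwards [f1.eventually (ev_gt h)] with y hy using (dY_of_gt hy).symm
  fin_cases i
  · exact continuousAt_const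
  · exact ((h3 1).mul h1).add ((h4 2).mul h2)
  · exact ((h3 2).mul h1).sub ((h4 1).mul h2)

theorem continuous_Cen : IsContinuousDistribution (SS.fld Cen) := by
  refine Et.continuous_fld (C := ℂ) inv_Cen
    (fun x => LinearMap.toSpanSingleton ℂ EE ((1 : ℂ), Sd x.1 (al x))) (fun c => ?_) (fun x _ => ?_)
    (fun x _ w => ?_)
  · intro x hx
    apply ContinuousAt.continuousWithinAt
    have h : ContinuousAt (fun x : EE => ((1 : ℂ), Sd x.1 (al x))) x :=
      continuousAt_const.prodMk (continuousAt_pi.2 fun i => Sd_cont hx i)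
    exact h.const_smul c
  · intro a b hab
    have := congrArg Prod.fst hab
    simpa using this
  · rw [mem_Cen]
    constructor
    · intro h
      refine ⟨w.1, ?_⟩
      rw [LinearMap.toSpanSingleton_apply]
      refine Prod.ext (by simp) ?_
      rw [Prod.smul_snd]
      exact h.symm
    · rintro ⟨c, rfl⟩
      simp [LinearMap.toSpanSingleton_apply]

/-- the parametrization of the stable distribution. -/
noncomputable def parS : (ℂ × ℂ) →ₗ[ℂ] EE where
  toFun c := (0, ![0, c.1, c.2])
  map_add' a b := by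
    refine Prod.ext (by simp) (ext3 ?_ ?_ ?_) <;> simp
  map_smul' c a := by
    refine Prod.ext (by simp) (ext3 ?_ ?_ ?_) <;> simp

/-- the parametrization of the unstable distribution. -/
noncomputable def parU : ℂ →ₗ[ℂ] EE where
  toFun c := (0, ![c, 0, 0])
  map_add' a b := by
    refine Prod.ext (by simp) (ext3 ?_ ?_ ?_) <;> simp
  map_smul' c a := by
    refine Prod.ext (by simp) (ext3 ?_ ?_ ?_) <;> simp

theorem continuous_Vs : IsContinuousDistribution (SS.fld Vs) := by
  refine Et.continuous_fld (C := ℂ × ℂ) inv_Vs (fun _ => parS) (fun c => continuousOn_const)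
    (fun x _ => ?_) (fun x _ w => ?_)
  · intro a b hab
    have h := congrArg Prod.snd hab
    exact Prod.ext (by simpa [parS] using congrFun h 1) (by simpa [parS] using congrFun h 2)
  · rw [mem_Vs]
    constructor
    · rintro ⟨h1, h2⟩
      exact ⟨(w.2 1, w.2 2), Prod.ext h1.symm (ext3 (by simpa [parS] using h2.symm) rfl rfl)⟩
    · rintro ⟨c, rfl⟩
      exact ⟨rfl, rfl⟩

theorem continuous_Vu : IsContinuousDistribution (SS.fld Vu) := by
  refine Et.continuous_fld (C := ℂ) inv_Vu (fun _ => parU) (fun c => continuousOn_const)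
    (fun x _ => ?_) (fun x _ w => ?_)
  · intro a b hab
    have h := congrArg Prod.snd hab
    simpa [parU] using congrFun h 0
  · rw [mem_Vu]
    constructor
    · rintro ⟨h1, h2, h3⟩
      exact ⟨w.2 0, Prod.ext h1.symm (ext3 rfl (by simpa [parU] using h2.symm)
        (by simpa [parU] using h3.symm))⟩
    · rintro ⟨c, rfl⟩
      exact ⟨rfl, rfl, rfl⟩

/-- the splitting. -/
theorem splitting (x v : EE) : ∃! w : EE × EE × EE,
    w.1 ∈ Vs x ∧ w.2.1 ∈ Cen x ∧ w.2.2 ∈ Vu x ∧ w.1 + w.2.1 + w.2.2 = v := by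
  have hS0 : Sd x.1 (al x) 0 = 0 := rfl
  refine ⟨((0, ![0, v.2 1 - v.1 * Sd x.1 (al x) 1, v.2 2 - v.1 * Sd x.1 (al x) 2]),
    (v.1, v.1 • Sd x.1 (al x)), (0, ![v.2 0, 0, 0])), ⟨⟨rfl, rfl⟩, rfl, ⟨rfl, rfl, rfl⟩, ?_⟩, ?_⟩
  · refine Prod.ext (by simp) (ext3 ?_ ?_ ?_)
    · change (0 : ℂ) + v.1 * Sd x.1 (al x) 0 + v.2 0 = v.2 0
      rw [hS0]
      ring
    · change (v.2 1 - v.1 * Sd x.1 (al x) 1) + v.1 * Sd x.1 (al x) 1 + 0 = v.2 1
      ring
    · change (v.2 2 - v.1 * Sd x.1 (al x) 2) + v.1 * Sd x.1 (al x) 2 + 0 = v.2 2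
      ring
  · rintro ⟨a, b, c⟩ ⟨⟨h1, h2⟩, h3, ⟨h4, h5, h6⟩, h7⟩
    simp only at h1 h2 h3 h4 h5 h6 h7
    rw [mem_Cen] at h3
    have e1 : b.1 = v.1 := by
      have := congrArg Prod.fst h7
      simpa [h1, h4] using this
    have e2 : b = (v.1, v.1 • Sd x.1 (al x)) := by
      refine Prod.ext e1 ?_
      rw [h3, e1]
    have f0 : c.2 0 = v.2 0 := by
      have := congrFun (congrArg Prod.snd h7) 0
      rw [e2] at this
      simpa [h2, hS0] using this
    have f1 : a.2 1 + v.1 * Sd x.1 (al x) 1 = v.2 1 := by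
      have := congrFun (congrArg Prod.snd h7) 1
      rw [e2] at this
      simpa [h5] using this
    have f2 : a.2 2 + v.1 * Sd x.1 (al x) 2 = v.2 2 := by
      have := congrFun (congrArg Prod.snd h7) 2
      rw [e2] at this
      simpa [h6] using this
    refine Prod.ext (Prod.ext h1 (ext3 h2 ?_ ?_)) (Prod.ext e2 (Prod.ext h4 (ext3 f0 h5 h6)))
    · simp only [Matrix.cons_val_one, Matrix.cons_val_zero]
      linear_combination f1
    · simp only [Matrix.cons_val]
      linear_combination f2

/-! ### The base of the fibration -/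

/-- the torus. -/
noncomputable def TB : Et V3 where
  U := univ
  isOpen := isOpen_univ
  pt := 0
  pt_mem := mem_univ _
  rel k l := l - k ∈ Lam
  refl x _ := by rw [sub_self]; exact Lam.zero_mem
  symm x y h := by rw [← neg_sub]; exact Lam.neg_mem h
  trans x y z h h' := by
    have := Lam.add_mem h h'
    rwa [show y - x + (z - y) = z - x by abel] at this
  mem x y h := mem_univ _
  deck x y h := by
    refine ⟨fun z => z + (y - x), by simp, contDiffAt_id.add contDiffAt_const,
      Eventually.of_forall fun z => ?_⟩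
    rw [add_sub_cancel_left]
    exact h
  inj x _ := by
    obtain ⟨r, hr, hsep⟩ := Lam_sep
    have f3 : Tendsto (fun p : V3 × V3 => p.2 - p.1) (𝓝 (x, x)) (𝓝 0) := by
      have : ContinuousAt (fun p : V3 × V3 => p.2 - p.1) (x, x) := by fun_prop
      have h := this.tendsto
      simpa using h
    have f4 := f3.norm
    rw [norm_zero] at f4
    filter_upwards [f4.eventually (gt_mem_nhds hr)] with p h1 h2
    exact (sub_eq_zero.1 (hsep _ h2 h1)).symm
  closed x _ y _ h := by
    by_contra hne
    have h2 : ContinuousAt (fun p : V3 × V3 => p.2 - p.1) (x, y) := by fun_prop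
    have h1 := h2.eventually (isClosed_Lam.isOpen_compl.mem_nhds hne)
    exact h (h1.mono fun p hp hp2 => hp hp2)

theorem TB_p_eq {k l : V3} : TB.p k = TB.p l ↔ l - k ∈ Lam := TB.p_eq_iff (mem_univ _) (mem_univ _)

theorem compactSpace_TB : CompactSpace TB.Pt := by
  obtain ⟨R, hR⟩ := Lam_cov
  refine ⟨?_⟩
  have h1 : (univ : Set TB.Pt) = TB.p '' Metric.closedBall 0 R := by
    symm
    rw [eq_univ_iff_forall]
    intro q
    obtain ⟨x, hx, rfl⟩ := TB.exists_rep q
    obtain ⟨l, hl, hl2⟩ := hR x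
    refine ⟨x + l, by simpa using hl2, ?_⟩
    rw [TB_p_eq]
    have : x - (x + l) = -l := by abel
    rw [this]
    exact Lam.neg_mem hl
  rw [h1]
  exact (isCompact_closedBall _ _).image_of_continuousOn (TB.continuousOn_p.mono (subset_univ _))

/-- the fibration. -/
noncomputable def proj (q : SS.Pt) : TB.Pt := TB.p (al (chartAt EE q q))

theorem proj_p {x : EE} (hx : x ∈ UU) : proj (SS.p x) = TB.p (al x) := by
  unfold proj
  rw [TB_p_eq]
  have h1 : SS.p (chartAt EE (SS.p x) (SS.p x)) = SS.p x := Et.p_chart_self _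
  have h2 := (SS.p_eq_iff (Et.chart_self_mem _) hx).1 h1
  exact h2.2.2.2

theorem proj_cont : Continuous proj := by
  rw [continuous_iff_continuousAt]
  intro q
  have h2 : ContinuousAt (fun q' => TB.p (al (chartAt EE q q'))) q := by
    refine ContinuousAt.comp (g := fun y => TB.p (al y)) ?_ ((chartAt EE q).continuousAt
      (mem_chart_source EE q))
    exact (TB.continuousAt_p (mem_univ _)).comp (al_cont (Et.chart_self_mem q))
  refine h2.congr ?_
  filter_upwards [(chartAt EE q).open_source.mem_nhds (mem_chart_source EE q)] with q' hq'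
  rw [← proj_p (Et.chart_mem (chart_mem_atlas EE q) hq'), Et.p_chart (chart_mem_atlas EE q) hq']

/-- the projection in the charts. -/
theorem proj_local (q : SS.Pt) : ∀ᶠ z in 𝓝 (chartAt EE q q),
    chartAt V3 (proj q) (proj ((chartAt EE q).symm z)) =
      chartAt V3 (TB.p (al (chartAt EE q q))) (TB.p (al z)) := by
  filter_upwards [(chartAt EE q).open_target.mem_nhds ((chartAt EE q).map_source
    (mem_chart_source EE q))] with z hz
  rw [Et.atlas_symm (chart_mem_atlas EE q) hz, proj_p (Et.atlas_target (chart_mem_atlas EE q) hz)]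
  rfl

theorem germ_proj (q : SS.Pt) :
    TB.Germ (fun z => chartAt V3 (TB.p (al (chartAt EE q q))) (TB.p z)) (al (chartAt EE q q)) :=
  Et.germ_T (mem_univ _)

theorem contMDiff_proj : ContMDiff 𝓘(ℝ, EE) 𝓘(ℝ, V3) ω proj := by
  intro q
  rw [contMDiffAt_iff]
  refine ⟨proj_cont.continuousAt, ?_⟩
  apply ContDiffAt.contDiffWithinAt
  have h3 := ((germ_proj q).contDiffAt.restrict_scalars ℝ).comp (chartAt EE q q)
    (al_ana (Et.chart_self_mem q))
  refine ContDiffAt.congr_of_eventuallyEq
    (f := fun z => chartAt V3 (TB.p (al (chartAt EE q q))) (TB.p (al z))) ?_ ?_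
  · simpa [Function.comp_def] using h3
  · filter_upwards [proj_local q] with z hz
    simpa using hz

theorem hasMFDerivAt_proj (q : SS.Pt) : HasMFDerivAt 𝓘(ℝ, EE) 𝓘(ℝ, V3) proj q
    (((TB.T (al (chartAt EE q q))).restrictScalars ℝ).comp (Dal (chartAt EE q q))) := by
  refine ⟨proj_cont.continuousAt, ?_⟩
  apply HasFDerivAt.hasFDerivWithinAt
  have h1 := ((germ_proj q).hasFDerivAt.restrictScalars ℝ).comp (chartAt EE q q)
    (Dal_has (Et.chart_self_mem q))
  refine h1.congr_of_eventuallyEq ?_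
  filter_upwards [proj_local q] with z hz
  simpa using hz

theorem mfderiv_proj (q : SS.Pt) (w : EE) :
    (mfderiv 𝓘(ℝ, EE) 𝓘(ℝ, V3) proj q : EE →L[ℝ] V3) w =
      TB.T (al (chartAt EE q q)) (Dal (chartAt EE q q) w) := by
  rw [(hasMFDerivAt_proj q).mfderiv]
  rfl

theorem mfderiv_proj_surj (q : SS.Pt) :
    Function.Surjective (mfderiv 𝓘(ℝ, EE) 𝓘(ℝ, V3) proj q : EE →L[ℝ] V3) := by
  intro u
  have hx : chartAt EE q q ∈ UU := Et.chart_self_mem q
  obtain ⟨k, hk⟩ := (Et.T_bijective (S := TB) (mem_univ (al (chartAt EE q q)))).2 u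
  refine ⟨(0, Sk (hX (chartAt EE q q).1) (hY (chartAt EE q q).1) k), ?_⟩
  rw [mfderiv_proj, vert_Dal hx rfl, Rk_Sk (nz_ne _)]
  exact hk

theorem mfderiv_proj_ker (q : SS.Pt) (w : EE) :
    (mfderiv 𝓘(ℝ, EE) 𝓘(ℝ, V3) proj q : EE →L[ℝ] V3) w = 0 ↔ w ∈ Cen (chartAt EE q q) := by
  have hx : chartAt EE q q ∈ UU := Et.chart_self_mem q
  rw [mfderiv_proj, mem_Cen_iff hx]
  constructor
  · intro h
    exact (Et.T_bijective (S := TB) (mem_univ (al (chartAt EE q q)))).1 (h.trans (map_zero _).symm)
  · intro h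
    exact (congrArg _ h).trans (map_zero _)

theorem proj_surj : Function.Surjective proj := by
  intro b
  obtain ⟨k, -, rfl⟩ := TB.exists_rep b
  refine ⟨SS.p (pt (-1) k), ?_⟩
  have h : pt (-1) k ∈ UU := by simp [UU, pt]
  rw [proj_p h, al_pt]

theorem proj_fibre (k : V3) : proj ⁻¹' {TB.p k} = leaf k := by
  ext q
  obtain ⟨x, hx, rfl⟩ := SS.exists_rep q
  constructor
  · intro h
    have h1 : proj (SS.p x) = TB.p k := h
    rw [proj_p hx, TB_p_eq] at h1
    refine ⟨x.1, hx, ?_⟩
    refine (SS.p_eq_of_rel (x := x) (y := pt x.1 k) ⟨hx, hx, prp_refl _, ?_⟩).symm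
    rw [al_pt]
    exact h1
  · rintro ⟨z, hz, hzx⟩
    have h1 : proj (SS.p (pt z k)) = TB.p k := by
      rw [proj_p (show pt z k ∈ UU from hz), al_pt]
    change proj (SS.p x) = TB.p k
    rw [← h1]
    exact congrArg proj hzx.symm

theorem proj_conn (b : TB.Pt) : IsConnected (proj ⁻¹' {b}) := by
  obtain ⟨k, -, rfl⟩ := TB.exists_rep b
  rw [proj_fibre]
  exact isConnected_leaf k

/-! ### The center is not holomorphic -/

theorem not_diff {x : EE} (hx : x ∈ UU) :
    ¬ DifferentiableAt ℂ (fun y : EE => Sd y.1 (al y) 1) x := by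
  intro h
  set L := fderiv ℂ (fun y : EE => Sd y.1 (al y) 1) x with hL
  have hx' : x.1.re ≠ 0 := hx
  have hw := wron hx'
  set W := hX x.1 * dY x.1 - hY x.1 * dX x.1 with hW
  have hW0 : W ≠ 0 := by
    intro h0
    rw [h0, norm_zero] at hw
    exact zero_ne_one hw
  have hn : (nq (hX x.1) (hY x.1) : ℂ) ≠ 0 := by exact_mod_cast nz_ne x.1
  have hline : ∀ a : ℂ, L (0, ![0, 0, a]) = conj a * W / (nq (hX x.1) (hY x.1) : ℂ) := by
    intro a
    set w : EE := (0, ![0, 0, a]) with hwdef
    have h1 : HasDerivAt (fun t : ℝ => Sd (x + t • w).1 (al (x + t • w)) 1) (L w) 0 := by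
      have h2 : HasFDerivAt (fun y : EE => Sd y.1 (al y) 1) (L.restrictScalars ℝ)
          (x + (0 : ℝ) • w) := by
        have e : x + (0 : ℝ) • w = x := by simp
        rw [e]
        exact h.hasFDerivAt.restrictScalars ℝ
      exact h2.comp_hasDerivAt (0 : ℝ) (line_has x w)
    have h3 := hasDerivAt_pi.1 (Dal_line hx w)
    have h4 : HasDerivAt (fun t : ℝ => Sd (x + t • w).1 (al (x + t • w)) 1)
        (Dal x w 1 * dX x.1 + conj (Dal x w 2) * dY x.1) 0 := by
      have h5 := ((h3 1).mul_const (dX x.1)).add ((conj_has (h3 2)).mul_const (dY x.1))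
      refine h5.congr_of_eventuallyEq (Eventually.of_forall fun t => ?_)
      have e : (x + t • w).1 = x.1 := by simp [hwdef]
      simp only [e]
      rfl
    rw [h1.unique h4, vert_Dal hx (w := w) rfl, Rk_1, Rk_2]
    simp only [hwdef, Matrix.cons_val_one, Matrix.cons_val_zero, Matrix.cons_val, map_div₀,
      map_add, map_mul, Complex.conj_conj, Complex.conj_ofReal, map_zero, mul_zero, zero_sub,
      add_zero, zero_add]
    rw [hW]
    field_simp
    ring
  have a1 := hline 1
  have a2 := hline Complex.I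
  have a3 : L (0, ![0, 0, Complex.I]) = Complex.I • L (0, ![0, 0, 1]) := by
    rw [← map_smul]
    congr 1
    refine Prod.ext (by simp) (ext3 ?_ ?_ ?_) <;> simp
  rw [a1, a2] at a3
  simp only [Complex.conj_I, map_one, one_mul, smul_eq_mul] at a3
  field_simp at a3
  norm_num at a3

end Pool.Agent.Q182.TW
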