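import Pool.Agent.Q182.TW4

/-!
# The center distribution is nowhere holomorphic
-/

set_option autoImplicit false

open scoped Topology ComplexConjugate Manifold ContDiff
open Set Filter

namespace Pool.Agent.Q182.TW

open Pool.Agent.Y331.PH

/-- the coordinate changes of the holomorphic tangent bundle. -/
theorem ccc_eq {x y z : SS.Pt} (w : EE) : tangentCoordChange 𝓘(ℂ, EE) x y z w =
      fderiv ℂ (fun v => chartAt EE y ((chartAt EE x).symm v)) (chartAt EE x z) w := by
  rw [tangentCoordChange_def]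
  simp only [modelWithCornersSelf_coe, range_id, fderivWithin_univ]
  have h3 : (extChartAt 𝓘(ℂ, EE) y ∘ (extChartAt 𝓘(ℂ, EE) x).symm) =
      fun v => chartAt EE y ((chartAt EE x).symm v) := by
    funext v
    simp
  have h4 : extChartAt 𝓘(ℂ, EE) x z = chartAt EE x z := by simp
  rw [h3, h4]

theorem not_holomorphic {x₀ : SS.Pt} {O : Set SS.Pt} (hO : IsOpen O) (hxO : x₀ ∈ O) {k : ℕ}
    {V : Fin k → SS.Pt → EE}
    (hV : ∀ i, MDifferentiableOn 𝓘(ℂ, EE) 𝓘(ℂ, EE).tangent
      (fun x => (⟨x, V i x⟩ : TangentBundle 𝓘(ℂ, EE) SS.Pt)) O)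
    (hspan : ∀ x ∈ O, (Cen (chartAt EE x x)).restrictScalars ℝ =
      (Submodule.span ℂ (range fun i => V i x)).restrictScalars ℝ) : False := by
  set e := chartAt EE x₀ with he
  set y₀ : EE := e x₀ with hy₀
  have hy₀U : y₀ ∈ UU := Et.chart_self_mem x₀
  have hy₀t : y₀ ∈ e.target := e.map_source (mem_chart_source EE x₀)
  -- the vector fields in the chart `e`
  set h : Fin k → SS.Pt → EE := fun i q => tangentCoordChange 𝓘(ℂ, EE) q x₀ q (V i q) with hh
  have hdiff : ∀ i, DifferentiableAt ℂ (fun y => h i (e.symm y)) y₀ := by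
    intro i
    have h1 : MDifferentiableAt 𝓘(ℂ, EE) 𝓘(ℂ, EE).tangent
        (fun x => (⟨x, V i x⟩ : TangentBundle 𝓘(ℂ, EE) SS.Pt)) x₀ :=
      (hV i x₀ hxO).mdifferentiableAt (hO.mem_nhds hxO)
    have h2 := (mdifferentiableAt_totalSpace _ _).1 h1
    have h3 : MDifferentiableAt 𝓘(ℂ, EE) 𝓘(ℂ, EE) (h i) x₀ := h2.2
    have h4 : MDifferentiableAt 𝓘(ℂ, EE) 𝓘(ℂ, EE) e.symm y₀ :=
      (mdifferentiableAt_atlas_symm (chart_mem_atlas EE x₀) hy₀t)
    have h5 : e.symm y₀ = x₀ := e.left_inv (mem_chart_source EE x₀)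
    have h6 : MDifferentiableAt 𝓘(ℂ, EE) 𝓘(ℂ, EE) (h i) (e.symm y₀) := by rw [h5]; exact h3
    exact (mdifferentiableAt_iff_differentiableAt).1 (h6.comp y₀ h4)
  -- they lie in the center direction
  have hmemV : ∀ q ∈ O, ∀ i, V i q ∈ Cen (chartAt EE q q) := by
    intro q hq i
    rw [← Submodule.restrictScalars_mem ℝ, hspan q hq, Submodule.restrictScalars_mem]
    exact Submodule.subset_span ⟨i, rfl⟩
  have hmem : ∀ᶠ y in 𝓝 y₀, ∀ i, h i (e.symm y) ∈ Cen y := by
    have h1 : ∀ᶠ y in 𝓝 y₀, e.symm y ∈ O := by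
      apply (e.continuousAt_symm hy₀t).eventually_mem
      rw [e.left_inv (mem_chart_source EE x₀)]
      exact hO.mem_nhds hxO
    filter_upwards [h1, e.open_target.mem_nhds hy₀t] with y hyW hyt i
    have hys : e.symm y ∈ e.source := e.map_target hyt
    have g0 := Et.germ_change (chart_mem_atlas EE (e.symm y)) (chart_mem_atlas EE x₀)
      ((chartAt EE (e.symm y)).map_source (mem_chart_source EE (e.symm y)))
      (by rw [(chartAt EE (e.symm y)).left_inv (mem_chart_source EE (e.symm y))]; exact hys)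
    have g1 := inv_Cen _ _ g0 _ (hmemV _ hyW i)
    rw [(chartAt EE (e.symm y)).left_inv (mem_chart_source EE (e.symm y))] at g1
    rw [← he, e.right_inv hyt] at g1
    rw [hh]
    simp only
    rw [ccc_eq]
    exact g1
  -- one of them does not vanish at `x₀`
  obtain ⟨i, hi⟩ : ∃ i, h i x₀ ≠ 0 := by
    by_contra hcon
    push Not at hcon
    have g1 : ∀ i, V i x₀ = 0 := by
      intro i
      exact (tangentCoordChange_self (I := 𝓘(ℂ, EE)) (mem_extChartAt_source x₀)
        (v := V i x₀)).symm.trans (hcon i)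
    have g2 : (Submodule.span ℂ (range fun i => V i x₀)) = ⊥ := by
      rw [Submodule.span_eq_bot]
      rintro _ ⟨i, rfl⟩
      exact g1 i
    have g3 : ((1 : ℂ), Sd y₀.1 (al y₀)) ∈ Cen y₀ := by
      rw [mem_Cen]
      simp
    rw [← Submodule.restrictScalars_mem ℝ, hspan x₀ hxO, g2, Submodule.restrictScalars_mem,
      Submodule.mem_bot] at g3
    exact one_ne_zero (congrArg Prod.fst g3)
  set u : EE → EE := fun y => h i (e.symm y) with hu
  have hu0 : u y₀ ≠ 0 := by
    rw [hu]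
    simp only
    rw [e.left_inv (mem_chart_source EE x₀)]
    exact hi
  have hud : DifferentiableAt ℂ u y₀ := hdiff i
  have hform : ∀ᶠ y in 𝓝 y₀, (u y).2 = (u y).1 • Sd y.1 (al y) := by
    filter_upwards [hmem] with y hy
    exact hy i
  have hfst : (u y₀).1 ≠ 0 := by
    intro h0
    have h1 := hform.self_of_nhds
    rw [h0, zero_smul] at h1
    exact hu0 (Prod.ext h0 h1)
  have hu1 : DifferentiableAt ℂ (fun y => (u y).1) y₀ := hud.fst
  have hu2 : DifferentiableAt ℂ (fun y => (u y).2 1) y₀ := differentiableAt_pi.1 hud.snd 1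
  have hquot : DifferentiableAt ℂ (fun y => (u y).2 1 / (u y).1) y₀ := by
    simpa only [div_eq_mul_inv] using hu2.fun_mul (hu1.fun_inv hfst)
  apply not_diff hy₀U
  refine hquot.congr_of_eventuallyEq ?_
  filter_upwards [hform, hu1.continuousAt.eventually_ne hfst] with y hy hy1
  rw [hy, Pi.smul_apply, smul_eq_mul]
  field_simp

end Pool.Agent.Q182.TW
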